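import Pool.Agent.MP_a43263_nt.K2.Spec

/-! Row ADM: zero blocks forced by the dyadic boxes. -/

set_option autoImplicit false

noncomputable section

namespace Pool.Agent.MP_a43263_nt.K2

open Polynomial Finset Filter Matrix JC Pool.Agent.MP_a43263_nt.UV

namespace AdmA

variable {n : ℕ}

/-- zero on the rows up to `n - 1 - a` and the columns below `a` -/
def Zs (a : ℕ) (M : UC.Mz n) : Prop := ∀ j i : Fin n, a ≤ (Fin.rev j).1 → i.1 < a → M j i = 0

/-- keeps the span of the first `a` basis vectors -/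
def Ps (a : ℕ) (T : UC.Mz n) : Prop := ∀ i' i : Fin n, ¬ i'.1 < a → i.1 < a → T i' i = 0

theorem blk {A T : UC.Mz n} (hA : A.det ≠ 0) {a : ℕ} (h1 : Zs a A) (h2 : Zs a (A * T)) :
    Ps a T := by
  have hdet : (A.map (Int.castRingHom ℚ)).det ≠ 0 := by
    have h := RingHom.map_det (Int.castRingHom ℚ) A
    rw [RingHom.mapMatrix_apply] at h
    rw [← h]
    simpa using hA
  have hb := UC.IrrX.block (A.map (Int.castRingHom ℚ)) (T.map (Int.castRingHom ℚ)) hdet a
    (fun j i hj hi => by simp [h1 j i hj hi])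
    (fun j i hj hi => by
      rw [← Matrix.map_mul]
      simp only [Matrix.map_apply, h2 j i hj hi, map_zero])
  intro i' i h h'
  simpa using hb i' i h h'

theorem mul_zero_entry {a : ℕ} {B M : UC.Mz n} (hM : Ps a M) {j i : Fin n} (hi : i.1 < a)
    (hB : ∀ l : Fin n, l.1 < a → B j l = 0) : (B * M) j i = 0 := by
  rw [Matrix.mul_apply]
  refine Finset.sum_eq_zero fun l _ => ?_
  by_cases hl : l.1 < a
  · rw [hB l hl, zero_mul]
  · rw [hM l i hl hi, mul_zero]

theorem no_block {N : UC.Mz n} (hN : N.det ≠ 0) (p : Fin n)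
    (h : ∀ j i : Fin n, j ≤ p → i ≤ Fin.rev p → N j i = 0) : False := by
  have hp := p.2
  have hr : (Fin.rev p).1 = n - (p.1 + 1) := Fin.val_rev p
  by_cases h0 : (Fin.rev p).1 = 0
  · refine hN (Matrix.det_eq_zero_of_column_eq_zero (Fin.rev p) fun j => h j _ ?_ le_rfl)
    have := j.2
    exact Fin.le_def.2 (by omega)
  · have hle : ∀ j : Fin n, (Fin.rev p).1 ≤ (Fin.rev j).1 → j ≤ p := fun j hj => by
      have := j.2
      have h2 : (Fin.rev j).1 = n - (j.1 + 1) := Fin.val_rev j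
      exact Fin.le_def.2 (by omega)
    have hb : Ps (Fin.rev p).1 (Matrix.of fun i' _ : Fin n => if i' = Fin.rev p then 1 else 0) :=
      blk hN (fun j i hj hi => h j i (hle j hj) (Fin.le_def.2 hi.le)) fun j i hj _ => by
        simpa [Matrix.mul_apply] using h j _ (hle j hj) le_rfl
    have := hb (Fin.rev p) ⟨0, by omega⟩ (lt_irrefl _) (Nat.pos_of_ne_zero h0)
    simp at this

theorem zero2 {b : ℤ} {e e' : Fin n → ℤ} {N : UC.Mz n} (h : Box2 b e e' N) {p q : Fin n}
    (hn : b + e' p + e q < 0) : N p q = 0 := by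
  have h1 : |(N p q : ℝ)| < 1 := (h p q).trans_lt (zpow_lt_one_of_neg₀ one_lt_two hn)
  have h2 : |N p q| < 1 := by exact_mod_cast h1
  exact Int.abs_lt_one_iff.1 h2

theorem box_tr {b : ℤ} {e e' : Fin n → ℤ} {N : UC.Mz n} (h : Box2 b e e' N) :
    Box2 b e' e Nᵀ := fun p q => by
  have := h q p
  rwa [add_right_comm] at this

theorem half {b : ℤ} {e e' : Fin n → ℤ} {N : UC.Mz n} (hN : N.det ≠ 0) (hE : UC.Ex e)
    (hE' : UC.Ex e') (h : Box2 b e e' N) (p : Fin n) : e p - e' p ≤ b := by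
  by_contra hc
  refine no_block hN p fun j i hj hi => zero2 h ?_
  have h1 := hE'.1 hj
  have h2 := hE.1 hi
  rw [hE.2] at h2
  omega

theorem neg_le {e : Fin n → ℤ} (hE : UC.Ex e) {q j : Fin n} (hj : q.1 ≤ (Fin.rev j).1) :
    e j ≤ -e q := by
  have h2 : e q ≤ e (Fin.rev j) := hE.1 (show q ≤ Fin.rev j from hj)
  rw [hE.2] at h2
  omega

theorem inv_ps {A' N : UC.Mz n} (hA : IsUnit A'.det) {a : ℕ} (h1 : Zs a A') (h2 : Zs a N) :
    Ps a (A'⁻¹ * N) :=
  blk hA.ne_zero h1 (by rwa [← Matrix.mul_assoc, Matrix.mul_nonsing_inv _ hA, Matrix.one_mul])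

theorem deep {g κ k : ℕ} {A A' N T : Mat g ℤ} {e e' : Fin (2 * g + 1) → ℤ} (hA : IsUnit A'.det)
    (hN : N.det ≠ 0) (hT : A * T = A - Nᵀ * A'⁻¹ * N) (hE : UC.Ex e) (hE' : UC.Ex e')
    (b : UC.Box κ e A) (b' : UC.Box κ e' A') (b2 : Box2 k e e' N) (hD : Dp (k + κ) e) :
    Zb A T := by
  have hD' : ∀ i : Fin (2 * g + 1), i.1 < g → (k : ℤ) + κ + e i < 0 := fun i hi => by
    have := hD ⟨i.1, hi⟩
    push_cast at this
    exact this
  have hm : ∀ j : Fin (2 * g + 1), j.1 ≤ g → e' j ≤ 0 := fun j hj => by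
    have h1 : e' j ≤ e' (Fin.rev j) := hE'.1 (Fin.le_def.2 (by rw [Fin.val_rev]; omega))
    rw [hE'.2] at h1
    omega
  have hr : ∀ j : Fin (2 * g + 1), g ≤ (Fin.rev j).1 → j.1 ≤ g := fun j hj => by
    rw [Fin.val_rev] at hj
    have := j.2
    omega
  have c1 := half (by rwa [Matrix.det_transpose]) hE' hE (box_tr b2)
  have zN : ∀ j i : Fin (2 * g + 1), j.1 ≤ g → i.1 < g → N j i = 0 := fun j i hj hi =>
    zero2 b2 (by have := hD' i hi; have := hm j hj; omega)
  have hM : Ps g (A'⁻¹ * N) := inv_ps hA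
    (fun j i hj hi => UC.IrrX.zero_of_box b'
      (by have := hD' i hi; have := hm j (hr j hj); have := c1 i; omega))
    fun j i hj hi => zN j i (hr j hj) hi
  intro i j
  have hA0 : A (UC.lo i) (UC.lo j) = 0 := UC.IrrX.zero_of_box b
    (by have := hD' (UC.lo i) i.2; have := hD' (UC.lo j) j.2; omega)
  refine ⟨hA0, ?_⟩
  rw [hT, Matrix.sub_apply, hA0, Matrix.mul_assoc,
    mul_zero_entry hM (show (UC.lo j).1 < g from j.2) fun l hl => zN l _ hl.le i.2, sub_zero]

end AdmA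

open AdmA

theorem adm_k : CHGStmt → ADMStmt := by
  intro chg g κ k f m A A' N e e' _ t hI hm hE hE' b b' b2 hZ
  obtain ⟨t', -, hT⟩ := chg.2.2.1 _ f m A A' N t
  obtain ⟨-, -, hT'⟩ := chg.2.2.1 _ f m A' A Nᵀ t'
  have hN : N.det ≠ 0 := t.dt ▸ hm
  have hN' : Nᵀ.det ≠ 0 := by rwa [Matrix.det_transpose]
  have c1 := half hN hE hE' b2
  have c1' := half hN' hE' hE (box_tr b2)
  refine ⟨⟨hE, hE', fun p => ?_, fun p q hq => ?_,
    fun hD => hZ (deep t.det hN' hT' hE' hE b' b (box_tr b2) hD)⟩,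
    deep t.det' hN hT hE hE' b b' b2⟩
  · have := c1 p
    have := c1' p
    push_cast
    exact abs_le.2 ⟨by omega, by omega⟩
  · by_contra hc
    rw [not_or, not_le, not_le] at hc
    obtain ⟨h1, h2⟩ := hc
    push_cast at h1 h2
    have hp : ∀ i : Fin (2 * g + 1), i.1 < q.1 → i ≤ p := fun i hi => Fin.le_def.2 (by omega)
    have zA : Zs q.1 A := fun j i hj hi => UC.IrrX.zero_of_box b (by
      have := neg_le hE hj; have := hE.1 (hp i hi); have := c1 p; omega)
    have zA' : Zs q.1 A' := fun j i hj hi => UC.IrrX.zero_of_box b' (by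
      have := neg_le hE' hj; have := hE'.1 (hp i hi); have := c1' p; omega)
    have zN : Zs q.1 N := fun j i hj hi => zero2 b2 (by
      have := neg_le hE' hj; have := hE.1 (hp i hi); omega)
    have zN' : Zs q.1 Nᵀ := fun j i hj hi => zero2 (box_tr b2) (by
      have := neg_le hE hj; have := hE'.1 (hp i hi); omega)
    have hM := inv_ps t.det' zA' zN
    have hP : Ps q.1 (Tt A A' N) := blk t.det.ne_zero zA fun j i hj hi => by
      rw [hT, Matrix.sub_apply, zA j i hj hi, Matrix.mul_assoc,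
        mul_zero_entry hM hi fun l hl => zN' j l hj hl, sub_zero]
    refine UC.IrrX.not_irr ((Tt A A' N).map (Int.castRingHom ℚ)) (fun i => i.1 < q.1)
      (fun i' i h h' => by simp [hP i' i h h']) p q (by omega) (lt_irrefl _) ?_
    rw [Matrix.charpoly_map, t.ch]
    exact hI

end Pool.Agent.MP_a43263_nt.K2
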