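import Pool.Agent.MP_a43263_nt.K2.SpecC

/-! THEOREM R2: a prime value in almost every admissible class (Chebyshev). -/

set_option autoImplicit false

noncomputable section

namespace Pool.Agent.MP_a43263_nt.K2

open Finset Filter

namespace AllCA

/-- the variance -/
theorem var {ι : Type} (S : Finset ι) (n : ℕ) (c : ι → ℝ) (f : ℕ → ι → ℝ) (p E M : ℝ)
    (hp : 0 ≤ p) (hE : 0 ≤ E) (hM : 0 ≤ M) (hc : ∀ w, 0 ≤ c w) (hf : ∀ j w, 0 ≤ f j w)
    (h1 : ∀ j ∈ range n, |∑ w ∈ S, c w * f j w - p * ∑ w ∈ S, c w| ≤ p * E)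
    (h2 : ∀ j ∈ range n, ∀ w ∈ S, f j w ≤ M)
    (h3 : ∀ j ∈ range n, ∀ j' ∈ range n, j ≠ j' →
      ∑ w ∈ S, c w * (f j w * f j' w) ≤ p ^ 2 * (∑ w ∈ S, c w + E)) :
    ∑ w ∈ S, c w * (∑ j ∈ range n, f j w - n * p) ^ 2 ≤
      n * (M * (p * (∑ w ∈ S, c w + E))) + 3 * (n * p) ^ 2 * E := by
  set C := ∑ w ∈ S, c w with hC
  have hC0 : 0 ≤ C := sum_nonneg fun w _ => hc w
  have e1 : ∑ w ∈ S, c w * (∑ j ∈ range n, f j w - n * p) ^ 2 =
      ∑ j ∈ range n, ∑ j' ∈ range n, ∑ w ∈ S, c w * (f j w * f j' w) -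
        2 * (n * p) * ∑ j ∈ range n, ∑ w ∈ S, c w * f j w + (n * p) ^ 2 * C := by
    have e2 : ∑ j ∈ range n, ∑ j' ∈ range n, ∑ w ∈ S, c w * (f j w * f j' w) =
        ∑ w ∈ S, c w * (∑ j ∈ range n, f j w) ^ 2 := by
      rw [sum_congr rfl fun j _ => sum_comm, sum_comm]
      refine sum_congr rfl fun w _ => ?_
      rw [sq, sum_mul_sum, mul_sum]
      exact sum_congr rfl fun j _ => (mul_sum _ _ _).symm
    have e3 : ∑ j ∈ range n, ∑ w ∈ S, c w * f j w = ∑ w ∈ S, c w * ∑ j ∈ range n, f j w := by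
      simp only [mul_sum]
      exact sum_comm
    rw [e2, e3, hC, mul_sum, mul_sum, ← sum_sub_distrib, ← sum_add_distrib]
    exact sum_congr rfl fun w _ => by ring
  have b1 : ∀ j ∈ range n, ∑ j' ∈ range n, ∑ w ∈ S, c w * (f j w * f j' w) ≤
      M * (p * (C + E)) + n * (p ^ 2 * (C + E)) := by
    intro j hj
    rw [← add_sum_erase _ _ hj]
    refine add_le_add ?_ ?_
    · calc _ ≤ ∑ w ∈ S, M * (c w * f j w) := sum_le_sum fun w hw => by
            have := mul_le_mul_of_nonneg_left (h2 j hj w hw) (mul_nonneg (hc w) (hf j w))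
            linarith
        _ = M * ∑ w ∈ S, c w * f j w := (mul_sum _ _ _).symm
        _ ≤ _ := mul_le_mul_of_nonneg_left (by have := (abs_le.1 (h1 j hj)).2; linarith) hM
    · refine (sum_le_card_nsmul _ _ (p ^ 2 * (C + E)) fun j' hj' =>
        h3 j hj j' (mem_of_mem_erase hj') (ne_of_mem_erase hj').symm).trans ?_
      rw [nsmul_eq_mul]
      refine mul_le_mul_of_nonneg_right ?_ (by positivity)
      exact_mod_cast (card_erase_le).trans (card_range n).le
  have b2 := sum_le_card_nsmul _ _ _ b1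
  have b3 := card_nsmul_le_sum (range n) (fun j => ∑ w ∈ S, c w * f j w) (p * C - p * E)
    fun j hj => by have := (abs_le.1 (h1 j hj)).1; linarith
  rw [card_range, nsmul_eq_mul] at b2 b3
  have b4 := mul_le_mul_of_nonneg_left b3 (by positivity : 0 ≤ 2 * ((n : ℝ) * p))
  rw [e1]
  linarith

/-- a prime cofactor is a prime quotient -/
theorem prime_of {g d : ℕ} {w : Vec g} {u v : ℕ} (h : lam (co d w u v) ≠ 0)
    (hd : (d : ℤ) ∣ Gv w u v) : ∃ r : ℕ, r.Prime ∧ Gv w u v = (d : ℤ) * r := by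
  have h1 : (co d w u v).Prime := by
    by_contra k
    exact h (if_neg k)
  refine ⟨_, h1, ?_⟩
  have h2 := h1.pos
  rw [co] at h2 ⊢
  rw [Int.toNat_of_nonneg (by omega), Int.mul_ediv_cancel' hd]

end AllCA

theorem all_k : GEOStmt → PHIStmt → PARStmt → M12Stmt → ALLStmt := by
  intro geo phi par m12 g N d a hg hN h6 hd ε hε
  obtain ⟨g1, -, -, g4, -⟩ := geo g hg
  filter_upwards [par N a hN h6, m12 g N d a hg hN h6 hd (ε / 4) (by positivity), ev_le_log 1,
    ev_le_log (8 * ((4 * g + 3) * (3 ^ (2 * g + 1) + ε / 4)) / ε), eventually_ge_atTop 1]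
    with k ⟨⟨v, u₀, hP⟩, h1⟩ h2 h3 h4 h5
  obtain ⟨sv, h1⟩ := h1 v u₀ hP
  have h2 := h2 v u₀ hP
  have hp : 1 ≤ ph (v * N) := phi.1 _ (Nat.mul_pos hP.pos hN)
  have hn := le_nl h3
  have hV : 0 ≤ vol g k := by unfold vol; positivity
  have hC : cnt g k (fun w => Ad N d w a) ≤ 3 ^ (2 * g + 1) * vol g k :=
    cnt_le_card.trans (g1 k h5).2
  have k1 := AllCA.var (bx g k) (nl k) (fun w => ind (Ad N d w a))
    (fun j w => lam (co d w (pt N v u₀ j) v)) (ph (v * N)) (ε / 4 * vol g k)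
    ((4 * g + 3) * Real.log k) (by linarith) (by positivity) (by positivity)
    (fun _ => ind_nonneg _) (fun _ _ => lam_nonneg _)
    (fun j hj => (h2 j hj).1.trans (le_of_eq (by ring))) (fun j hj => (h2 j hj).2.1)
    (fun j hj => (h2 j hj).2.2)
  have k2 := cnt_mul_le (g := g) (k := k)
    (P := fun w => Ad N d w a ∧ ¬∃ u v, Gp N d a k w u v) (a := (nl k * ph (v * N)) ^ 2)
    (F := fun w => ind (Ad N d w a) *
      (∑ j ∈ range (nl k), lam (co d w (pt N v u₀ j) v) - nl k * ph (v * N)) ^ 2)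
    (fun w _ => mul_nonneg (ind_nonneg _) (sq_nonneg _)) (by
      rintro w - ⟨a1, a2⟩
      have e : ∑ j ∈ range (nl k), lam (co d w (pt N v u₀ j) v) = 0 := by
        refine sum_eq_zero fun j hj => ?_
        by_contra ne
        obtain ⟨s1, s2, s3⟩ := h1 j hj
        exact a2 ⟨_, v, s1, sv, s2, hP.dv, hP.cop, s3.of_dvd (dvd_pow_self N two_ne_zero),
          AllCA.prime_of ne (g4 N d a _ v w hN hd hP.cop s3 a1).1⟩
      rw [e, ind_pos a1, one_mul, zero_sub, neg_sq])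
  have k3 := k2.trans k1
  change _ ≤ _ * (_ * (_ * (cnt g k (fun w => Ad N d w a) + _))) + _ at k3
  set L := Real.log k
  set n : ℝ := (nl k : ℝ)
  set p := ph (v * N)
  set V := vol g k
  have hL : 0 < L := by linarith
  have hn0 : 0 < n := lt_of_lt_of_le (by positivity) hn
  rw [div_le_iff₀ hε] at h4
  have k4 : (4 * g + 3) * L * (cnt g k (fun w => Ad N d w a) + ε / 4 * V) ≤
      n * p * (ε / 4 * V) := by
    calc _ ≤ (4 * g + 3) * L * (3 ^ (2 * g + 1) * V + ε / 4 * V) := by gcongr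
      _ = 8 * ((4 * g + 3) * (3 ^ (2 * g + 1) + ε / 4)) * (L * V / 8) := by ring
      _ ≤ L * ε * (L * V / 8) := by gcongr
      _ = L ^ 2 / 2 * 1 * (ε / 4 * V) := by ring
      _ ≤ _ := by gcongr
  have k5 := mul_le_mul_of_nonneg_left k4 (by positivity : 0 ≤ n * p)
  refine le_of_mul_le_mul_right (a := (n * p) ^ 2) ?_ (by positivity)
  linarith

end Pool.Agent.MP_a43263_nt.K2
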