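import Pool.Agent.MP_a43263_nt.K2.SpecC

/-! Primes in almost all short progressions, from characters in almost all short intervals. -/

set_option autoImplicit false

noncomputable section

namespace Pool.Agent.MP_a43263_nt.K2

open Finset Filter

namespace AplA

open ArithmeticFunction

/-- the error term of a character -/
def er (q h : ℕ) (χ : DirichletCharacter ℂ q) (y : ℕ) : ℂ :=
  ∑ n ∈ Ico y (y + h), ((vonMangoldt n : ℂ) * χ n - (ind (χ = 1) : ℝ))

/-- the weight of the proper prime powers -/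
def pp (n : ℕ) : ℝ := if ¬n.Prime then vonMangoldt n else 0

theorem pp_nonneg (n : ℕ) : 0 ≤ pp n := by
  unfold pp
  split_ifs
  · exact le_rfl
  · exact vonMangoldt_nonneg

theorem lam_eq (n : ℕ) : lam n = vonMangoldt n - pp n := by
  unfold lam pp
  by_cases h : n.Prime
  · simp [h, vonMangoldt_apply_prime h]
  · simp [h]

/-- a progression inside an interval -/
theorem sum_prog (f : ℕ → ℂ) {q : ℕ} (hq : 1 ≤ q) (y K : ℕ) :
    ∑ n ∈ Ico y (y + K * q), (if (y : ZMod q) = (n : ZMod q) then f n else 0) =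
      ∑ i ∈ range K, f (y + i * q) := by
  rw [← sum_filter]
  symm
  refine sum_bij (fun i _ => y + i * q) ?_ ?_ ?_ fun _ _ => rfl
  · intro i hi
    have h1 : i * q < K * q := Nat.mul_lt_mul_of_pos_right (mem_range.1 hi) hq
    refine mem_filter.2 ⟨mem_Ico.2 ⟨by omega, by omega⟩, ?_⟩
    simp
  · intro i _ j _ h
    exact Nat.eq_of_mul_eq_mul_right hq (Nat.add_left_cancel h)
  · intro n hn
    obtain ⟨h1, h2⟩ := mem_filter.1 hn
    obtain ⟨h3, h4⟩ := mem_Ico.1 h1
    obtain ⟨i, hi⟩ := (Nat.modEq_iff_dvd' h3).1 ((ZMod.natCast_eq_natCast_iff _ _ _).1 h2)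
    have h5 : i * q < K * q := by
      rw [mul_comm i q, ← hi]
      omega
    refine ⟨i, mem_range.2 (Nat.lt_of_mul_lt_mul_right h5), ?_⟩
    rw [mul_comm i q, ← hi]
    omega

/-- orthogonality -/
theorem orth {q : ℕ} [NeZero q] {y : ℕ} (hy : y.Coprime q) (K : ℕ) :
    ∑ χ : DirichletCharacter ℂ q, χ (y : ZMod q)⁻¹ * er q (K * q) χ y =
      (q.totient : ℂ) * ∑ i ∈ range K, (vonMangoldt (y + i * q) : ℂ) - (K * q : ℕ) := by
  have hq : 1 ≤ q := Nat.pos_of_ne_zero (NeZero.ne q)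
  have hu : IsUnit (y : ZMod q) := (ZMod.isUnit_iff_coprime y q).2 hy
  have hu' : IsUnit (y : ZMod q)⁻¹ :=
    IsUnit.of_mul_eq_one (y : ZMod q) (ZMod.inv_mul_of_unit _ hu)
  have h1 : ∑ χ : DirichletCharacter ℂ q, χ (y : ZMod q)⁻¹ *
      ∑ n ∈ Ico y (y + K * q), (vonMangoldt n : ℂ) * χ n =
      (q.totient : ℂ) * ∑ i ∈ range K, (vonMangoldt (y + i * q) : ℂ) := by
    rw [← sum_prog (fun n => (vonMangoldt n : ℂ)) hq y K, mul_sum]
    simp only [mul_sum]
    rw [sum_comm]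
    refine sum_congr rfl fun n _ => ?_
    have h := DirichletCharacter.sum_char_inv_mul_char_eq ℂ hu (n : ZMod q)
    calc ∑ χ : DirichletCharacter ℂ q, χ (y : ZMod q)⁻¹ * ((vonMangoldt n : ℂ) * χ n)
        = (vonMangoldt n : ℂ) * ∑ χ : DirichletCharacter ℂ q, χ (y : ZMod q)⁻¹ * χ n := by
          rw [mul_sum]
          exact sum_congr rfl fun _ _ => by ring
      _ = _ := by
          rw [h]
          split_ifs <;> ring
  have h2 : ∑ χ : DirichletCharacter ℂ q, χ (y : ZMod q)⁻¹ *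
      (((K * q : ℕ) : ℂ) * ((ind (χ = 1) : ℝ) : ℂ)) = (K * q : ℕ) := by
    rw [sum_eq_single (1 : DirichletCharacter ℂ q)]
    · rw [MulChar.one_apply hu', ind_pos rfl]
      simp
    · intro χ _ h
      rw [ind_neg h]
      simp
    · intro h
      exact absurd (mem_univ _) h
  rw [← h1, ← h2, ← sum_sub_distrib]
  refine sum_congr rfl fun χ _ => ?_
  rw [er, sum_sub_distrib, sum_const, Nat.card_Ico, Nat.add_sub_cancel_left, nsmul_eq_mul, mul_sub]

/-- one coprime starting point -/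
theorem point {q : ℕ} [NeZero q] {y : ℕ} (hy : y.Coprime q) (K : ℕ) :
    |∑ i ∈ range K, vonMangoldt (y + i * q) - K * ph q| ≤
      (∑ χ : DirichletCharacter ℂ q, ‖er q (K * q) χ y‖) / q.totient := by
  have hq : 0 < q := Nat.pos_of_ne_zero (NeZero.ne q)
  have ht : (0 : ℝ) < q.totient := by exact_mod_cast Nat.totient_pos.2 hq
  rw [le_div_iff₀ ht]
  have h1 : |∑ i ∈ range K, vonMangoldt (y + i * q) - K * ph q| * q.totient =
      ‖((q.totient * ∑ i ∈ range K, vonMangoldt (y + i * q) - (K * q : ℕ) : ℝ) : ℂ)‖ := by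
    rw [Complex.norm_real, Real.norm_eq_abs]
    nth_rewrite 1 [← abs_of_pos ht]
    rw [← abs_mul]
    congr 1
    unfold ph
    push_cast
    field_simp
  rw [h1]
  have h2 : ((q.totient * ∑ i ∈ range K, vonMangoldt (y + i * q) - (K * q : ℕ) : ℝ) : ℂ) =
      ∑ χ : DirichletCharacter ℂ q, χ (y : ZMod q)⁻¹ * er q (K * q) χ y := by
    rw [orth hy K]
    push_cast
    rfl
  rw [h2]
  refine (norm_sum_le _ _).trans (sum_le_sum fun χ _ => ?_)
  rw [norm_mul]
  exact mul_le_of_le_one_left (norm_nonneg _) (DirichletCharacter.norm_le_one χ _)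

/-- one starting point -/
theorem point' {q : ℕ} [NeZero q] {y K : ℕ} (h : K * q < y) :
    |∑ i ∈ range K, lam (y + i * q) - K * (ph q * ind (y.Coprime q))| ≤
      (∑ χ : DirichletCharacter ℂ q, ‖er q (K * q) χ y‖) / q.totient +
        ∑ i ∈ range K, pp (y + i * q) := by
  have h0 : 0 ≤ ∑ i ∈ range K, pp (y + i * q) := sum_nonneg fun _ _ => pp_nonneg _
  by_cases hy : y.Coprime q
  · have h1 := point hy K
    simp only [lam_eq]
    rw [ind_pos hy, mul_one, sum_sub_distrib, abs_le]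
    rw [abs_le] at h1
    constructor <;> linarith [h1.1, h1.2]
  · have h1 : ∑ i ∈ range K, lam (y + i * q) = 0 := by
      refine sum_eq_zero fun i hi => if_neg fun hp => hy ?_
      have hq : 0 < q := Nat.pos_of_ne_zero (NeZero.ne q)
      have h2 : q ≤ K * q := Nat.le_mul_of_pos_left q (by have := mem_range.1 hi; omega)
      have h3 : (y + i * q).Coprime q :=
        (Nat.Prime.coprime_iff_not_dvd hp).2 fun hd => by
          have := Nat.le_of_dvd hq hd
          omega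
      exact (Nat.coprime_add_mul_right_left y q i).1 h3
    rw [h1, ind_neg hy]
    simp only [mul_zero, sub_zero, abs_zero]
    positivity

/-- the proper prime powers -/
theorem pp_sum {X m : ℕ} (hX : 1 ≤ X) (hm : m ≤ X) :
    ∑ y ∈ Ioc X (2 * X), pp (y + m) ≤ 2 * √(3 * X : ℝ) * Real.log (3 * X) := by
  have h1 : (1 : ℝ) ≤ 3 * X := by
    have : (1 : ℝ) ≤ X := by exact_mod_cast hX
    linarith
  refine le_trans ?_ (Chebyshev.psi_sub_theta_le h1)
  have h2 : ⌊(3 * X : ℝ)⌋₊ = 3 * X := by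
    rw [← Nat.floor_natCast (R := ℝ) (3 * X)]
    push_cast
    rfl
  rw [Chebyshev.psi_sub_theta_eq_sum_not_prime, h2, sum_filter]
  calc ∑ y ∈ Ioc X (2 * X), pp (y + m) = ∑ n ∈ (Ioc X (2 * X)).image (· + m), pp n := by
        rw [sum_image fun _ _ _ _ h => Nat.add_right_cancel h]
    _ ≤ ∑ n ∈ Ioc 0 (3 * X), pp n := by
        refine sum_le_sum_of_subset_of_nonneg (fun n hn => ?_) fun _ _ _ => pp_nonneg _
        obtain ⟨y, hy, rfl⟩ := mem_image.1 hn
        have := mem_Ioc.1 hy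
        exact mem_Ioc.2 ⟨by omega, by omega⟩
    _ = _ := rfl

/-- from the mean square to the mean -/
theorem cs {X : ℕ} {f : ℕ → ℝ} {a : ℝ} (ha : 0 ≤ a)
    (h : ∑ y ∈ Ioc X (2 * X), f y ^ 2 ≤ a ^ 2 * X) : ∑ y ∈ Ioc X (2 * X), f y ≤ a * X := by
  have h1 := sq_sum_le_card_mul_sum_sq (s := Ioc X (2 * X)) (f := f)
  rw [Nat.card_Ioc, show 2 * X - X = X by omega] at h1
  refine le_trans (le_abs_self _) (abs_le_of_sq_le_sq ?_ (by positivity))
  calc _ ≤ _ := h1
    _ ≤ (X : ℝ) * (a ^ 2 * X) := mul_le_mul_of_nonneg_left h (Nat.cast_nonneg X)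
    _ = _ := by ring

end AplA

open AplA in
theorem apl_k : SIVStmt → APLStmt := by
  intro siv A B
  filter_upwards [siv (2 * (A + B + 1)) B, ev_le_log 2, ev_log_le 192 (2 * (A + 1)),
    eventually_ge_atTop 1] with X hS hL hX hX1 q K hq hqB hK hKq
  have : NeZero q := ⟨by omega⟩
  set L := Real.log X with hLdef
  have hL0 : 0 < L := by linarith
  have hX0 : (0 : ℝ) < X := by exact_mod_cast hX1
  have ht : (0 : ℝ) < q.totient := by exact_mod_cast Nat.totient_pos.2 hq
  have hK0 : (0 : ℝ) ≤ K := Nat.cast_nonneg K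
  have hh : (X : ℝ) ^ (1 / 4 : ℝ) ≤ (K * q : ℕ) :=
    hK.trans (by exact_mod_cast Nat.le_mul_of_pos_right K hq)
  have h1 : ∀ χ : DirichletCharacter ℂ q, ∑ y ∈ Ioc X (2 * X), ‖er q (K * q) χ y‖ ≤
      ((K * q : ℕ) : ℝ) / L ^ (A + B + 1) * X := fun χ => by
    refine cs (by positivity) ((hS q (K * q) χ hq hqB hh hKq).trans_eq ?_)
    rw [div_pow, ← pow_mul, mul_comm (A + B + 1) 2]
    ring
  have h2 : ∑ y ∈ Ioc X (2 * X), (∑ χ : DirichletCharacter ℂ q, ‖er q (K * q) χ y‖) / q.totient ≤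
      (K : ℝ) * X / L ^ A / 2 := by
    rw [← sum_div, sum_comm, div_le_iff₀ ht]
    refine (sum_le_sum fun χ _ => h1 χ).trans ?_
    rw [sum_const, card_univ, ← Nat.card_eq_fintype_card,
      DirichletCharacter.card_eq_totient_of_hasEnoughRootsOfUnity ℂ q, nsmul_eq_mul, mul_comm]
    refine mul_le_mul_of_nonneg_right ?_ ht.le
    push_cast
    rw [div_mul_eq_mul_div, div_div, div_le_div_iff₀ (by positivity) (by positivity)]
    calc (K : ℝ) * q * X * (L ^ A * 2) = (K * X * L ^ A) * (q * 2) := by ring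
      _ ≤ (K * X * L ^ A) * (L ^ B * L) :=
        mul_le_mul_of_nonneg_left (mul_le_mul hqB hL zero_le_two (by positivity)) (by positivity)
      _ = _ := by ring
  have h3 : 2 * √(3 * X : ℝ) * Real.log (3 * X) ≤ X / L ^ A / 2 := by
    have e1 : Real.log (3 * X) ≤ 2 * L := by
      rw [Real.log_mul (by norm_num) hX0.ne']
      have := Real.log_le_sub_one_of_pos (show (0 : ℝ) < 3 by norm_num)
      linarith
    have e2 : 8 * √(3 * X : ℝ) * L ^ (A + 1) ≤ X := by
      refine le_trans (le_abs_self _) (abs_le_of_sq_le_sq ?_ hX0.le)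
      rw [mul_pow, mul_pow, Real.sq_sqrt (by positivity), ← pow_mul, mul_comm (A + 1) 2]
      calc (8 : ℝ) ^ 2 * (3 * X) * L ^ (2 * (A + 1)) = X * (192 * L ^ (2 * (A + 1))) := by ring
        _ ≤ X * X := mul_le_mul_of_nonneg_left hX hX0.le
        _ = _ := by ring
    rw [div_div, le_div_iff₀ (by positivity)]
    calc 2 * √(3 * X : ℝ) * Real.log (3 * X) * (L ^ A * 2)
        ≤ 2 * √(3 * X : ℝ) * (2 * L) * (L ^ A * 2) := by gcongr
      _ = 8 * √(3 * X : ℝ) * L ^ (A + 1) := by ring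
      _ ≤ X := e2
  have h4 : ∑ y ∈ Ioc X (2 * X), ∑ i ∈ range K, pp (y + i * q) ≤ (K : ℝ) * X / L ^ A / 2 := by
    rw [sum_comm]
    calc ∑ i ∈ range K, ∑ y ∈ Ioc X (2 * X), pp (y + i * q)
        ≤ ∑ _i ∈ range K, (X : ℝ) / L ^ A / 2 := by
          refine sum_le_sum fun i hi => (pp_sum hX1 ?_).trans h3
          exact (Nat.mul_le_mul_right q (mem_range.1 hi).le).trans hKq
      _ = _ := by
          rw [sum_const, card_range, nsmul_eq_mul]
          ring
  calc _ ≤ ∑ y ∈ Ioc X (2 * X), ((∑ χ : DirichletCharacter ℂ q, ‖er q (K * q) χ y‖) / q.totient +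
        ∑ i ∈ range K, pp (y + i * q)) :=
        sum_le_sum fun y hy => point' (hKq.trans_lt (mem_Ioc.1 hy).1)
    _ ≤ _ := by
        rw [sum_add_distrib]
        linarith

end Pool.Agent.MP_a43263_nt.K2
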