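import Pool.Agent.MP_a43263_nt.K2.Wtg

/-! THEOREM R2: a bad polynomial gives a triple. -/

set_option autoImplicit false

noncomputable section

namespace Pool.Agent.MP_a43263_nt.K2

open Polynomial Finset Filter Matrix JC Pool.Agent.MP_a43263_nt.UV

namespace BadA

theorem nm_lin {K : Type} [Field K] (f : K[X]) : Nm f (1 - X) = f.eval 1 := by
  have e : (1 - X : K[X]) = C (-1) * (X - C 1) := by simp
  have d : (1 - X : K[X]).natDegree = 1 := by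
    rw [e, natDegree_C_mul (by simp), natDegree_X_sub_C]
  rw [Nm, d, e, resultant_C_mul_right, resultant_X_sub_C_right _ _ _ le_rfl, ← mul_assoc,
    ← mul_pow]
  simp

end BadA

open BadA in
theorem bad_k : LATStmt → TRIStmt → MAJStmt → BADStmt := by
  intro lat2 tri maj g f m Q M ρ hf hm hc hn hQ hρ hθ hM h
  obtain ⟨δ, Λ, h1, h2, h3, h4, h5, h6⟩ : ∃ δ Λ, IsCoprime δ (zK f ℚ) ∧
      IsSquare (Nm (zK f ℚ) δ) ∧ SD f δ Λ ∧ (∀ q ∈ Q, Loc q f δ Λ) ∧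
      (¬Sqm (zK f ℚ) δ ∨ δ = 1 ∧ ∃ p : ℕ, p.Prime ∧ M ≤ p ∧ Low g p Λ) ∧
      ¬Sqm (zK f ℚ) (δ * (1 - X)) := by
    rcases h with h | ⟨p, p1, p2, p3, p4, p5⟩
    · simp only [Str2, not_forall, not_or] at h
      obtain ⟨δ, a1, a2, a3, a4, a5, a6⟩ := h
      obtain ⟨Λ, b1, b2⟩ := lat gram apx (glu gram) g f Q δ hf hQ a3 a4
      exact ⟨δ, Λ, a1, a2, b1, b2, .inl a5, a6⟩
    · obtain ⟨Λ, b1, b2, b3⟩ := nbr g p f hf p1 p2 p5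
      refine ⟨1, Λ, isCoprime_one_left, ?_, b1, fun q hq => ⟨_, b2, C ((p : ℤ) ^ 2), p,
        by simp [zK], fun c => p3 ?_, by simp⟩, .inr ⟨rfl, p, p1, p4, b3⟩, by rwa [one_mul]⟩
      · rw [← C_1, (gram.1 ℚ _ (hf.mo ℚ)).2.2.1, one_pow]
        exact IsSquare.one
      · rwa [← (Nat.prime_dvd_prime_iff_eq (hQ q hq).1 p1).1 ((ZMod.natCast_eq_zero_iff p q).1 c)]
  have m0 := WtgA.m_ne hf hm
  have e1 : (zK f ℚ).eval 1 = (m : ℚ) ^ 2 := by rw [eval_one_map, hm]; simp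
  have k1 : IsCoprime (δ * (1 - X)) (zK f ℚ) :=
    h1.mul_left (WtgA.cop_lin (x := 1) (by rw [e1]; simpa using m0))
  have k2 : IsSquare (Nm (zK f ℚ) (δ * (1 - X))) := by
    rw [(gram.1 ℚ _ (hf.mo ℚ)).1, nm_lin, e1]
    exact h2.mul (IsSquare.sq _)
  obtain ⟨Λ', k3, hs⟩ := lat2 g f m δ Λ hf hm hc h1 h3
  obtain ⟨b, hb⟩ := bs1 g f δ Λ hf h1 h3
  obtain ⟨A, T, hT, hR⟩ := bs2 g f δ Λ b hf h1 h3 hb
  obtain ⟨b', hb'⟩ := bs1 g f _ Λ' hf k1 k3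
  obtain ⟨A', T', hT', hR'⟩ := bs2 g f _ Λ' b' hf k1 k3 hb'
  obtain ⟨N, hN, rfl, rfl⟩ := tri g f m δ Λ' b b' A T A' T' hf hm hb' (fun i => hs (hb.mem i))
    hT hR hT' hR'
  obtain ⟨H, H', hH⟩ := maj g f m A A' N ρ hf m0 hN hθ
  have r : 1 ≤ ρ ^ 2 := one_le_pow₀ hρ
  exact ⟨A, A', N, H, H', hN, fun q hq => ⟨strq g q f δ Λ b A _ hf (hQ q hq).1 (hQ q hq).2 h3 hb hT
    hR (h4 q hq), by rw [hN.dt]⟩, hH,
    dst (uniq gram) gs g f δ Λ b A _ H M _ hf h1 h2 h3 hb hT r hH.h hM h5, fun M' a =>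
    dst (uniq gram) gs g f _ Λ' b' A' _ H' M' _ hf k1 k2 k3 hb' hT' r hH.h' a (.inl h6)⟩

end Pool.Agent.MP_a43263_nt.K2
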