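import Pool.Agent.MP_a43263_nt.K2.Spec

/-! THEOREM R2: a member of the family with prescribed types at the auxiliary primes. -/

set_option autoImplicit false

noncomputable section

namespace Pool.Agent.MP_a43263_nt.K2

open Polynomial Finset Filter Matrix JC Pool.Agent.MP_a43263_nt.UV

namespace BaseA

variable {g : ℕ}

/-- every target with a square value at one is a reduction -/
theorem tgt (l : ℕ) [Fact l.Prime] {t : (ZMod l)[X]} (h1 : t.Monic) (h2 : t.natDegree = 2 * g + 1)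
    {m : ZMod l} (hm : t.eval 1 = m * m) :
    ∃ w : Vec g, zK (f1 w) (ZMod l) = t ∧ (w (Fin.last _) : ZMod l) = m := by
  have s1 : (t.comp (X + C 1)).Monic := h1.comp_X_add_C 1
  have s2 : (t.comp (X + C 1)).natDegree = 2 * g + 1 := by
    rw [natDegree_comp, natDegree_X_add_C, mul_one, h2]
  have s3 := Beta.pc_surj s1 s2
  obtain ⟨w, hw⟩ := Irr.lift (n := 2 * g + 1) (r := l) fun i =>
    if i.1 = 2 * g then m else (t.comp (X + C 1)).coeff (2 * g + 1 - 1 - i.1)
  refine ⟨w, ?_, (congrFun hw _).trans (if_pos rfl)⟩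
  have e : zK (pc (sv w)) (ZMod l) = t.comp (X + C 1) := by
    rw [Irr.zK_pc, ← s3]
    congr 1
    funext i
    have := congrFun hw i
    by_cases c : i.1 = 2 * g
    · rw [if_pos c] at this
      rw [sv, if_pos c, Int.cast_pow, this, c, show 2 * g + 1 - 1 - 2 * g = 0 by omega,
        coeff_zero_eq_eval_zero, eval_comp, sq, ← hm]
      simp
    · rw [if_neg c] at this
      rw [sv, if_neg c, this]
  rw [zK] at e
  rw [zK, f1, map_comp, e, comp_assoc]
  simp

theorem crt {M q : ℕ} (hc : M.Coprime q) (w w' : Vec g) : ∃ z : Vec g,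
    (∀ r, r ∣ M → ∀ i, (z i : ZMod r) = w i) ∧ ∀ i, (z i : ZMod q) = w' i := by
  obtain ⟨a, b, hab⟩ := Nat.isCoprime_iff_coprime.2 hc
  refine ⟨fun i => w i * (b * q) + w' i * (a * M), fun r hr i => ?_, fun i => ?_⟩
  · have e1 : (M : ZMod r) = 0 := (ZMod.natCast_eq_zero_iff M r).2 hr
    have e2 := congrArg (Int.cast : ℤ → ZMod r) hab
    push_cast at e2 ⊢
    rw [e1, mul_zero, zero_add] at e2
    rw [e1, e2, mul_zero, mul_zero, mul_one, add_zero]
  · have e2 := congrArg (Int.cast : ℤ → ZMod q) hab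
    push_cast at e2 ⊢
    rw [ZMod.natCast_self, mul_zero, add_zero] at e2
    rw [ZMod.natCast_self, e2, mul_zero, mul_zero, mul_one, zero_add]

theorem tz (irk : IRRStmt) (hg : 1 ≤ g) (p : ℕ) [Fact p.Prime] (c : ZMod p) (h2 : p ≠ 2) :
    ∃ w : Vec g, Tz p c (f1 w) := by
  obtain ⟨h, k1, k2, k3, k4⟩ := (irk g hg).1 p c h2
  obtain ⟨w, e, -⟩ := tgt (g := g) p ((monic_X_sub_C 1).mul k1) (by
    rw [(monic_X_sub_C 1).natDegree_mul k1, natDegree_X_sub_C, k2, add_comm]) (m := 0) (by simp)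
  exact ⟨w, h, by rw [e, C_1], k3, k4⟩

end BaseA

open BaseA in
theorem base_k : TRNStmt → IRRStmt → BASEStmt := by
  intro trn irk g q₀ N hg
  have cg : ∀ (q : ℕ) {w w' : Vec g}, (∀ i, (w i : ZMod q) = w' i) →
      zK (f1 w) (ZMod q) = zK (f1 w') (ZMod q) := fun q w w' h =>
    (trn g w hg).2.2.2.2.2.2.1 q w' h
  induction N with
  | zero =>
    have : Fact (Nat.Prime 5) := ⟨by norm_num⟩
    obtain ⟨h, h1, h2, h3⟩ := (UV.irr 2 (2 * g + 1) (by omega)).1
    have sq2 : ∀ x : ZMod 2, x = x * x := by decide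
    obtain ⟨w2, e2, -⟩ := tgt 2 h1 h2 (sq2 _)
    obtain ⟨w3, e3⟩ := tz irk hg 3 1 (by norm_num)
    obtain ⟨w5, e5⟩ := tz irk hg 5 0 (by norm_num)
    obtain ⟨y, y2, y3⟩ := crt (M := 2) (q := 3) (by norm_num) w2 w3
    obtain ⟨z, z6, z5⟩ := crt (M := 6) (q := 5) (by norm_num) y w5
    refine ⟨∅, z, rfl, ?_, ?_, ?_, by simp⟩
    · rwa [cg 2 (z6 2 (by norm_num)), cg 2 (y2 2 dvd_rfl), e2]
    · rwa [Tz, cg 3 (z6 3 (by norm_num)), cg 3 y3]
    · rwa [Tz, cg 5 z5]
  | succ N ih =>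
    obtain ⟨Q, w, h1, h2, h3, h5, hQ'⟩ := ih
    obtain ⟨q₁, hq₁⟩ := (irk g hg).2
    obtain ⟨q, hq, hlt, hm⟩ := Nat.exists_prime_gt_modEq_one (k := 8) (q₀ + q₁ + Q.sup id + 5)
      (by norm_num)
    have := Fact.mk hq
    have hQ : ∀ r ∈ Q, r < q := fun r hr => by
      have : r ≤ Q.sup id := le_sup (f := id) hr
      omega
    obtain ⟨h, k1, k2, k3, k4, m, k5⟩ := hq₁ q (by omega)
    have m0 : m ≠ 0 := fun e => by
      have := degree_eq_one_of_irreducible_of_root k3 (x := 1) (by rw [IsRoot, k5, e, mul_zero])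
      have := natDegree_eq_of_degree_eq_some (n := 1) this
      omega
    obtain ⟨w', e, e'⟩ := tgt (g := g) q (monic_X.mul k1) (by
      rw [monic_X.natDegree_mul k1, natDegree_X, k2, add_comm]) (m := m) (by simpa using k5)
    have hc : (2 * 3 * 5 * ∏ r ∈ Q, r).Coprime q :=
      Nat.Coprime.mul_left (Nat.Coprime.mul_left (Nat.Coprime.mul_left
        ((Nat.coprime_primes Nat.prime_two hq).2 (by omega))
        ((Nat.coprime_primes Nat.prime_three hq).2 (by omega)))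
        ((Nat.coprime_primes Nat.prime_five hq).2 (by omega)))
        (Nat.Coprime.prod_left fun r hr => (Nat.coprime_primes (hQ' r hr).1 hq).2 (hQ r hr).ne)
    obtain ⟨z, z1, z2⟩ := crt hc w w'
    refine ⟨insert q Q, z, ?_, ?_, ?_, ?_, fun r hr => ?_⟩
    · rw [card_insert_of_notMem fun m => (hQ q m).false, h1]
    · rwa [cg 2 (z1 2 (Dvd.dvd.mul_right (by norm_num) _))]
    · rwa [Tz, cg 3 (z1 3 (Dvd.dvd.mul_right (by norm_num) _))]
    · rwa [Tz, cg 5 (z1 5 (Dvd.dvd.mul_right (by norm_num) _))]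
    · rcases mem_insert.1 hr with rfl | hr
      · refine ⟨hq, hm, by omega, ⟨h, by rw [cg r z2, e], k3, k4⟩, fun c => m0 ?_⟩
        rw [← e', ← z2]
        exact (ZMod.intCast_zmod_eq_zero_iff_dvd _ _).2 c
      · obtain ⟨l1, l2, l3, l4, l5⟩ := hQ' r hr
        have z3 := z1 r ((dvd_prod_of_mem _ hr).mul_left _)
        refine ⟨l1, l2, l3, by rwa [Ty, cg r z3], fun c => l5 ?_⟩
        rw [← ZMod.intCast_zmod_eq_zero_iff_dvd, ← z3]
        exact (ZMod.intCast_zmod_eq_zero_iff_dvd _ _).2 c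

end Pool.Agent.MP_a43263_nt.K2
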