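import Pool.Agent.MP_a43263_nt.K2.Spec

/-! THEOREM R2: the density of the polynomials that are not maximal. -/

set_option autoImplicit false

noncomputable section

namespace Pool.Agent.MP_a43263_nt.K2

open Polynomial Finset Filter Matrix JC Pool.Agent.MP_a43263_nt.UV

namespace BetaA

theorem pc_init {m : ℕ} (c : Fin (m + 1) → ℤ) :
    pc c = X * pc (Fin.init c) + C (c (Fin.last m)) := by
  rw [pc, pc, Fin.sum_univ_castSucc, mul_add, mul_sum, ← pow_succ', add_assoc]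
  congr 2
  · refine sum_congr rfl fun i _ => ?_
    have := i.2
    rw [Fin.val_castSucc, show m + 1 - 1 - i.1 = m - 1 - i.1 + 1 by omega, Fin.init]
    ring
  · simp

/-- a simple root at zero can be removed -/
theorem nx_div {p : ℕ} (hp : p.Prime) {h : ℤ[X]} {m : ℤ} (hm : (p : ℤ) ∣ m)
    (h0 : ¬(p : ℤ) ∣ h.eval 0) (hx : Nx p (X * h + C (m ^ 2))) : Nx p h := by
  obtain ⟨φ, a, b, c, h1, h2, h3⟩ := hx
  obtain ⟨m, rfl⟩ := hm
  have h4 : ¬(p : ℤ) ∣ φ.eval 0 := fun ⟨t, ht⟩ => h0 (by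
    have := congrArg (fun f => (derivative f).eval 0) h3
    simp only [derivative_add, derivative_mul, derivative_X, derivative_C, derivative_pow, eval_add,
      eval_mul, eval_X, eval_C, eval_pow, eval_one, eval_zero, ht] at this
    exact ⟨2 * t * eval 0 (derivative φ) * eval 0 a + p * t ^ 2 * eval 0 (derivative a) +
      eval 0 (derivative φ) * eval 0 b + p * t * eval 0 (derivative b) + p * eval 0 (derivative c),
      by linear_combination this⟩)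
  obtain ⟨r, s, e⟩ : IsCoprime (φ.eval 0) (p : ℤ) :=
    ((Nat.prime_iff_prime_int.1 hp).irreducible.coprime_iff_not_dvd.2 h4).symm
  have e1 : C r * C (φ.eval 0) + C s * C (p : ℤ) = 1 := by rw [← C_mul, ← C_mul, ← C_add, e, C_1]
  have e2 := X_mul_divX_add φ
  rw [coeff_zero_eq_eval_zero] at e2
  obtain ⟨Y, hY⟩ : ∃ Y, X * Y + (C r * φ + C s * C (p : ℤ)) = 1 :=
    ⟨-C r * φ.divX, by linear_combination e1 - C r * e2⟩
  obtain ⟨Z, hZ⟩ : ∃ Z, X * Z + (C r * φ + C s * C (p : ℤ)) ^ 2 = 1 :=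
    ⟨X * Y ^ 2 + 2 * Y * (C r * φ + C s * C (p : ℤ)), by
      linear_combination (X * Y + (C r * φ + C s * C (p : ℤ)) + 1) * hY⟩
  rw [C_pow, C_mul] at h3
  exact ⟨φ, a * Z + h * C r ^ 2, b * Z + 2 * h * C r * C s, (c - C m ^ 2) * Z + h * C s ^ 2, h1, h2,
    by linear_combination Z * h3 - h * hZ⟩

/-- the multiples of `p` -/
def Mp (p : ℕ) : Set (ZMod (p ^ 2)) := {y | ∃ m : ℤ, (p : ℤ) ∣ m ∧ (m : ZMod (p ^ 2)) = y}

theorem mp_le {p : ℕ} (hp : 0 < p) : (Mp p).ncard ≤ p := by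
  have : Mp p ⊆ (fun t : Fin p => (p : ZMod (p ^ 2)) * t.1) '' Set.univ := by
    rintro _ ⟨_, ⟨m, rfl⟩, rfl⟩
    obtain ⟨t, w, e⟩ := Beta.lift hp (m : ZMod (p ^ 2))
    have hpp : (p : ZMod (p ^ 2)) ^ 2 = 0 := by rw [← Nat.cast_pow, ZMod.natCast_self]
    refine ⟨t, trivial, ?_⟩
    push_cast
    linear_combination -(p : ZMod (p ^ 2)) * e - w * hpp
  refine (Set.ncard_le_ncard this (Set.toFinite _)).trans ((Set.ncard_image_le).trans ?_)
  simp

theorem dd_le {p m : ℕ} (hp : 0 < p) (i : Fin (m + 1)) :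
    {y : Fin (m + 1) → ZMod (p ^ 2) | y i ∈ Mp p}.ncard ≤ p * (p ^ 2) ^ m := by
  have : NeZero (p ^ 2) := ⟨by positivity⟩
  refine (Set.ncard_le_ncard_of_injOn (t := Mp p ×ˢ Set.univ)
    (Fin.insertNthEquiv (fun _ => ZMod (p ^ 2)) i).symm ?_ (Equiv.injective _).injOn
    (Set.toFinite _)).trans ?_
  · exact fun y hy => ⟨hy, trivial⟩
  rw [Set.ncard_prod, Set.ncard_univ, Nat.card_eq_fintype_card, Fintype.card_fun, ZMod.card,
    Fintype.card_fin]
  exact Nat.mul_le_mul_right _ (mp_le hp)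

theorem sq_eq {p : ℕ} (hp : p.Prime) (h2 : p ≠ 2) {m m' : ℤ} (hm : ¬(p : ℤ) ∣ m)
    (h : (m : ZMod (p ^ 2)) ^ 2 = (m' : ZMod (p ^ 2)) ^ 2) :
    (m : ZMod (p ^ 2)) = m' ∨ (m : ZMod (p ^ 2)) = -m' := by
  have hq := Nat.prime_iff_prime_int.1 hp
  have e : ((p : ℤ) ^ 2) ∣ (m - m') * (m + m') := by
    have := (ZMod.intCast_zmod_eq_zero_iff_dvd ((m - m') * (m + m')) (p ^ 2)).1 (by
      push_cast; linear_combination h)
    exact_mod_cast this
  have z : ∀ x : ℤ, (p : ℤ) ^ 2 ∣ x → (x : ZMod (p ^ 2)) = 0 := fun x hx =>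
    (ZMod.intCast_zmod_eq_zero_iff_dvd x (p ^ 2)).2 (by exact_mod_cast hx)
  by_cases a : (p : ℤ) ∣ m + m'
  · have b : ¬(p : ℤ) ∣ m - m' := fun b => by
      have := a.add b
      rw [show m + m' + (m - m') = 2 * m by ring] at this
      exact (hq.dvd_or_dvd this).elim (fun c => h2 ((Nat.prime_dvd_prime_iff_eq hp Nat.prime_two).1
        (by exact_mod_cast c))) hm
    have := z _ (hq.pow_dvd_of_dvd_mul_left 2 b e)
    push_cast at this
    exact .inr (by linear_combination this)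
  · have := z _ (hq.pow_dvd_of_dvd_mul_right 2 a e)
    push_cast at this
    exact .inl (by linear_combination this)

/-- the set of the old count -/
def Bo (n p : ℕ) : Set (Fin n → ZMod (p ^ 2)) :=
  {x | ∃ c : Fin n → ℤ, (fun i => (c i : ZMod (p ^ 2))) = x ∧ Nx p (pc c)}

variable {g p : ℕ}

theorem sv_last {R : Type} [CommRing R] (w : Fin (2 * g + 1) → R) :
    sv w (Fin.last _) = w (Fin.last _) ^ 2 := if_pos rfl

theorem sv_init {R : Type} [CommRing R] (w : Fin (2 * g + 1) → R) :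
    Fin.init (sv w) = Fin.init w := funext fun i => if_neg i.2.ne

theorem unit_le (hp : p.Prime) (h2 : p ≠ 2) :
    {x : Fin (2 * g + 1) → ZMod (p ^ 2) | ∃ w : Vec g, (fun i => (w i : ZMod (p ^ 2))) = x ∧
      Nx p (pc (sv w)) ∧ ¬(p : ℤ) ∣ w (Fin.last _)}.ncard ≤ (Bo (2 * g + 1) p).ncard * 2 := by
  have : NeZero (p ^ 2) := ⟨pow_ne_zero _ hp.ne_zero⟩
  refine (Set.ncard_le_ncard_of_injOn (t := Bo (2 * g + 1) p ×ˢ (Set.univ : Set Bool))
    (fun x => (sv x, decide ((x (Fin.last _)).val < (-x (Fin.last _)).val))) ?_ ?_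
    (Set.toFinite _)).trans (by simp [Set.ncard_prod])
  · rintro _ ⟨w, rfl, h, -⟩
    refine ⟨⟨sv w, funext fun i => ?_, h⟩, trivial⟩
    simp only [sv]
    split_ifs <;> simp
  · rintro _ ⟨w, rfl, -, h⟩ _ ⟨w', rfl, -, -⟩ e
    obtain ⟨e1, e2⟩ := Prod.ext_iff.1 e
    have e3 := congrArg Fin.init e1
    have e4 := congrFun e1 (Fin.last _)
    simp only [sv_init, sv_last] at e3 e4
    rw [← Fin.snoc_init_self (fun i => (w i : ZMod (p ^ 2))),
      ← Fin.snoc_init_self (fun i => (w' i : ZMod (p ^ 2))), e3]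
    congr 1
    refine (sq_eq hp h2 h e4).elim id fun e5 => ?_
    simp only [e5, neg_neg, decide_eq_decide] at e2
    rw [e5]
    exact ZMod.val_injective _ (by omega)

theorem rest_le (hp : p.Prime) (i : Fin (2 * g)) (hi : i.1 + 1 = 2 * g) :
    {x : Fin (2 * g + 1) → ZMod (p ^ 2) | ∃ w : Vec g, (fun i => (w i : ZMod (p ^ 2))) = x ∧
      Nx p (pc (sv w)) ∧ (p : ℤ) ∣ w (Fin.last _)}.ncard ≤
      ({y : Fin (2 * g) → ZMod (p ^ 2) | y i ∈ Mp p}.ncard + (Bo (2 * g) p).ncard) * p := by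
  have : NeZero (p ^ 2) := ⟨pow_ne_zero _ hp.ne_zero⟩
  refine (Set.ncard_le_ncard_of_injOn (t := ({y | y i ∈ Mp p} ∪ Bo (2 * g) p) ×ˢ Mp p)
    (fun x => (Fin.init x, x (Fin.last _))) ?_ (fun x _ y _ e => ?_) (Set.toFinite _)).trans ?_
  · rintro _ ⟨w, rfl, h, h'⟩
    refine ⟨?_, _, h', rfl⟩
    by_cases a : (p : ℤ) ∣ Fin.init w i
    · exact .inl ⟨_, a, rfl⟩
    · rw [pc_init, sv_init, sv_last] at h
      refine .inr ⟨Fin.init w, rfl, nx_div hp h' ?_ h⟩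
      rwa [← coeff_zero_eq_eval_zero, ← show 2 * g - 1 - i.1 = 0 by omega, Beta.pc_coeff]
  · obtain ⟨e1, e2⟩ := Prod.ext_iff.1 e
    rw [← Fin.snoc_init_self x, ← Fin.snoc_init_self y]
    exact congrArg₂ _ e1 e2
  · rw [Set.ncard_prod]
    exact Nat.mul_le_mul (Set.ncard_union_le _ _) (mp_le hp.pos)

end BetaA

open BetaA in
theorem beta_k : TRNStmt → BETAStmt := by
  intro trn g p hg hp h2
  have : NeZero (p ^ 2) := ⟨pow_ne_zero _ hp.ne_zero⟩
  obtain ⟨g, rfl⟩ := Nat.exists_eq_add_one_of_ne_zero (Nat.one_le_iff_ne_zero.1 hg)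
  have b1 : ((Bo (2 * (g + 1) + 1) p).ncard : ℝ) ≤ _ := beta root _ p hp
  have b2 : ((Bo (2 * (g + 1)) p).ncard : ℝ) ≤ _ := beta root _ p hp
  have b3 := dd_le (m := 2 * g + 1) hp.pos (Fin.last _)
  have b4 := (Set.ncard_union_le _ _).trans (Nat.add_le_add (unit_le (g := g + 1) hp h2)
    ((rest_le (g := g + 1) hp (Fin.last (2 * g + 1)) rfl).trans
      (Nat.mul_le_mul_right _ (Nat.add_le_add_right b3 _))))
  refine le_trans (Nat.cast_le.2 ((Set.ncard_le_ncard ?_ (Set.toFinite _)).trans b4)) ?_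
  · rintro _ ⟨w, rfl, h⟩
    rw [(trn _ w hg).2.2.2.2.1] at h
    by_cases a : (p : ℤ) ∣ w (Fin.last _)
    exacts [.inr ⟨w, rfl, h, a⟩, .inl ⟨w, rfl, h, a⟩]
  have h1 : (1 : ℝ) < p := by exact_mod_cast hp.one_lt
  have h3 : (0 : ℝ) < (p : ℝ) ^ 2 - 1 := by nlinarith
  obtain ⟨A, hA⟩ : ∃ A : ℝ, A = (p : ℝ) ^ (2 * (2 * (g + 1))) := ⟨_, rfl⟩
  have a0 : 0 < A := by rw [hA]; positivity
  have e1 : (p : ℝ) ^ (2 * (2 * (g + 1) + 1)) = A * p ^ 2 := by rw [hA]; ring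
  have e2 : (p : ℝ) * (p ^ 2) ^ (2 * g + 1) * p = A := by rw [hA]; ring
  rw [e1] at b1 ⊢
  rw [← hA] at b2
  push_cast
  rw [add_mul, e2]
  have c1 : A ≤ A * p ^ 2 / (p ^ 2 - 1) := by rw [le_div_iff₀ h3]; nlinarith
  have c2 : A / (p ^ 2 - 1) * p ≤ A * p ^ 2 / (p ^ 2 - 1) := by
    rw [div_mul_eq_mul_div]
    gcongr
    nlinarith
  have c3 := mul_le_mul_of_nonneg_right b2 (zero_le_one.trans h1.le)
  rw [mul_div_assoc 4]
  linarith

end Pool.Agent.MP_a43263_nt.K2
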