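import Pool.Agent.MP_a43263_nt.K2.Spec

/-! THEOREM R2: change of basis for triples. -/

set_option autoImplicit false

noncomputable section

namespace Pool.Agent.MP_a43263_nt.K2

open Polynomial Finset Filter Matrix JC Pool.Agent.MP_a43263_nt.UV

namespace ChgA

variable {n : ℕ}

theorem one (A A' N γ γ' β : UC.Mz n) (h : γ * γ' = 1) (hβ : IsUnit β.det) :
    Tt (γᵀ * A * γ) (βᵀ * A' * β) (βᵀ * N * γ) = γ' * Tt A A' N * γ := by
  have u : IsUnit γ.det := isUnit_det_of_right_inverse h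
  have e1 : ∀ M : UC.Mz n, γᵀ⁻¹ * (γᵀ * M) = M :=
    fun M => nonsing_inv_mul_cancel_left _ M (isUnit_det_transpose _ u)
  have e2 : ∀ M : UC.Mz n, βᵀ⁻¹ * (βᵀ * M) = M :=
    fun M => nonsing_inv_mul_cancel_left _ M (isUnit_det_transpose _ hβ)
  have e3 : ∀ M : UC.Mz n, β * (β⁻¹ * M) = M := fun M => mul_nonsing_inv_cancel_left _ M hβ
  simp only [Tt, Matrix.mul_inv_rev, transpose_mul, transpose_transpose, Matrix.mul_assoc, e1, e2,
    e3, inv_eq_right_inv h, Matrix.mul_sub, Matrix.sub_mul, Matrix.one_mul, mul_eq_one_comm.1 h]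

theorem swp (P Q : UC.Mz n) : (1 - P * Q).charpoly = (1 - Q * P).charpoly := by
  have e : ∀ M : UC.Mz n, 1 - M = -M - scalar (Fin n) (-1) := fun M => by
    rw [map_neg, map_one]; abel
  rw [e, e, charpoly_sub_scalar, charpoly_sub_scalar, ← Matrix.neg_mul, charpoly_mul_comm,
    Matrix.mul_neg]

theorem inv1 {γ : UC.Mz n} (h : γ.det = 1) : γ * γ⁻¹ = 1 := mul_nonsing_inv _ (h ▸ isUnit_one)

theorem det3 {γ β : UC.Mz n} (h : γ.det = 1) (k : β.det = 1) (N : UC.Mz n) :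
    (βᵀ * N * γ).det = N.det := by
  rw [det_mul, det_mul, det_transpose, h, k, one_mul, mul_one]

end ChgA

open ChgA UC.Chg in
theorem chg_k : CHGStmt := by
  refine ⟨fun n A A' N γ γ' β _ _ h k => one A A' N γ γ' β h k,
    fun n f m A A' N γ β _ _ h k t => ⟨symm t.sa, symm t.sa', ?_, ?_, ?_, ?_⟩,
    fun n f m A A' N t => ?_, fun g Q f₀ m₀ A A' N γ β _ _ h k L q hq => ?_⟩
  · rw [det3 h h]; exact t.det
  · rw [det3 k k]; exact t.det'
  · rw [det3 h k]; exact t.dt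
  · rw [one A A' N γ _ β (inv1 h) (k ▸ isUnit_one), chp (inv1 h)]; exact t.ch
  · have e : A * Tt A A' N = A - Nᵀ * A'⁻¹ * N := by
      simp only [Tt, Matrix.mul_sub, Matrix.mul_one, Matrix.mul_assoc,
        mul_nonsing_inv_cancel_left _ _ t.det]
    refine ⟨⟨t.sa', t.sa, t.det', t.det, (det_transpose N).trans t.dt, ?_⟩, ⟨t.sa, t.det, ?_⟩, e⟩
    · rw [← t.ch, Tt, Tt, transpose_transpose, Matrix.mul_assoc (A'⁻¹ * N), swp,
        Matrix.mul_assoc (A⁻¹ * Nᵀ)]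
    · rw [e]
      exact t.sa.sub (symm t.sa'.inv)
  · obtain ⟨⟨T, c0, c, x, s, s0, x1, x2⟩, d⟩ := L q hq
    refine ⟨?_, by rwa [det3 h k]⟩
    have h' : mK γ (ZMod q) * mK γ⁻¹ (ZMod q) = 1 := by
      rw [← mK_mul, inv1 h]
      exact Matrix.map_one _ (map_zero _) (map_one _)
    rw [one A A' N γ _ β (inv1 h) (k ▸ isUnit_one), mul1 (inv1 h)]
    simp only [mK_mul _ γ, mK_mul γᵀ, mK_transpose]
    refine ⟨mK γ⁻¹ (ZMod q) * T * mK γ (ZMod q), by rw [mul1 h', c0], (chp h').trans c,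
      mK γ⁻¹ (ZMod q) *ᵥ x, s, s0, ?_, ?_⟩
    · rw [mulVec_mulVec, Matrix.mul_assoc, h', Matrix.mul_one, ← mulVec_mulVec, x1, mulVec_zero]
    · rw [form, mulVec_mulVec, h', one_mulVec, x2]

end Pool.Agent.MP_a43263_nt.K2
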