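import Pool.Agent.MP_a43263_nt.K2.Spec

/-! THEOREM R2: admissible classes exist. -/

set_option autoImplicit false

noncomputable section

namespace Pool.Agent.MP_a43263_nt.K2

open Polynomial Finset Filter Matrix JC Pool.Agent.MP_a43263_nt.UV

namespace ClsA

theorem cast_eval (f : ℤ[X]) (l : ℕ) (x : ℤ) :
    ((f.eval x : ℤ) : ZMod l) = (zK f (ZMod l)).eval (x : ZMod l) := by
  rw [zK, eval_intCast_map]
  rfl

theorem noroot {g q : ℕ} {f : ℤ[X]} (hf : Zq g f) (hq : q.Prime) {h : (ZMod q)[X]}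
    (e : zK f (ZMod q) = X * h) (hi : Irreducible h) (x : ZMod q) : h.eval x ≠ 0 := fun c => by
  have := Fact.mk hq
  have h1 := natDegree_eq_of_degree_eq_some (n := 1) (degree_eq_one_of_irreducible_of_root hi c)
  have h2 : (zK f (ZMod q)).natDegree = 2 * g + 1 := by rw [hf.monic.natDegree_map, hf.deg]
  rw [e, natDegree_X_mul hi.ne_zero] at h2
  have := hf.pos
  omega

theorem out {g q : ℕ} {f : ℤ[X]} (hf : Zq g f) (hq : q.Prime) (ht : Ty q f) :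
    ¬(q : ℤ) ∣ f.eval (1 - ((0 : ℕ) : ℤ) ^ 2) := fun c => by
  obtain ⟨h, e, hi, -⟩ := ht
  rw [← ZMod.intCast_zmod_eq_zero_iff_dvd, cast_eval, e] at c
  exact noroot hf hq e hi 1 (by simpa using c)

theorem inn {g q : ℕ} {f : ℤ[X]} (hf : Zq g f) (hq : q.Prime) (h2 : q ≠ 2) (ht : Ty q f) :
    ∃ a : ℕ, (q : ℤ) ∣ f.eval (1 - (a : ℤ) ^ 2) ∧ ¬(q : ℤ) ^ 2 ∣ f.eval (1 - (a : ℤ) ^ 2) := by
  obtain ⟨h, e, hi, -⟩ := ht
  have h0 : (q : ℤ) ∣ f.eval 0 := by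
    rw [← ZMod.intCast_zmod_eq_zero_iff_dvd, cast_eval, e]
    simp
  by_cases c : (q : ℤ) ^ 2 ∣ f.eval 0
  · have h1 : ¬(q : ℤ) ∣ (derivative f).eval 0 := fun d => by
      rw [← ZMod.intCast_zmod_eq_zero_iff_dvd, cast_eval, zK, ← derivative_map, ← zK, e] at d
      exact noroot hf hq e hi 0 (by simpa using d)
    obtain ⟨k, hk⟩ := f.binomExpansion 0 (-(q * (2 + q)))
    have e1 : 1 - ((1 + q : ℕ) : ℤ) ^ 2 = 0 + -(q * (2 + q)) := by push_cast; ring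
    refine ⟨1 + q, ?_, fun d => ?_⟩
    · rw [e1, hk]
      exact (h0.add ⟨-(derivative f).eval 0 * (2 + q), by ring⟩).add
        ⟨k * q * (2 + q) ^ 2, by ring⟩
    · rw [e1, hk] at d
      have d1 : (q : ℤ) * q ∣ q * ((derivative f).eval 0 * 2) := by
        have := (c.sub d).add (⟨k * (2 + q) ^ 2 - (derivative f).eval 0, rfl⟩ :
          (q : ℤ) ^ 2 ∣ (q : ℤ) ^ 2 * (k * (2 + q) ^ 2 - (derivative f).eval 0))
        rw [← sq]
        exact this.trans (dvd_of_eq (by ring))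
      have d2 := (mul_dvd_mul_iff_left (Int.natCast_ne_zero.2 hq.ne_zero)).1 d1
      rcases (Nat.prime_iff_prime_int.1 hq).dvd_or_dvd d2 with d3 | d3
      · exact h1 d3
      · exact h2 ((Nat.prime_dvd_prime_iff_eq hq Nat.prime_two).1 (by exact_mod_cast d3))
  · exact ⟨1, by simpa using h0, by simpa using c⟩

theorem five {f : ℤ[X]} (ht : Tz 5 0 f) : ¬((5 : ℕ) : ℤ) ∣ f.eval (1 - ((1 : ℕ) : ℤ) ^ 2) :=
  fun c => by
    obtain ⟨h, e, -, hs⟩ := ht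
    rw [← ZMod.intCast_zmod_eq_zero_iff_dvd, cast_eval, e] at c
    have : h.eval 0 = 0 := by simpa using c
    exact hs (by rw [this]; exact IsSquare.zero)

theorem cong (f : ℤ[X]) {a b m : ℕ} (h : a ≡ b [MOD m]) :
    (m : ℤ) ∣ f.eval (1 - (b : ℤ) ^ 2) - f.eval (1 - (a : ℤ) ^ 2) :=
  (show (m : ℤ) ∣ 1 - (b : ℤ) ^ 2 - (1 - (a : ℤ) ^ 2) from
    (h.dvd.mul_left (-(a + b : ℤ))).trans (dvd_of_eq (by ring))).trans (sub_dvd_eval_sub _ _ f)

end ClsA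

open ClsA in
theorem cls_k : TRNStmt → CLSStmt := by
  intro trn g Q S w hg hF hS
  have h5 : 5 ∉ Q := fun c => absurd (hF.ty 5 c).2.1 (by norm_num)
  have hp : ∀ l ∈ insert 5 Q, l.Prime := fun l hl => by
    rcases mem_insert.1 hl with rfl | hl
    exacts [Nat.prime_five, (hF.ty l hl).1]
  have loc : ∀ l : ℕ, ∃ a : ℕ, l ∈ insert 5 Q → (l = 5 → a = 1) ∧
      (l ∉ S → ¬(l : ℤ) ∣ (f1 w).eval (1 - (a : ℤ) ^ 2)) ∧
      (l ∈ S → (l : ℤ) ∣ (f1 w).eval (1 - (a : ℤ) ^ 2) ∧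
        ¬(l : ℤ) ^ 2 ∣ (f1 w).eval (1 - (a : ℤ) ^ 2)) := fun l => by
    by_cases c5 : l = 5
    · subst c5
      exact ⟨1, fun _ => ⟨fun _ => rfl, fun _ => five hF.t5, fun c => (h5 (hS c)).elim⟩⟩
    by_cases cQ : l ∈ Q
    · obtain ⟨k1, k2, k3⟩ := hF.ty l cQ
      by_cases cS : l ∈ S
      · obtain ⟨a, ha⟩ := inn hF.zq k1 (by omega) k3
        exact ⟨a, fun _ => ⟨fun c => (c5 c).elim, fun c => (c cS).elim, fun _ => ha⟩⟩
      · exact ⟨0, fun _ => ⟨fun c => (c5 c).elim, fun _ => out hF.zq k1 k3, fun c => (cS c).elim⟩⟩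
    · exact ⟨0, fun c => ((mem_insert.1 c).elim c5 cQ).elim⟩
  choose r hr using loc
  have hs0 : ∀ l ∈ insert 5 Q, l ^ 2 ≠ 0 := fun l hl => pow_ne_zero 2 (hp l hl).ne_zero
  have hpp : Set.Pairwise (↑(insert 5 Q) : Set ℕ) (Function.onFun Nat.Coprime fun l => l ^ 2) :=
    fun l hl l' hl' c => Nat.Coprime.pow 2 2 ((Nat.coprime_primes (hp l hl) (hp l' hl')).2 c)
  obtain ⟨a, ha, hlt⟩ : ∃ a : ℕ, (∀ l ∈ insert 5 Q, a ≡ r l [MOD l ^ 2]) ∧
      a < ∏ l ∈ insert 5 Q, l ^ 2 :=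
    ⟨_, (Nat.chineseRemainderOfFinset r (fun l => l ^ 2) (insert 5 Q) hs0 hpp).2,
      Nat.chineseRemainderOfFinset_lt_prod r (fun l => l ^ 2) hs0 hpp⟩
  rw [prod_pow, prod_insert h5] at hlt
  have hd : ∀ l ∈ insert 5 Q, (l : ℤ) ^ 2 ∣ (f1 w).eval (1 - (r l : ℤ) ^ 2) -
      (f1 w).eval (1 - (a : ℤ) ^ 2) := fun l hl => by exact_mod_cast cong (f1 w) (ha l hl)
  have hd1 := fun (l : ℕ) hl => (dvd_pow_self (l : ℤ) two_ne_zero).trans (hd l hl)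
  have hG := (trn g w hg).2.2.2.2.2.1 a
  have dv : ((∏ q ∈ S, q : ℕ) : ℤ) ∣ Gv w a 1 := by
    rw [hG, Nat.cast_prod]
    refine prod_dvd_of_coprime (fun l hl l' hl' c => ?_) fun l hl => ?_
    · exact Nat.isCoprime_iff_coprime.2
        ((Nat.coprime_primes (hF.ty l (hS hl)).1 (hF.ty l' (hS hl')).1).2 c)
    · have m := mem_insert_of_mem (b := 5) (hS hl)
      exact (dvd_sub_right ((hr l m).2.2 hl).1).1 (hd1 l m)
  refine ⟨a, mem_range.2 hlt, ?_, dv, ?_⟩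
  · have := (ha 5 (mem_insert_self _ _)).of_dvd (dvd_pow_self 5 two_ne_zero)
    rwa [(hr 5 (mem_insert_self _ _)).1 rfl] at this
  · obtain ⟨c, hc⟩ := dv
    have d0 : ((∏ q ∈ S, q : ℕ) : ℤ) ≠ 0 :=
      Int.natCast_ne_zero.2 (prod_ne_zero_iff.2 fun l hl => (hF.ty l (hS hl)).1.ne_zero)
    rw [hc, Int.mul_ediv_cancel_left _ d0, ← prod_insert (f := fun q => q) h5, Nat.cast_prod]
    refine IsCoprime.prod_right fun l hl => ?_
    refine ((Nat.prime_iff_prime_int.1 (hp l hl)).irreducible.coprime_iff_not_dvd.2 fun d => ?_).symm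
    rw [hG] at hc
    by_cases cS : l ∈ S
    · refine ((hr l hl).2.2 cS).2 ((dvd_sub_left ?_).1 (hd l hl))
      rw [hc, sq]
      exact mul_dvd_mul (Int.natCast_dvd_natCast.2 (dvd_prod_of_mem _ cS)) d
    · exact (hr l hl).2.1 cS ((dvd_sub_left (hc ▸ d.mul_left _)).1 (hd1 l hl))

end Pool.Agent.MP_a43263_nt.K2
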