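import Pool.Agent.MP_a43263_nt.K2.Spec

/-! THEOREM R2: the count for reduced representatives. -/

set_option autoImplicit false

noncomputable section

namespace Pool.Agent.MP_a43263_nt.K2

open Polynomial Finset Filter Matrix JC Pool.Agent.MP_a43263_nt.UV

namespace CoreA

theorem ex0 {g : ℕ} {e : Fin (2 * g + 1) → ℤ} (h : UC.Ex e) : 0 ≤ -e 0 := by
  have h1 := h.2 0
  have h2 := h.1 (Fin.zero_le (Fin.rev 0))
  omega

theorem shift {n : ℕ} (b : ℤ) (k c : ℕ) (hb : b ≤ k) (e e' : Fin n → ℤ) :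
    ∑ p, ∑ q, max (b + c + e' p + e q) 0 ≤
      (c * n ^ 2 : ℕ) + ∑ p, ∑ q, max ((k : ℤ) + e' p + e q) 0 := by
  have : ((c * n ^ 2 : ℕ) : ℤ) = ∑ _p : Fin n, ∑ _q : Fin n, (c : ℤ) := by
    simp only [sum_const, card_univ, Fintype.card_fin, nsmul_eq_mul]
    push_cast
    ring
  rw [this, ← sum_add_distrib]
  refine sum_le_sum fun p _ => ?_
  rw [← sum_add_distrib]
  exact sum_le_sum fun q _ => by omega

/-- from a bound on the number of triples to a bound on the number of polynomials -/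
theorem fin_bound {n : ℕ} (b : ℤ) (k c : ℕ) (hb : b ≤ k) (e e' : Fin n → ℤ) (ν s w : ℝ)
    (hν : 0 ≤ ν)
    (h1 : s * (2 : ℝ) ^ (∑ x ∈ UC.sup n, (e x.2 - e x.1) + ∑ x ∈ UC.sup n, (e' x.2 - e' x.1)) ≤ w)
    (h2 : w ≤ ν * (2 : ℝ) ^ (∑ p, ∑ q, max (b + c + e' p + e q) 0 +
      ∑ x ∈ UC.up n, max (e x.1 + e x.2) 0 + ∑ x ∈ UC.up n, max (e' x.1 + e' x.2) 0)) :
    s ≤ ν * 2 ^ (c * n ^ 2) * (2 : ℝ) ^ Phi2 k e e' := by
  have hp : (0 : ℝ) < (2 : ℝ) ^ (∑ x ∈ UC.sup n, (e x.2 - e x.1) +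
    ∑ x ∈ UC.sup n, (e' x.2 - e' x.1)) := by positivity
  refine le_of_mul_le_mul_right (h1.trans (h2.trans ?_)) hp
  rw [mul_assoc, mul_assoc, ← zpow_natCast, ← zpow_add₀ (by norm_num), ← zpow_add₀ (by norm_num)]
  refine mul_le_mul_of_nonneg_left (zpow_le_zpow_right₀ (by norm_num) ?_) hν
  have := shift b k c hb e e'
  simp only [Phi2, wt]
  omega

/-- one class of types -/
theorem cls {τ : Type} (E : Finset τ) (w : τ → ℝ) (Φ G : τ → ℤ) (ν B : ℝ) (D : ℕ) (hν : 0 ≤ ν)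
    (h1 : ∀ x ∈ E, w x ≤ ν * (2 : ℝ) ^ Φ x) (h2 : ∀ x ∈ E, Φ x ≤ (D : ℤ) - G x)
    (h3 : ∑ x ∈ E, (2 : ℝ) ^ (-G x) ≤ B) : ∑ x ∈ E, w x ≤ ν * 2 ^ D * B := by
  refine le_trans ?_ (mul_le_mul_of_nonneg_left h3 (by positivity))
  rw [mul_sum]
  refine sum_le_sum fun x hx => (h1 x hx).trans ?_
  rw [mul_assoc, ← zpow_natCast, ← zpow_add₀ (by norm_num), ← sub_eq_add_neg]
  exact mul_le_mul_of_nonneg_left (zpow_le_zpow_right₀ (by norm_num) (h2 x hx)) hν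

end CoreA

open CoreA in
theorem core_k : ADMStmt → UNIStmt → BOXStmt → EXPStmt → SUMStmt → COREStmt := by
  intro hA hU hB hE hS g κ hg
  classical
  obtain ⟨c, hc⟩ := hU (2 * g + 1)
  obtain ⟨cB, hcB, hB⟩ := hB (2 * g + 1)
  obtain ⟨C1, hC1, hS⟩ := hS g hg
  set K0 : ℝ := cB ^ (κ + c + 1) * 2 ^ (c * (2 * g + 1) ^ 2) with hK0
  have hK0p : 0 < K0 := by positivity
  refine ⟨K0 * C1 * (2 ^ (κ + κ)) ^ (2 * g + 1) ^ 2, by positivity,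
    fun L μ N₀ hL hμ hD s s₂ k hk S hSf => ?_⟩
  set k' : ℕ := κ + k + κ with hk'
  have hrep : ∀ x : ℤ[X] × ℤ, ∃ y : (Fin (2 * g + 1) → ℤ) × (Fin (2 * g + 1) → ℤ), x ∈ S →
      Adm2 k' y.1 y.2 ∧ (Dp k' y.1 → s₂ ≠ 0 → (2 * s₂ : ℤ) ≤ dp k' y.1) ∧
      UC.Irr x.1 ∧ x.2 ≠ 0 ∧ ∃ A A' N : UC.Mz (2 * g + 1), Tri x.1 x.2 A A' N ∧ L A A' N ∧
        UC.Box κ y.1 A ∧ UC.Box κ y.2 A' ∧ Box2 ((κ : ℤ) + k) y.1 y.2 N := by
    intro x
    by_cases hx : x ∈ S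
    · obtain ⟨h1, h2, e, e', A, A', N, x1, x2, hT, hl, b1, b2, b3, nz, hz⟩ := hSf x hx
      obtain ⟨a1, a2⟩ := hA g κ (κ + k) x.1 x.2 A A' N e e' hg hT h1 h2 x1 x2 b1 b2
        (by rwa [Nat.cast_add]) nz
      refine ⟨(e, e'), fun _ => ⟨a1, fun d h0 => (hz (a2 d) h0).trans ?_, h1, h2, A, A', N, hT, hl,
        b1, b2, b3⟩⟩
      have h5 : 2 * k * UC.tri g ≤ 2 * k' * UC.tri g := Nat.mul_le_mul_right _ (by omega)
      simp only [dp]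
      omega
    · exact ⟨0, fun h => absurd h hx⟩
  choose ef hef using hrep
  set E := S.image ef with hEdef
  have hE1 : ∀ y ∈ E, Adm2 k' y.1 y.2 := by
    intro y hy
    obtain ⟨x, hx, rfl⟩ := mem_image.1 hy
    exact (hef x hx).1
  have hE2 : ∀ y ∈ E, Dp k' y.1 → (2 * s₂ : ℤ) ≤ dp k' y.1 := by
    intro y hy hd
    by_cases h0 : s₂ = 0
    · rw [h0]
      simpa using (hS k' E hE1).2.1 y hy
    obtain ⟨x, hx, rfl⟩ := mem_image.1 hy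
    exact (hef x hx).2.1 hd h0
  set w : (Fin (2 * g + 1) → ℤ) × (Fin (2 * g + 1) → ℤ) → ℝ :=
    fun y => ((S.filter fun x => ef x = y).card : ℝ) with hw
  have hfib : ∀ y ∈ E, ∀ ν : ℝ, 0 ≤ ν →
      (ν = 1 ∨ Dens2 L ν N₀ ∧ ∀ p q, (N₀ : ℤ) ≤ (κ : ℤ) + k + c + y.2 p + y.1 q) →
      w y ≤ ν * K0 * (2 : ℝ) ^ Phi2 k' y.1 y.2 := by
    intro y hy ν hν h
    obtain ⟨W, hW, hW'⟩ := hB (κ + c) ((κ : ℤ) + k + c) y.1 y.2 L ν N₀ hν h
    rw [Nat.cast_add] at hW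
    have h1 := hc κ ((κ : ℤ) + k) y.1 y.2 L hL (hE1 y hy).ex.1 (hE1 y hy).ex'.1
      (S.filter fun x => ef x = y) W (fun x hx => by
        obtain ⟨hx', rfl⟩ := mem_filter.1 hx
        exact (hef x hx').2.2) hW
    have := fin_bound ((κ : ℤ) + k) k' c (by rw [hk']; push_cast; omega) y.1 y.2 _ _ _
      (by positivity) h1 hW'
    rwa [mul_assoc ν] at this
  have htot : (S.card : ℝ) = ∑ y ∈ E, w y := by
    rw [card_eq_sum_card_image ef S]; push_cast; rfl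
  have s1 := cls (E.filter fun y => Dp k' y.1) w (fun y => Phi2 k' y.1 y.2) (fun y => dp k' y.1)
    (1 * K0) _ (k' * (2 * g + 1) ^ 2) (by positivity)
    (fun y hy => hfib y (mem_filter.1 hy).1 1 zero_le_one (Or.inl rfl))
    (fun y hy => (hE g k' _ _ hg (hE1 y (mem_filter.1 hy).1)).2 (mem_filter.1 hy).2)
    ((hS k' _ fun y hy => hE1 y (mem_filter.1 hy).1).2.2 s₂
      fun y hy => hE2 y (mem_filter.1 hy).1 (mem_filter.1 hy).2)
  have s2 := cls ((E.filter fun y => ¬Dp k' y.1).filter fun y => (2 * s : ℤ) ≤ gn k' y.1 y.2) w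
    (fun y => Phi2 k' y.1 y.2) (fun y => gn k' y.1 y.2)
    (1 * K0) _ (k' * (2 * g + 1) ^ 2) (by positivity)
    (fun y hy => hfib y (mem_filter.1 (mem_filter.1 hy).1).1 1 zero_le_one (Or.inl rfl))
    (fun y hy => (hE g k' _ _ hg (hE1 y (mem_filter.1 (mem_filter.1 hy).1).1)).1
      (mem_filter.1 (mem_filter.1 hy).1).2)
    ((hS k' _ fun y hy => hE1 y (mem_filter.1 (mem_filter.1 hy).1).1).1 s
      fun y hy => (mem_filter.1 hy).2)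
  have s3 := cls ((E.filter fun y => ¬Dp k' y.1).filter fun y => ¬(2 * s : ℤ) ≤ gn k' y.1 y.2) w
    (fun y => Phi2 k' y.1 y.2) (fun y => gn k' y.1 y.2)
    (μ * K0) _ (k' * (2 * g + 1) ^ 2) (by positivity)
    (fun y hy => hfib y (mem_filter.1 (mem_filter.1 hy).1).1 μ hμ (Or.inr ⟨hD, fun p q => by
      have a := hE1 y (mem_filter.1 (mem_filter.1 hy).1).1
      have h0 := (mem_filter.1 hy).2
      have h1 : y.2 0 ≤ y.2 p := a.ex'.1 (Fin.zero_le p)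
      have h2 : y.1 0 ≤ y.1 q := a.ex.1 (Fin.zero_le q)
      simp only [gn] at h0
      omega⟩))
    (fun y hy => (hE g k' _ _ hg (hE1 y (mem_filter.1 (mem_filter.1 hy).1).1)).1
      (mem_filter.1 (mem_filter.1 hy).1).2)
    ((hS k' _ fun y hy => hE1 y (mem_filter.1 (mem_filter.1 hy).1).1).1 0 fun y hy => by
      have := ex0 (hE1 y (mem_filter.1 (mem_filter.1 hy).1).1).ex
      simp only [gn]
      omega)
  have hPX : (2 : ℝ) ^ (k' * (2 * g + 1) ^ 2) =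
      (2 ^ (κ + κ)) ^ (2 * g + 1) ^ 2 * ((2 : ℝ) ^ k) ^ (2 * g + 1) ^ 2 := by
    rw [pow_mul, ← mul_pow, ← pow_add, show κ + κ + k = k' by omega]
  rw [htot, ← sum_filter_add_sum_filter_not E (fun y => Dp k' y.1),
    ← sum_filter_add_sum_filter_not (E.filter fun y => ¬Dp k' y.1)
      (fun y => (2 * s : ℤ) ≤ gn k' y.1 y.2)]
  refine (add_le_add s1 (add_le_add s2 s3)).trans (le_of_eq ?_)
  rw [hPX]
  generalize ((2 : ℝ) ^ (κ + κ)) ^ (2 * g + 1) ^ 2 = u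
  generalize ((2 : ℝ) ^ k) ^ (2 * g + 1) ^ 2 = v
  ring

end Pool.Agent.MP_a43263_nt.K2
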