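import Pool.Agent.MP_a43263_nt.K2.Spec

/-! THEOREM R2: the count of the bad pairs. -/

set_option autoImplicit false

noncomputable section

namespace Pool.Agent.MP_a43263_nt.K2

open Polynomial Finset Filter Matrix JC Pool.Agent.MP_a43263_nt.UV

theorem count_k : CHGStmt → REDStmt → DENStmt → COREStmt → COUNTStmt := by
  classical
  intro hC hR hD hK g hg
  obtain ⟨κ, hκ⟩ := hR g
  obtain ⟨K, hK, hcore⟩ := hK g κ hg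
  obtain ⟨q0, hD⟩ := hD g hg
  obtain ⟨n, hn⟩ : ∃ n, n = (2 * g + 1) ^ 2 := ⟨_, rfl⟩
  rw [← hn] at hcore ⊢
  refine ⟨q0, K * 2 ^ n * (2 * 2 ^ (g * κ)), by positivity, fun Q f₀ m₀ M ε hQ hM hε => ?_⟩
  obtain ⟨m, hm⟩ : ∃ m : ℕ, K * 2 ^ n / ε < 2 ^ m := pow_unbounded_of_one_lt _ (by norm_num)
  obtain ⟨m₂, hm1, hm2⟩ : ∃ m₂ : ℕ, M / 2 ^ (g * κ) < 4 ^ (m₂ + 1) ∧
      (m₂ ≠ 0 → 4 ^ m₂ ≤ M / 2 ^ (g * κ)) := by
    by_cases h1 : 1 ≤ M / 2 ^ (g * κ)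
    · obtain ⟨n, h2, h3⟩ := exists_nat_pow_near h1 (y := (4 : ℝ)) (by norm_num)
      exact ⟨n, h3, fun _ => h2⟩
    · exact ⟨0, by linarith [not_le.1 h1], fun h => absurd rfl h⟩
  have hDen := hD Q f₀ m₀ hQ
  set N₀ : ℕ := ∏ q ∈ Q, q
  filter_upwards [eventually_ge_atTop ((2 : ℝ) ^ (4 * m + N₀))] with ρ hρ S hS
  have hρ1 : 1 ≤ ρ := le_trans (one_le_pow₀ (by norm_num)) hρ
  obtain ⟨j, hj1, hj2⟩ := exists_nat_pow_near hρ1 (y := (2 : ℝ)) (by norm_num)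
  have hk : 4 * m + N₀ ≤ j + 1 :=
    (pow_le_pow_iff_right₀ (by norm_num : (1 : ℝ) < 2)).1 (hρ.trans hj2.le)
  set μ : ℝ := (9 / 10) ^ Q.card / (∏ q ∈ Q, (q : ℝ)) ^ (2 * g + 1) with hμ
  have hμ0 : 0 ≤ μ := by positivity
  have hmain := hcore (Lc Q f₀ m₀) μ N₀ (hC.2.2.2 g Q f₀ m₀) hμ0 hDen m m₂ (j + 1) hk S
    fun x hx => by
      obtain ⟨hZ, h0, A, A', N, H, H', hT, hL, hMaj, hDst, hDst'⟩ := hS x hx
      obtain ⟨γ, β, e, e', hγ, hβ, hE, hE', b0, b1, b2, hcu, hnz⟩ :=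
        hκ M ρ (j + 1) A A' N H H' hT.det hT.det' hMaj hDst hDst' (by linarith) hj2.le
      refine ⟨hZ.irr, h0, e, e', _, _, _, hE, hE',
        hC.2.1 _ x.1 x.2 A A' N γ β hT.det hT.det' hγ hβ hT,
        hC.2.2.2 g Q f₀ m₀ A A' N γ β hT.det hT.det' hγ hβ hL, b0, b1, b2, hnz, fun hd h1 => ?_⟩
      have h2 := hm2 h1
      rw [le_div_iff₀ (by positivity)] at h2
      have h3 : (4 : ℝ) ^ m₂ * 2 ^ (g * κ) = 2 ^ ((2 * m₂ + g * κ : ℕ) : ℤ) := by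
        rw [zpow_natCast, pow_add, pow_mul 2 2 m₂]; norm_num
      have h4 := h2.trans (hcu hd)
      rw [h3, zpow_le_zpow_iff_right₀ (by norm_num)] at h4
      push_cast at h4 ⊢
      linarith
  have hpow : ((2 : ℝ) ^ (j + 1)) ^ n ≤ 2 ^ n * ρ ^ n := by
    rw [← mul_pow, pow_succ, mul_comm]
    gcongr
  have hg1 : (1 : ℝ) ≤ 2 ^ (g * κ) := one_le_pow₀ (by norm_num)
  have t1 : K * 2 ^ n * μ ≤ K * 2 ^ n * (2 * 2 ^ (g * κ)) * (9 / 10) ^ Q.card /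
      (∏ q ∈ Q, (q : ℝ)) ^ (2 * g + 1) := by
    rw [mul_div_assoc, ← hμ]
    have : K * 2 ^ n ≤ K * 2 ^ n * (2 * 2 ^ (g * κ)) :=
      le_mul_of_one_le_right (by positivity) (by linarith)
    gcongr
  have t2 : K * 2 ^ n * (1 / 2 ^ m) ≤ ε := by
    rw [div_lt_iff₀ hε] at hm
    rw [← mul_div_assoc, div_le_iff₀ (by positivity)]
    linarith
  have t3 : K * 2 ^ n * (1 / 2 ^ m₂) ≤ K * 2 ^ n * (2 * 2 ^ (g * κ)) / √M := by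
    rw [mul_div_assoc _ (2 * (2 : ℝ) ^ (g * κ))]
    refine mul_le_mul_of_nonneg_left ?_ (by positivity)
    rw [div_le_div_iff₀ (by positivity) (Real.sqrt_pos.2 hM), one_mul]
    refine Real.sqrt_le_iff.2 ⟨by positivity, ?_⟩
    rw [div_lt_iff₀ (by positivity)] at hm1
    have h4 : (4 : ℝ) ^ (m₂ + 1) = (2 * 2 ^ m₂) ^ 2 := by
      rw [← pow_succ', ← pow_mul, mul_comm, pow_mul]; norm_num
    calc M ≤ 4 ^ (m₂ + 1) * 2 ^ (g * κ) := hm1.le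
      _ ≤ 4 ^ (m₂ + 1) * (2 ^ (g * κ)) ^ 2 := by
          gcongr
          exact le_self_pow₀ hg1 (by norm_num)
      _ = _ := by rw [h4]; ring
  calc (S.card : ℝ) ≤ _ := hmain
    _ ≤ K * (2 ^ n * ρ ^ n) * (μ + 1 / 2 ^ m + 1 / 2 ^ m₂) := by gcongr
    _ = (K * 2 ^ n * μ + K * 2 ^ n * (1 / 2 ^ m) + K * 2 ^ n * (1 / 2 ^ m₂)) * ρ ^ n := by ring
    _ ≤ _ := by gcongr

end Pool.Agent.MP_a43263_nt.K2
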