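import Pool.Agent.MP_a43263_nt.K2.Spec

/-! The descent: the rank is read off from the classes. -/

set_option autoImplicit false

noncomputable section

namespace Pool.Agent.MP_a43263_nt.K2

open Polynomial Finset Filter Matrix JC Pool.Agent.MP_a43263_nt.UV

namespace DescA

variable {K : Type} [Field K] {f F κ : K[X]}

theorem sqm_congr {x y : K[X]} (h : f ∣ x - y) (hx : Sqm f x) : Sqm f y := by
  obtain ⟨z, hz⟩ := hx
  exact ⟨z, by simpa using hz.sub h⟩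

theorem sqm_comp (hs : Is f F κ) (x : K[X]) : Sqm f (x.comp κ) ↔ Sqm F x := by
  constructor
  · rintro ⟨z, t, ht⟩
    obtain ⟨P, s, hP⟩ := hs.sur z
    refine ⟨P, (hs.ker _).1 ⟨t + s * (z + P.comp κ), ?_⟩⟩
    rw [sub_comp, pow_comp]
    linear_combination ht + (z + P.comp κ) * hP
  · rintro ⟨z, hz⟩
    refine ⟨z.comp κ, ?_⟩
    rw [← pow_comp, ← sub_comp]
    exact (hs.ker _).2 hz

theorem sqm_cancel {x a : K[X]} (ha : IsCoprime a F) (h : Sqm F (x * a ^ 2)) : Sqm F x := by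
  obtain ⟨b, c, hb⟩ := ha
  obtain ⟨z, t, ht⟩ := h
  exact ⟨z * b, b ^ 2 * t + x * c * (1 + b * a), by
    linear_combination b ^ 2 * ht - x * (1 + b * a) * hb⟩

theorem par {d e : K[X]} (hd : IsCoprime d F) (he : IsCoprime e F) (h1 : ¬Sqm F d)
    (h2 : ¬Sqm F e) (h3 : ¬Sqm F (d * e)) {a b : ℕ} (h : Sqm F (d ^ a * e ^ b)) :
    a % 2 = 0 ∧ b % 2 = 0 := by
  have k : Sqm F (d ^ (a % 2) * e ^ (b % 2)) := by
    refine sqm_cancel (a := d ^ (a / 2) * e ^ (b / 2)) (hd.pow_left.mul_left he.pow_left) ?_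
    rw [← Nat.mod_add_div a 2, ← Nat.mod_add_div b 2] at h
    rwa [show d ^ (a % 2) * e ^ (b % 2) * (d ^ (a / 2) * e ^ (b / 2)) ^ 2 =
      d ^ (a % 2 + 2 * (a / 2)) * e ^ (b % 2 + 2 * (b / 2)) by ring]
  rcases Nat.mod_two_eq_zero_or_one a with ha | ha <;>
    rcases Nat.mod_two_eq_zero_or_one b with hb | hb <;> rw [ha, hb] at k
  · exact ⟨ha, hb⟩
  · exact absurd (by simpa using k) h2
  · exact absurd (by simpa using k) h1
  · exact absurd (by simpa using k) h3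

theorem wc_pow [CharZero K] {g : ℕ} (hF : UV.Sq g F) {d : K[X]} (hd : Wc 1 F d) (n : ℕ) :
    Wc 1 F (d ^ n) := by
  obtain ⟨w1, w2, -⟩ := wg gram K g 1 F hF one_ne_zero
  induction n with
  | zero => rwa [pow_zero]
  | succ n ih => rw [pow_succ]; exact w2 _ _ ih hd

theorem els {g : ℕ} {F d : ℚ[X]} (hF : UV.Sq g F) (hd : Wc 1 F d) : Els F d := by
  obtain ⟨-, -, -, -, -, w⟩ := wg gram ℚ g 1 F hF one_ne_zero
  refine ⟨?_, fun p _ => ?_⟩
  · have := w ℝ (Rat.castHom ℝ) d hd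
    rwa [map_one] at this
  · have := w ℚ_[p] (Rat.castHom ℚ_[p]) d hd
    rwa [map_one] at this

end DescA

open DescA

theorem desc_k : WSQStmt → SHAStmt → IDXStmt → TORStmt → DESCStmt := by
  intro wsq sha idx tor g r F I hF hc hW hs hE
  have hq := hF.sq ℚ
  have ew : ∀ d, Els (zK F ℚ) d → Wc 1 (zK F ℚ) d := fun d hd => by
    obtain ⟨e, he, h⟩ := hE d hd
    exact wsq ℚ _ e d (hW e he) (isCoprime_of_map _ hd.1.1) (mul_comm d e ▸ h)
  have hi := idx g _ I hq hW hs fun d hd => hE d (els hq hd)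
  have ht := tor g _ hq hF.irr
  have fg : AddGroup.FG (JQ (zK F ℚ)) :=
    UM.mwU g F hF.pos hF.monic hF.deg hq.sep (by rw [hi, hc]; positivity)
  obtain ⟨n, h2, h3⟩ := Two.index_two fg
  have c1 : Nat.card {P : JQ (zK F ℚ) // 2 • P = 0} = 1 :=
    Nat.card_eq_one_iff_unique.2
      ⟨⟨fun x y => Subtype.ext ((ht _ x.2).trans (ht _ y.2).symm)⟩, ⟨0, by simp⟩⟩
  rw [hi, hc, c1, mul_one] at h3
  obtain rfl : r = n := Nat.pow_right_injective le_rfl h3
  exact ⟨Module.Finite.iff_addGroup_fg.2 fg, Module.finrank_eq_of_rank_eq h2, ht, sha g _ hq ew⟩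

theorem four_k : ISOStmt → WTStmt → DESCStmt → FOURStmt := by
  classical
  intro iso wt desc g f F κ u v G m hf hc hm n1 n2 n3 hE
  obtain ⟨hF, hs⟩ := iso g f F κ u v G hf hc
  replace hs := hs ℚ
  obtain ⟨-, -, -, ⟨d, hd, kd⟩, w⟩ := wt g f F κ u v G hf hc ℚ
  obtain ⟨e, he, ke⟩ := w m hm
  have hq := hF.sq ℚ
  have cg : ∀ (x : ℚ[X]) (i j : ℕ), zK f ℚ ∣ x.comp (zK κ ℚ) * zK (be u v G) ℚ ^ i * (1 - X) ^ j -
      (x * (d ^ i * e ^ j)).comp (zK κ ℚ) := fun x i j => by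
    rw [mul_comp, mul_comp, pow_comp, pow_comp, mul_assoc, ← mul_sub]
    refine Dvd.dvd.mul_left ?_ _
    rw [show ∀ a b a' b' : ℚ[X], a * b - a' * b' = (a - a') * b + a' * (b - b') from
      fun _ _ _ _ => by ring]
    exact dvd_add ((kd.trans (sub_dvd_pow_sub_pow _ _ i)).mul_right _)
      ((ke.trans (sub_dvd_pow_sub_pow _ _ j)).mul_left _)
  have bk : ∀ i j : ℕ, Sqm (zK F ℚ) (d ^ i * e ^ j) →
      Sqm (zK f ℚ) (zK (be u v G) ℚ ^ i * (1 - X) ^ j) := fun i j h => by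
    have := cg 1 i j
    rw [one_comp, one_mul, one_mul] at this
    exact sqm_congr (dvd_sub_comm.1 this) ((sqm_comp hs _).2 h)
  have m1 : ¬Sqm (zK F ℚ) d := fun h => n2 (by simpa using bk 1 0 (by simpa using h))
  have m2 : ¬Sqm (zK F ℚ) e := fun h => n1 (by simpa using bk 0 1 (by simpa using h))
  have m3 : ¬Sqm (zK F ℚ) (d * e) := fun h => n3 (by simpa using bk 1 1 (by simpa using h))
  let D : Fin 2 × Fin 2 → ℚ[X] := fun a => d ^ a.1.1 * e ^ a.2.1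
  have sep : ∀ a b, Sqm (zK F ℚ) (D a * D b) → a = b := fun a b h => by
    rw [show D a * D b = d ^ (a.1.1 + b.1.1) * e ^ (a.2.1 + b.2.1) by simp only [D]; ring] at h
    obtain ⟨p1, p2⟩ := par hd.1 he.1 m1 m2 m3 h
    exact Prod.ext (Fin.ext (by omega)) (Fin.ext (by omega))
  have inj : Function.Injective D := fun a b h =>
    sep a b ⟨D b, by rw [h, sq, sub_self]; exact dvd_zero _⟩
  refine desc g 2 F (univ.image D) hF (by rw [card_image_of_injective _ inj]; simp) ?_ ?_ ?_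
  · intro x hx
    obtain ⟨a, -, rfl⟩ := mem_image.1 hx
    exact (wg gram ℚ g 1 _ hq one_ne_zero).2.1 _ _ (wc_pow hq hd _) (wc_pow hq he _)
  · intro x hx y hy h
    obtain ⟨a, -, rfl⟩ := mem_image.1 hx
    obtain ⟨b, -, rfl⟩ := mem_image.1 hy
    rw [sep a b h]
  · intro x hx
    obtain ⟨i, j, hi, hj, h⟩ := hE x hx
    have k : Sqm (zK F ℚ) (x * (d ^ i * e ^ j)) := (sqm_comp hs _).1 (sqm_congr (cg x i j) h)
    exact ⟨D (⟨i, by omega⟩, ⟨j, by omega⟩), mem_image_of_mem D (mem_univ _), k⟩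

end Pool.Agent.MP_a43263_nt.K2
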