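import Pool.Agent.MP_a43263_nt.K2.Spec

/-! THEOREM R2: primes that do not divide the resultant. -/

set_option autoImplicit false

noncomputable section

namespace Pool.Agent.MP_a43263_nt.K2

open Polynomial Finset Filter Matrix JC Pool.Agent.MP_a43263_nt.UV

namespace Ev1A

/-- the parity of the exponent from the norm -/
theorem par {p : ℕ} [Fact p.Prime] {g : ℕ} {f : ℤ[X]} (hz : Zq g f) {δ x : ℚ_[p][X]}
    {r : ℤ_[p][X]} {j : ℤ} (hn : IsSquare (Nm (zK f ℚ_[p]) δ))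
    (h : zK f ℚ_[p] ∣ δ * x ^ 2 - C ((p : ℚ_[p]) ^ j) * iq p r)
    (hc : IsCoprime (rq p r) (zK f (ZMod p))) : Ev p f δ := by
  obtain ⟨A, hA⟩ := hn
  obtain ⟨n1, n2, n3, -, -, -⟩ := gram.1 ℚ_[p] _ (hz.mo ℚ_[p])
  obtain ⟨-, -, -, -, -, n6⟩ := gram.1 ℤ_[p] _ (hz.mo ℤ_[p])
  have hu : IsUnit (Nm (zK f ℤ_[p]) r) := Ev.unit_of (by
    rw [← n6, zK_map]
    exact (((gram.1 (ZMod p) _ (hz.mo _)).2.2.2.1 _).2 hc).ne_zero)
  have hp : (p : ℚ_[p]) ≠ 0 := Nat.cast_ne_zero.2 (Fact.out : p.Prime).ne_zero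
  have h2 := n2 _ _ h
  have h3 := n6 _ PadicInt.Coe.ringHom r
  rw [zK_map] at h3
  rw [sq, n1, n1, n1, n3, hA, h3, hz.dg, ← zpow_natCast, ← _root_.zpow_mul] at h2
  have h4 : (A * Nm (zK f ℚ_[p]) x) ^ 2 =
      (p : ℚ_[p]) ^ (j * (2 * g + 1 : ℕ)) * (Nm (zK f ℤ_[p]) r : ℤ_[p]) := by
    rw [sq, mul_mul_mul_comm, h2]
    rfl
  have u0 : ((Nm (zK f ℤ_[p]) r : ℤ_[p]) : ℚ_[p]) ≠ 0 := PadicInt.coe_ne_zero.2 hu.ne_zero
  obtain ⟨-, h5⟩ := Ev.even_of (A := A * Nm (zK f ℚ_[p]) x)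
    (fun c => mul_ne_zero (zpow_ne_zero _ hp) u0 (by rw [← h4, c, sq, mul_zero])) hu
    (j := j * (2 * g + 1 : ℕ)) (D := (Nm (zK f ℤ_[p]) r : ℤ_[p])) (by rw [h4]; ring)
  obtain ⟨i, rfl⟩ : Even j := (Int.even_mul.1 h5).resolve_right (by
    rw [Int.even_coe_nat, Nat.not_even_iff_odd]
    exact odd_two_mul_add_one g)
  have e2 : C ((p : ℚ_[p]) ^ (-i)) ^ 2 * C ((p : ℚ_[p]) ^ (i + i)) = 1 := by
    rw [sq, ← C_mul, ← C_mul, ← zpow_add₀ hp, ← zpow_add₀ hp]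
    simp
  obtain ⟨y, hy⟩ := h
  refine ⟨C ((p : ℚ_[p]) ^ (-i)) * x, r, ⟨C ((p : ℚ_[p]) ^ (-i)) ^ 2 * y, ?_⟩, hc⟩
  linear_combination C ((p : ℚ_[p]) ^ (-i)) ^ 2 * hy + iq p r * e2

end Ev1A

theorem ev1_k : WTStmt → MOBStmt → EVHStmt → EV1Stmt := by
  intro wt mob evh p _ g f F κ u v G δ hz hc hn hG hw
  have h1 : IsCoprime (zK (el u v) (ZMod p)) (zK f (ZMod p)) := by
    have a := (gram.1 ℤ f hz.monic).2.2.2.2.2 (ZMod p) (Int.castRingHom _) (-el u v)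
    rw [hc.nm, Polynomial.map_neg] at a
    refine (IsCoprime.neg_left_iff _ _).1 (((gram.1 (ZMod p) _ (hz.mo _)).2.2.2.1 _).1 ?_)
    rw [a]
    exact Ne.isUnit fun c => hG ((ZMod.intCast_zmod_eq_zero_iff_dvd _ p).1 c)
  obtain ⟨j, x, r, a, b⟩ := evh p f 1 (zK f ℤ_[p]) (zK (el u v) ℤ_[p]) δ hn (one_mul _).symm
    (hz.mo _) (by rwa [rq, rq, zK_map, zK_map])
    (by rw [iq, zK_map]; exact mob g f F κ u v G hz hc _ δ hw)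
  simp only [zK_map] at a b
  exact Ev1A.par hz ((wt g f F κ u v G hz hc ℚ_[p]).1 δ hw).2 a b

end Pool.Agent.MP_a43263_nt.K2
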