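import Pool.Agent.MP_a43263_nt.K2.Spec

/-! THEOREM R2: primes that divide the resultant once. -/

set_option autoImplicit false

noncomputable section

namespace Pool.Agent.MP_a43263_nt.K2

open Polynomial Finset Filter Matrix JC Pool.Agent.MP_a43263_nt.UV
open UV.Cmp (unit_iff zero_iff iq_eval)

namespace Ev2A

section
variable {R : Type} [CommRing R]

theorem crt {a : R} {h : R[X]} (ha : IsUnit (h.eval a)) (A : R) (Z : R[X]) :
    ∃ W : R[X], W.eval a = A ∧ h ∣ W - Z := by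
  obtain ⟨s, hs⟩ := ha.exists_right_inv
  refine ⟨Z + h * C ((A - Z.eval a) * s), ?_, by rw [add_sub_cancel_left]; exact dvd_mul_right _ _⟩
  simp only [eval_add, eval_mul, eval_C]
  linear_combination (A - Z.eval a) * hs

theorem two [IsDomain R] {a : R} {h D : R[X]} (ha : h.eval a ≠ 0) (h1 : D.eval a = 0)
    (h3 : h ∣ D) : (X - C a) * h ∣ D := by
  obtain ⟨E, rfl⟩ := h3
  rw [eval_mul, mul_eq_zero] at h1
  obtain ⟨E, rfl⟩ := dvd_iff_isRoot.2 (h1.resolve_left ha)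
  exact ⟨E, by ring⟩

theorem el_eq (u v : ℤ) : zK (el u v) R = C ((v : R) ^ 2) * (X - 1) + C ((u : R) ^ 2) := by
  simp [el, zK]

end

theorem cop {K : Type} [Field K] {t : K} {P : K[X]} : IsCoprime (X - C t) P ↔ P.eval t ≠ 0 := by
  rw [(irreducible_X_sub_C t).coprime_iff_not_dvd, dvd_iff_isRoot, IsRoot]

variable {p : ℕ} [Fact p.Prime]

theorem rq_eval (r : ℤ_[p][X]) (a : ℤ_[p]) :
    (rq p r).eval (PadicInt.toZMod a) = PadicInt.toZMod (r.eval a) := by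
  rw [eval_map, eval₂_at_apply]

/-- a simple root lifts -/
theorem lift {F : ℤ_[p][X]} {t : ZMod p} {G₀ : (ZMod p)[X]} (e : rq p F = (X - C t) * G₀)
    (hG : G₀.eval t ≠ 0) :
    ∃ a G, F = (X - C a) * G ∧ PadicInt.toZMod a = t ∧ rq p G = G₀ := by
  obtain ⟨a₀, rfl⟩ := ZMod.ringHom_surjective (PadicInt.toZMod (p := p)) t
  have a1 : ‖F.eval a₀‖ < 1 := by
    rw [← zero_iff, ← rq_eval, e]
    simp
  have a2 : ‖F.derivative.eval a₀‖ = 1 := by
    rw [← PadicInt.isUnit_iff, unit_iff, ← rq_eval, rq, ← derivative_map, ← rq, e]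
    simpa using hG
  obtain ⟨a, b1, b2, -⟩ := hensels_lemma (F := F) (a := a₀)
    (by rw [coe_aeval_eq_eval, a2, one_pow]; exact a1)
  rw [coe_aeval_eq_eval] at b1 b2
  rw [a2, ← zero_iff, map_sub, sub_eq_zero] at b2
  obtain ⟨G, hG⟩ := (dvd_iff_isRoot (p := F) (a := a)).2 b1
  refine ⟨a, G, hG, b2, ?_⟩
  rw [hG, rq, Polynomial.map_mul, Polynomial.map_sub, map_X, map_C, b2] at e
  exact mul_left_cancel₀ (X_sub_C_ne_zero _) e

/-- the norm decides the valuation at the remaining root -/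
theorem key {f : ℤ[X]} {a : ℤ_[p]} {h r : ℤ_[p][X]} {δ x : ℚ_[p][X]}
    (e : zK f ℤ_[p] = (X - C a) * h) (mh : h.Monic) (ua : IsUnit (h.eval a))
    (co : IsCoprime δ (zK f ℚ_[p])) (sq : IsSquare (Nm (zK f ℚ_[p]) δ))
    (dv : iq p h ∣ δ * x ^ 2 - iq p r) (cr : IsCoprime (rq p r) (rq p h)) : Ev p f δ := by
  have G := UV.gram.1
  obtain ⟨s, hs⟩ := sq
  have hm : (iq p h).Monic := mh.map _
  have qa : (iq p h).eval (a : ℚ_[p]) ≠ 0 := iq_eval h a ▸ (ua.map PadicInt.Coe.ringHom).ne_zero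
  have em : zK f ℚ_[p] = (X - C (a : ℚ_[p])) * iq p h := by
    rw [← iq_zK, e, iq, Polynomial.map_mul, Polynomial.map_sub, map_X, map_C]
    rfl
  rw [em] at co hs
  have d0 : δ.eval (a : ℚ_[p]) ≠ 0 := cop.1 co.of_mul_right_left.symm
  rw [(G _ _ (monic_X_sub_C _)).2.2.2.2.1 _ hm, Nm, natDegree_X_sub_C,
    resultant_X_sub_C_left _ _ _ le_rfl] at hs
  obtain ⟨k1, k2, -, -, -, -⟩ := G _ _ hm
  have k6 := (G _ _ mh).2.2.2.2.2
  have uw : IsUnit (Nm h r) := by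
    rwa [unit_iff, ← k6, ← isUnit_iff_ne_zero, (G _ _ (mh.map _)).2.2.2.1]
  have n := k2 _ _ dv
  rw [pow_two, k1, k1, k6] at n
  have w0 : PadicInt.Coe.ringHom (Nm h r) ≠ 0 := (uw.map _).ne_zero
  have n0 : s * Nm (iq p h) x ≠ 0 := fun c => mul_ne_zero d0 w0 (by
    rw [← n]
    linear_combination (Nm (iq p h) x * Nm (iq p h) x) * hs + (s * Nm (iq p h) x) * c)
  obtain ⟨W, w1, w2⟩ := crt ua (Nm h r) r
  obtain ⟨y, x1, x2⟩ := crt qa.isUnit (PadicInt.Coe.ringHom (Nm h r) / (s * Nm (iq p h) x)) x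
  have a2 := Polynomial.map_dvd (PadicInt.Coe.ringHom (p := p)) w2
  have a3 := Polynomial.map_dvd (PadicInt.toZMod (p := p)) w2
  rw [Polynomial.map_sub] at a2 a3
  refine ⟨y, W, ?_, ?_⟩
  · rw [em]
    refine two qa ?_ ?_
    · rw [eval_sub, eval_mul, eval_pow, iq_eval, w1, x1, div_pow, sub_eq_zero, ← mul_div_assoc,
        div_eq_iff (pow_ne_zero 2 n0)]
      change _ = PadicInt.Coe.ringHom (Nm h r) * _
      generalize PadicInt.Coe.ringHom (Nm h r) = w at n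
      linear_combination w * (Nm (iq p h) x * Nm (iq p h) x) * hs - w * δ.eval (a : ℚ_[p]) * n
    · obtain ⟨A, hA⟩ := dv
      obtain ⟨B, hB⟩ := x2
      obtain ⟨D, hD⟩ := a2
      exact ⟨δ * (y + x) * B + A - D, by linear_combination δ * (y + x) * hB + hA - hD⟩
  · rw [← rq_zK, e, rq, rq, Polynomial.map_mul, Polynomial.map_sub, map_X, map_C]
    refine IsCoprime.mul_right (cop.2 ?_).symm ?_
    · rw [rq_eval, w1]
      exact unit_iff.1 uw
    · obtain ⟨D, hD⟩ := a3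
      rw [sub_eq_iff_eq_add'.1 hD]
      exact cr.add_mul_left_left D

end Ev2A

open Ev2A in
theorem ev2_k : WTStmt → MOBStmt → EVHStmt → EV2Stmt := by
  intro wt mob evh p _ g f F κ u v G δ Z cp uv nx d1 d2 sr W
  have hp : (p : ℚ_[p]) ≠ 0 := Nat.cast_ne_zero.2 (Fact.out : p.Prime).ne_zero
  have nc : ¬IsCoprime (zK (el u v) (ZMod p)) (zK f (ZMod p)) := fun c => by
    have := ((UV.gram.1 _ _ (Z.mo (ZMod p))).2.2.2.1 _).2 c.neg_left
    rw [← Polynomial.map_neg, (UV.gram.1 _ _ Z.monic).2.2.2.2.2, cp.nm, eq_intCast,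
      (ZMod.intCast_zmod_eq_zero_iff_dvd _ p).2 d1] at this
    exact not_isUnit_zero this
  have v0 : (v : ZMod p) ≠ 0 := fun c => nc (by
    have := uv.map (Int.castRingHom (ZMod p))
    rw [eq_intCast, eq_intCast, c, isCoprime_zero_right] at this
    rw [el_eq, c, zero_pow two_ne_zero, C_0, zero_mul, zero_add, ← mul_one (C _)]
    exact (isCoprime_mul_unit_left_left (isUnit_C.2 (this.pow 2)) _ _).2 isCoprime_one_left)
  obtain ⟨t, ht⟩ : ∃ t : ZMod p, zK (el u v) (ZMod p) = C ((v : ZMod p) ^ 2) * (X - C t) :=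
    ⟨1 - (u : ZMod p) ^ 2 / (v : ZMod p) ^ 2, by
      rw [el_eq, C_sub, C_1, ← sub_add, mul_add, ← C_mul, mul_div_cancel₀ _ (pow_ne_zero 2 v0)]⟩
  have cl : ∀ P : (ZMod p)[X], IsCoprime (zK (el u v) (ZMod p)) P ↔ P.eval t ≠ 0 := fun P => by
    rw [ht, isCoprime_mul_unit_left_left (isUnit_C.2 (pow_ne_zero 2 v0).isUnit), cop]
  rw [cl, not_not] at nc
  have s1 := sr t (by simp [ht]) nc
  obtain ⟨h0, e0⟩ := dvd_iff_isRoot.2 nc
  have nr : h0.eval t ≠ 0 := by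
    rw [e0] at s1
    simpa using s1
  obtain ⟨a, h, e, rfl, rfl⟩ := lift (F := zK f ℤ_[p]) ((rq_zK f).trans e0) nr
  have mh : h.Monic := (monic_X_sub_C a).of_mul_monic_left (e ▸ Z.mo ℤ_[p])
  have ua : IsUnit (h.eval a) := by rwa [unit_iff, ← rq_eval]
  have lc : IsCoprime (rq p (zK (el u v) ℤ_[p])) (rq p h) := by rwa [rq_zK, cl]
  obtain ⟨w1, w2, -, w4, -⟩ := wt g f F κ u v G Z cp ℚ_[p]
  obtain ⟨j, x, r, dv, cr⟩ := evh p f _ h _ δ nx e mh lc
    (by rw [iq_zK]; exact mob g f F κ u v G Z cp _ δ W)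
  have k : ∀ n : ℤ, C ((p : ℚ_[p]) ^ (-n)) ^ 2 * C ((p : ℚ_[p]) ^ (2 * n)) = 1 := fun n => by
    rw [← C_pow, ← C_mul, ← _root_.zpow_natCast, ← _root_.zpow_mul, ← zpow_add₀ hp,
      show -n * ((2 : ℕ) : ℤ) + 2 * n = 0 by push_cast; ring, zpow_zero, C_1]
  obtain ⟨A, hA⟩ := dv
  rcases Int.even_or_odd' j with ⟨n, rfl | rfl⟩
  · refine Or.inl (key (x := C ((p : ℚ_[p]) ^ (-n)) * x) e mh ua (w1 δ W).1 (w1 δ W).2
      ⟨C ((p : ℚ_[p]) ^ (-n)) ^ 2 * A, ?_⟩ cr)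
    linear_combination C ((p : ℚ_[p]) ^ (-n)) ^ 2 * hA + iq p r * k n
  · obtain ⟨G', rfl⟩ := d1
    have g0 : (G' : ZMod p) ≠ 0 := fun c => d2 (by
      rw [pow_two]
      exact mul_dvd_mul_left _ ((ZMod.intCast_zmod_eq_zero_iff_dvd _ p).1 c))
    have W' := w1 _ (w2 _ _ W w4)
    refine Or.inr (key (x := C ((p : ℚ_[p]) ^ (-(n + 1))) * x)
      (r := zK (-C G') ℤ_[p] * zK (el u v) ℤ_[p] * r) e mh ua W'.1 W'.2
      ⟨C ((p : ℚ_[p]) ^ (-(n + 1))) ^ 2 * zK (be u v (p * G')) ℚ_[p] * A, ?_⟩ ?_)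
    · have b : zK (be u v (p * G')) ℚ_[p] =
          C (p : ℚ_[p]) * (zK (-C G') ℚ_[p] * zK (el u v) ℚ_[p]) := by
        simp [be, zK, mul_assoc]
      have q : C ((p : ℚ_[p]) ^ (2 * (n + 1))) = C ((p : ℚ_[p]) ^ (2 * n + 1)) * C (p : ℚ_[p]) := by
        rw [← C_mul, ← zpow_add_one₀ hp, show 2 * n + 1 + 1 = 2 * (n + 1) by ring]
      have k' := k (n + 1)
      rw [q] at k'
      rw [iq, Polynomial.map_mul, Polynomial.map_mul, zK_map, zK_map, b]
      generalize zK (-C G') ℚ_[p] * zK (el u v) ℚ_[p] = m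
      linear_combination C ((p : ℚ_[p]) ^ (-(n + 1))) ^ 2 * C (p : ℚ_[p]) * m * hA +
        m * iq p r * k'
    · rw [rq, Polynomial.map_mul, Polynomial.map_mul, zK_map]
      refine IsCoprime.mul_left (IsCoprime.mul_left ?_ lc) cr
      rw [zK, Polynomial.map_neg, map_C, eq_intCast, ← mul_one (C _)]
      exact ((isCoprime_mul_unit_left_left (isUnit_C.2 g0.isUnit) _ _).2 isCoprime_one_left).neg_left

end Pool.Agent.MP_a43263_nt.K2
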