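import Pool.Agent.MP_a43263_nt.K2.Spec

/-! THEOREM R2, row EVH: valuations away from the branch point. -/

set_option autoImplicit false

noncomputable section

namespace Pool.Agent.MP_a43263_nt.K2

open Polynomial Finset Filter Matrix JC Pool.Agent.MP_a43263_nt.UV

namespace EvhA

/-- a value of a binary form that is prime to a given divisor of the discriminant -/
theorem exists_coprime {k : Type} [Field k] {f u v w : k[X]} (h0 : f ≠ 0) (hf : f ∣ v ^ 2 - u * w)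
    (H : ∀ φ, Irreducible φ → φ ∣ f → φ ∣ u → φ ∣ v → ¬φ ∣ w) :
    ∃ a, IsCoprime (u * a ^ 2 + 2 * v * a + w) f := by
  classical
  let a := ((UniqueFactorizationMonoid.factors f).filter fun ψ => ¬ψ ∣ w).prod
  refine ⟨a, (isCoprime_of_irreducible_dvd (fun h => h0 h.1) fun φ hφ h1 h2 => ?_).symm⟩
  have hp := hφ.prime
  by_cases c : φ ∣ w
  · have h3 : φ ∣ v := hp.dvd_of_dvd_pow (n := 2) (by
      simpa using dvd_add (h1.trans hf) (c.mul_left u))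
    have h4 : φ ∣ u * a ^ 2 := by
      simpa using dvd_sub (dvd_sub h2 c) ((h3.mul_left 2).mul_right a)
    rcases hp.dvd_or_dvd h4 with h5 | h5
    · exact H φ hφ h1 h5 h3 c
    · obtain ⟨ψ, h6, h7⟩ := hp.exists_mem_multiset_dvd (hp.dvd_of_dvd_pow h5)
      rw [Multiset.mem_filter] at h6
      exact h6.2 ((hφ.associated_of_dvd
        (UniqueFactorizationMonoid.irreducible_of_factor ψ h6.1) h7).symm.dvd.trans c)
  · obtain ⟨ψ, h6, h7⟩ := UniqueFactorizationMonoid.exists_mem_factors_of_dvd h0 hφ h1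
    have h3 : φ ∣ a := h7.dvd.trans
      (Multiset.dvd_prod (Multiset.mem_filter.2 ⟨h6, fun h => c (h7.dvd.trans h)⟩))
    exact c ((dvd_add_right (dvd_add ((dvd_pow h3 two_ne_zero).mul_left u) (h3.mul_left _))).1 h2)

/-- a primitive form at the factors where the multiplier is a unit -/
theorem prim {p : ℕ} [Fact p.Prime] {f : ℤ[X]} {m u v w : ℤ_[p][X]} (hn : ¬Nx p f)
    (hF : m * zK f ℤ_[p] = v ^ 2 - u * w) {φ : (ZMod p)[X]} (hφ : Irreducible φ)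
    (hf : φ ∣ rq p (zK f ℤ_[p])) (hm : IsCoprime (rq p m) φ) (h1 : φ ∣ rq p u) (h2 : φ ∣ rq p v)
    (h3 : φ ∣ rq p w) : False := by
  classical
  obtain ⟨ψ, e1, e2, e3⟩ := lifts_and_natDegree_eq_and_monic
    ((mem_lifts (f := Int.castRingHom (ZMod p)) _).2 (Ev.lift p (normalize φ)))
    (monic_normalize hφ.ne_zero)
  obtain ⟨u₁, u₂, rfl⟩ := Ev.split (φ := ψ) (e1.symm ▸ normalize_dvd_iff.2 h1)
  obtain ⟨v₁, v₂, rfl⟩ := Ev.split (φ := ψ) (e1.symm ▸ normalize_dvd_iff.2 h2)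
  obtain ⟨w₁, w₂, rfl⟩ := Ev.split (φ := ψ) (e1.symm ▸ normalize_dvd_iff.2 h3)
  obtain ⟨f₁, f₂, ef⟩ := Ev.split (φ := ψ) (e1.symm ▸ normalize_dvd_iff.2 hf)
  obtain ⟨α, β, hα⟩ := hm
  obtain ⟨α, rfl⟩ := Ev.lift p α
  have h4 : φ ∣ rq p (1 - zK α ℤ_[p] * m) := by
    rw [rq, Polynomial.map_sub, Polynomial.map_mul, zK_map, Polynomial.map_one, ← hα]
    exact ⟨β, by ring⟩
  obtain ⟨c₁, c₂, ec⟩ := Ev.split (φ := ψ) (e1.symm ▸ normalize_dvd_iff.2 h4)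
  refine hn (nxp.1 p f ψ (f₁ * c₁ + zK α ℤ_[p] * (v₁ ^ 2 - u₁ * w₁))
    (f₁ * c₂ + f₂ * c₁ + zK α ℤ_[p] * (2 * v₁ * v₂ - u₁ * w₂ - u₂ * w₁))
    (f₂ * c₂ + zK α ℤ_[p] * (v₂ ^ 2 - u₂ * w₂)) e3 ?_ ?_)
  · rw [e2]
    exact ((normalize_associated φ).symm.irreducible hφ).natDegree_pos
  · linear_combination zK α ℤ_[p] * hF + zK f ℤ_[p] * ec +
      (zK ψ ℤ_[p] * c₁ + C (p : ℤ_[p]) * c₂) * ef

end EvhA

theorem evh_k : EVHStmt := by
  intro p _ f a h l δ hn hf hm hl ⟨hδ, U, V, U', s, j₀, k, hU, hUf, hs⟩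
  obtain ⟨u, v, w, j, hF, H⟩ := intm p (l ^ (2 * j₀ + 1) * zK f ℤ_[p]) U V U' (by
    rw [← hU, iq, Polynomial.map_mul, zK_map, Polynomial.map_pow])
  have hd : rq p h ∣ rq p (zK f ℤ_[p]) := by
    rw [hf]
    exact Polynomial.map_dvd _ (dvd_mul_left h a)
  obtain ⟨b, hb⟩ := EvhA.exists_coprime (f := rq p h) (u := rq p u) (v := rq p v) (w := rq p w)
    (hm.map _).ne_zero
    (by
      have := congrArg (Polynomial.map PadicInt.toZMod) hF
      rw [Polynomial.map_mul, Polynomial.map_sub, Polynomial.map_mul, Polynomial.map_pow,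
        Polynomial.map_pow] at this
      exact this ▸ hd.mul_left _)
    fun φ hφ h0 h1 h2 h3 => EvhA.prim hn hF hφ (h0.trans hd) (by
      rw [rq, Polynomial.map_pow]
      exact (hl.of_isCoprime_of_dvd_right h0).pow_left) h1 h2 h3
  obtain ⟨b, rfl⟩ := Ev.lift p b
  obtain ⟨z, z', hr⟩ := H (zK b ℤ_[p]) 1
  set r := (-l) ^ k * (u * zK b ℤ_[p] ^ 2 + 2 * v * zK b ℤ_[p] * 1 + w * 1 ^ 2) with hr'
  have hc : IsCoprime (rq p r) (rq p h) := by
    rw [hr', rq, Polynomial.map_mul, Polynomial.map_pow, Polynomial.map_neg]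
    refine IsCoprime.mul_left hl.neg_left.pow_left ?_
    simpa [zK_map] using hb
  have e1 : iq p r = (-iq p l) ^ k * (C ((p : ℚ_[p]) ^ j) *
      (U * z ^ 2 + 2 * V * z * z' - U' * z' ^ 2)) := by
    rw [← hr, hr', iq, Polynomial.map_mul, Polynomial.map_pow, Polynomial.map_neg]
  obtain ⟨y, hy⟩ := hs
  obtain ⟨t, t', ht⟩ := hδ.mul_left hUf
  have hp : (p : ℚ_[p]) ≠ 0 := Nat.cast_ne_zero.2 (Fact.out : p.Prime).ne_zero
  have e2 : C ((p : ℚ_[p]) ^ (-j)) * C ((p : ℚ_[p]) ^ j) = 1 := by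
    rw [← C_mul, ← zpow_add₀ hp]
    simp
  have e3 : C ((p : ℚ_[p]) ^ (-j)) * iq p r =
      (-iq p l) ^ k * (U * z ^ 2 + 2 * V * z * z' - U' * z' ^ 2) := by
    rw [e1, mul_left_comm, ← mul_assoc (C _), e2, one_mul]
  have hd' : iq p h ∣ zK f ℚ_[p] := by
    rw [← zK_map f PadicInt.Coe.ringHom, hf]
    exact Polynomial.map_dvd _ (dvd_mul_left h a)
  refine ⟨-j, s * (U * z + V * z') * t, r, hd'.trans ?_, hc⟩
  rw [e3]
  generalize (-iq p l) ^ k = L at *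
  generalize iq p l ^ (2 * j₀ + 1) = M at *
  refine ⟨δ * t ^ 2 * (δ * L * U * M * z' ^ 2 - y * (U * z + V * z') ^ 2) -
    t' * (t * (δ * U) + 1) * (L * (U * z ^ 2 + 2 * V * z * z' - U' * z' ^ 2)), ?_⟩
  linear_combination -(δ * t ^ 2 * (U * z + V * z') ^ 2) * hy -
    δ ^ 2 * t ^ 2 * L * U * z' ^ 2 * hU +
    (t * (δ * U) + 1) * (L * (U * z ^ 2 + 2 * V * z * z' - U' * z' ^ 2)) * ht

end Pool.Agent.MP_a43263_nt.K2
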