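import Pool.Agent.MP_a43263_nt.K2.Spec

/-! THEOREM R2: the two exponent inequalities. -/

set_option autoImplicit false

namespace Pool.Agent.MP_a43263_nt.K2

open Finset UC UC.Exp

namespace ExpA

def T0 (x y : ℤ) : ℤ := max (x + y) 0 - max (y - x) (x - y)

theorem two_wt {n : ℕ} (e : Fin n → ℤ) (he : Monotone e) :
    2 * wt e = ∑ p, ∑ q, T0 (e p) (e q) + ∑ p, T0 (e p) (e p) := by
  have h1 := sym_sum univ (fun p q : Fin n => T0 (e p) (e q)) (fun p q => by
    simp only [T0]; omega)
  have h3 := sum_up (fun p q : Fin n => max (e p + e q) 0)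
  have h4 := sum_sup (fun p q : Fin n => e q - e p)
  have h5 : ∑ p, T0 (e p) (e p) = ∑ p, max (e p + e p) 0 :=
    sum_congr rfl fun p _ => by simp only [T0]; omega
  have h6 : (∑ p, ∑ q, if p < q then T0 (e p) (e q) else 0)
      = (∑ p, ∑ q, if p < q then max (e p + e q) 0 else 0)
        - ∑ p, ∑ q, if p < q then e q - e p else 0 := by
    rw [← sum_sub_distrib]
    refine sum_congr rfl fun p _ => ?_
    rw [← sum_sub_distrib]
    refine sum_congr rfl fun q _ => ?_
    by_cases h : p < q
    · have := he h.le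
      simp only [if_pos h, T0]; omega
    · simp only [if_neg h]; ring
  unfold wt
  beta_reduce at h1 h3 h4
  rw [h3, h4, h1, h6, h5]
  ring

variable {g : ℕ} {e e' : Fin (2 * g + 1) → ℤ}

theorem nn (he : Ex e) (i : ℕ) (hi : i ≤ g) : 0 ≤ aa e i := by
  have h := aa_anti e he.1 i g hi (by omega)
  rwa [aa_mid e he] at h

/-- a double sum over two types -/
theorem dbl (he : Ex e) (he' : Ex e') (F : ℤ → ℤ → ℤ) : ∑ p, ∑ q, F (e' p) (e q) =
    ∑ i ∈ range g, ∑ j ∈ range g, (F (-aa e' i) (-aa e j) + F (-aa e' i) (aa e j) +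
      (F (aa e' i) (-aa e j) + F (aa e' i) (aa e j))) +
    ∑ i ∈ range g, (F (-aa e' i) 0 + F (aa e' i) 0 + (F 0 (-aa e i) + F 0 (aa e i))) + F 0 0 := by
  have h2 := split e' he' (fun x => ∑ q, F x (e q))
  have h3 : ∀ x, ∑ q, F x (e q) = ∑ i ∈ range g, (F x (-aa e i) + F x (aa e i)) + F x 0 :=
    fun x => split e he (fun y => F x y)
  beta_reduce at h2
  rw [h2]
  simp only [h3, sum_add_distrib]
  ring

theorem wt_eq (he : Ex e) : wt e = -∑ i ∈ range g, ∑ j ∈ range g, max (aa e i) (aa e j) := by
  have h1 := split e he (fun x => T0 x x)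
  have h2 := dbl he he T0
  have h3 : ∑ i ∈ range g, ∑ j ∈ range g, (T0 (-aa e i) (-aa e j) + T0 (-aa e i) (aa e j) +
      (T0 (aa e i) (-aa e j) + T0 (aa e i) (aa e j))) =
      -2 * ∑ i ∈ range g, ∑ j ∈ range g, max (aa e i) (aa e j) := by
    simp only [mul_sum]
    refine sum_congr rfl fun i hi => sum_congr rfl fun j hj => ?_
    have := nn he i (mem_range.1 hi).le
    have := nn he j (mem_range.1 hj).le
    simp only [T0]; omega
  have h4 : ∑ i ∈ range g, (T0 (-aa e i) 0 + T0 (aa e i) 0 + (T0 0 (-aa e i) + T0 0 (aa e i))) +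
      ∑ i ∈ range g, (T0 (-aa e i) (-aa e i) + T0 (aa e i) (aa e i)) = 0 := by
    rw [← sum_add_distrib]
    refine sum_eq_zero fun i hi => ?_
    have := nn he i (mem_range.1 hi).le
    simp only [T0]; omega
  have h5 : T0 0 0 = 0 := rfl
  have h6 := two_wt e he.1
  beta_reduce at h1
  linarith

/-- the loss -/
def ls (k x z : ℤ) : ℤ := max (x + z - k) 0 + max (x - z - k) 0 + max (z - x - k) 0

/-- one row -/
def row (k : ℤ) (g : ℕ) (a b : ℕ → ℤ) (i : ℕ) : ℤ :=
  ls k (b i) (a i) - min (a i) k - min (b i) k +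
    ∑ j ∈ range g, if i < j then ls k (b i) (a j) - 2 * b i + (ls k (a i) (b j) - 2 * a i) else 0

theorem phi_eq (k : ℕ) (he : Ex e) (he' : Ex e') :
    Phi2 k e e' = (k * (2 * g + 1) ^ 2 : ℕ) + ∑ i ∈ range g, row k g (aa e) (aa e') i := by
  have h1 := dbl he he' fun x y => max ((k : ℤ) + x + y) 0
  have n1 := nn he
  have n2 := nn he'
  have m1 := aa_anti e he.1
  have m2 := aa_anti e' he'.1
  beta_reduce at h1
  rw [Phi2, h1, wt_eq he, wt_eq he']
  generalize aa e = a at *
  generalize aa e' = b at *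
  let u : ℕ → ℕ → ℤ := fun i j => ls k (b i) (a j) - max (a i) (a j) - max (b i) (b j)
  have h2 := sym_sum (range g) (fun i j => u i j + u j i) fun i j => add_comm _ _
  have h3 : ∑ i ∈ range g, ∑ j ∈ range g, (u i j + u j i) =
      2 * ∑ i ∈ range g, ∑ j ∈ range g, u i j := by
    simp only [sum_add_distrib]
    rw [two_mul, sum_comm (f := fun i j => u j i)]
  have h4 : ∑ i ∈ range g, ∑ j ∈ range g, (max ((k : ℤ) + -b i + -a j) 0 +
      max ((k : ℤ) + -b i + a j) 0 + (max ((k : ℤ) + b i + -a j) 0 + max ((k : ℤ) + b i + a j) 0)) =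
      ∑ i ∈ range g, ∑ j ∈ range g, (u i j + max (a i) (a j) + max (b i) (b j) + 4 * k) := by
    refine sum_congr rfl fun i hi => sum_congr rfl fun j hj => ?_
    have := n2 i (mem_range.1 hi).le
    have := n1 j (mem_range.1 hj).le
    simp only [u, ls]; omega
  have h5 : 2 * ∑ i ∈ range g, (max ((k : ℤ) + -b i + 0) 0 + max ((k : ℤ) + b i + 0) 0 +
      (max ((k : ℤ) + 0 + -a i) 0 + max ((k : ℤ) + 0 + a i) 0)) +
      (∑ i ∈ range g, (u i i + u i i) +
        2 * ∑ i ∈ range g, ∑ j ∈ range g, if i < j then u i j + u j i else 0) =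
      2 * ∑ i ∈ range g, (row k g a b i + 4 * k) := by
    simp only [mul_sum (s := range g) (a := (2 : ℤ)) , ← sum_add_distrib]
    refine sum_congr rfl fun i hi => ?_
    have := n2 i (mem_range.1 hi).le
    have := n1 i (mem_range.1 hi).le
    have e1 : ∑ j ∈ range g, 2 * (if i < j then u i j + u j i else 0) = 2 * ∑ j ∈ range g,
        if i < j then ls k (b i) (a j) - 2 * b i + (ls k (a i) (b j) - 2 * a i) else 0 := by
      rw [mul_sum]
      refine sum_congr rfl fun j hj => ?_
      split_ifs with c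
      · have := m1 i j c.le (by have := mem_range.1 hj; omega)
        have := m2 i j c.le (by have := mem_range.1 hj; omega)
        simp only [u, ls]; omega
      · rfl
    rw [e1, row]
    simp only [u]; omega
  have h6 : max ((k : ℤ) + 0 + 0) 0 = k := by omega
  beta_reduce at h2
  rw [h4, h6]
  simp only [sum_add_distrib, sum_const, card_range, nsmul_eq_mul] at h5 h3 h2 ⊢
  push_cast
  linarith

end ExpA

open ExpA in
theorem exp_k : EXPStmt := by
  intro g k e e' hg h
  have he := h.ex
  have he' := h.ex'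
  rw [phi_eq k he he']
  have an : ∀ i j, i ≤ j → j ≤ g → aa e j ≤ aa e i ∧ aa e' j ≤ aa e' i := fun i j c d =>
    ⟨aa_anti e he.1 i j c (by omega), aa_anti e' he'.1 i j c (by omega)⟩
  have n0 : ∀ i, i ≤ g → 0 ≤ aa e i ∧ 0 ≤ aa e' i := fun i c => ⟨nn he i c, nn he' i c⟩
  have c1 : ∀ i, i ≤ g → aa e i ≤ aa e' i + k ∧ aa e' i ≤ aa e i + k := fun i c => by
    have h1 := abs_le.1 (h.c1 ⟨i, by omega⟩)
    have h2 := aa_eq e ⟨i, by omega⟩
    have h3 := aa_eq e' ⟨i, by omega⟩
    simp only at h2 h3
    omega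
  have c2 : ∀ j, 1 ≤ j → j ≤ g → aa e' (j - 1) - aa e j ≤ k ∨
      aa e (j - 1) - aa e' j ≤ k := fun j c d => by
    have h1 := h.c2 ⟨j - 1, by omega⟩ ⟨j, by omega⟩ (by simp only; omega)
    have h2 := aa_eq e ⟨j - 1, by omega⟩
    have h3 := aa_eq e' ⟨j - 1, by omega⟩
    have h4 := aa_eq e ⟨j, by omega⟩
    have h5 := aa_eq e' ⟨j, by omega⟩
    simp only at h2 h3 h4 h5
    omega
  have nd : ∀ x : Fin (2 * g + 1) → ℤ, Ex x → ¬Dp k x → aa x (g - 1) ≤ k := fun x hx c => by
    simp only [Dp, not_forall, not_lt] at c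
    obtain ⟨i, hi⟩ := c
    have h1 := aa_anti x hx.1 i.1 (g - 1) (by omega) (by omega)
    have h2 : aa x i.1 = -x (lo i) := aa_eq x (lo i)
    omega
  have c3 := nd e' he' h.c3
  have c4 := nd e he
  have h4 : aa e 0 = -e 0 := aa_eq e 0
  have h5 : aa e' 0 = -e' 0 := aa_eq e' 0
  have hl : ∀ i : Fin g, aa e i = -e (lo i) := fun i => aa_eq e (lo i)
  have hm := sum_lo e (fun x => x)
  generalize aa e = a at *
  generalize aa e' = b at *
  constructor
  · intro hd
    have c4 := c4 hd
    let τ : ℕ → ℤ := fun j => max (a j + b j - k) 0 - min (min (a j) (b j)) k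
    have hr : ∀ i, i < g → row k g a b i ≤ -min (max (a i) (b i)) k := fun i hi => by
      have h1 : (∑ j ∈ range g, if i < j then ls k (b i) (a j) - 2 * b i +
          (ls k (a i) (b j) - 2 * a i) else 0) ≤
          -∑ j ∈ range g, if i < j then τ (j - 1) - τ j else 0 := by
        rw [← sum_neg_distrib]
        refine sum_le_sum fun j hj => ?_
        have hj' := mem_range.1 hj
        split_ifs with c
        · have a1 := an i (j - 1) (by omega) (by omega)
          have a2 := an (j - 1) j (by omega) (by omega)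
          have a3 := c2 j (by omega) (by omega)
          have a4 := c1 (j - 1) (by omega)
          have a5 := c1 j (by omega)
          have a6 := n0 j (by omega)
          simp only [τ, ls]; omega
        · rfl
      rw [tel' τ i g hi] at h1
      have a1 := n0 (g - 1) (by omega)
      have a2 := c1 i (by omega)
      have a3 := n0 i (by omega)
      simp only [τ] at h1
      rw [row]
      simp only [ls] at h1 ⊢
      omega
    have h2 : ∑ i ∈ range g, row k g a b i ≤ row k g a b 0 := by
      rw [← add_sum_erase _ _ (mem_range.2 hg)]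
      refine add_le_of_nonpos_right (sum_nonpos fun i hi => ?_)
      have hi' := mem_range.1 (mem_of_mem_erase hi)
      have := hr i hi'
      have := n0 i hi'.le
      omega
    have h3 := hr 0 hg
    rw [gn, ← h4, ← h5]
    omega
  · intro hd
    have c4 : ∀ i, i < g → (k : ℤ) < a i := fun i hi => by
      have h1 := hd ⟨i, hi⟩
      have h2 : a i = _ := hl ⟨i, hi⟩
      omega
    let τ : ℕ → ℤ := fun j => max (b j - k) 0
    have hr : ∀ i ∈ range g, row k g a b i ≤ -(2 * k) - -a i -
        ∑ j ∈ range g, if i < j then (2 * k : ℤ) else 0 := fun i hi => by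
      have hi := mem_range.1 hi
      have h1 : (∑ j ∈ range g, if i < j then ls k (b i) (a j) - 2 * b i +
          (ls k (a i) (b j) - 2 * a i) else 0) ≤
          -(∑ j ∈ range g, if i < j then τ (j - 1) - τ j else 0) -
            ∑ j ∈ range g, if i < j then (2 * k : ℤ) else 0 := by
        rw [← sum_neg_distrib, ← sum_sub_distrib]
        refine sum_le_sum fun j hj => ?_
        have hj' := mem_range.1 hj
        split_ifs with c
        · have a1 := an i (j - 1) (by omega) (by omega)
          have a2 := an (j - 1) j (by omega) (by omega)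
          have a3 := c2 j (by omega) (by omega)
          have a4 := c1 (j - 1) (by omega)
          have a5 := c1 j (by omega)
          have a6 := n0 j (by omega)
          have a7 := c4 j hj'
          simp only [τ, ls]; omega
        · rfl
      rw [tel' τ i g hi] at h1
      have a1 := n0 (g - 1) (by omega)
      have a2 := c1 i (by omega)
      have a3 := n0 i (by omega)
      have a4 := c4 i hi
      simp only [τ] at h1
      rw [row]
      simp only [ls] at h1 ⊢
      omega
    have h2 := sum_le_sum hr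
    have h3 := sym_sum (range g) (fun _ _ => (2 * k : ℤ)) fun _ _ => rfl
    have ht : (2 * tri g : ℤ) = g * (g + 1) := by exact_mod_cast two_tri g
    have ht2 : (k : ℤ) * (2 * tri g) = k * (g * (g + 1)) := by rw [ht]
    beta_reduce at hm h3
    rw [sum_sub_distrib, sum_sub_distrib] at h2
    simp only [sum_const, card_range, nsmul_eq_mul] at h2 h3
    rw [dp, hm]
    push_cast
    linarith

end Pool.Agent.MP_a43263_nt.K2
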