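import Pool.Agent.MP_a43263_nt.K2.Spec

/-! THEOREM R2: the count over a finite field. -/

set_option autoImplicit false

noncomputable section

namespace Pool.Agent.MP_a43263_nt.K2

open Polynomial Finset Filter Matrix JC Pool.Agent.MP_a43263_nt.UV

namespace FcA

open U99 in
theorem bd_le' (m : ℕ) :
    ∃ q0 : ℕ, ∀ q, q0 ≤ q → 5 * bd q (m + 1) ≤ 12 * q ^ ((m + 1) * m / 2) := by
  have h : Tendsto (fun q : ℕ => 10 * (1 + 2 / (q : ℝ)) ^ m) atTop (nhds (10 * (1 + 0) ^ m)) :=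
    (((tendsto_const_div_atTop_nhds_zero_nat (2 : ℝ)).const_add 1).pow m).const_mul 10
  obtain ⟨q0, hq⟩ := eventually_atTop.1
    (h.eventually_le_const (show (10 * (1 + 0) ^ m : ℝ) < 12 by norm_num))
  refine ⟨max q0 1, fun q hq0 => ?_⟩
  have h1 : 0 < q := le_of_max_le_right hq0
  have h2 : (0 : ℝ) < q := by exact_mod_cast h1
  have h3 : 10 * (q + 2) ^ m ≤ 12 * q ^ m := by
    have := mul_le_mul_of_nonneg_right (hq q (le_of_max_le_left hq0)) (pow_pos h2 m).le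
    rw [mul_assoc, ← mul_pow, add_mul, div_mul_cancel₀ _ h2.ne', one_mul] at this
    exact_mod_cast this
  refine Nat.le_of_mul_le_mul_right ?_ (pow_pos h1 m)
  rw [mul_assoc, bd_eq]
  calc _ = 10 * (q + 2) ^ m * q ^ ((m + 1) * m / 2) := by ring
    _ ≤ 12 * q ^ m * q ^ ((m + 1) * m / 2) := Nat.mul_le_mul_right _ h3
    _ = _ := by ring

variable {F : Type} [Field F] {n : ℕ}

/-- the orthogonal group, in matrices -/
theorem orth [Fintype F] (h2 : (2 : F) ≠ 0) {A : Matrix (Fin n) (Fin n) F} (hA : A.IsSymm)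
    (hdet : A.det ≠ 0) :
    Nat.card {P : Matrix (Fin n) (Fin n) F // Pᵀ * A * P = A} ≤ U99.bd (Fintype.card F) n := by
  have hs : ∀ x y, toBilin' A x y = toBilin' A y x := fun x y => by
    rw [toBilin'_apply', toBilin'_apply', dotProduct_mulVec, ← mulVec_transpose, hA.eq,
      dotProduct_comm]
  have hn : ∀ x, (∀ y, toBilin' A x y = 0) → x = 0 := fun x hx => by
    refine eq_zero_of_mulVec_eq_zero hdet (dotProduct_eq_zero _ fun y => ?_)
    rw [dotProduct_comm, ← toBilin'_apply', hs, hx]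
  have h3 := U99.orth_le h2 (toBilin' A) hs hn
  rw [Module.finrank_fin_fun, Nat.card_eq_fintype_card (α := F)] at h3
  have : Finite (Module.End F (Fin n → F)) := Finite.of_injective _ DFunLike.coe_injective
  refine le_trans ?_ h3
  refine Nat.card_le_card_of_injective (fun P => ⟨toLin' P.1, fun x y => ?_⟩) fun P Q hh => ?_
  · rw [← LinearMap.BilinForm.comp_apply, toBilin'_comp, P.2]
  · exact Subtype.ext (toLin'.injective (congrArg Subtype.val hh))

variable {A A' N N₀ : Matrix (Fin n) (Fin n) F}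

theorem mul_Tt (h : A.det ≠ 0) : A * Tt A A' N = A - Nᵀ * A'⁻¹ * N := by
  rw [Tt, mul_sub, mul_one, ← mul_assoc, ← mul_assoc, ← mul_assoc,
    mul_nonsing_inv _ h.isUnit, one_mul]

theorem fibre (h : A.det ≠ 0) (h0 : N₀.det ≠ 0) (e : Tt A A' N₀ = Tt A A' N) {ε : F}
    (hε : ε * ε = 1) : (ε • (N * N₀⁻¹))ᵀ * A'⁻¹ * (ε • (N * N₀⁻¹)) = A'⁻¹ := by
  have e1 : Nᵀ * A'⁻¹ * N = N₀ᵀ * A'⁻¹ * N₀ :=
    sub_right_injective ((mul_Tt h).symm.trans (e ▸ mul_Tt h))
  have e2 := mul_nonsing_inv _ h0.isUnit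
  calc _ = (ε * ε) • (N₀⁻¹ᵀ * (Nᵀ * A'⁻¹ * N) * N₀⁻¹) := by
        simp only [transpose_smul, transpose_mul, smul_mul_assoc, mul_smul_comm, smul_smul,
          mul_assoc]
    _ = (N₀ * N₀⁻¹)ᵀ * A'⁻¹ * (N₀ * N₀⁻¹) := by
        rw [hε, one_smul, e1]; simp only [transpose_mul, mul_assoc]
    _ = _ := by rw [e2, transpose_one, one_mul, mul_one]

end FcA

open FcA in
theorem fc_k : FCStmt := by
  intro g hg
  obtain ⟨q0, hq⟩ := bd_le' (2 * g)
  obtain ⟨q1, hq1⟩ := U99.fieldCount g hg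
  refine ⟨max q0 q1, fun F _ _ _ h0 h2 A A' hA hA' hd hd' m h hm hi hn => ?_⟩
  have h3 := hq1 F (le_of_max_le_right h0) h2 A hA hd 0 h hi hn
  have h4 := (Nat.mul_le_mul_left 5 (orth h2 hA'.inv (by
    rw [det_nonsing_inv, Ring.inverse_eq_inv]; exact inv_ne_zero hd'))).trans
    (hq _ (le_of_max_le_left h0))
  rw [show (2 * g + 1) * (2 * g) / 2 = g * (2 * g + 1) by
    rw [show (2 * g + 1) * (2 * g) = 2 * (g * (2 * g + 1)) by ring,
      Nat.mul_div_cancel_left _ two_pos]] at h4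
  have ex : ∀ T : Mat g F, ∃ N₀ : Mat g F, ∀ N : Mat g F, N.det = m → Tt A A' N = T →
      N₀.det ≠ 0 ∧ Tt A A' N₀ = T := fun T => by
    by_cases c : ∃ N : Mat g F, N.det = m ∧ Tt A A' N = T
    · obtain ⟨N, c1, c2⟩ := c
      exact ⟨N, fun _ _ _ => ⟨c1 ▸ hm, c2⟩⟩
    · exact ⟨0, fun N c1 c2 => absurd ⟨N, c1, c2⟩ c⟩
  choose ν hν using ex
  let ε : Bool → F := fun b => if b then 1 else -1
  have e1 : ∀ b, ε b * ε b = 1 := fun b => by cases b <;> simp [ε]
  have e2 : ∀ b, ε b ^ (2 * g + 1) = ε b := fun b => by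
    rw [pow_succ, pow_mul, sq, e1, one_pow, one_mul]
  have e3 : ∀ b b', ε b = ε b' → b = b' := fun b b' e => by
    have : (1 : F) ≠ -1 := fun c => h2 (by linear_combination c)
    cases b <;> cases b' <;> simp_all [ε, this.symm]
  have key := Nat.card_le_card_of_injective
    (α := {N : Mat g F // N.det = m ∧ St (X * h) A (A * Tt A A' N)} × Bool)
    (β := {T : Mat g F // (A * T).IsSymm ∧ T.charpoly = (X - C 0) * h ∧
      ∃ (x : Fin (2 * g + 1) → F) (s : F), s ≠ 0 ∧ T *ᵥ x = (0 : F) • x ∧ x ⬝ᵥ A *ᵥ x = s ^ 2} ×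
      {P : Mat g F // Pᵀ * A'⁻¹ * P = A'⁻¹})
    (fun z => (⟨Tt A A' z.1.1, by
      obtain ⟨T, t1, t2, t3⟩ := z.1.2.2
      have := invertibleOfIsUnitDet A hd.isUnit
      rw [← Matrix.mul_right_injective_of_invertible A t1, C_0, sub_zero]
      refine ⟨?_, t2, by simpa only [zero_smul] using t3⟩
      rw [t1, mul_Tt hd]
      refine hA.sub ?_
      rw [Matrix.IsSymm, transpose_mul, transpose_mul, transpose_transpose, hA'.inv.eq, mul_assoc]⟩,
      ⟨ε z.2 • (z.1.1 * (ν (Tt A A' z.1.1))⁻¹),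
        fibre hd (hν _ _ z.1.2.1 rfl).1 (hν _ _ z.1.2.1 rfl).2 (e1 _)⟩)) (by
    rintro ⟨N, b⟩ ⟨N', b'⟩ e
    have a1 : Tt A A' N.1 = Tt A A' N'.1 := congrArg (·.1.1) e
    have a2 : ε b • (N.1 * (ν (Tt A A' N.1))⁻¹) = ε b' • (N'.1 * (ν (Tt A A' N'.1))⁻¹) :=
      congrArg (·.2.1) e
    rw [← a1] at a2
    have a3 := congrArg (· * ν (Tt A A' N.1)) a2
    simp only [smul_mul_assoc, mul_assoc, nonsing_inv_mul _ (hν _ _ N.2.1 rfl).1.isUnit,
      mul_one] at a3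
    have a4 := congrArg det a3
    rw [det_smul, det_smul, Fintype.card_fin, e2, e2, N.2.1, N'.2.1] at a4
    obtain rfl := e3 _ _ (mul_right_cancel₀ hm a4)
    exact Prod.ext (Subtype.ext (smul_right_injective _ (left_ne_zero_of_mul_eq_one (e1 b)) a3))
      rfl)
  rw [Nat.card_prod, Nat.card_prod, Nat.card_eq_fintype_card (α := Bool), Fintype.card_bool] at key
  have h5 := Nat.mul_le_mul h3 h4
  rw [show 2 * g * (2 * g + 1) = g * (2 * g + 1) + g * (2 * g + 1) by ring, pow_add]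
  nlinarith

end Pool.Agent.MP_a43263_nt.K2
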