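import Pool.Agent.MP_a43263_nt.K2.Spec

/-! THEOREM R2: the final count. -/

set_option autoImplicit false

noncomputable section

namespace Pool.Agent.MP_a43263_nt.K2

open Polynomial Finset Filter Matrix JC Pool.Agent.MP_a43263_nt.UV

namespace FinA

theorem sum_two (n : ℕ) : ∑ i ∈ range n, 2 * (i + 1) = n * (n + 1) := by
  induction n with
  | zero => rfl
  | succ n ih => rw [sum_range_succ, ih]; ring

theorem sum_xp (g : ℕ) : ∑ i : Fin (2 * g + 1), xp g i.1 = (2 * g + 1) ^ 2 := by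
  rw [Fin.sum_univ_eq_sum_range (xp g) (2 * g + 1), sum_range_succ,
    sum_congr rfl fun i hi => show xp g i = 2 * (i + 1) from if_neg (mem_range.1 hi).ne, sum_two,
    show xp g (2 * g) = 2 * g + 1 from if_pos rfl]
  ring

theorem two_le_xp {g : ℕ} (hg : 1 ≤ g) (i : ℕ) : 2 ≤ xp g i := by
  unfold xp
  split_ifs <;> omega

theorem box_card (g Z : ℕ) (h : 1 ≤ Z) :
    {w : Vec g | ∀ i, |w i| ≤ (Z : ℤ) ^ xp g i.1}.ncard ≤
      3 ^ (2 * g + 1) * Z ^ ((2 * g + 1) ^ 2) := by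
  have e := FinK.box_eq fun i : Fin (2 * g + 1) => Z ^ xp g i.1
  simp only [Nat.cast_pow] at e
  rw [e, Set.ncard_coe_finset, Fintype.card_piFinset, ← sum_xp, ← prod_pow_eq_pow_sum]
  calc _ ≤ ∏ i : Fin (2 * g + 1), 3 * Z ^ xp g i.1 := prod_le_prod' fun i _ => by
        have := FinK.card_Icc' (Z ^ xp g i.1)
        have h1 : 1 ≤ Z ^ xp g i.1 := Nat.one_le_pow _ _ h
        rw [Nat.cast_pow] at this
        omega
    _ = _ := by rw [prod_mul_distrib, prod_const, card_univ, Fintype.card_fin]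

theorem bx_sub {g k Z : ℕ} (hg : 1 ≤ g) (h : 3 * k ≤ Z) {w : Vec g} (hw : w ∈ bx g k)
    (i : Fin (2 * g + 1)) : |w i| ≤ (Z : ℤ) ^ xp g i.1 := by
  obtain ⟨h1, h2⟩ := mem_bx.1 hw i
  have h3 : (0 : ℤ) ≤ (k : ℤ) ^ xp g i.1 := by positivity
  have h4 : (3 : ℤ) ^ 2 * (k : ℤ) ^ xp g i.1 ≤ (Z : ℤ) ^ xp g i.1 :=
    (mul_le_mul_of_nonneg_right (pow_le_pow_right₀ (by norm_num) (two_le_xp hg _)) h3).trans (by
      rw [← mul_pow]
      exact pow_le_pow_left₀ (by positivity) (by exact_mod_cast h) _)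
  unfold ce at h1 h2
  rw [abs_le]
  split_ifs at h1 h2 <;> constructor <;> linarith

end FinA

open FinA in
theorem fin_k : GEOStmt → ALLStmt → SIEVEStmt → CLSStmt → ONEStmt → MainStmt := by
  intro _ all sieve cls one g hg
  obtain ⟨Q, ε, hε, hQ, hev⟩ := sieve g hg
  have hN : 0 < 5 * ∏ q ∈ Q, q := Nat.mul_pos (by norm_num) (prod_pos fun q hq => (hQ q hq).1.pos)
  have hc : (5 * ∏ q ∈ Q, q).Coprime 6 := Nat.Coprime.mul_left (by norm_num)
    (Nat.Coprime.prod_left fun q hq => (hQ q hq).1.coprime_iff_not_dvd.2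
      (Nat.not_dvd_of_pos_of_lt (by norm_num) (hQ q hq).2))
  obtain ⟨T, hT⟩ : ∃ T, T = Q.powerset ×ˢ range ((5 * ∏ q ∈ Q, q) ^ 2) := ⟨_, rfl⟩
  have hall := (eventually_all_finset T).2 fun x hx => all g _ (∏ q ∈ x.1, q) x.2 hg hN hc
    ((prod_dvd_prod_of_subset _ _ _ (mem_powerset.1 (mem_product.1 (hT ▸ hx)).1)).mul_left 5)
    (ε / 2 / (T.card + 1)) (by positivity)
  refine ⟨ε / 2 / (3 ^ (2 * g + 1) * 4 ^ ((2 * g + 1) ^ 2)), by positivity, ?_⟩
  have ht : Tendsto (fun Z : ℕ => Z / 3) atTop atTop := Nat.tendsto_div_const_atTop (by norm_num)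
  filter_upwards [ht.eventually hev, ht.eventually hall, ht.eventually (one g Q hg),
    ht.eventually_ge_atTop 2] with Z h1 h2 h3 h4
  obtain ⟨k, hk⟩ : ∃ k, k = Z / 3 := ⟨_, rfl⟩
  rw [← hk] at h1 h2 h3 h4
  have hv : 0 ≤ vol g k := by unfold vol; positivity
  have a1 := cnt_le_add (g := g) (k := k) (P := fun w => Fam g Q (f1 w) ∧ Str2 Q (f1 w))
    (Q := fun w => Best g Z (zK (pc (sv w)) ℚ))
    (R := fun w => ∃ x ∈ T, Ad (5 * ∏ q ∈ Q, q) (∏ q ∈ x.1, q) w x.2 ∧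
      ¬∃ u v, Gp (5 * ∏ q ∈ Q, q) (∏ q ∈ x.1, q) x.2 k w u v) fun w hw hf => by
    obtain ⟨S, hS, b1⟩ := h3 w hw hf.1 hf.2
    obtain ⟨a, b2, b3, b4⟩ := cls g Q S w hg hf.1 hS
    by_cases e : ∃ u v, Gp (5 * ∏ q ∈ Q, q) (∏ q ∈ S, q) a k w u v
    · obtain ⟨u, v, e⟩ := e
      exact Or.inl (b1 a u v Z b3 (by omega) (by omega) e)
    · exact Or.inr ⟨(S, a), hT ▸ mem_product.2 ⟨mem_powerset.2 hS, b2⟩, b4, e⟩
  have a2 := (cnt_le_sum (g := g) (k := k) T _ fun w _ h => h).trans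
    ((sum_le_card_nsmul T _ _ h2).trans (show _ ≤ ε / 2 * vol g k by
      rw [nsmul_eq_mul, ← mul_assoc]
      refine mul_le_mul_of_nonneg_right ?_ hv
      rw [mul_div_assoc', div_le_iff₀ (by positivity)]
      nlinarith))
  have a3 : cnt g k (fun w => Best g Z (zK (pc (sv w)) ℚ)) ≤
      ({w : Vec g | (∀ i, |w i| ≤ (Z : ℤ) ^ xp g i.1) ∧ Best g Z (zK (pc (sv w)) ℚ)}.ncard : ℝ) := by
    rw [cnt_eq_ncard, Nat.cast_le]
    exact Set.ncard_le_ncard (fun w hw => ⟨bx_sub hg (by omega) hw.1, hw.2⟩)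
      ((FinK.box_fin fun i : Fin (2 * g + 1) => Z ^ xp g i.1).subset fun c hc i => by
        simpa using hc.1 i)
  have a4 : ({w : Vec g | ∀ i, |w i| ≤ (Z : ℤ) ^ xp g i.1}.ncard : ℝ) ≤
      3 ^ (2 * g + 1) * 4 ^ ((2 * g + 1) ^ 2) * vol g k := by
    have := (box_card g Z (by omega)).trans (Nat.mul_le_mul_left _
      (Nat.pow_le_pow_left (show Z ≤ 4 * k by omega) _))
    rw [mul_pow, ← mul_assoc] at this
    unfold vol
    exact_mod_cast this
  refine (mul_le_mul_of_nonneg_left a4 (by positivity)).trans ?_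
  rw [← mul_assoc, div_mul_cancel₀ _ (by positivity)]
  linarith

end Pool.Agent.MP_a43263_nt.K2
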