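import Pool.Agent.MP_a43263_nt.K2.SpecC

/-! Sums over short intervals and a short arc. -/

set_option autoImplicit false

noncomputable section

namespace Pool.Agent.MP_a43263_nt.K2

open Finset Filter

namespace GalA

open Complex intervalIntegral
open scoped ComplexConjugate

/-- the additive character -/
def E (k : ℤ) (t : ℝ) : ℂ := exp (2 * Real.pi * (k * t : ℝ) * I)

@[fun_prop]
theorem E_cont (k : ℤ) : Continuous (E k) := by unfold E; fun_prop

theorem E_add (k l : ℤ) (t : ℝ) : E (k + l) t = E k t * E l t := by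
  rw [E, E, E, ← exp_add]; push_cast; ring_nf

theorem E_conj (k : ℤ) (t : ℝ) : conj (E k t) = E (-k) t := by
  rw [E, E, ← exp_conj]; simp [map_ofNat]

theorem E_norm (k : ℤ) (t : ℝ) : ‖E k t‖ = 1 := by
  rw [E, ← norm_exp_ofReal_mul_I (2 * Real.pi * (k * t))]; push_cast; rfl

theorem orth (k : ℤ) : ∫ t in (-(1 / 2) : ℝ)..(1 / 2), E k t = if k = 0 then 1 else 0 := by
  split_ifs with h
  · simp [E, h]
    norm_num
  · have h1 : (2 * Real.pi * k * I : ℂ) ≠ 0 := by simp [h]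
    have h2 : ∀ t : ℝ, E k t = exp (2 * Real.pi * k * I * t) := fun t => by
      rw [E]; push_cast; ring_nf
    simp only [h2]
    rw [integral_exp_mul_complex h1, div_eq_zero_iff, sub_eq_zero]
    refine Or.inl (exp_eq_exp_iff_exists_int.2 ⟨k, ?_⟩)
    push_cast; ring

theorem pars {ι : Type} (T : Finset ι) (f : ι → ℤ) (hf : Set.InjOn f T) (a : ι → ℂ) :
    ∫ t in (-(1 / 2) : ℝ)..(1 / 2), ‖∑ i ∈ T, a i * E (f i) t‖ ^ 2 = ∑ i ∈ T, ‖a i‖ ^ 2 := by
  classical
  refine ofReal_injective ?_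
  rw [← integral_ofReal]
  have h1 : ∀ t : ℝ, ((‖∑ i ∈ T, a i * E (f i) t‖ ^ 2 : ℝ) : ℂ) =
      ∑ i ∈ T, ∑ j ∈ T, a i * conj (a j) * E (f i - f j) t := fun t => by
    rw [ofReal_pow, ← mul_conj', map_sum, sum_mul_sum]
    refine sum_congr rfl fun i _ => sum_congr rfl fun j _ => ?_
    rw [map_mul, E_conj, sub_eq_add_neg, E_add]; ring
  simp only [h1]
  rw [integral_finsetSum fun i _ => (by fun_prop : Continuous _).intervalIntegrable _ _, ofReal_sum]
  refine sum_congr rfl fun i hi => ?_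
  rw [integral_finsetSum fun i _ => (by fun_prop : Continuous _).intervalIntegrable _ _,
    sum_eq_single i (fun j hj e => ?_) fun h => absurd hi h]
  · rw [integral_const_mul, orth, if_pos (sub_self _), mul_one, mul_conj', ofReal_pow]
  · rw [integral_const_mul, orth, if_neg fun h => e (hf hi hj (sub_eq_zero.1 h)).symm, mul_zero]

/-- the kernel -/
def D (h : ℕ) (t : ℝ) : ℂ := ∑ j ∈ range h, E (-j) t

theorem D_le (h : ℕ) (t : ℝ) : ‖D h t‖ ≤ h :=
  (norm_sum_le _ _).trans (by simp [E_norm])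

theorem D_mul (h : ℕ) (t : ℝ) : D h t * (E (-1) t - 1) = E (-h) t - 1 := by
  induction h with
  | zero => simp [D, E]
  | succ h ih =>
    rw [D, sum_range_succ, ← D, add_mul, ih, Nat.cast_succ, neg_add, E_add]; ring

theorem D_far (h : ℕ) {t Θ : ℝ} (h0 : 0 < Θ) (h1 : Θ ≤ |t|) (h2 : |t| ≤ 1 / 2) :
    ‖D h t‖ ≤ 1 / Θ := by
  have hp := Real.pi_pos
  have h3 : ‖E (-1) t - 1‖ = ‖2 * Real.sin (-(2 * Real.pi * t) / 2)‖ := by
    rw [← norm_exp_I_mul_ofReal_sub_one, E]; push_cast; ring_nf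
  have h4 : |-(2 * Real.pi * t) / 2| = Real.pi * |t| := by
    rw [show -(2 * Real.pi * t) / 2 = -(Real.pi * t) by ring, abs_neg, abs_mul, abs_of_pos hp]
  have h5 := Real.mul_abs_le_abs_sin (x := -(2 * Real.pi * t) / 2) (by rw [h4]; nlinarith)
  rw [h4, show 2 / Real.pi * (Real.pi * |t|) = 2 * |t| by field_simp] at h5
  rw [Real.norm_eq_abs, abs_mul, abs_two] at h3
  have h6 : ‖D h t‖ * ‖E (-1) t - 1‖ ≤ 2 := by
    rw [← norm_mul, D_mul]
    exact (norm_sub_le _ _).trans (by rw [E_norm, norm_one]; norm_num)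
  rw [le_div_iff₀ h0]
  nlinarith [norm_nonneg (D h t), mul_le_mul_of_nonneg_left (by linarith : 2 * Θ ≤ ‖E (-1) t - 1‖)
    (norm_nonneg (D h t))]

theorem regroup (c : ℕ → ℂ) (S : Finset ℕ) (h M : ℕ) (hM : ∀ n ∈ S, n ≤ M) (t : ℝ) :
    ∑ y ∈ Icc (-h : ℤ) M, (∑ n ∈ S.filter (fun n : ℕ => y ≤ n ∧ n < y + h), c n) * E y t =
      (∑ n ∈ S, c n * E n t) * D h t := by
  simp only [sum_filter, sum_mul, ite_mul, zero_mul]
  rw [sum_comm]
  refine sum_congr rfl fun n hn => ?_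
  have := hM n hn
  rw [← sum_filter, D, mul_sum]
  refine (sum_nbij' (fun j : ℕ => (n : ℤ) - j) (fun y => (n - y).toNat) ?_ ?_ ?_ ?_ ?_).symm
  · intro j hj
    simp only [mem_range, mem_filter, mem_Icc] at hj ⊢
    omega
  · intro y hy
    simp only [mem_range, mem_filter, mem_Icc] at hy ⊢
    omega
  · intro j _
    omega
  · intro y hy
    simp only [mem_filter, mem_Icc] at hy
    omega
  · intro j _
    rw [sub_eq_add_neg, E_add, mul_assoc]

end GalA

open GalA intervalIntegral in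
theorem gal_k : GALStmt := by
  intro c S Y h Θ h0 h1
  obtain ⟨M, hM⟩ := (S ∪ Y).exists_le
  let F : ℝ → ℝ := fun t => ‖∑ n ∈ S, c n * E n t‖ ^ 2
  let G : ℝ → ℝ := fun t => ‖(∑ n ∈ S, c n * E n t) * D h t‖ ^ 2
  have cF : Continuous F := by fun_prop
  have cG : Continuous G := by unfold G D; fun_prop
  have iF : ∀ (k a b : ℝ), IntervalIntegrable (fun t => k * F t) MeasureTheory.volume a b :=
    fun k a b => (cF.const_mul k).intervalIntegrable a b
  have iG := cG.intervalIntegrable (μ := MeasureTheory.volume)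
  have F0 : ∀ t, 0 ≤ F t := fun t => sq_nonneg _
  have hG : ∀ t k, ‖D h t‖ ≤ k → G t ≤ k ^ 2 * F t := fun t k e => by
    simp only [G, F, norm_mul, mul_pow]
    rw [mul_comm]
    exact mul_le_mul_of_nonneg_right (pow_le_pow_left₀ (norm_nonneg _) e 2) (sq_nonneg _)
  have a1 : ∑ y ∈ Y, ‖∑ n ∈ S.filter (fun n => y ≤ n ∧ n < y + h), c n‖ ^ 2 ≤
      ∫ t in (-(1 / 2) : ℝ)..(1 / 2), G t := by
    simp only [G, ← regroup c S h M fun n hn => hM n (mem_union_left _ hn)]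
    refine le_trans ?_ (pars (Icc (-h : ℤ) M) id (Set.injOn_id _) _).ge
    refine le_trans (le_of_eq ?_) (sum_le_sum_of_subset_of_nonneg
      (s := Y.image fun y : ℕ => (y : ℤ)) (fun y hy => ?_) fun _ _ _ => sq_nonneg _)
    · rw [sum_image fun _ _ _ _ e => Nat.cast_injective e]
      refine sum_congr rfl fun y _ => ?_
      congr 3
      exact filter_congr fun n _ => by omega
    · obtain ⟨z, hz, rfl⟩ := mem_image.1 hy
      have := hM z (mem_union_right _ hz)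
      rw [mem_Icc]; omega
  have a2 : ∫ t in (-(1 / 2) : ℝ)..(1 / 2), F t = ∑ n ∈ S, ‖c n‖ ^ 2 :=
    pars S (fun n => (n : ℤ)) (fun _ _ _ _ e => Nat.cast_injective e) c
  have b1 : ∫ t in (-(1 / 2) : ℝ)..(-Θ), G t ≤ ∫ t in (-(1 / 2) : ℝ)..(-Θ), (1 / Θ) ^ 2 * F t :=
    integral_mono_on (by linarith) (iG _ _) (iF _ _ _) fun t ht => hG t _
      (D_far h h0 (by rw [abs_of_nonpos (by linarith [ht.2])]; linarith [ht.2])
        (abs_le.2 ⟨ht.1, by linarith [ht.2]⟩))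
  have b2 : ∫ t in (-Θ)..Θ, G t ≤ ∫ t in (-Θ)..Θ, (h : ℝ) ^ 2 * F t :=
    integral_mono_on (by linarith) (iG _ _) (iF _ _ _) fun t _ => hG t _ (D_le h t)
  have b3 : ∫ t in Θ..(1 / 2), G t ≤ ∫ t in Θ..(1 / 2), (1 / Θ) ^ 2 * F t :=
    integral_mono_on h1 (iG _ _) (iF _ _ _) fun t ht => hG t _
      (D_far h h0 (ht.1.trans (le_abs_self t)) (abs_le.2 ⟨by linarith [ht.1], ht.2⟩))
  have b4 : 0 ≤ ∫ t in (-Θ)..Θ, (1 / Θ) ^ 2 * F t :=
    integral_nonneg (by linarith) fun t _ => mul_nonneg (sq_nonneg _) (F0 t)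
  have b5 : ∫ t in (-(1 / 2) : ℝ)..(1 / 2), (1 / Θ) ^ 2 * F t = (∑ n ∈ S, ‖c n‖ ^ 2) / Θ ^ 2 := by
    rw [integral_const_mul, a2]; ring
  rw [← integral_add_adjacent_intervals (iG _ Θ) (iG _ _),
    ← integral_add_adjacent_intervals (iG _ (-Θ)) (iG _ _)] at a1
  rw [← integral_add_adjacent_intervals (iF _ _ Θ) (iF _ _ _),
    ← integral_add_adjacent_intervals (iF _ _ (-Θ)) (iF _ _ _)] at b5
  rw [integral_const_mul] at b2
  have e : ∫ θ in (-Θ)..Θ, ‖∑ n ∈ S, c n * Complex.exp (2 * Real.pi * (n * θ : ℝ) * Complex.I)‖ ^ 2 =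
      ∫ t in (-Θ)..Θ, F t := by simp only [F, E, Int.cast_natCast]
  rw [e]
  linarith

end Pool.Agent.MP_a43263_nt.K2
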