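import Pool.Agent.MP_a43263_nt.K2.Spec

/-! THEOREM R2, row GCD: large common prime factors of two coordinates are rare. -/

set_option autoImplicit false

noncomputable section

namespace Pool.Agent.MP_a43263_nt.K2

open Polynomial Finset Filter Matrix JC Pool.Agent.MP_a43263_nt.UV

namespace GcdA

theorem sum_xp (g : ℕ) : ∑ i : Fin (2 * g + 1), xp g i.1 = (2 * g + 1) ^ 2 := by
  have h : ∀ n : ℕ, ∑ i ∈ range n, 2 * (i + 1) = n * (n + 1) := fun n => by
    induction n with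
    | zero => rfl
    | succ n ih => rw [sum_range_succ, ih]; ring
  rw [Fin.sum_univ_eq_sum_range (xp g) (2 * g + 1), sum_range_succ,
    sum_congr rfl fun i hi => show xp g i = 2 * (i + 1) from if_neg (mem_range.1 hi).ne, h,
    show xp g (2 * g) = 2 * g + 1 from if_pos rfl]
  ring

theorem mult (a L : ℤ) (p : ℕ) (hp : 0 < p) (h1 : 1 ≤ L) (h : (p : ℤ) ≤ 8 * L) :
    (((Icc (a - L) (a + L)).filter fun x => (p : ℤ) ∣ x).card : ℝ) ≤ 11 * (L : ℝ) * (1 / p) := by
  have e : Icc (a - L) (a + L) = Ioc (a - L - 1) (a + L) := by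
    ext x; simp only [mem_Icc, mem_Ioc]; omega
  have h2 := Int.Ioc_filter_dvd_card (a - L - 1) (a + L)
    (r := (p : ℤ)) (by exact_mod_cast hp)
  have p0 : (0 : ℚ) < p := by exact_mod_cast hp
  have hL : (1 : ℚ) ≤ L := by exact_mod_cast h1
  have hq : (p : ℚ) ≤ 8 * L := by exact_mod_cast h
  have h3 := Int.floor_le (((a + L : ℤ) : ℚ) / ((p : ℤ) : ℚ))
  have h4 := Int.lt_floor_add_one (((a - L - 1 : ℤ) : ℚ) / ((p : ℤ) : ℚ))
  have h5 : ((((Ioc (a - L - 1) (a + L)).filter fun x => (p : ℤ) ∣ x).card : ℤ) : ℚ) ≤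
      11 * (L : ℚ) * (1 / p) := by
    rw [h2, Int.cast_max]
    refine max_le ?_ (by simp only [Int.cast_zero]; positivity)
    have h6 : ((a + L : ℤ) : ℚ) / ((p : ℤ) : ℚ) - ((a - L - 1 : ℤ) : ℚ) / ((p : ℤ) : ℚ) + 1 ≤
        11 * (L : ℚ) * (1 / p) := by
      push_cast
      rw [← sub_div, div_add_one p0.ne', mul_one_div]
      exact div_le_div_of_nonneg_right (by linarith) p0.le
    rw [Int.cast_sub]
    linarith
  rw [e]
  have := (Rat.cast_le (K := ℝ)).2 h5
  push_cast at this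
  simpa using this

theorem one (g k p : ℕ) (hg : 1 ≤ g) (hk : 1 ≤ k) (hp : 0 < p) (h : p ≤ 8 * k ^ (2 * g + 1)) :
    cnt g k (fun w => (p : ℤ) ∣ w (Fin.last _) ∧
      ∀ i : Fin (2 * g + 1), i.1 + 1 = 2 * g → (p : ℤ) ∣ w i) ≤
        11 ^ (2 * g + 1) * vol g k * ((p : ℝ) ^ 2)⁻¹ := by
  classical
  let P : Fin (2 * g + 1) → Prop := fun i => i.1 = 2 * g ∨ i.1 + 1 = 2 * g
  let S : Fin (2 * g + 1) → Finset ℤ := fun i =>
    (Icc (ce g k i.1 - (k : ℤ) ^ xp g i.1) (ce g k i.1 + (k : ℤ) ^ xp g i.1)).filter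
      fun x => P i → (p : ℤ) ∣ x
  have k1 : (1 : ℤ) ≤ k := by exact_mod_cast hk
  have p1 : (1 : ℝ) ≤ p := by exact_mod_cast hp
  have hS : ∀ i, ((S i).card : ℝ) ≤ 11 * (k : ℝ) ^ xp g i.1 * if P i then 1 / (p : ℝ) else 1 := by
    intro i
    split_ifs with e
    · have := mult (ce g k i.1) ((k : ℤ) ^ xp g i.1) p hp (one_le_pow₀ k1) (by
        have h1 : (p : ℤ) ≤ 8 * (k : ℤ) ^ (2 * g + 1) := by exact_mod_cast h
        have h2 : (k : ℤ) ^ (2 * g + 1) ≤ (k : ℤ) ^ xp g i.1 := pow_le_pow_right₀ k1 (by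
          unfold xp; rcases e with e | e <;> split_ifs <;> omega)
        linarith)
      simpa only [S, e, true_imp_iff, Int.cast_pow, Int.cast_natCast] using this
    · have := mult (ce g k i.1) ((k : ℤ) ^ xp g i.1) 1 one_pos (one_le_pow₀ k1) (by
        have := one_le_pow₀ (n := xp g i.1) k1
        push_cast
        linarith)
      simpa [S, e] using this
  have hc : 2 ≤ (univ.filter P).card := one_lt_card.2 ⟨Fin.last _, by simp [P],
    ⟨2 * g - 1, by omega⟩, by simp only [P, mem_filter, mem_univ, true_and]; omega,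
    fun e => by have := congrArg Fin.val e; simp only [Fin.val_last] at this; omega⟩
  rw [cnt_eq_card]
  calc _ ≤ ((Fintype.piFinset S).card : ℝ) := by
        refine Nat.cast_le.2 (card_le_card fun w hw => Fintype.mem_piFinset.2 fun i => ?_)
        simp only [mem_filter] at hw
        obtain ⟨h1, h2, h3⟩ := hw
        refine mem_filter.2 ⟨mem_Icc.2 (mem_bx.1 h1 i), fun e => e.elim (fun e => ?_) (h3 i)⟩
        rwa [show i = Fin.last _ from Fin.ext e]
    _ ≤ ∏ i, 11 * (k : ℝ) ^ xp g i.1 * if P i then 1 / (p : ℝ) else 1 := by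
        rw [Fintype.card_piFinset, Nat.cast_prod]
        exact prod_le_prod (fun i _ => Nat.cast_nonneg _) fun i _ => hS i
    _ = 11 ^ (2 * g + 1) * vol g k * (1 / (p : ℝ)) ^ (univ.filter P).card := by
        rw [prod_mul_distrib, prod_mul_distrib, prod_const, prod_pow_eq_pow_sum, sum_xp, prod_ite,
          prod_const, prod_const_one, mul_one, card_univ, Fintype.card_fin, vol]
    _ ≤ _ := by
        refine mul_le_mul_of_nonneg_left ?_ (by unfold vol; positivity)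
        rw [← inv_pow, one_div]
        exact pow_le_pow_of_le_one (by positivity) (inv_le_one_of_one_le₀ p1) hc

end GcdA

theorem gcd_k : GCDStmt := by
  refine fun g hg => ⟨2 * 11 ^ (2 * g + 1), by positivity, fun k M hk hM => ?_⟩
  have c1 : 1 ≤ ⌈M⌉₊ := Nat.one_le_ceil_iff.2 (by linarith)
  have v0 : 0 ≤ vol g k := by unfold vol; positivity
  refine (cnt_le_sum (Ioo (⌈M⌉₊ - 1) (8 * k ^ (2 * g + 1) + 1)) (fun p w => (p : ℤ) ∣ w (Fin.last _) ∧
    ∀ i : Fin (2 * g + 1), i.1 + 1 = 2 * g → (p : ℤ) ∣ w i) ?_).trans ?_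
  · rintro w hw ⟨p, -, h1, h2, h3⟩
    have h4 := mem_bx.1 hw (Fin.last _)
    simp only [Fin.val_last, ce, xp, or_true, if_true] at h4
    have h5 : (1 : ℤ) ≤ (k : ℤ) ^ (2 * g + 1) := one_le_pow₀ (by exact_mod_cast hk)
    have h6 : (p : ℤ) ≤ 8 * (k : ℤ) ^ (2 * g + 1) :=
      (Int.le_of_dvd (by linarith) h2).trans (by linarith)
    have h7 : p ≤ 8 * k ^ (2 * g + 1) := by exact_mod_cast h6
    have h8 := Nat.ceil_le.2 h1
    exact ⟨p, mem_Ioo.2 ⟨by omega, by omega⟩, h2, h3⟩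
  · refine (sum_le_sum fun p hp => GcdA.one g k p hg hk (by have := mem_Ioo.1 hp; omega)
      (by have := mem_Ioo.1 hp; omega)).trans ?_
    rw [← mul_sum]
    have h1 := sum_Ioo_inv_sq_le (α := ℝ) (⌈M⌉₊ - 1) (8 * k ^ (2 * g + 1) + 1)
    rw [Nat.cast_sub c1, Nat.cast_one, sub_add_cancel] at h1
    have h2 : (2 : ℝ) / ⌈M⌉₊ ≤ 2 / M :=
      div_le_div_of_nonneg_left zero_le_two (by linarith) (Nat.le_ceil M)
    refine (mul_le_mul_of_nonneg_left (h1.trans h2) (by positivity)).trans (le_of_eq (by ring))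

end Pool.Agent.MP_a43263_nt.K2
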