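import Pool.Agent.MP_a43263_nt.K2.SpecC

/-! THEOREM R2: algebra of the values. -/

set_option autoImplicit false

noncomputable section

namespace Pool.Agent.MP_a43263_nt.K2

open Finset Filter

namespace GeoA

theorem sum_xp (g : ℕ) : ∑ i : Fin (2 * g + 1), xp g i.1 = (2 * g + 1) ^ 2 := by
  have h : ∀ n : ℕ, ∑ i ∈ range n, 2 * (i + 1) = n * (n + 1) := fun n => by
    induction n with
    | zero => rfl
    | succ n ih => rw [sum_range_succ, ih]; ring
  rw [Fin.sum_univ_eq_sum_range (xp g) (2 * g + 1), sum_range_succ,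
    sum_congr rfl fun i hi => show xp g i = 2 * (i + 1) from if_neg (mem_range.1 hi).ne, h,
    show xp g (2 * g) = 2 * g + 1 from if_pos rfl]
  ring

theorem card_bx (g k : ℕ) :
    ((bx g k).card : ℝ) = ∏ i : Fin (2 * g + 1), (2 * (k : ℝ) ^ xp g i.1 + 1) := by
  rw [bx, Fintype.card_piFinset, Nat.cast_prod]
  refine prod_congr rfl fun i _ => ?_
  rw [Int.card_Icc, show ce g k i.1 + (k : ℤ) ^ xp g i.1 + 1 - (ce g k i.1 - (k : ℤ) ^ xp g i.1) =
    ((2 * k ^ xp g i.1 + 1 : ℕ) : ℤ) by push_cast; ring, Int.toNat_natCast]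
  push_cast
  rfl

theorem vol_eq (g k : ℕ) : vol g k = ∏ i : Fin (2 * g + 1), (k : ℝ) ^ xp g i.1 := by
  rw [prod_pow_eq_pow_sum, sum_xp, vol]

variable {g : ℕ}

theorem shift (hg : 1 ≤ g) (w : Vec g) (t u u' v : ℤ) :
    Gv (w + sh g t u' v) u v = Gv w u v + t * (u ^ 2 * v ^ (4 * g) * (u ^ 2 - u' ^ 2)) := by
  have h : ∀ i, sv (w + sh g t u' v) i = sv w i + sh g t u' v i := fun i => by
    by_cases e : i.1 = 2 * g
    · have : sh g t u' v i = 0 := by rw [sh, if_neg (by omega), if_neg (by omega)]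
      simp only [sv, if_pos e, Pi.add_apply, this, add_zero]
    · simp only [sv, if_neg e, Pi.add_apply]
  obtain ⟨n, rfl⟩ : ∃ n, g = n + 1 := ⟨g - 1, by omega⟩
  simp only [Gv, h, add_mul, sum_add_distrib, add_assoc, add_right_inj]
  rw [Fintype.sum_eq_add (⟨2 * n, by omega⟩ : Fin (2 * (n + 1) + 1)) ⟨2 * n + 1, by omega⟩
    (by simp) fun i hi => by
      have a : i.1 ≠ 2 * n := fun e => hi.1 (Fin.ext e)
      have b : i.1 ≠ 2 * n + 1 := fun e => hi.2 (Fin.ext e)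
      rw [sh, if_neg (by omega), if_neg (by omega), zero_mul, zero_mul]]
  simp only [sh]
  rw [if_pos (by omega), if_neg (by omega), if_pos (by omega),
    show 2 * (n + 1) - 2 * n = 2 by omega, show 2 * (n + 1) - (2 * n + 1) = 1 by omega]
  ring

theorem gv_mod {M : ℕ} {w w' : Vec g} {u u' : ℤ} (v : ℤ) (h : ∀ i, w i ≡ w' i [ZMOD M])
    (k : u ≡ u' [ZMOD M]) : Gv w u v ≡ Gv w' u' v [ZMOD M] := by
  have h' := fun i => (ZMod.intCast_eq_intCast_iff _ _ _).2 (h i)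
  have k' := (ZMod.intCast_eq_intCast_iff _ _ _).2 k
  refine (ZMod.intCast_eq_intCast_iff _ _ _).1 ?_
  simp only [Gv, sv]
  push_cast
  simp only [h', k']

theorem homog (w : Vec g) (a v : ℤ) : Gv w (a * v) v = v ^ (4 * g + 2) * Gv w a 1 := by
  simp only [Gv, mul_add, mul_sum]
  congr 1
  · rw [show -(a * v) ^ 2 = v ^ 2 * -a ^ 2 by ring, mul_pow]
    ring
  · refine sum_congr rfl fun i _ => ?_
    have e : 4 * g + 2 = 2 * (2 * g - i.1) + 2 * (i.1 + 1) := by have := i.2; omega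
    rw [e, show -(a * v) ^ 2 = v ^ 2 * -a ^ 2 by ring, mul_pow]
    ring

theorem quot {N d : ℕ} {x y c : ℤ} (hN : 0 < N) (hd : d ∣ N) (e : c * y ≡ x [ZMOD (N ^ 2 : ℕ)])
    (hc : IsCoprime c (N : ℤ)) (h : (d : ℤ) ∣ y ∧ IsCoprime (y / d) (N : ℤ)) :
    (d : ℤ) ∣ x ∧ IsCoprime (x / d) (N : ℤ) := by
  obtain ⟨⟨y, rfl⟩, h⟩ := h
  obtain ⟨s, rfl⟩ := hd
  have d0 : (d : ℤ) ≠ 0 := by
    rintro f
    simp [show d = 0 by exact_mod_cast f] at hN
  obtain ⟨m, hm⟩ := e.dvd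
  obtain rfl : x = d * (c * y + (d * s : ℕ) * (s * m)) := by
    push_cast at hm ⊢
    linear_combination hm
  rw [Int.mul_ediv_cancel_left _ d0] at h ⊢
  exact ⟨dvd_mul_right _ _, (hc.mul_left h).add_mul_left_left _⟩

end GeoA

open GeoA in
theorem geo_k : GEOStmt := by
  intro g hg
  refine ⟨fun k hk => ?_, shift hg, fun N d a w e hN hd he => ?_,
    fun N d a u v w hN hd hv hu h => ?_, fun w u v h => ?_⟩
  · have h1 : ∀ i : Fin (2 * g + 1), (1 : ℝ) ≤ (k : ℝ) ^ xp g i.1 := fun i =>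
      one_le_pow₀ (by exact_mod_cast hk)
    rw [card_bx, vol_eq]
    refine ⟨prod_le_prod (fun i _ => by positivity) fun i _ => by linarith [h1 i],
      (prod_le_prod (g := fun i => 3 * (k : ℝ) ^ xp g i.1) (fun i _ => by positivity)
        fun i _ => by linarith [h1 i]).trans_eq ?_⟩
    rw [prod_mul_distrib, prod_const, card_univ, Fintype.card_fin]
  · have key : Gv w a 1 ≡ Gv (w + e) a 1 [ZMOD (N ^ 2 : ℕ)] := gv_mod 1
      (fun i => (Int.modEq_iff_dvd.2 (by simpa using he i))) rfl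
    exact ⟨quot hN hd (by rw [one_mul]; exact key.symm) isCoprime_one_left,
      quot hN hd (by rw [one_mul]; exact key) isCoprime_one_left⟩
  · refine quot hN hd ?_ (Nat.isCoprime_iff_coprime.2 hv).pow_left h (c := (v : ℤ) ^ (4 * g + 2))
    rw [← homog]
    exact gv_mod _ (fun _ => rfl) (by exact_mod_cast Int.natCast_modEq_iff.2 hu.symm)
  · obtain ⟨z, hz⟩ : v ∣ ∑ i, sv w i * (-u ^ 2) ^ (2 * g - i.1) * (v ^ 2) ^ (i.1 + 1) :=
      dvd_sum fun i _ => ((dvd_pow_self v two_ne_zero).trans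
        (dvd_pow_self _ (Nat.succ_ne_zero _))).mul_left _
    rw [Gv, hz]
    exact h.pow_left.neg_left.pow_left.add_mul_left_left _

end Pool.Agent.MP_a43263_nt.K2
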