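import Pool.Agent.MP_a43263_nt.K2.Spec

/-! THEOREM R2, row IDX: the index of `2 J(ℚ)` in `J(ℚ)` for a polynomial that need not split. -/

set_option autoImplicit false

noncomputable section

namespace Pool.Agent.MP_a43263_nt.K2

open Polynomial Finset Filter Matrix JC Pool.Agent.MP_a43263_nt.UV

namespace IdxA

open JC.Sha

/-- the signed norm -/
def sn (U : ℚ[X]) : ℚ[X] := C ((-1) ^ U.natDegree) * U

theorem sn_mul {U U' : ℚ[X]} (h : U.Monic) (h' : U'.Monic) : sn (U * U') = sn U * sn U' := by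
  simp only [sn, h.natDegree_mul h', pow_add, C_mul]; ring

theorem sn_cop {U F : ℚ[X]} (h : IsCoprime U F) : IsCoprime (sn U) F :=
  (isCoprime_mul_unit_left_left (isUnit_C.2 (isUnit_one.neg.pow _)) _ _).2 h

theorem sn_ev (U : ℚ[X]) (x : Qbar) : (fK (sn U) Qbar).eval x = nb (fK U Qbar) x := by
  simp [sn, nb, fK]

theorem sq_tr {F x y z : ℚ[X]} (hy : IsCoprime y F) (h : Sqm F (x * y)) (h' : Sqm F (y * z)) :
    Sqm F (x * z) := by
  obtain ⟨u, b, hy⟩ := hy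
  obtain ⟨s, c, h⟩ := h
  obtain ⟨t, d, h'⟩ := h'
  exact ⟨s * t * u, x * z * b * (2 * u * y + b * F) + u ^ 2 * (s ^ 2 * d + c * t ^ 2 + F * c * d), by
    linear_combination (-(x * z * (1 + u * y + b * F))) * hy + u ^ 2 * (y * z) * h +
      u ^ 2 * (s ^ 2 + F * c) * h'⟩

theorem ec (φ : ℚ →+* Qbar) : φ = Rat.castHom Qbar := RingHom.ext_rat _ _

variable {ι : Type} [Fintype ι] {g : ℕ} {F : ℚ[X]} {a : ι → Qbar} (h : Cv g a (fK F Qbar))

include h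

theorem sqm_iff (d : ℚ[X]) :
    Sqm F d ↔ ∃ z : ℚ[X], ∀ i, (fK z Qbar).eval (a i) ^ 2 = (fK d Qbar).eval (a i) := by
  refine exists_congr fun z => ⟨fun ⟨w, hs⟩ i => ?_, fun e => UM.dvd_of_roots _ h fun i => ?_⟩
  · have := congrArg (fun p => (fK p Qbar).eval (a i)) hs
    simp only [fK, Polynomial.map_sub, Polynomial.map_mul, Polynomial.map_pow, eval_sub, eval_mul,
      eval_pow, (UM.root_iff h _).2 ⟨i, rfl⟩, zero_mul] at this
    exact (sub_eq_zero.1 this).symm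
  · rw [Polynomial.map_sub, Polynomial.map_pow, eval_sub, eval_pow, e, sub_self]

theorem cop {U : ℚ[X]} (c : IsCoprime U F) (i : ι) : (fK U Qbar).eval (a i) ≠ 0 := by
  have h' : Cv g a (F.map (algebraMap ℚ Qbar)) := ec (algebraMap _ _) ▸ h
  have := (UM.cop_iff h').1 c i
  rwa [ec (algebraMap _ _)] at this

/-- an invariant ideal class is twice a rational point iff the signed norm is a square -/
theorem key {D : Ideal (Rg (fK F Qbar))} {w : ℚ[X]} (hn : Nu D (fK w Qbar)) (hw : IsCoprime w F)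
    (hD : ∀ σ : Qbar →+* Qbar, D.map (rmap σ (fK_map F σ)) = D) :
    (∃ Q ∈ JQ F, 2 • Q = Additive.ofMul (cl D)) ↔ Sqm F (sn w) := by
  obtain ⟨z1, z2, -⟩ := JC.T.zed Qbar ι g _ _ h
  obtain ⟨π, hπ, p1, pm⟩ := UM.exists_perm h
  have iv : ∀ σ i, π σ (π σ⁻¹ i) = i := fun σ i => by rw [← pm, mul_inv_cancel, p1]
  have iv' : ∀ σ i, π σ⁻¹ (π σ i) = i := fun σ i => by rw [← pm, inv_mul_cancel, p1]
  have act : ∀ (σ : GQ) {R : Jac F Qbar} {ρ : ι → Qbar}, Z a _ R.toMul D ρ →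
      Z a _ (jac F σ R).toMul D fun i => σ (ρ (π σ⁻¹ i)) := fun σ R ρ z => by
    have := UM.z_map h (σ : Qbar →+* Qbar) (b := a) (η := fun i => σ (ρ (π σ⁻¹ i))) z fun i =>
      ⟨π σ⁻¹ i, by rw [RingHom.coe_coe, hπ, iv], rfl⟩
    rwa [hD] at this
  have n0 : ∀ i, nb (fK w Qbar) (a i) ≠ 0 := fun i => sn_ev w (a i) ▸ cop h (sn_cop hw) i
  rw [sqm_iff h]
  simp only [sn_ev]
  constructor
  · rintro ⟨Q, hQ, e⟩
    obtain ⟨ρ, z⟩ := z2 Q.toMul D _ hn (cop h hw) (congrArg Additive.toMul e)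
    obtain ⟨p, hp⟩ := UM.interp (K := ℚ) (z := ρ) h.inj fun σ => ⟨π σ, fun i => ⟨hπ σ i, by
      have k := act σ z
      rw [hQ σ] at k
      exact (congrArg (fun j => σ (ρ j)) (iv' σ i)).symm.trans (UM.z_unique h z k (π σ i))⟩⟩
    refine ⟨p, fun i => ?_⟩
    rw [← (z1 _ _ _ _ z hn).2 i, ← hp i]
    exact congrArg (fun φ => (p.map φ).eval (a i) ^ 2) (ec _).symm
  · rintro ⟨s, e1⟩
    obtain ⟨R, hR⟩ := JC.T.half Qbar ι g _ _ h (cl D)
    obtain ⟨ρ, z⟩ := z2 R D _ hn (cop h hw) hR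
    have h1 := (z1 _ _ _ _ z hn).2
    have r0 : ∀ i, ρ i ≠ 0 := fun i => ne_of_sq (h1 i) (n0 i)
    obtain ⟨η, hη⟩ : ∃ η : ι → Qbar, ∀ i, η i = (fK s Qbar).eval (a i) / ρ i := ⟨_, fun _ => rfl⟩
    have e2 : ∀ i, η i ^ 2 = 1 := fun i => by rw [hη, div_pow, e1, h1, div_self (n0 i)]
    obtain ⟨ε, hε⟩ : ∃ ε, ε = ∏ i, η i := ⟨_, rfl⟩
    have e4 : ε ^ 2 = 1 := by rw [hε, ← prod_pow, prod_eq_one fun i _ => e2 i]
    obtain ⟨T, hT⟩ := (JC.T.zt Qbar ι g _ _ h).2 (fun i => ε * η i)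
      (fun i => by rw [mul_pow, e4, e2, one_mul])
      (by rw [prod_mul_distrib, prod_const, card_univ, h.card, ← hε, pow_succ, pow_mul, e4,
        one_pow, one_mul, ← sq, e4])
    have z' := UM.z_add h (R := Additive.ofMul R) (R' := Additive.ofMul T) z hT
    have e5 : (fun i => ρ i * (ε * η i)) = fun i => ε * (fK s Qbar).eval (a i) :=
      funext fun i => by rw [hη, mul_left_comm, mul_div_cancel₀ _ (r0 i)]
    rw [e5] at z'
    refine ⟨_, fun σ => sub_eq_zero.1 (((JC.T.zt Qbar ι g _ _ h).1 _ _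
      (UM.z_sub h z' (act σ z'))).2 fun i => ?_), congrArg Additive.ofMul (z1 _ _ _ _ z' hn).1⟩
    have e6 : σ ε = ε := map_sign (σ : Qbar →+* Qbar) e4
    have e7 : σ ((fK s Qbar).eval (a (π σ⁻¹ i))) = (fK s Qbar).eval (a i) := by
      rw [← RingHom.coe_coe, ← eval₂_at_apply, ← eval_map, fK_map, RingHom.coe_coe, hπ, iv]
    rw [map_mul, e6, e7]
    exact div_self (mul_ne_zero (ne_of_sq e4 one_ne_zero) (ne_of_sq (e1 i) (n0 i)))

omit h in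
theorem mi_fix (σ : Qbar →+* Qbar) (U V : ℚ[X]) :
    (MI (fK F Qbar) (fK U Qbar) (fK V Qbar)).map (rmap σ (fK_map F σ)) =
      MI (fK F Qbar) (fK U Qbar) (fK V Qbar) := by
  rw [mi_map, fK_map, fK_map]

theorem mi_nu {U V : ℚ[X]} (hm : U.Monic) (hd : U ∣ F - V ^ 2) :
    Nu (MI (fK F Qbar) (fK U Qbar) (fK V Qbar)) (fK U Qbar) :=
  (JC.mum Qbar ι g _ _ h).2.2.2.2.2.2.2.2.2.1 _ _ (hm.map _) ((RatA.dvd_map _ rfl).2 hd)

theorem mem_JQ {U V : ℚ[X]} (hm : U.Monic) (hd : U ∣ F - V ^ 2) :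
    Additive.ofMul (cl (MI (fK F Qbar) (fK U Qbar) (fK V Qbar))) ∈ JQ F := fun σ => by
  have := UM.cl_map (UM.Sq.of_cv h) (UM.Sq.of_cv h) (σ : Qbar →+* Qbar) (fK_map F _)
    (hm.map _) ((RatA.dvd_map _ rfl).2 hd)
  rw [fK_map, fK_map] at this
  exact congrArg Additive.ofMul this

/-- two rational pairs have the same class modulo `2 J(ℚ)` iff the norms agree up to squares -/
theorem same_iff {U V U' V' : ℚ[X]} (hm : U.Monic) (hd : U ∣ F - V ^ 2) (hc : IsCoprime U F)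
    (hm' : U'.Monic) (hd' : U' ∣ F - V' ^ 2) (hc' : IsCoprime U' F) (P P' : JQ F)
    (hP : P.1 = Additive.ofMul (cl (MI (fK F Qbar) (fK U Qbar) (fK V Qbar))))
    (hP' : P'.1 = Additive.ofMul (cl (MI (fK F Qbar) (fK U' Qbar) (fK V' Qbar)))) :
    -P + P' ∈ (nsmulAddMonoidHom 2 : JQ F →+ JQ F).range ↔ Sqm F (sn U * sn U') := by
  have hM := JC.mum Qbar ι g _ _ h
  have : IsDomain (Rg (fK F Qbar)) := hM.1.2.2.2
  have n1 := mi_nu h hm hd
  have n2 := mi_nu h hm' hd'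
  have n3 := hM.2.2.2.2.2.2.2.2.2.2.2.2.1 _ _ _ _ n1 n2
  rw [← Polynomial.map_mul] at n3
  have hk := key h n3 (hc.mul_left hc') fun σ => by rw [Ideal.map_mul, mi_fix, mi_fix]
  rw [(JC.pic.1 _).2.2.1 _ _ (hM.2.2.2.2.2.2.2.2.2.2.2.2.2.2.1 _ _ n1).2.1
    (hM.2.2.2.2.2.2.2.2.2.2.2.2.2.2.1 _ _ n2).2.1, ofMul_mul, ← hP, ← hP', sn_mul hm hm'] at hk
  rw [← hk]
  constructor
  · rintro ⟨Q, hQ⟩
    refine ⟨(Q + P : JQ F).1, (Q + P).2, ?_⟩
    have e : 2 • (Q + P) = P + P' := by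
      have hQ' : 2 • Q = -P + P' := hQ
      rw [nsmul_add, hQ', two_nsmul]; abel
    exact congrArg Subtype.val e
  · rintro ⟨Q, hQ, e⟩
    have e' : 2 • (⟨Q, hQ⟩ : JQ F) = P + P' := Subtype.ext e
    refine ⟨⟨Q, hQ⟩ - P, ?_⟩
    show 2 • ((⟨Q, hQ⟩ : JQ F) - P) = -P + P'
    rw [nsmul_sub, e', two_nsmul]; abel

theorem rep (h0 : UM.Sq g F) (P : JQ F) : ∃ U V : ℚ[X], U.Monic ∧ U ∣ F - V ^ 2 ∧ IsCoprime U F ∧
    P.1 = Additive.ofMul (cl (MI (fK F Qbar) (fK U Qbar) (fK V Qbar))) := by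
  have sb := UM.Sq.of_cv h
  obtain ⟨U0, V0, hr0, hP⟩ := UM.rat (K := ℚ) (f := F) sb (congrArg (fun φ => F.map φ) (ec _))
    (Additive.toMul P.1) fun σ _ => congrArg Additive.toMul (P.2 σ)
  have e2 : ∀ φ : ℚ →+* Qbar, cl (MI (fK F Qbar) (fK U0 Qbar) (fK V0 Qbar)) =
      cl (MI (fK F Qbar) (U0.map φ) (V0.map φ)) := fun φ => by rw [ec φ]
  obtain ⟨⟨U, V⟩, hm, cp, e0⟩ := (UM.move h0).1 (cl (MI _ U0 V0)) _ h0.mo.ne_zero
  refine ⟨U, V, hm.1, hm.2.1, cp, congrArg Additive.ofMul (((e2 _).trans hP).symm.trans ?_)⟩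
  rw [← UM.cl_map h0 sb _ rfl hm.1 hm.2.1, ← UM.cl_map h0 sb _ rfl hr0.1 hr0.2.1, ← e0]
  rfl

end IdxA

open IdxA in
theorem idx_k : IDXStmt := by
  intro g F I hF hW hI hS
  obtain ⟨a, h⟩ := UM.exists_cv (F := fK F Qbar) hF.pos (hF.monic.map _)
    ((hF.monic.natDegree_map _).trans hF.deg) hF.sep.map
  have hW' : ∀ d ∈ I, ∃ U V : ℚ[X], U.Monic ∧ U ∣ F - V ^ 2 ∧ IsCoprime U F ∧ IsCoprime d F ∧
      Sqm F (d * sn U) := fun d hd => by
    obtain ⟨c, U, V, s, h1, h2, h3, h4⟩ := hW d hd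
    rw [C_1, one_mul] at h2
    exact ⟨U, V, h1, h2, h3, c, s, h4⟩
  choose U V hm hd hc hc' hs using hW'
  let P : I → JQ F := fun d => ⟨_, mem_JQ h (hm d.1 d.2) (hd d.1 d.2)⟩
  let q : I → JQ F ⧸ (nsmulAddMonoidHom 2 : JQ F →+ JQ F).range :=
    fun d => QuotientAddGroup.mk (P d)
  have hq : Function.Bijective q := by
    constructor
    · intro d e hde
      have h1 := (same_iff h (hm d.1 d.2) (hd d.1 d.2) (hc d.1 d.2) (hm e.1 e.2) (hd e.1 e.2)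
        (hc e.1 e.2) (P d) (P e) rfl rfl).1 (QuotientAddGroup.eq.1 hde)
      exact Subtype.ext (hI d.1 d.2 e.1 e.2 (sq_tr (sn_cop (hc e.1 e.2))
        (sq_tr (sn_cop (hc d.1 d.2)) (hs d.1 d.2) h1) (by rw [mul_comm]; exact hs e.1 e.2)))
    · intro x
      obtain ⟨Q, rfl⟩ := QuotientAddGroup.mk_surjective x
      obtain ⟨U', V', h1, h2, h3, e⟩ := rep h ⟨hF.monic, hF.deg, hF.sep.squarefree⟩ Q
      obtain ⟨d, hd', h4⟩ := hS (sn U') ⟨sn_cop h3, U', V', sn U', h1,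
        by rwa [C_1, one_mul], h3, 0, by rw [sq, mul_zero]; exact sub_self _⟩
      refine ⟨⟨d, hd'⟩, (QuotientAddGroup.eq.2 ?_).symm⟩
      exact (same_iff h h1 h2 h3 (hm d hd') (hd d hd') (hc d hd') Q (P ⟨d, hd'⟩) e rfl).2
        (sq_tr (hc' d hd') h4 (hs d hd'))
  rw [AddSubgroup.index_eq_card, ← Nat.card_eq_of_bijective q hq, Nat.card_eq_fintype_card,
    Fintype.card_coe]

end Pool.Agent.MP_a43263_nt.K2
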