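import Pool.Agent.MP_a43263_nt.K2.Spec

/-! THEOREM R2, row ISO: substitution of the root of the companion. -/

set_option autoImplicit false

noncomputable section

namespace Pool.Agent.MP_a43263_nt.K2

open Polynomial Finset Filter Matrix JC Pool.Agent.MP_a43263_nt.UV

namespace IsoA

variable {K : Type} [Field K] {g : ℕ}

theorem dvd_fp {a : Fin (2 * g + 1) → K} (ha : Function.Injective a) (P : K[X]) :
    fp a ∣ P ↔ ∀ i, P.eval (a i) = 0 := by
  rw [fp]
  refine ⟨fun h i => ?_, fun h => ?_⟩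
  · exact dvd_iff_isRoot.1 ((dvd_prod_of_mem (fun i => X - C (a i)) (mem_univ i)).trans h)
  · exact Finset.prod_dvd_of_coprime (fun i _ j _ e => pairwise_coprime_X_sub_C ha e)
      fun i _ => dvd_iff_isRoot.2 (h i)

theorem nm_fp (a : Fin (2 * g + 1) → K) (P : K[X]) : Nm (fp a) P = ∏ k, P.eval (a k) := by
  rw [Nm, fp, resultant_prod_left _ _ _ _ (by simp) le_rfl]
  exact prod_congr rfl fun k _ => by
    rw [natDegree_X_sub_C, resultant_X_sub_C_left _ _ _ le_rfl]

/-- the roots of the companion -/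
theorem roots [CharZero K] {f F κ : ℤ[X]} {u v G : ℤ} (h : Cp g f F κ u v G)
    {a : Fin (2 * g + 1) → K} (hc : Cv g a (zK f K)) :
    Function.Injective (fun i => (zK κ K).eval (a i)) ∧
      zK F K = fp (fun i => (zK κ K).eval (a i)) ∧ ∀ i, (zK κ K).eval (a i) ≠ 0 := by
  have hG : (G : K) ≠ 0 := Int.cast_ne_zero.2 h.G0
  have hv : (v : K) ≠ 0 := Int.cast_ne_zero.2 h.v0
  have h0 : ∀ i, (zK f K).eval (a i) = 0 := (dvd_fp hc.inj _).1 (hc.eq ▸ dvd_rfl)
  have h1 : ∀ i, (zK κ K).eval (a i) * (zK (el u v) K).eval (a i) = G := fun i => by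
    have := eval_eq_zero_of_dvd_of_eval_eq_zero (map_dvd (Int.castRingHom K) h.ka) (h0 i)
    simpa [sub_eq_zero] using this
  have h2 : ∀ x : K, (zK (el u v) K).eval x = (v : K) ^ 2 * (x - 1) + (u : K) ^ 2 := fun x => by
    simp [el]
  have hi : Function.Injective fun i => (zK κ K).eval (a i) := fun i j e => by
    have e1 := h1 i
    have e2 := h1 j
    have e3 : (zK κ K).eval (a j) ≠ 0 := fun z => hG (by rw [← e2, z, zero_mul])
    simp only at e
    rw [e, ← e2, mul_right_inj' e3, h2, h2, add_left_inj, mul_right_inj' (pow_ne_zero 2 hv),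
      sub_left_inj] at e1
    exact hc.inj e1
  have hm : (zK F K).Monic := h.mo.map _
  have hd : (zK F K).natDegree = 2 * g + 1 := by rw [h.mo.natDegree_map, h.dg]
  have h3 : ∀ i, (zK F K).eval ((zK κ K).eval (a i)) = 0 := fun i => by
    have e := congrArg (fun P => (zK P K).eval (a i)) h.mb
    have e3 : (zK (el u v) K).eval (a i) ≠ 0 := fun z => hG (by rw [← h1 i, z, mul_zero])
    simp only [Polynomial.map_sum, Polynomial.map_mul, Polynomial.map_pow, map_C, eval_mul,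
      eval_finsetSum, eval_pow, eval_C, h0 i, mul_zero] at e
    refine (mul_eq_zero.1 (?_ : _ * (zK (el u v) K).eval (a i) ^ (2 * g + 1) = 0)).resolve_right
      (pow_ne_zero _ e3)
    rw [eval_eq_sum_range, hd, sum_mul, ← e]
    refine sum_congr rfl fun k hk => ?_
    obtain ⟨m, hm⟩ := Nat.exists_eq_add_of_le (Nat.lt_succ_iff.1 (mem_range.1 hk))
    rw [hm, Nat.add_sub_cancel_left, coeff_map, map_mul, map_pow, eq_intCast _ G, ← h1 i]
    ring
  refine ⟨hi, ?_, fun i z => hG (by rw [← h1 i, z, zero_mul])⟩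
  refine eq_of_monic_of_dvd_of_natDegree_le (monic_prod_X_sub_C _ _) hm ((dvd_fp hi _).2 h3) ?_
  rw [hd, fp, natDegree_prod_of_monic _ _ fun i _ => monic_X_sub_C _]
  simp

theorem is [CharZero K] {f F κ : ℤ[X]} {u v G : ℤ} (hz : Zq g f) (h : Cp g f F κ u v G) :
    Is (zK f K) (zK F K) (zK κ K) := by
  let φ := algebraMap K (AlgebraicClosure K)
  obtain ⟨a, hc, -⟩ := (hz.sq (AlgebraicClosure K)).cv
  obtain ⟨hi, hF, h0⟩ := roots h hc
  have hm : (zK F K).Monic := h.mo.map _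
  have ker : ∀ P : K[X], zK f K ∣ P.comp (zK κ K) ↔ zK F K ∣ P := fun P => by
    rw [← map_dvd_map' φ, ← map_dvd_map' φ, map_comp, zK_map, zK_map, zK_map, hc.eq, hF,
      dvd_fp hc.inj, dvd_fp hi]
    simp only [eval_comp]
  refine ⟨ker, fun P => ?_, fun P => φ.injective ?_⟩
  · have hv : (v : K) ≠ 0 := Int.cast_ne_zero.2 h.v0
    have c0 : (zK F K).coeff 0 ≠ 0 := fun z => by
      have e : (zK F (AlgebraicClosure K)).eval 0 = 0 := by
        rw [← coeff_zero_eq_eval_zero, ← zK_map F φ, coeff_map, z, map_zero]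
      rw [hF, fp, eval_prod, prod_eq_zero_iff] at e
      obtain ⟨i, -, e⟩ := e
      exact h0 i (by simpa using e)
    have e1 := (ker _).2 dvd_rfl
    have e2 : zK f K ∣ zK κ K * (C ((v : K) ^ 2) * (X - 1) + C ((u : K) ^ 2)) - C (G : K) := by
      simpa [el] using map_dvd (Int.castRingHom K) h.ka
    generalize zK F K = F' at c0 e1
    rw [← divX_mul_X_add F', add_comp, mul_comp, X_comp, C_comp] at e1
    have e3 : zK f K ∣ X - (1 + C ((v : K) ^ 2)⁻¹ *
        (-(C (G * (F'.coeff 0)⁻¹) * F'.divX) - C ((u : K) ^ 2))).comp (zK κ K) := by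
      have i1 : C ((v : K) ^ 2)⁻¹ * C ((v : K) ^ 2) = (1 : K[X]) := by
        rw [← C_mul, inv_mul_cancel₀ (pow_ne_zero 2 hv), C_1]
      have i2 : C (F'.coeff 0)⁻¹ * C (F'.coeff 0) = (1 : K[X]) := by
        rw [← C_mul, inv_mul_cancel₀ c0, C_1]
      simp only [add_comp, mul_comp, sub_comp, neg_comp, C_comp, one_comp, C_mul]
      convert (dvd_sub (e1.mul_left (C ((v : K) ^ 2) * (X - 1) + C ((u : K) ^ 2)))
        (e2.mul_left (F'.divX.comp (zK κ K)))).mul_left
        (C ((v : K) ^ 2)⁻¹ * C (F'.coeff 0)⁻¹) using 1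
      linear_combination (-(X - 1) * C (F'.coeff 0)⁻¹ * C (F'.coeff 0)) * i1 +
        (-(X - 1) - C ((v : K) ^ 2)⁻¹ * C ((u : K) ^ 2)) * i2
    have := e3.trans (sub_dvd_eval_sub _ _ (P.map C))
    rw [eval_map, eval_map, ← Polynomial.comp, ← Polynomial.comp, comp_X, ← comp_assoc] at this
    exact ⟨_, this⟩
  · rw [← Gram.nm_map (hz.mo K), ← Gram.nm_map hm, map_comp, zK_map, zK_map, zK_map, hc.eq, hF, nm_fp, nm_fp]
    simp only [eval_comp]

end IsoA

theorem iso_k : ISOStmt := fun g f F κ u v G hz h => by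
  refine ⟨⟨hz.pos, h.mo, h.dg, Prime.irreducible ⟨(h.mo.map _).ne_zero, fun hu => ?_,
    fun a b e => ?_⟩⟩, fun K _ _ => IsoA.is hz h⟩
  · have := natDegree_eq_zero_of_isUnit hu
    rw [h.mo.natDegree_map, h.dg] at this
    omega
  · have k := (IsoA.is (K := ℚ) hz h).ker
    rw [← k, mul_comp] at e
    exact (hz.irr.prime.dvd_or_dvd e).imp (k _).1 (k _).1

theorem wsq_k : WSQStmt := by
  rintro K _ f δ δ' ⟨⟨d, c, hd⟩, U, V, s, h1, h2, h3, ⟨x, h4⟩⟩ h5 ⟨z, y, h6⟩
  refine ⟨h5, U, V, s * z * d, h1, h2, h3, ?_⟩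
  generalize C ((-1 : K) ^ U.natDegree) * U = W at h4 ⊢
  refine ⟨δ' * W * c * (1 + d * δ) + d ^ 2 * (x * (δ * δ') + s ^ 2 * y), ?_⟩
  linear_combination (-(δ' * W) * (1 + d * δ)) * hd + d ^ 2 * (δ * δ') * h4 + d ^ 2 * s ^ 2 * h6

end Pool.Agent.MP_a43263_nt.K2
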