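import Pool.Agent.MP_a43263_nt.K2.Spec

/-! THEOREM R2: the Selmer group of the companion. -/

set_option autoImplicit false

noncomputable section

namespace Pool.Agent.MP_a43263_nt.K2

open Polynomial Finset Filter Matrix JC Pool.Agent.MP_a43263_nt.UV
open UV.Kill (fK_mul dvd_iff not_sq)

theorem kill_k : WTStmt → EV1Stmt → EV2Stmt → RAM2Stmt → TWOStmt → REALStmt → KILLStmt := by
  classical
  intro wt ev1 ev2 ram2 two real g f Q hf hQ hx inc hs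
  have hWG := wg gram
  have rec' := recp JC.T.symb gram qs diag hinv (locu gram diag hinv pad)
    (locq gram diag hinv pad hens) nfm pf
  let V : ℚ[X] → Prop := fun δ => IsSquare (Nm (zK f ℚ) δ) ∧ Wc 1 (zK f ℝ) (fK δ ℝ) ∧
    Wc 1 (zK f ℚ_[2]) (fK δ ℚ_[2]) ∧ ∀ (p : ℕ) [Fact p.Prime], p ∉ Q → Ev p f (fK δ ℚ_[p])
  obtain ⟨S, hS, H⟩ := lag Q {x | ∃ δ, V δ ∧
      ∀ (q : ℕ) [Fact q.Prime], q ∈ Q → NF q f (fK δ ℚ_[q]) (x.1 q) (x.2 q)}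
    (by
      rintro x ⟨δ, ⟨a1, a2, a3, a4⟩, a5⟩ x' ⟨δ', ⟨b1, b2, b3, b4⟩, b5⟩
      refine ⟨δ * δ', ⟨?_, ?_, ?_, fun p _ hp => ?_⟩, fun q _ hq => ?_⟩
      · rw [(gram.1 ℚ _ (hf.mo ℚ)).1]
        exact a1.mul b1
      · rw [fK_mul]
        exact (hWG ℝ g 1 _ (hf.sq ℝ) one_ne_zero).2.1 _ _ a2 b2
      · rw [fK_mul]
        exact (hWG ℚ_[2] g 1 _ (hf.sq _) one_ne_zero).2.1 _ _ a3 b3
      · rw [fK_mul]
        exact (nfm p g f hf).2.1 _ _ (a4 p hp) (b4 p hp)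
      · rw [fK_mul]
        refine (nfm q g f hf).2.2.2 ?_ (hQ q hq).2.2 _ _ _ _ _ _ (a5 q hq) (b5 q hq)
        have := (hQ q hq).2.1
        omega)
    (by
      rintro x ⟨δ, ⟨a1, a2, a3, a4⟩, a5⟩
      exact rec' g f Q δ x.1 x.2 hf (fun q hq => ⟨(hQ q hq).1, by have := (hQ q hq).2.1; omega,
        (hQ q hq).2.2⟩) a1 a2 a3 a4 a5)
  refine ⟨S, hS, fun F κ u v G r cp uv v8 rp r2 rQ hG sr δ₀ hE => ?_⟩
  have : Fact r.Prime := ⟨rp⟩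
  rw [Nat.cast_prod] at hG
  have pS : ∀ q ∈ S, q.Prime := fun q hq => (hQ q (hS hq)).1
  have rS : r ∉ S := fun c => rQ (hS c)
  have uo : Odd u := Int.not_even_iff_odd.1 fun c => by
    have := Int.isUnit_iff.1
      (uv.isUnit_of_dvd' (even_iff_two_dvd.1 c) ((show (2 : ℤ) ∣ 8 by decide).trans v8))
    omega
  have d1 : ∀ p : ℕ, p.Prime → p ∉ S → p ≠ r → ¬(p : ℤ) ∣ G := fun p hp a b c => by
    rcases (Nat.prime_iff_prime_int.1 hp).dvd_or_dvd (hG ▸ c) with c | c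
    · exact a (dvd_iff pS hp c)
    · exact b ((Nat.prime_dvd_prime_iff_eq hp rp).1 (Int.natCast_dvd_natCast.1 c))
  have d2 : ∀ q ∈ S, ¬(q : ℤ) ^ 2 ∣ G := fun q hq c => not_sq pS hq
    ((IsCoprime.pow_left (Nat.isCoprime_iff_coprime.2 ((Nat.coprime_primes (pS q hq) rp).2
      fun e => rS (e ▸ hq)))).dvd_of_dvd_mul_right (hG ▸ c))
  have d3 : ¬(r : ℤ) ^ 2 ∣ G := fun c => by
    rw [hG, sq, mul_dvd_mul_iff_right (Int.natCast_ne_zero.2 rp.ne_zero)] at c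
    exact rS (dvd_iff pS rp c)
  have core : ∀ δ : ℚ[X], Wt (zK f ℝ) (zK F ℝ) (zK κ ℝ) (fK δ ℝ) →
      (∀ (p : ℕ) [Fact p.Prime], Wt (zK f ℚ_[p]) (zK F ℚ_[p]) (zK κ ℚ_[p]) (fK δ ℚ_[p])) →
      Ev r f (fK δ ℚ_[r]) → ∃ j : ℕ, j ≤ 1 ∧ Sqm (zK f ℚ) (δ * (1 - X) ^ j) := by
    intro δ hr hp er
    have nsq := fun (K : Type) [Field K] [CharZero K] => (wt g f F κ u v G hf cp K).1 (fK δ K)
    have nmap : ∀ (K : Type) [Field K] [CharZero K],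
        Nm (zK f K) (fK δ K) = (Nm (zK f ℚ) δ : ℚ) := fun K _ _ => by
      rw [← fK_zK]
      exact (gram.1 ℚ _ (hf.mo ℚ)).2.2.2.2.2 K (Rat.castHom K) δ
    have nq : IsSquare (Nm (zK f ℚ) δ) :=
      pad.2.2 _ (nmap ℝ ▸ (nsq ℝ hr).2) fun p _ => nmap ℚ_[p] ▸ (nsq _ (hp p)).2
    have hev : ∀ (p : ℕ) [Fact p.Prime], p ∉ S → Ev p f (fK δ ℚ_[p]) := fun p h c => by
      by_cases e : p = r
      · subst e
        exact er
      · exact ev1 p g f F κ u v G _ hf cp (hx p h.out) (d1 p h.out c e) (hp p)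
    have hV : V δ := ⟨nq, real g f _ hf inc (nsq ℝ hr).1 (nsq ℝ hr).2,
      two g f F κ u v G _ hf cp v8 uo (hp 2), fun p _ c => hev p fun e => c (hS e)⟩
    have hn : ∀ q : ℕ, ∃ s y : ZMod 2, (q ∈ S → s = 0) ∧ (q ∉ S → y = 0) ∧
        ∀ [Fact q.Prime], q ∈ Q → NF q f (fK δ ℚ_[q]) s y := by
      intro q
      by_cases c : q ∈ Q
      swap
      · exact ⟨0, 0, fun _ => rfl, fun _ => rfl, fun e => absurd e c⟩
      have : Fact q.Prime := ⟨(hQ q c).1⟩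
      by_cases c' : q ∈ S
      · obtain ⟨s, y, h⟩ := nfe gram hens cmp q g f _ hf (hQ q c).2.2 (nsq _ (hp q)).1
          (nsq _ (hp q)).2
        exact ⟨s, y, fun _ => ram2 q g f F κ u v G _ s y (by have := (hQ q c).2.1; omega) hf
          (hQ q c).2.2 cp uv (hG ▸ (dvd_prod_of_mem _ c').mul_right _) (d2 q c') (hp q) h,
          fun e => absurd c' e, fun _ => h⟩
      · obtain ⟨s, h⟩ := ((nfm q g f hf).2.2.1 _).1 (hev q c')
        exact ⟨s, 0, fun e => absurd e c', fun _ => rfl, fun _ => h⟩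
    choose s y h1 h2 h3 using hn
    have z := H (s, y) ⟨δ, hV, fun q _ hq => h3 q hq⟩ h1 fun q _ => h2 q
    have nf : ∀ (q : ℕ) [Fact q.Prime], q ∈ Q → NF q f (fK δ ℚ_[q]) 0 0 := fun q _ hq => by
      have := h3 q hq
      rwa [show s q = 0 from (z q hq).1, show y q = 0 from (z q hq).2] at this
    refine (hs δ (isCoprime_of_map (Rat.castHom ℝ) (by rw [zK_map]; exact (nsq ℝ hr).1)) nq
      (fun p _ => ?_) nf).elim (fun k => ⟨0, zero_le_one, by rwa [pow_zero, mul_one]⟩)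
      fun k => ⟨1, le_rfl, by rwa [pow_one]⟩
    by_cases c : p ∈ Q
    · exact ((nfm p g f hf).2.2.1 _).2 ⟨0, nf p c⟩
    · exact hV.2.2.2 p c
  have w0 : ∀ (K : Type) [Field K] [CharZero K], Wc 1 (fK (zK F ℚ) K) (fK δ₀ K) →
      Wt (zK f K) (zK F K) (zK κ K) (fK (δ₀.comp (zK κ ℚ)) K) := fun K _ _ h =>
    ⟨fK δ₀ K, fK_zK F K ▸ h, by rw [fK, map_comp, zK_map, sub_self]; exact dvd_zero _⟩
  have w1 : ∀ (K : Type) [Field K] [CharZero K], Wc 1 (fK (zK F ℚ) K) (fK δ₀ K) →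
      Wt (zK f K) (zK F K) (zK κ K) (fK (δ₀.comp (zK κ ℚ) * zK (be u v G) ℚ) K) :=
    fun K _ _ h => by
      obtain ⟨-, k2, -, k4, -⟩ := wt g f F κ u v G hf cp K
      rw [fK_mul, fK_zK]
      exact k2 _ _ (w0 K h) k4
  rcases ev2 r g f F κ u v G _ hf cp uv (hx r rp) (hG ▸ dvd_mul_left _ _) d3 sr
    (w0 _ (hE.2 r)) with e | e
  · obtain ⟨j, a, b⟩ := core _ (w0 ℝ hE.1) (fun p _ => w0 _ (hE.2 p)) e
    exact ⟨0, j, zero_le_one, a, by rwa [pow_zero, mul_one]⟩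
  · obtain ⟨j, a, b⟩ := core _ (w1 ℝ hE.1) (fun p _ => w1 _ (hE.2 p))
      (by rwa [fK_mul, fK_zK])
    exact ⟨1, j, le_rfl, a, by rwa [pow_one]⟩

end Pool.Agent.MP_a43263_nt.K2
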