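import Pool.Agent.MP_a43263_nt.K2.Spec

/-! THEOREM R2: the neighbouring self-dual lattice. -/

set_option autoImplicit false

noncomputable section

namespace Pool.Agent.MP_a43263_nt.K2

open Polynomial Finset Filter Matrix JC Pool.Agent.MP_a43263_nt.UV

namespace LatA

theorem split1 (f : ℤ[X]) : ∃ Q : ℤ[X], f = (X - C 1) * Q + C (f.eval 1) :=
  ⟨f /ₘ (X - C 1), by
    rw [add_comm, ← modByMonic_X_sub_C_eq_C_eval, modByMonic_add_div]⟩

theorem decomp {f : ℤ[X]} {m : ℤ} (h1 : f.eval 1 = m ^ 2)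
    (hc : IsCoprime m ((derivative f).eval 1)) : ∃ Q a b c : ℤ[X],
      f = C m * C m - (1 - X) * Q ∧ a * (1 - X) + b * C m + c * Q = 1 := by
  obtain ⟨Q, hQ⟩ := split1 f
  obtain ⟨R, hR⟩ := split1 Q
  obtain ⟨u, v, huv⟩ := hc
  have hd : (derivative f).eval 1 = Q.eval 1 := by
    conv_lhs => rw [hQ]
    simp
  refine ⟨Q, C v * R, C u, C v, ?_, ?_⟩
  · rw [h1] at hQ
    conv_lhs => rw [hQ]
    rw [C_pow, C_1]
    ring
  · have e : C u * C m + C v * C (Q.eval 1) = (1 : ℤ[X]) := by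
      rw [← C_mul, ← C_mul, ← C_add, ← hd, huv, C_1]
    rw [C_1] at hR
    linear_combination e + C v * hR

theorem m_ne {g : ℕ} {f : ℤ[X]} {m : ℤ} (hz : Zq g f) (h1 : f.eval 1 = m ^ 2) : m ≠ 0 := by
  rintro rfl
  have h0 : (zK f ℚ).IsRoot 1 := by
    simp [h1]
  have h2 := degree_eq_one_of_irreducible_of_root hz.irr h0
  have h3 : (zK f ℚ).natDegree = 1 := natDegree_eq_of_degree_eq_some h2
  have h4 := hz.dg ℚ
  have h5 := hz.pos
  omega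

end LatA

open LatA in
theorem lat_k : LATStmt := by
  intro g f m δ Λ hz h1 hc _ h
  have hm : (m : ℚ) ≠ 0 := by exact_mod_cast m_ne hz h1
  obtain ⟨Q, a, b, c, hf, hu⟩ := decomp h1 hc
  have hF : zK f ℚ = C (m : ℚ) * C (m : ℚ) - (1 - X) * zK Q ℚ := by
    conv_lhs => rw [hf]
    simp
  have hU : zK a ℚ * (1 - X) + zK b ℚ * C (m : ℚ) + zK c ℚ * zK Q ℚ = 1 := by
    simpa using congrArg (fun P : ℤ[X] => zK P ℚ) hu
  have hi : C (m : ℚ)⁻¹ * C (m : ℚ) = 1 := by rw [← C_mul, inv_mul_cancel₀ hm, C_1]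
  have he : zK (1 - X) ℚ = 1 - X := by
    rw [zK, Polynomial.map_sub, Polynomial.map_one, map_X]
  have hs : ∀ x ∈ Λ, (1 - X) * x ∈ Λ ∧ C (m : ℚ) * x ∈ Λ := fun x hx =>
    ⟨he ▸ h.zmul (1 - X) hx, h.cmul m hx⟩
  refine ⟨{x | (1 - X) * x ∈ Λ ∧ C (m : ℚ) * x ∈ Λ}, ⟨fun x => ⟨fun hx y hy => ?_, fun hx => ?_⟩,
    h.2.imp fun N hN => ⟨hN.1, hs _ hN.2⟩⟩, hs⟩
  · refine ((((In.zK a).mul (h.int hx.1 hy.1)).add ((In.zK b).mul (h.int hx.1 hy.2))).add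
      ((In.zK c).mul (h.int hx.2 hy.2))).congr ⟨-(zK c ℚ * δ * x * y), ?_⟩
    rw [hF]
    linear_combination -(δ * (1 - X) * x * y) * hU
  · refine ⟨(h.1 _).2 fun y hy => ?_, (h.1 _).2 fun y hy => ?_⟩
    · rw [← mul_assoc]
      exact hx y (hs y hy)
    · have e : C (m : ℚ)⁻¹ * zK Q ℚ * y ∈ {x | (1 - X) * x ∈ Λ ∧ C (m : ℚ) * x ∈ Λ} := by
        refine ⟨h.congr (h.cmul m hy) ⟨-(C (m : ℚ)⁻¹ * y), ?_⟩, ?_⟩
        · rw [hF]
          linear_combination (C (m : ℚ) * y) * hi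
        · rw [show C (m : ℚ) * (C (m : ℚ)⁻¹ * zK Q ℚ * y) = zK Q ℚ * y by
            linear_combination (zK Q ℚ * y) * hi]
          exact h.zmul Q hy
      refine (hx _ e).congr ⟨C (m : ℚ)⁻¹ * δ * x * y, ?_⟩
      rw [hF]
      linear_combination -(δ * C (m : ℚ) * x * y) * hi

end Pool.Agent.MP_a43263_nt.K2

end
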