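import Pool.Agent.MP_a43263_nt.K2.Spec

/-! THEOREM R2: the sieve at the small primes. -/

set_option autoImplicit false

noncomputable section

namespace Pool.Agent.MP_a43263_nt.K2

open Polynomial Finset Filter Matrix JC Pool.Agent.MP_a43263_nt.UV Topology

namespace LowA

theorem sum_xp (g : ℕ) : ∑ i : Fin (2 * g + 1), xp g i.1 = (2 * g + 1) ^ 2 := by
  have : ∀ n : ℕ, ∑ i ∈ range n, 2 * (i + 1) = n * (n + 1) := fun n => by
    induction n with
    | zero => simp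
    | succ n ih => rw [sum_range_succ, ih]; ring
  rw [Fin.sum_univ_eq_sum_range (fun i => xp g i), sum_range_succ,
    sum_congr rfl fun i hi => show xp g i = 2 * (i + 1) from if_neg (mem_range.1 hi).ne, this, xp,
    if_pos rfl]
  ring

theorem sum_le (P : Finset ℕ) (hP : ∀ p ∈ P, 7 ≤ p) :
    ∑ p ∈ P, 1 / ((p : ℝ) ^ 2 - 1) ≤ 13 / 84 := by
  have h := Low.sum_le (P ∪ {3, 4, 5, 6}) fun p hp => by
    rcases mem_union.1 hp with h | h
    · have := hP p h; omega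
    · simp only [mem_insert, mem_singleton] at h; omega
  rw [sum_union (disjoint_left.2 fun p hp h => by
    have := hP p hp
    simp only [mem_insert, mem_singleton] at h; omega)] at h
  norm_num at h ⊢
  linarith

theorem ev (n : ℕ) (K : ℝ) : ∀ᶠ H : ℕ in atTop, 1 ≤ H ∧ K / H ≤ 1 ∧
    1 / 2 ≤ (2 - K / H) ^ (n + 1) - 13 / 21 * (2 + K / H) ^ (n + 1) := by
  have h0 : Tendsto (fun H : ℕ => K / (H : ℝ)) atTop (𝓝 0) :=
    tendsto_const_div_atTop_nhds_zero_nat K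
  have h1 : Tendsto (fun H : ℕ => (2 - K / (H : ℝ)) ^ (n + 1) - 13 / 21 * (2 + K / (H : ℝ)) ^ (n + 1))
      atTop (𝓝 ((2 - 0) ^ (n + 1) - 13 / 21 * (2 + 0) ^ (n + 1))) :=
    ((h0.const_sub 2).pow _).sub (((h0.const_add 2).pow _).const_mul _)
  refine (eventually_ge_atTop 1).and ((h0.eventually_le_const one_pos).and ?_)
  refine h1.eventually_const_le ?_
  have : (1 : ℝ) ≤ 2 ^ n := one_le_pow₀ one_le_two
  rw [sub_zero, add_zero, pow_succ]
  linarith

theorem bad {n m p : ℕ} (c₀ : Fin n → ℤ) (L : Fin n → ℝ) (R : (Fin n → ℤ) → Prop)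
    (hL : ∀ i, 0 ≤ L i) (hp : 0 < p) (hm : 0 < m) (hc : m.Coprime p) (hne : m ≠ p) :
    ({c : Fin n → ℤ | (∀ i, |(c i : ℝ)| ≤ L i) ∧ (∀ i, (c i : ZMod m) = c₀ i) ∧ R c}.ncard : ℝ) ≤
      ({x : Fin n → ZMod p | ∃ c : Fin n → ℤ, (fun i => (c i : ZMod p)) = x ∧ R c}.ncard : ℝ) *
        ∏ i, (2 * L i / (m * (p : ℝ)) + 1) := by
  obtain ⟨hf, h, -⟩ := bxc (Fin n) L hL
  let S : ∀ q : ℕ, Set (Fin n → ZMod q) := fun q => {x | ∃ c : Fin n → ℤ,
    (fun i => (c i : ZMod q)) = x ∧ (q = m ∧ (∀ i, (c i : ZMod m) = c₀ i) ∨ q = p ∧ R c)}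
  have h1 := h {m, p} S (by simp [hm, hp]) (by
    rw [coe_pair]
    exact (Set.pairwise_pair_of_symm (r := Nat.Coprime)).2 fun _ => hc)
  rw [prod_pair hne, prod_pair hne] at h1
  have h2 : (S m).ncard ≤ 1 := by
    refine (Set.ncard_le_ncard (t := {fun i => (c₀ i : ZMod m)}) ?_).trans (by simp)
    rintro _ ⟨c, rfl, hx | hx⟩
    · exact funext hx.2
    · exact (hne hx.1).elim
  have h3 : S p = {x : Fin n → ZMod p | ∃ c : Fin n → ℤ, (fun i => (c i : ZMod p)) = x ∧ R c} := by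
    ext x
    simp [S, hne.symm]
  rw [← h3]
  refine le_trans (Nat.cast_le.2 (Set.ncard_le_ncard ?_ (hf.subset fun z hz => hz.1)))
    (h1.trans ?_)
  · rintro c ⟨hc1, hc2, hc3⟩
    refine ⟨hc1, fun q hq => ⟨c, rfl, ?_⟩⟩
    rcases mem_insert.1 hq with hq | hq
    · exact .inl ⟨hq, hc2⟩
    · exact .inr ⟨mem_singleton.1 hq, hc3⟩
  · refine mul_le_mul_of_nonneg_right ?_ (prod_nonneg fun i _ => by
      have := hL i
      positivity)
    have h5 : ((S m).ncard : ℝ) ≤ 1 := by exact_mod_cast h2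
    exact mul_le_of_le_one_left (Nat.cast_nonneg _) h5

/-- translation to the centre -/
theorem shift (g k : ℕ) (P : Vec g → Prop) : cnt g k P =
    ({z : Vec g | (∀ i, |(z i : ℝ)| ≤ (k : ℝ) ^ xp g i.1) ∧
      P ((fun i => ce g k i.1) + z)}.ncard : ℝ) := by
  rw [cnt_eq_ncard, ← Set.ncard_preimage_of_injective_subset_range
    (add_right_injective fun i : Fin (2 * g + 1) => ce g k i.1)
    (by rw [(AddGroup.addLeft_bijective _).2.range_eq]; exact Set.subset_univ _)]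
  congr 2
  ext z
  refine and_congr_left' ?_
  rw [mem_bx]
  refine forall_congr' fun i => ?_
  have : |(z i : ℝ)| ≤ (k : ℝ) ^ xp g i.1 ↔ |z i| ≤ (k : ℤ) ^ xp g i.1 := by exact_mod_cast Iff.rfl
  rw [this, abs_le]
  simp only [Pi.add_apply]
  constructor <;> rintro ⟨a, b⟩ <;> constructor <;> linarith

end LowA

theorem low_k : BETAStmt → LOWStmt := by
  intro be g Q w₀ M hg hQ
  classical
  have hm : 0 < 30 * ∏ q ∈ Q, q := mul_pos (by norm_num) (prod_pos fun q hq => (hQ q hq).1.pos)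
  have hmc : 30 * ∏ q ∈ Q, (q : ℝ) = ((30 * ∏ q ∈ Q, q : ℕ) : ℝ) := by push_cast; rfl
  have hco : ∀ p : ℕ, p.Prime → 7 ≤ p → p ∉ Q → (30 * ∏ q ∈ Q, q).Coprime p := fun p hp h7 hq => by
    refine Nat.Coprime.mul_left ?_ (Nat.Coprime.prod_left fun q h =>
      (Nat.coprime_primes (hQ q h).1 hp).2 fun e => hq (e ▸ h))
    exact (((Nat.coprime_primes Nat.prime_two hp).2 (by omega)).mul_left
      ((Nat.coprime_primes Nat.prime_three hp).2 (by omega))).mul_left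
      ((Nat.coprime_primes Nat.prime_five hp).2 (by omega))
  rw [hmc]
  generalize 30 * ∏ q ∈ Q, q = m at *
  have hP : (0 : ℝ) < m := by exact_mod_cast hm
  filter_upwards [LowA.ev (2 * g) (m * (1 + M ^ 2))] with H ⟨hH, ht1, ht2⟩
  have hH1 : (1 : ℝ) ≤ H := by exact_mod_cast hH
  obtain ⟨L, hLd⟩ : ∃ L : Fin (2 * g + 1) → ℝ, L = fun i => (H : ℝ) ^ xp g i.1 := ⟨_, rfl⟩
  obtain ⟨c, hcd⟩ : ∃ c : Vec g, c = fun i => ce g H i.1 := ⟨_, rfl⟩
  have sf : ∀ P : Vec g → Prop, cnt g H P =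
      ({z : Vec g | (∀ i, |(z i : ℝ)| ≤ L i) ∧ P (c + z)}.ncard : ℝ) := fun P => by
    rw [hLd, hcd]; exact LowA.shift g H P
  have cl : ∀ z : Vec g, (∀ i, ((c + z) i : ZMod m) = w₀ i) ↔
      ∀ i, (z i : ZMod m) = (w₀ - c) i := fun z => forall_congr' fun i => by
    simp only [Pi.add_apply, Pi.sub_apply, Int.cast_add, Int.cast_sub, eq_sub_iff_add_eq']
  have hLH : ∀ i, (H : ℝ) ≤ L i := fun i => by
    rw [hLd]
    exact le_self_pow₀ hH1 (by unfold xp; split_ifs <;> omega)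
  have hL : ∀ i, 0 ≤ L i := fun i => by linarith [hLH i]
  have hX : ∏ i, L i / m = vol g H / m ^ (2 * g + 1) := by
    rw [prod_div_distrib, hLd, prod_pow_eq_pow_sum, LowA.sum_xp, vol]
    simp
  have hK : m * (1 + M ^ 2) ≤ H := (div_le_one (by linarith)).1 ht1
  have ht : ∀ i, 1 + M ^ 2 ≤ L i / m * (m * (1 + M ^ 2) / H) := fun i => by
    have e : L i / m * (m * (1 + M ^ 2) / H) = L i / H * (1 + M ^ 2) := by field_simp
    rw [e]
    exact le_mul_of_one_le_left (by positivity) ((one_le_div (by linarith)).2 (hLH i))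
  have ht0 : 0 ≤ m * (1 + M ^ 2) / H := by positivity
  generalize m * (1 + M ^ 2) / H = t at *
  have h0 : 0 ≤ vol g H / (m : ℝ) ^ (2 * g + 1) := by unfold vol; positivity
  have hA : vol g H / m ^ (2 * g + 1) * (2 - t) ^ (2 * g + 1) ≤
      cnt g H fun w => ∀ i, (w i : ZMod m) = w₀ i := by
    rw [sf]
    simp only [cl]
    refine le_trans ?_ ((bxc _ L hL).2.2 m (w₀ - c) hm fun i => by nlinarith [hLH i, sq_nonneg M])
    rw [← hX, ← Fin.prod_const, ← prod_mul_distrib]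
    refine prod_le_prod (fun i _ => mul_nonneg (div_nonneg (hL i) hP.le) (by linarith))
      fun i _ => ?_
    rw [mul_div_assoc]
    nlinarith [ht i, sq_nonneg M]
  let Ps := (range ⌈M⌉₊).filter fun p => p.Prime ∧ 7 ≤ p ∧ p ∉ Q
  have hbad : ∀ p ∈ Ps, (cnt g H fun w => (∀ i, (w i : ZMod m) = w₀ i) ∧ Nx p (f1 w)) ≤
      vol g H / m ^ (2 * g + 1) * (2 + t) ^ (2 * g + 1) * 4 * (1 / ((p : ℝ) ^ 2 - 1)) := by
    intro p hp
    obtain ⟨hpM, hp, h7, hq⟩ := mem_filter.1 hp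
    have hpM' : (p : ℝ) < M := Nat.lt_ceil.1 (mem_range.1 hpM)
    have hp1 : (1 : ℝ) < p := by exact_mod_cast hp.one_lt
    have hp2 : 0 < p ^ 2 := pow_pos hp.pos 2
    have := NeZero.mk hp2.ne'
    rw [sf]
    simp only [cl]
    refine (LowA.bad (w₀ - c) L (fun z => Nx p (f1 (c + z))) hL hp2 hm
      ((hco p hp h7 hq).pow_right 2) fun e => ?_).trans ?_
    · have := hco p hp h7 hq
      rw [e, Nat.coprime_pow_left_iff two_pos, Nat.coprime_self] at this
      omega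
    have h3 : {x : Fin (2 * g + 1) → ZMod (p ^ 2) | ∃ z : Vec g,
        (fun i => (z i : ZMod (p ^ 2))) = x ∧ Nx p (f1 (c + z))}.ncard ≤
        {x : Fin (2 * g + 1) → ZMod (p ^ 2) | ∃ w : Vec g,
          (fun i => (w i : ZMod (p ^ 2))) = x ∧ Nx p (f1 w)}.ncard :=
      Set.ncard_le_ncard_of_injOn (fun x => (fun i => (c i : ZMod (p ^ 2))) + x)
        (by rintro _ ⟨z, rfl, hz⟩; exact ⟨c + z, by ext i; simp, hz⟩)
        (add_right_injective _).injOn (Set.toFinite _)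
    have h4 := (Nat.cast_le.2 h3).trans (be g p hg hp (by omega))
    have h1 : (p : ℝ) ^ (2 * (2 * g + 1)) * ∏ i, (2 * L i / (m * ((p ^ 2 : ℕ) : ℝ)) + 1) ≤
        vol g H / m ^ (2 * g + 1) * (2 + t) ^ (2 * g + 1) := by
      rw [← hX, pow_mul, ← Fin.prod_const (2 * g + 1) ((p : ℝ) ^ 2),
        ← Fin.prod_const (2 * g + 1) (2 + t), ← prod_mul_distrib, ← prod_mul_distrib, Nat.cast_pow]
      refine prod_le_prod (fun i _ => by have := hL i; positivity) fun i _ => ?_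
      have e : (p : ℝ) ^ 2 * (2 * L i / (m * (p : ℝ) ^ 2) + 1) = 2 * (L i / m) + p ^ 2 := by
        field_simp
      rw [e]
      nlinarith [ht i]
    have h2 : 0 ≤ 4 * (1 / ((p : ℝ) ^ 2 - 1)) :=
      mul_nonneg (by norm_num) (one_div_nonneg.2 (by nlinarith))
    refine (mul_le_mul_of_nonneg_right h4 (prod_nonneg fun i _ => by
      have := hL i; positivity)).trans ?_
    refine le_trans (le_of_eq ?_) ((mul_le_mul_of_nonneg_right h1 h2).trans_eq ?_) <;> ring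
  have hsum := sum_le_sum hbad
  rw [← mul_sum] at hsum
  replace hsum := hsum.trans (mul_le_mul_of_nonneg_left (LowA.sum_le Ps fun p hp =>
    (mem_filter.1 hp).2.2.1) (by positivity))
  have hcov := (cnt_le_add (g := g) (k := H) (P := fun w => ∀ i, (w i : ZMod m) = w₀ i)
    (Q := fun w => (∀ i, (w i : ZMod m) = w₀ i) ∧
      ∀ p : ℕ, p.Prime → 7 ≤ p → p ∉ Q → (p : ℝ) < M → ¬Nx p (f1 w))
    (R := fun w => ∃ p ∈ Ps, (∀ i, (w i : ZMod m) = w₀ i) ∧ Nx p (f1 w)) fun w _ hw => by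
      by_contra h
      rw [not_or] at h
      exact h.1 ⟨hw, fun p hp h7 hq hM hx => h.2
        ⟨p, mem_filter.2 ⟨mem_range.2 (Nat.lt_ceil.2 hM), hp, h7, hq⟩, hw, hx⟩⟩).trans
    (add_le_add le_rfl ((cnt_le_sum Ps _ fun _ _ h => h).trans hsum))
  have h1 := mul_le_mul_of_nonneg_left ht2 h0
  have e : 1 / 2 / (m : ℝ) ^ (2 * g + 1) * vol g H = vol g H / m ^ (2 * g + 1) * (1 / 2) := by ring
  rw [e]
  linarith

end Pool.Agent.MP_a43263_nt.K2
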