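import Pool.Agent.MP_a43263_nt.K2.SpecC

/-! THEOREM R2: the first and the second moment. -/

set_option autoImplicit false

noncomputable section

namespace Pool.Agent.MP_a43263_nt.K2

open Finset Filter

namespace M12A

theorem t_nl : Tendsto nl atTop atTop := tendsto_nat_floor_atTop.comp
  ((tendsto_pow_atTop two_ne_zero).comp (Real.tendsto_log_atTop.comp tendsto_natCast_atTop_atTop))

theorem t_zz : Tendsto zz atTop atTop :=
  (tendsto_atTop_atTop_of_monotone (Nat.log_monotone (b := 2))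
    fun b => ⟨2 ^ b, (Nat.log_pow one_lt_two b).ge⟩).comp t_nl

theorem log_le {k : ℕ} (h1 : 1 ≤ Real.log k) (h2 : 2 ≤ zz k) : Real.log k ≤ 2 ^ (2 * zz k) := by
  have a := le_nl h1
  have b : (nl k : ℝ) ≤ 2 ^ (zz k + 1) := by
    exact_mod_cast (Nat.lt_pow_succ_log_self one_lt_two (nl k)).le
  have c : (2 : ℝ) ^ (zz k + 2) ≤ 2 ^ (2 * zz k) := pow_le_pow_right₀ one_le_two (by omega)
  rw [pow_succ] at c
  nlinarith

variable {g N d a k u u' v : ℕ}

theorem sq_div (hd : d ∣ N) : N ^ 2 / d = N * (N / d) := by rw [sq, Nat.mul_div_assoc _ hd]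

theorem dl_pos (hN : 0 < N) (hd : d ∣ N) (hu : 1 ≤ u) (hv : 1 ≤ v) (h : u ≠ u') :
    0 < dl g N d u u' v := by
  have a : 0 < N / d := Nat.div_pos (Nat.le_of_dvd hN hd) (Nat.pos_of_dvd_of_pos hd hN)
  have b : 0 < ((u : ℤ) ^ 2 - (u' : ℤ) ^ 2).natAbs := Int.natAbs_pos.2 (sub_ne_zero.2 fun e =>
    h (Nat.pow_left_injective two_ne_zero (by exact_mod_cast e)))
  rw [dl, sq_div hd]
  positivity

theorem dl_le (hN : (N : ℝ) ^ 2 ≤ Real.log k) (hu : Sm k u) (hu' : Sm k u') (hv : Sm k v) :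
    (dl g N d u u' v : ℝ) ≤ Real.log k ^ (28 * g + 43) := by
  have a : ((N ^ 2 / d : ℕ) : ℝ) ≤ Real.log k :=
    le_trans (by exact_mod_cast Nat.div_le_self _ _) hN
  have b : (u : ℝ) ^ 2 ≤ (Real.log k ^ 7) ^ 2 := by have := hu.2; gcongr
  have b' : (u' : ℝ) ^ 2 ≤ (Real.log k ^ 7) ^ 2 := by have := hu'.2; gcongr
  have c : ((((u : ℤ) ^ 2 - (u' : ℤ) ^ 2).natAbs : ℕ) : ℝ) ≤ (Real.log k ^ 7) ^ 2 := by
    rw [Nat.cast_natAbs]
    push_cast
    exact abs_le.2 ⟨by nlinarith [sq_nonneg (u : ℝ)], by nlinarith [sq_nonneg (u' : ℝ)]⟩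
  have e := hv.2
  have l := Real.log_natCast_nonneg k
  calc (dl g N d u u' v : ℝ) ≤ Real.log k * (Real.log k ^ 7) ^ 2 * (Real.log k ^ 7) ^ (4 * g) *
        ((Real.log k ^ 7) ^ 2) ^ 2 := by
        simp only [dl, Nat.cast_mul, Nat.cast_pow]
        gcongr
    _ = _ := by ring

theorem dl_sub (hg : 1 ≤ g) (hd : d ∣ N) (h : 0 < dl g N d u u' v) :
    (v * N).primeFactors ⊆ (dl g N d u u' v).primeFactors := fun p hp => by
  obtain ⟨a, b, -⟩ := Nat.mem_primeFactors.1 hp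
  refine Nat.mem_primeFactors.2 ⟨a, ?_, h.ne'⟩
  rw [dl, sq_div hd]
  rcases (Nat.Prime.dvd_mul a).1 b with e | e
  · exact ((e.trans (dvd_pow_self v (by omega))).mul_left _).mul_right _
  · exact (((e.mul_right _).mul_right _).mul_right _).mul_right _

theorem sh_dvd (t x y : ℤ) (i : Fin (2 * g + 1)) : (N : ℤ) ^ 2 ∣ sh g ((N : ℤ) ^ 2 * t) x y i := by
  unfold sh
  split_ifs
  exacts [(dvd_mul_right _ _).mul_right _, (dvd_mul_right _ _).mul_right _, dvd_zero _]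

theorem vol_nonneg : 0 ≤ vol g k := by unfold vol; positivity

/-- the singular series and the classes that are not coprime to the modulus -/
theorem pair (geo : GEOStmt) (siz : SIZStmt) (mul : MULStmt) (phi : PHIStmt) (hg : 1 ≤ g)
    (hN : 0 < N) (hd : d ∣ N) : ∃ c : ℝ, 0 < c ∧ ∀ ε : ℝ, 0 < ε → ∀ᶠ k : ℕ in atTop,
      ∀ v u u' : ℕ, Sm k u → Sm k u' → Sm k v → u ≠ u' → u.Coprime v → v.Coprime N →
        u ≡ a * v [MOD N ^ 2] → (∀ p : ℕ, p.Prime → p ≤ zz k → p ∣ v * N) →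
        ph (v * N) ≤ ph (dl g N d u u' v) ∧ ph (dl g N d u u' v) ≤ (1 + ε) * ph (v * N) ∧
          cnt g k (fun w => Ad N d w a ∧ ¬(co d w u v).Coprime (dl g N d u u' v)) ≤
            c * ε * vol g k := by
  obtain ⟨c, c0, hc⟩ := mul g hg
  obtain ⟨-, -, -, g4, g5⟩ := geo g hg
  refine ⟨c, c0, fun ε e0 => ?_⟩
  filter_upwards [siz g hg, t_zz.eventually (phi.2 (2 * (28 * g + 43)) ε e0),
    t_zz.eventually_ge_atTop 2, ev_le_log 1, ev_le_log ((N : ℝ) ^ 2), ev_log_le 1 (28 * g + 43),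
    eventually_ge_atTop 1] with k k1 k2 k3 k4 k5 k6 k7 v u u' hu hu' hv ne c1 c2 c3 c4
  have q0 := dl_pos (g := g) hN hd hu.1 hv.1 ne
  have q1 := dl_le (g := g) (d := d) k5 hu hu' hv
  have q2 : dl g N d u u' v ≤ 2 ^ (2 * (28 * g + 43) * zz k) := by
    have : (dl g N d u u' v : ℝ) ≤ (2 ^ (2 * zz k)) ^ (28 * g + 43) :=
      q1.trans (pow_le_pow_left₀ (by linarith) (log_le k4 k3) _)
    rw [← pow_mul, mul_right_comm] at this
    exact_mod_cast this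
  have q3 : dl g N d u u' v ≤ k := by
    rw [one_mul] at k6
    exact_mod_cast q1.trans k6
  obtain ⟨p1, p2, p3⟩ := k2 _ _ q0 q2 (dl_sub hg hd q0) (Nat.mul_pos hv.1 hN) c4
  refine ⟨p1, p2, le_trans (cnt_le_sum (((dl g N d u u' v).primeFactors.filter
    fun p => zz k < p).filter fun p => ¬p ∣ v) (fun p w => (p : ℤ) ∣ Gv w u v) ?_) ?_⟩
  · rintro w hw ⟨h1, h2⟩
    obtain ⟨p, a1, a2, a3⟩ := Nat.Prime.not_coprime_iff_dvd.1 h2
    obtain ⟨b1, b2⟩ := g4 N d a u v w hN hd c2 c3 h1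
    have b3 : 0 ≤ Gv w u v := le_trans (by positivity) (k1 w hw u v hu hv).1
    have b4 : (p : ℤ) ∣ Gv w u v / d := by
      rw [← Int.toNat_of_nonneg (Int.ediv_nonneg b3 (Nat.cast_nonneg d))]
      exact Int.natCast_dvd_natCast.2 a2
    have b5 : (p : ℤ) ∣ Gv w u v := b4.trans (Int.ediv_dvd_of_dvd b1)
    have un : ¬IsUnit (p : ℤ) := (Nat.prime_iff_prime_int.1 a1).not_isUnit
    have b6 : ¬p ∣ v := fun e => un ((g5 w u v (Nat.isCoprime_iff_coprime.2 c1)).isUnit_of_dvd' b5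
      (Int.natCast_dvd_natCast.2 e))
    have b7 : ¬p ∣ N := fun e => un (b2.isUnit_of_dvd' b4 (Int.natCast_dvd_natCast.2 e))
    exact ⟨p, mem_filter.2 ⟨mem_filter.2 ⟨Nat.mem_primeFactors.2 ⟨a1, a3, q0.ne'⟩,
      not_le.1 fun e => ((Nat.Prime.dvd_mul a1).1 (c4 p a1 e)).elim b6 b7⟩, b6⟩, b5⟩
  · have v0 := vol_nonneg (g := g) (k := k)
    calc _ ≤ ∑ p ∈ ((dl g N d u u' v).primeFactors.filter fun p => zz k < p).filter
          fun p => ¬p ∣ v, c * vol g k * (1 / (p : ℝ)) := sum_le_sum fun p hp => by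
          obtain ⟨h1, h2⟩ := mem_filter.1 hp
          have h3 := (mem_filter.1 h1).1
          rw [mul_one_div]
          exact (hc k u v k7 hu.1 hv.1).2 p (Nat.prime_of_mem_primeFactors h3)
            ((Nat.le_of_mem_primeFactors h3).trans q3) h2
      _ ≤ ∑ p ∈ (dl g N d u u' v).primeFactors.filter fun p => zz k < p,
          c * vol g k * (1 / (p : ℝ)) :=
          sum_le_sum_of_subset_of_nonneg (filter_subset _ _) fun _ _ _ => by positivity
      _ ≤ c * vol g k * ε := by rw [← mul_sum]; gcongr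
      _ = _ := by ring

/-- the weight of a cofactor is bounded -/
theorem lam_co (siz : SIZStmt) (hg : 1 ≤ g) : ∀ᶠ k : ℕ in atTop, ∀ w ∈ bx g k, ∀ u v : ℕ,
    Sm k u → Sm k v → lam (co d w u v) ≤ (4 * g + 3) * Real.log k := by
  filter_upwards [siz g hg, ev_log_le 65 (7 * (4 * g + 2))] with k k1 k2 w hw u v hu hv
  obtain ⟨a, b, -⟩ := k1 w hw u v hu hv
  have l := Real.log_natCast_nonneg k
  have a0 : 0 ≤ Gv w u v := le_trans (by positivity) a
  have c : (co d w u v : ℤ) ≤ 65 * ((k : ℤ) * v) ^ (4 * g + 2) := by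
    rw [co, Int.toNat_of_nonneg (Int.ediv_nonneg a0 (Nat.cast_nonneg d))]
    exact (Int.ediv_le_self _ a0).trans b
  have c' : (co d w u v : ℝ) ≤ 65 * ((k : ℝ) * v) ^ (4 * g + 2) := by exact_mod_cast c
  have e : (co d w u v : ℝ) ≤ (k : ℝ) ^ (4 * g + 3) := by
    have := hv.2
    calc _ ≤ 65 * ((k : ℝ) * Real.log k ^ 7) ^ (4 * g + 2) := c'.trans (by gcongr)
      _ = (k : ℝ) ^ (4 * g + 2) * (65 * Real.log k ^ (7 * (4 * g + 2))) := by ring
      _ ≤ (k : ℝ) ^ (4 * g + 2) * k := by gcongr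
      _ = _ := by ring
  unfold lam
  split_ifs with h
  · have := Real.log_le_log (by exact_mod_cast h.pos) e
    rw [Real.log_pow] at this
    exact_mod_cast this
  · positivity

theorem ar1 {S p q A b V ε c e : ℝ} (h : |S - q * (A - b)| ≤ ε * V) (h1 : 1 ≤ p) (h2 : p ≤ q)
    (h3 : q ≤ (1 + ε) * p) (a0 : 0 ≤ A) (a1 : A ≤ e * V) (b0 : 0 ≤ b) (b1 : b ≤ c * ε * V)
    (e0 : 0 < ε) (e1 : ε ≤ 1) (v0 : 0 ≤ V) : |S - p * A| ≤ ε * (1 + e + 2 * c) * p * V := by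
  have x1 : ε * V ≤ ε * p * V := by nlinarith [mul_nonneg e0.le v0]
  have x2 : (q - p) * A ≤ ε * p * (e * V) := mul_le_mul (by linarith) a1 a0 (by positivity)
  have x3 : q * b ≤ 2 * p * (c * ε * V) := mul_le_mul (by nlinarith) b1 b0 (by positivity)
  have x4 : 0 ≤ (q - p) * A := mul_nonneg (by linarith) a0
  have x5 : 0 ≤ q * b := mul_nonneg (by linarith) b0
  obtain ⟨h4, h5⟩ := abs_le.1 h
  exact abs_le.2 ⟨by nlinarith, by nlinarith⟩

theorem ar2 {S T p q A V ε D e : ℝ} (h : S ≤ q * T + ε * V) (t0 : 0 ≤ T)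
    (t1 : T ≤ p * A + ε * D * p * V) (h1 : 1 ≤ p) (h3 : q ≤ (1 + ε) * p) (a1 : A ≤ e * V)
    (e0 : 0 < ε) (e1 : ε ≤ 1) (v0 : 0 ≤ V) (d0 : 0 ≤ D) :
    S ≤ p ^ 2 * (A + ε * (e + 2 * D + 1) * V) := by
  have x1 : q * T ≤ (1 + ε) * p * (p * A + ε * D * p * V) :=
    mul_le_mul h3 t1 t0 (by positivity)
  have x2 : ε * V ≤ p ^ 2 * (ε * V) := le_mul_of_one_le_left (by positivity) (one_le_pow₀ h1)
  have x3 : p ^ 2 * ε * A ≤ p ^ 2 * ε * (e * V) := by gcongr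
  have x4 : p ^ 2 * (ε * D * V) * ε ≤ p ^ 2 * (ε * D * V) * 1 := by gcongr
  nlinarith

end M12A

open M12A in
theorem m12_k : GEOStmt → SIZStmt → MULStmt → PHIStmt → PARStmt → MOMStmt → M12Stmt := by
  intro geo siz mul phi par mom g N d a hg hN h6 hd η η0
  obtain ⟨c, c0, hc⟩ := pair (a := a) geo siz mul phi hg hN hd
  obtain ⟨g1, g2, g3, g4, -⟩ := geo g hg
  obtain ⟨e, he⟩ : ∃ e : ℝ, e = 3 ^ (2 * g + 1) := ⟨_, rfl⟩
  have e0 : 0 < e := by rw [he]; positivity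
  obtain ⟨ε, ε0, ε1, ε2⟩ : ∃ ε : ℝ, 0 < ε ∧ ε ≤ 1 ∧ ε * (e + 2 * (1 + e + 2 * c) + 1) ≤ η :=
    ⟨min 1 (η / (e + 2 * (1 + e + 2 * c) + 1)), lt_min one_pos (by positivity), min_le_left _ _,
      (le_div_iff₀ (by positivity)).1 (min_le_right _ _)⟩
  filter_upwards [hc ε ε0, lam_co (d := d) siz hg, par N a hN h6, mom g N d 2 hg hN hd,
    t_nl.eventually_ge_atTop 2, ev_le_log 1, ev_le_log ((4 * g + 3) / ε), eventually_ge_atTop 1]
    with k k1 k2 k3 k4 k5 k6 k7 k8 v u₀ hP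
  obtain ⟨hv, hu⟩ := k3.2 v u₀ hP
  have v0 := vol_nonneg (g := g) (k := k)
  have p1 := phi.1 (v * N) (Nat.mul_pos hP.pos hN)
  have a1 : cnt g k (fun w => Ad N d w a) ≤ e * vol g k := he ▸ cnt_le_card.trans (g1 k k8).2
  have ne : ∀ j j', j ≠ j' → pt N v u₀ j ≠ pt N v u₀ j' := fun j j' h x =>
    h (Nat.eq_of_mul_eq_mul_left (Nat.mul_pos hP.pos (by positivity)) (Nat.add_left_cancel x))
  have er : (4 * g + 3) * Real.log k * vol g k / Real.log k ^ 2 ≤ ε * vol g k := by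
    rw [div_le_iff₀ (by positivity)]
    rw [div_le_iff₀ ε0] at k7
    have : (4 * g + 3) * (Real.log k * vol g k) ≤ Real.log k * ε * (Real.log k * vol g k) := by
      gcongr
    linarith
  have dv : ∀ j ∈ range (nl k), ∀ w : Vec g, Ad N d w a → (d : ℤ) ∣ Gv w (pt N v u₀ j) v :=
    fun j hj w h => (g4 N d a _ v w hN hd hP.cop (hu j hj).2.2 h).1
  have f1 : ∀ j ∈ range (nl k), |∑ w ∈ bx g k, ind (Ad N d w a) * lam (co d w (pt N v u₀ j) v) -
      ph (v * N) * cnt g k fun w => Ad N d w a| ≤ ε * (1 + e + 2 * c) * ph (v * N) * vol g k := by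
    intro j hj
    obtain ⟨j', hj', n⟩ : ∃ j' ∈ range (nl k), j ≠ j' := by
      by_cases h : j = 0
      exacts [⟨1, mem_range.2 k5, by omega⟩, ⟨0, mem_range.2 (by omega), h⟩]
    obtain ⟨b1, b2, b3⟩ := k1 v _ _ (hu j hj).1 (hu j' hj').1 hv (ne j j' n) (hu j hj).2.1 hP.cop
      (hu j hj).2.2 hP.sm
    refine ar1 ?_ p1 b1 b2 cnt_nonneg a1 cnt_nonneg b3 ε0 ε1 v0
    refine le_trans (le_of_eq ?_) ((k4 _ _ v (fun w => ind (Ad N d w a)) 1 (hu j hj).1
      (hu j' hj').1 hv (ne j j' n) (fun w => ⟨ind_nonneg _, ind_le_one _⟩)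
      (fun w => ind_congr (g3 N d a w _ hN hd (sh_dvd _ _ _)))
      fun w h => dv j hj w (of_ind_ne h)).trans (le_trans ?_ er))
    · simp only [cnt, ← sum_sub_distrib, mul_sum]
      refine congrArg _ (sum_congr rfl fun w _ => ?_)
      rw [ind_and]
      by_cases h : (co d w (pt N v u₀ j) v).Coprime (dl g N d (pt N v u₀ j) (pt N v u₀ j') v)
      · rw [ind_pos h, ind_neg (not_not.2 h)]; ring
      · rw [ind_neg h, ind_pos h]; ring
    · have : (0 : ℝ) ≤ g := Nat.cast_nonneg g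
      gcongr
      nlinarith
  intro j hj
  refine ⟨(f1 j hj).trans ?_, fun w hw => k2 w hw _ v (hu j hj).1 hv, fun j' hj' n => ?_⟩
  · gcongr
    nlinarith
  obtain ⟨b1, b2, -⟩ := k1 v _ _ (hu j hj).1 (hu j' hj').1 hv (ne j j' n) (hu j hj).2.1 hP.cop
    (hu j hj).2.2 hP.sm
  have B0 : (0 : ℝ) ≤ (4 * g + 3) * Real.log k := by positivity
  have m := (k4 _ _ v (fun w => ind (Ad N d w a) *
      min (lam (co d w (pt N v u₀ j') v)) ((4 * g + 3) * Real.log k)) ((4 * g + 3) * Real.log k)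
    (hu j hj).1 (hu j' hj').1 hv (ne j j' n)
    (fun w => ⟨mul_nonneg (ind_nonneg _) (le_min (lam_nonneg _) B0),
      (mul_le_of_le_one_left (le_min (lam_nonneg _) B0) (ind_le_one _)).trans (min_le_right _ _)⟩)
    (fun w => by
      rw [ind_congr (g3 N d a w _ hN hd (sh_dvd _ _ _)), co, g2, sub_self, mul_zero, mul_zero,
        add_zero, co])
    fun w h => dv j hj w (of_ind_ne (left_ne_zero_of_mul h))).trans er
  refine (ar2 (q := ph (dl g N d (pt N v u₀ j) (pt N v u₀ j') v)) (D := 1 + e + 2 * c)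
    (T := ∑ w ∈ bx g k, ind (Ad N d w a) * lam (co d w (pt N v u₀ j') v)) ?_
    (sum_nonneg fun w _ => mul_nonneg (ind_nonneg _) (lam_nonneg _))
    (by linarith [(abs_le.1 (f1 j' hj')).2]) p1 b2 a1 ε0 ε1 v0 (by positivity)).trans (by gcongr)
  refine sub_le_iff_le_add'.1 (le_trans ?_ (abs_le.1 m).2)
  rw [mul_sum, ← sum_sub_distrib]
  refine sum_le_sum fun w hw => ?_
  rw [min_eq_left (k2 w hw _ v (hu j' hj').1 hv)]
  have x := mul_le_mul_of_nonneg_left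
    (ind_le_one ((co d w (pt N v u₀ j) v).Coprime (dl g N d (pt N v u₀ j) (pt N v u₀ j') v)))
    (mul_nonneg (mul_nonneg (ind_nonneg (Ad N d w a)) (lam_nonneg (co d w (pt N v u₀ j') v)))
      (zero_le_one.trans (p1.trans b1)))
  linarith

end Pool.Agent.MP_a43263_nt.K2
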