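import Pool.Agent.MP_a43263_nt.K2.Spec

/-! THEOREM R2: joint majorants of a triple. -/

set_option autoImplicit false

noncomputable section

namespace Pool.Agent.MP_a43263_nt.K2

open Polynomial Finset Filter Matrix JC Pool.Agent.MP_a43263_nt.UV

namespace MajA

open Pool.Agent.MP_a43263_nt.UV.MajA

/-- the majorant attached to a diagonalisation -/
theorem pack {g : ℕ} {A T : Mat g ℤ} {ρ : ℝ} {θ : Fin (2 * g + 1) → ℂ} {P Q : Mat g ℂ}
    (h : UC.Pair A T) (hθ : Function.Injective θ) (pq : P * Q = 1)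
    (e : mK T ℂ * P = P * diagonal θ) (hρ : ∀ i, ‖θ i‖ ≤ ρ) :
    ∃ (a : Fin (2 * g + 1) → ℂ) (H : Mat g ℝ), mK A ℂ = Qᵀ * diagonal a * Q ∧
      Q * mK T ℂ = diagonal θ * Q ∧ Maj ρ (mK A ℝ) (mK T ℝ) H ∧
      ∀ x, x ⬝ᵥ H *ᵥ x = ∑ i, ‖a i‖ * ‖(Q *ᵥ fun i => (x i : ℂ)) i‖ ^ 2 := by
  obtain ⟨hA, hd, hT⟩ := h
  have rr : ∀ M : Mat g ℤ, cj (mK M ℂ) = mK M ℂ := fun M => by
    ext i j
    simp
  obtain ⟨a, h1, hq, h2⟩ := core (A := mK A ℂ) hθ (hA.map _)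
    (by rw [← mK_mul]; exact hT.map _) (rr A) (rr T) pq e
  obtain ⟨K, hK⟩ : ∃ K, K = (cj Q)ᵀ * diagonal (fun i => (‖a i‖ : ℂ)) * Q := ⟨_, rfl⟩
  obtain ⟨h2, h3⟩ := h2 K hK
  have hH : (K.map Complex.re).map Complex.ofRealHom = K := by
    ext i j
    exact Complex.conj_eq_iff_re.1 (congrFun₂ h2 i j)
  have q : ∀ x : Fin (2 * g + 1) → ℝ, x ⬝ᵥ K.map Complex.re *ᵥ x =
      ∑ i, ‖a i‖ * ‖(Q *ᵥ fun i => (x i : ℂ)) i‖ ^ 2 := fun x => by
    apply Complex.ofReal_injective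
    have e1 : ((x ⬝ᵥ K.map Complex.re *ᵥ x : ℝ) : ℂ) =
        (fun i => (x i : ℂ)) ⬝ᵥ K *ᵥ fun i => (x i : ℂ) := by
      conv_rhs => rw [← hH]
      simp [dotProduct, mulVec]
    rw [e1, hK, form]
    push_cast
    refine sum_congr rfl fun i _ => ?_
    have : (cj Q *ᵥ fun i => (x i : ℂ)) i = starRingEnd ℂ ((Q *ᵥ fun i => (x i : ℂ)) i) := by
      simp [dotProduct, mulVec]
    rw [this, ← Complex.conj_mul']
    ring
  have dt : (K.map Complex.re).det = 1 := by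
    apply Complex.ofReal_injective
    have e1 := congrArg (fun M => ‖det M‖) h1
    have e2 : ‖(mK A ℂ).det‖ = 1 := by
      rw [mK_det]
      rcases Int.isUnit_iff.1 hd with c | c <;> simp [c]
    simp only [e2, det_mul, det_transpose, det_diagonal, norm_mul, norm_prod] at e1
    have e3 := (Complex.ofRealHom.map_det (K.map Complex.re)).trans (congrArg det hH)
    have e4 := ((starRingEnd ℂ).map_det Q).symm
    rw [RingHom.mapMatrix_apply] at e4
    refine e3.trans ?_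
    rw [hK, det_mul, det_mul, det_transpose, det_diagonal, e4, mul_right_comm, Complex.conj_mul',
      e1]
    push_cast
    ring
  have sy : (K.map Complex.re).IsHermitian := by
    ext i j
    exact congrArg Complex.re (congrFun₂ h3 i j)
  refine ⟨a, K.map Complex.re, h1, hq, ⟨(PosSemidef.posDef_iff_det_ne_zero
    (.of_dotProduct_mulVec_nonneg sy fun x => ?_)).2 (dt ▸ one_ne_zero), dt.le, fun x y => ?_,
    fun x => ?_⟩, q⟩
  · rw [star_trivial, q]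
    positivity
  · have e1 : ((x ⬝ᵥ mK A ℝ *ᵥ y : ℝ) : ℂ) =
        (fun i => (x i : ℂ)) ⬝ᵥ mK A ℂ *ᵥ fun i => (y i : ℂ) := by
      simp [dotProduct, mulVec]
    rw [← sq_abs, ← Real.norm_eq_abs, ← Complex.norm_real, e1, h1, form, q, q]
    refine (pow_le_pow_left₀ (norm_nonneg _) (norm_sum_le _ _) 2).trans
      (sum_sq_le_sum_mul_sum_of_sq_le_mul _ (fun i _ => by positivity) (fun i _ => by positivity)
        fun i _ => le_of_eq ?_)
    simp only [norm_mul]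
    ring
  · have e1 : (fun i => ((mK T ℝ *ᵥ x) i : ℂ)) = mK T ℂ *ᵥ fun i => (x i : ℂ) := by
      ext i
      simp [dotProduct, mulVec]
    rw [q, q, e1, mulVec_mulVec, hq, ← mulVec_mulVec, mul_sum]
    refine sum_le_sum fun i _ => ?_
    have := pow_le_pow_left₀ (norm_nonneg _) (hρ i) 2
    rw [mulVec_diagonal, norm_mul, mul_pow, mul_left_comm]
    exact mul_le_mul_of_nonneg_right this (by positivity)

theorem intw {n : ℕ} (A A' N : UC.Mz n) : A'⁻¹ * N * Tt A A' N = Tt A' A Nᵀ * (A'⁻¹ * N) := by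
  simp only [Tt, transpose_transpose, Matrix.mul_sub, Matrix.sub_mul, Matrix.mul_one, Matrix.one_mul,
    Matrix.mul_assoc]

theorem pull {n : ℕ} {A' : UC.Mz n} (N : UC.Mz n) (s : A'.IsSymm) (d : IsUnit A'.det) :
    (A'⁻¹ * N)ᵀ * A' * (A'⁻¹ * N) = Nᵀ * A'⁻¹ * N := by
  rw [transpose_mul, transpose_nonsing_inv, s.eq, Matrix.mul_assoc, ← Matrix.mul_assoc A',
    mul_nonsing_inv _ d, Matrix.one_mul]

end MajA

open MajA Pool.Agent.MP_a43263_nt.UV.MajA in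
theorem maj_k : CHGStmt → MAJStmt := by
  intro chg g f m A A' N ρ hz hm h hρ
  obtain ⟨h', p1, e1⟩ := chg.2.2.1 _ f m A A' N h
  obtain ⟨-, p2, -⟩ := chg.2.2.1 _ f m A' A Nᵀ h'
  have i1 := intw A A' N
  have i2 : (A'⁻¹ * N)ᵀ * A' * (A'⁻¹ * N) = A - A * Tt A A' N := by
    rw [pull N h.sa' h.det', e1, sub_sub_cancel]
  have i3 : A' * (A'⁻¹ * N) = N := by
    rw [← Matrix.mul_assoc, mul_nonsing_inv _ h.det', Matrix.one_mul]
  have ch : (mK (Tt A A' N) ℂ).charpoly = zK f ℂ := by rw [charpoly_map, h.ch]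
  generalize hT : Tt A A' N = T at p1 i1 i2 ch
  generalize hT' : Tt A' A Nᵀ = T' at p2 i1
  generalize A'⁻¹ * N = M at i1 i2 i3
  have dM : IsUnit (mK M ℂ).det := by
    rw [mK_det]
    refine isUnit_iff_ne_zero.2 (Int.cast_ne_zero.2 fun z => hm ?_)
    rw [← h.dt, ← i3, det_mul, z, mul_zero]
  obtain ⟨θ, P, Q, hθ, r, pq, e⟩ := diag (mK T ℂ) (ch ▸ (hz.sq ℂ).sep)
  have qp : Q * P = 1 := mul_eq_one_comm.1 pq
  have b := fun i => hρ _ (ch ▸ r i)
  obtain ⟨a, H, a1, a2, a3, a4⟩ := pack p1 hθ pq e fun i => (b i).1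
  obtain ⟨a', H', b1, -, b3, b4⟩ := pack (P := mK M ℂ * P) (Q := Q * (mK M ℂ)⁻¹) p2 hθ (by
    rw [Matrix.mul_assoc, ← Matrix.mul_assoc P, pq, Matrix.one_mul, mul_nonsing_inv _ dM]) (by
    rw [← Matrix.mul_assoc, ← mK_mul, ← i1, mK_mul, Matrix.mul_assoc, e, Matrix.mul_assoc])
    fun i => (b i).1
  have qm : Q * (mK M ℂ)⁻¹ * mK M ℂ = Q := by
    rw [Matrix.mul_assoc, nonsing_inv_mul _ dM, Matrix.mul_one]
  have j2 : (mK M ℂ)ᵀ * mK A' ℂ * mK M ℂ = mK A ℂ - mK A ℂ * mK T ℂ := by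
    have := congrArg (fun X : Mat g ℤ => mK X ℂ) i2
    simp only [mK_mul] at this
    rw [← mK_mul A T]
    exact (this.trans (Matrix.map_sub _ (map_sub _) _ _))
  have j3 : Qᵀ * diagonal a' * Q = Qᵀ * diagonal (fun i => a i * (1 - θ i)) * Q := by
    calc Qᵀ * diagonal a' * Q
        = (Q * (mK M ℂ)⁻¹ * mK M ℂ)ᵀ * diagonal a' * (Q * (mK M ℂ)⁻¹ * mK M ℂ) := by rw [qm]
      _ = (mK M ℂ)ᵀ * mK A' ℂ * mK M ℂ := by
          rw [b1, transpose_mul (Q * _)]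
          simp only [Matrix.mul_assoc]
      _ = Qᵀ * (diagonal a - diagonal a * diagonal θ) * Q := by
          rw [j2, a1, Matrix.mul_assoc _ Q, a2, Matrix.mul_sub, Matrix.sub_mul]
          simp only [Matrix.mul_assoc]
      _ = _ := by
          rw [diagonal_mul_diagonal, diagonal_sub]
          simp only [mul_sub, mul_one]
  have can : ∀ D : Mat g ℂ, Pᵀ * (Qᵀ * D * Q) * P = D := fun D => by
    rw [← Matrix.mul_assoc, ← Matrix.mul_assoc, ← transpose_mul, qp, transpose_one, Matrix.one_mul,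
      Matrix.mul_assoc, qp, Matrix.mul_one]
  have j4 : a' = fun i => a i * (1 - θ i) := diagonal_injective (by rw [← can (diagonal a'), j3, can])
  refine ⟨H, H', hT ▸ a3, hT' ▸ b3, fun x y => ?_⟩
  have k1 : mK N ℝ *ᵥ x = mK A' ℝ *ᵥ (mK M ℝ *ᵥ x) := by rw [mulVec_mulVec, ← mK_mul, i3]
  have k2 : (fun i => ((mK M ℝ *ᵥ x) i : ℂ)) = mK M ℂ *ᵥ fun i => (x i : ℂ) := by
    ext i
    simp [dotProduct, mulVec]
  rw [k1, mul_left_comm]
  refine (b3.cs _ _).trans (mul_le_mul_of_nonneg_left ?_ (by rw [b4]; positivity))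
  rw [b4, a4, k2, mulVec_mulVec, qm, mul_sum, j4]
  refine sum_le_sum fun i _ => ?_
  rw [norm_mul, mul_comm ‖a i‖, mul_assoc]
  exact mul_le_mul_of_nonneg_right (b i).2 (by positivity)

end Pool.Agent.MP_a43263_nt.K2
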