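import Pool.Agent.MP_a43263_nt.K2.Spec

/-! THEOREM R2: passage to the even model. -/

set_option autoImplicit false

noncomputable section

namespace Pool.Agent.MP_a43263_nt.K2

open Polynomial Finset Filter Matrix JC Pool.Agent.MP_a43263_nt.UV

namespace MobA

variable {K : Type} [Field K]

/-- the homogeneous form at `(G, l)` -/
def hm (G : K) (l : K[X]) (e : ℕ) (P : K[X]) : K[X] :=
  MvPolynomial.aeval ![C G, l] (P.homogenize e)

variable {G : K} {l f F κ : K[X]}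

theorem hm_eq (e : ℕ) (P : K[X]) :
    hm G l e P = ∑ i ∈ range (e + 1), C (P.coeff i * G ^ i) * l ^ (e - i) := by
  rw [hm, homogenize, Finset.Nat.sum_antidiagonal_eq_sum_range_succ_mk, map_sum]
  refine sum_congr rfl fun i _ => ?_
  rw [MvPolynomial.aeval_monomial, Finsupp.prod_fintype _ _ (by simp)]
  simp [mul_assoc]

theorem hm_mul {P Q : K[X]} {a b : ℕ} (h : P.natDegree ≤ a) (k : Q.natDegree ≤ b) :
    hm G l (a + b) (P * Q) = hm G l a P * hm G l b Q := by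
  rw [hm, homogenize_mul _ _ h k, map_mul, hm, hm]

theorem hm_add (P Q : K[X]) (a : ℕ) : hm G l a (P + Q) = hm G l a P + hm G l a Q := by
  rw [hm, homogenize_add, map_add, hm, hm]

theorem hm_one (a : ℕ) : hm G l a 1 = l ^ a := by simp [hm]

theorem hm_dvd (h : f ∣ κ * l - C G) {P : K[X]} {e : ℕ} (k : P.natDegree ≤ e) :
    f ∣ l ^ e * P.comp κ - hm G l e P := by
  rw [hm_eq, Polynomial.comp, eval₂_eq_sum_range' _ (Nat.lt_succ_of_le k), mul_sum, ← sum_sub_distrib]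
  refine dvd_sum fun i hi => ?_
  obtain ⟨j, rfl⟩ := Nat.exists_eq_add_of_le (Nat.lt_succ_iff.1 (mem_range.1 hi))
  rw [Nat.add_sub_cancel_left, show l ^ (i + j) * (C (P.coeff i) * κ ^ i) -
    C (P.coeff i * G ^ i) * l ^ j = C (P.coeff i) * l ^ j * ((κ * l) ^ i - C G ^ i) by
      rw [map_mul, map_pow]; ring]
  exact (h.trans (sub_dvd_pow_sub_pow _ _ i)).mul_left _

theorem cop_of {a b : K[X]} (h : IsCoprime a f) (k : f ∣ a - b) : IsCoprime b f := by
  obtain ⟨z, hz⟩ := k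
  rw [show b = a + f * -z by linear_combination -hz]
  exact h.add_mul_left_left _

theorem cop_comp (h : f ∣ F.comp κ) {P : K[X]} (k : IsCoprime P F) : IsCoprime (P.comp κ) f :=
  (show IsCoprime (P.comp κ) (F.comp κ) from k.map (compRingHom κ)).of_isCoprime_of_dvd_right h

theorem core {g : ℕ} {c : K} {δ : K[X]} (hd : F.natDegree = 2 * g + 1) (ka : f ∣ κ * l - C G)
    (mb : hm G l (2 * g + 1) F = C (c ^ 2) * f) (G0 : G ≠ 0) (c0 : c ≠ 0)
    (ker : ∀ P : K[X], F ∣ P → f ∣ P.comp κ) (h : Wt f F κ δ) : Mb f l δ := by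
  obtain ⟨δ', ⟨h1, U, V, s, hU, ⟨U', h2⟩, h3, h4⟩, h5⟩ := h
  rw [C_1, one_mul] at h2
  have hF := ker F dvd_rfl
  have hl : IsCoprime l f := by
    obtain ⟨z, hz⟩ := ka
    refine ⟨C G⁻¹ * κ, -(C G⁻¹ * z), ?_⟩
    have : C G⁻¹ * C G = (1 : K[X]) := by rw [← map_mul, inv_mul_cancel₀ G0, map_one]
    linear_combination this + C G⁻¹ * hz
  obtain ⟨d, hd'⟩ : ∃ d, d = U.natDegree := ⟨_, rfl⟩
  obtain ⟨t, ht⟩ : ∃ t, t = V.natDegree := ⟨_, rfl⟩
  rw [← hd'] at h4
  have dU : U'.natDegree ≤ 2 * t + d + 2 * g + 2 := by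
    by_cases e : U' = 0
    · simp [e]
    have a1 := hU.natDegree_mul' e
    have a2 := natDegree_sub_le F (V ^ 2)
    rw [h2, a1, natDegree_pow, hd, ← ht] at a2
    omega
  have e1 : hm G l (2 * (t + d) + 1 + (2 * g + 1)) (1 * F) = l ^ (2 * (t + d) + 1) * (C (c ^ 2) * f) := by
    rw [hm_mul (by simp) hd.le, hm_one, mb]
  have e2 : hm G l (2 * (t + d) + 1 + (2 * g + 1)) (1 * F) = hm G l (t + d + g + 1) V ^ 2 +
      hm G l d U * hm G l (2 * t + d + 2 * g + 2) U' := by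
    rw [show 1 * F = V * V + U * U' by linear_combination h2, hm_add, sq,
      ← hm_mul (by omega) (by omega), ← hm_mul hd'.ge dU]
    congr 2 <;> omega
  have e3 := hm_dvd (P := U) ka hd'.ge
  have ci : C c⁻¹ * C c = (1 : K[X]) := by rw [← map_mul, inv_mul_cancel₀ c0, map_one]
  refine ⟨cop_of (cop_comp hF h1) (dvd_sub_comm.1 h5), hm G l d U, C c⁻¹ * hm G l (t + d + g + 1) V,
    C c⁻¹ ^ 2 * hm G l (2 * t + d + 2 * g + 2) U', l ^ d * s.comp κ, t + d, d, ?_,
    cop_of (hl.pow_left.mul_left (cop_comp hF h3)) e3, ?_⟩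
  · rw [e2, map_pow] at e1
    linear_combination (-C c⁻¹ ^ 2) * e1 - l ^ (2 * (t + d) + 1) * f * (C c⁻¹ * C c + 1) * ci
  · obtain ⟨x, hx⟩ := ker _ h4
    obtain ⟨y, hy⟩ := h5
    obtain ⟨z, hz⟩ := e3
    simp only [sub_comp, mul_comp, pow_comp, map_pow, map_neg, map_one, neg_comp,
      one_comp] at hx
    refine ⟨l ^ d * l ^ d * x + (-l) ^ d * (y * hm G l d U - δ'.comp κ * z), ?_⟩
    rw [neg_pow l]
    linear_combination l ^ d * l ^ d * hx + (-1) ^ d * l ^ d * hm G l d U * hy -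
      (-1) ^ d * l ^ d * δ'.comp κ * hz

end MobA

open MobA in
theorem mob_k : ISOStmt → MOBStmt := by
  intro iso g f F κ u v G hf hc K _ _ δ h
  have G0 : (G : K) ≠ 0 := Int.cast_ne_zero.2 hc.G0
  have v0 : (v : K) ≠ 0 := Int.cast_ne_zero.2 hc.v0
  refine core (g := g) (G := (G : K)) (c := (G : K) ^ g * (v : K) ^ (2 * g + 1))
    (by rw [hc.mo.natDegree_map, hc.dg]) ?_ ?_ G0
    (mul_ne_zero (pow_ne_zero _ G0) (pow_ne_zero _ v0))
    (fun P => (((iso g f F κ u v G hf hc).2 K).ker P).2) h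
  · simpa using Polynomial.map_dvd (Int.castRingHom K) hc.ka
  · have := congrArg (Polynomial.map (Int.castRingHom K)) hc.mb
    simp only [Polynomial.map_sum, Polynomial.map_mul, Polynomial.map_pow, map_C] at this
    rw [hm_eq, show ((G : K) ^ g * (v : K) ^ (2 * g + 1)) ^ 2 =
      Int.castRingHom K (G ^ (2 * g) * v ^ (4 * g + 2)) by simp; ring, ← this]
    exact sum_congr rfl fun i _ => by simp

end Pool.Agent.MP_a43263_nt.K2
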