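import Pool.Agent.MP_a43263_nt.K2.Spec

/-! THEOREM R2: the companion exists. -/

set_option autoImplicit false

noncomputable section

namespace Pool.Agent.MP_a43263_nt.K2

open Polynomial Finset Filter Matrix JC Pool.Agent.MP_a43263_nt.UV

namespace ModA

/-- the polynomial of the moving branch point -/
def fh (f : ℤ[X]) (u v : ℤ) : ℤ[X] := (scaleRoots f (v ^ 2)).comp (X - C (u ^ 2))

variable {f : ℤ[X]} {u v G : ℤ} {n : ℕ}

theorem fh_deg : (fh f u v).natDegree = f.natDegree := by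
  rw [fh, natDegree_comp, natDegree_scaleRoots, natDegree_X_sub_C, mul_one]

theorem fh_ev {R : Type} [CommRing R] (φ : ℤ →+* R) (y : R) : (fh f u v).eval₂ φ y =
    ∑ k ∈ range (f.natDegree + 1),
      φ (f.coeff k) * (y - φ u ^ 2) ^ k * (φ v ^ 2) ^ (f.natDegree - k) := by
  rw [fh, eval₂_comp, eval₂_eq_sum_range, natDegree_scaleRoots]
  refine sum_congr rfl fun k _ => ?_
  rw [coeff_scaleRoots, eval₂_sub, eval₂_X, eval₂_C, map_mul, map_pow, map_pow, map_pow]
  ring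

theorem fh_el : (fh f u v).comp (el u v) = C (v ^ 2) ^ f.natDegree * f.comp (X - 1) := by
  rw [fh, comp_assoc, sub_comp, X_comp, C_comp, el, add_sub_cancel_right]
  exact scaleRoots_eval₂_mul C (X - 1) (v ^ 2)

/-- the odd model -/
def md (n : ℕ) (h : ℤ[X]) (G : ℤ) : ℤ[X] := pc fun j : Fin (n + 1) => h.coeff (j + 1) * G ^ j.1

theorem md_coeff {h : ℤ[X]} (h0 : h.coeff 0 = G) {j : ℕ} (hj : j ≤ n + 1) :
    (md n h G).coeff (n + 1 - j) * G ^ (n + 1 - j) = h.coeff j * G ^ n := by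
  rcases j with _ | j
  · have := (pc_monic fun j : Fin (n + 1) => h.coeff (j + 1) * G ^ j.1).coeff_natDegree
    rw [pc_deg] at this
    rw [Nat.sub_zero, md, this, h0, one_mul, pow_succ']
  · have := Beta.pc_coeff (fun j : Fin (n + 1) => h.coeff (j + 1) * G ^ j.1) ⟨j, by omega⟩
    rw [show n + 1 - (j + 1) = n + 1 - 1 - j by omega, md, this, mul_assoc, ← pow_add,
      show j + (n + 1 - 1 - j) = n by omega]

theorem hom {h : ℤ[X]} (h0 : h.coeff 0 = G) (hd : h.natDegree = n + 1) {R : Type} [CommRing R]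
    (φ : ℤ →+* R) (y : R) :
    ∑ i ∈ range (n + 2), φ ((md n h G).coeff i * G ^ i) * y ^ (n + 1 - i) =
      φ G ^ n * h.eval₂ φ y := by
  rw [← sum_range_reflect, eval₂_eq_sum_range, hd, mul_sum]
  refine sum_congr rfl fun j hj => ?_
  have := mem_range.1 hj
  rw [show n + 2 - 1 - j = n + 1 - j by omega, md_coeff h0 (by omega),
    show n + 1 - (n + 1 - j) = j by omega, map_mul, map_pow]
  ring

theorem gv {g : ℕ} (w : Vec g) (u v : ℤ) : (fh (pc (sv w)) u v).coeff 0 = Gv w u v := by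
  have m := (pc_monic (sv w)).coeff_natDegree
  rw [coeff_zero_eq_eval_zero, eval, fh_ev, pc_deg] at *
  rw [sum_range_succ, m, ← sum_range_reflect, ← Fin.sum_univ_eq_sum_range
    (fun j => RingHom.id ℤ ((pc (sv w)).coeff (2 * g + 1 - 1 - j)) *
      (0 - RingHom.id ℤ u ^ 2) ^ (2 * g + 1 - 1 - j) *
        (RingHom.id ℤ v ^ 2) ^ (2 * g + 1 - (2 * g + 1 - 1 - j))), Gv, add_comm]
  congr 1
  · simp
  · refine sum_congr rfl fun i _ => ?_
    have := i.2
    rw [Beta.pc_coeff, show 2 * g + 1 - (2 * g + 1 - 1 - i.1) = i.1 + 1 by omega]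
    simp

theorem nm (hf : f.Monic) (hv : v ≠ 0) :
    Nm (f.comp (X - 1)) (-el u v) = (fh f u v).coeff 0 := by
  have h1 : (f.comp (X - 1)).Monic := by simpa using hf.comp_X_sub_C 1
  have d1 : (f.comp (X - 1)).natDegree = f.natDegree := by
    rw [natDegree_comp, ← C_1, natDegree_X_sub_C, mul_one]
  have v0 : (v : ℚ) ≠ 0 := Int.cast_ne_zero.2 hv
  have hq := h1.map (Int.castRingHom ℚ)
  have dq := (h1.natDegree_map (Int.castRingHom ℚ)).trans d1
  obtain ⟨g1, -, g3, -⟩ := gram.1 ℚ _ hq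
  have e : (-el u v).map (Int.castRingHom ℚ) =
      C (-(v : ℚ) ^ 2) * (X - C (1 - (u : ℚ) ^ 2 / v ^ 2)) := by
    have : C ((v : ℚ) ^ 2) * C ((u : ℚ) ^ 2 / v ^ 2) = C ((u : ℚ) ^ 2) := by
      rw [← C_mul, mul_div_cancel₀ _ (pow_ne_zero 2 v0)]
    rw [el, Polynomial.map_neg, Polynomial.map_add, Polynomial.map_mul, Polynomial.map_sub,
      map_C, map_C, map_X, Polynomial.map_one, map_pow (Int.castRingHom ℚ),
      map_pow (Int.castRingHom ℚ), eq_intCast (Int.castRingHom ℚ), eq_intCast (Int.castRingHom ℚ),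
      C_neg, C_sub, C_1]
    linear_combination this
  have k := congrArg (eval₂ (Int.castRingHom ℚ) (1 - (u : ℚ) ^ 2 / v ^ 2))
    (fh_el (f := f) (u := u) (v := v))
  have z : eval₂ (Int.castRingHom ℚ) (1 - (u : ℚ) ^ 2 / v ^ 2) (el u v) = 0 := by
    rw [el, eval₂_add, eval₂_mul, eval₂_sub, eval₂_C, eval₂_C, eval₂_X, eval₂_one]
    simp only [map_pow, eq_intCast]
    field_simp
    ring
  rw [eval₂_comp, z, eval₂_at_zero, eval₂_mul, eval₂_pow, eval₂_C] at k
  refine (Int.castRingHom ℚ).injective_int ?_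
  rw [← Gram.nm_map h1, e, g1, g3, Nm, natDegree_X_sub_C, resultant_X_sub_C_right _ _ _ le_rfl, dq,
    k, eval_map, ← mul_assoc, ← mul_pow]
  simp

theorem a1 (N i : ℕ) (h : i ≤ N) (c G : ℚ) {x : ℚ} (hx : x ≠ 0) :
    G ^ N * (c * x ^ i) = c * G ^ i * (G / x) ^ (N - i) * x ^ N := by
  obtain ⟨j, rfl⟩ := Nat.exists_eq_add_of_le h
  rw [Nat.add_sub_cancel_left, div_pow]
  field_simp
  ring

theorem a2 (N i : ℕ) (h : i ≤ N) (c G a b : ℚ) {x : ℚ} (hx : x ≠ 0) :
    c * (G / x - a) ^ i * b ^ (N - i) * x ^ N = c * (G - a * x) ^ i * (b * x) ^ (N - i) := by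
  obtain ⟨j, rfl⟩ := Nat.exists_eq_add_of_le h
  rw [Nat.add_sub_cancel_left, show G - a * x = (G / x - a) * x by field_simp, mul_pow,
    mul_pow]
  ring

end ModA

open ModA in
theorem mod_k : MODStmt := by
  intro g w u v hg hu hv hG
  have h0 := gv w u v
  have d := pc_deg (sv w)
  have m := pc_monic (sv w)
  have hd : (fh (pc (sv w)) u v).natDegree = 2 * g + 1 := fh_deg.trans d
  have ev : ∀ y : ℚ, (fh (pc (sv w)) u v).eval₂ (Int.castRingHom ℚ) y =
      ∑ k ∈ range (2 * g + 2), (zK (pc (sv w)) ℚ).coeff k * (y - (u : ℚ) ^ 2) ^ k *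
        ((v : ℚ) ^ 2) ^ (2 * g + 1 - k) := fun y => by
    rw [fh_ev, d]
    simp only [coeff_map, eq_intCast]
  have r : rs g (zK (pc (sv w)) ℚ) u v = (Gv w u v : ℤ) := by
    have := ev 0
    rw [eval₂_at_zero, h0, zero_sub] at this
    exact this.symm
  have c := fh_el (f := pc (sv w)) (u := u) (v := v)
  rw [d] at c
  refine ⟨r, md (2 * g) (fh (pc (sv w)) u v) (Gv w u v), -(divX (fh (pc (sv w)) u v)).comp (el u v),
    ⟨pc_monic _, pc_deg _, ⟨-C (v ^ 2) ^ (2 * g + 1), ?_⟩, ?_, (nm m hv).trans h0, hG, hu, hv⟩, ?_⟩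
  · rw [← divX_mul_X_add (fh (pc (sv w)) u v), add_comp, mul_comp, X_comp, C_comp, h0] at c
    rw [f1]
    linear_combination -c
  · rw [hom h0 hd C (el u v), ← Polynomial.comp, c, f1, C_mul, C_pow, C_pow, C_pow, ← pow_mul,
      show 2 * (2 * g + 1) = 4 * g + 2 by ring, mul_assoc]
  · have G0 : ((Gv w u v : ℤ) : ℚ) ≠ 0 := Int.cast_ne_zero.2 hG
    refine eq_of_infinite_eval_eq _ _ ((Set.finite_singleton (0 : ℚ)).infinite_compl.mono
      fun x (hx : x ≠ 0) => ?_)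
    have k := hom h0 hd (Int.castRingHom ℚ) ((Gv w u v : ℤ) / x)
    have dm : (md (2 * g) (fh (pc (sv w)) u v) (Gv w u v)).natDegree = 2 * g + 1 := pc_deg _
    rw [ev, mul_sum] at k
    change eval x _ = eval x _
    rw [od, r, eval_mul, eval_C, eval_finsetSum, eval_map, eval₂_eq_sum_range, dm,
      eq_inv_mul_iff_mul_eq₀ G0]
    refine mul_left_cancel₀ (pow_ne_zero (2 * g) G0) ?_
    have k' := congrArg (· * x ^ (2 * g + 1)) k
    simp only [sum_mul] at k'
    rw [mul_sum, mul_sum, mul_sum]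
    refine Eq.trans (sum_congr rfl fun i hi => ?_) (k'.trans (sum_congr rfl fun i hi => ?_))
    · rw [← mul_assoc, ← pow_succ, map_mul, map_pow, eq_intCast, eq_intCast]
      exact a1 _ _ (Nat.lt_succ_iff.1 (mem_range.1 hi)) _ _ hx
    · simp only [eval_mul, eval_pow, eval_sub, eval_C, eval_X, eq_intCast]
      rw [mul_assoc, a2 _ _ (Nat.lt_succ_iff.1 (mem_range.1 hi)) _ _ _ _ hx]

end Pool.Agent.MP_a43263_nt.K2
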