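import Pool.Agent.MP_a43263_nt.K2.SpecC

/-! THEOREM R2, analytic part: one moment. -/

set_option autoImplicit false

noncomputable section

namespace Pool.Agent.MP_a43263_nt.K2

open Finset Filter

namespace MomA

theorem smul_sh (g : ℕ) (i t u' v : ℤ) : i • sh g t u' v = sh g (i * t) u' v := by
  funext j
  simp only [sh, Pi.smul_apply, smul_eq_mul]
  split_ifs <;> ring

theorem om_inv {g : ℕ} {ω : Vec g → ℝ} {σ : Vec g} (h : ∀ w, ω (w + σ) = ω w) (w : Vec g) (i : ℕ) :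
    ω (w + (i : ℤ) • σ) = ω w := by
  induction i with
  | zero => simp
  | succ i ih => rw [Nat.cast_succ, add_smul, one_smul, ← add_assoc, h, ih]

theorem dl_mul {g N d u u' v : ℕ} (hN : 0 < N) (hd : d ∣ N) : (d : ℤ) * dl g N d u u' v =
    (N : ℤ) ^ 2 * ((u : ℤ) ^ 2 - (u' : ℤ) ^ 2) *
      ((u : ℤ) ^ 2 * (v : ℤ) ^ (4 * g) * ((u : ℤ) ^ 2 - (u' : ℤ) ^ 2)) := by
  obtain ⟨e, rfl⟩ := hd
  have d0 : 0 < d := Nat.pos_of_mul_pos_right hN
  rw [dl, show (d * e) ^ 2 = d * (d * e ^ 2) by ring, Nat.mul_div_cancel_left _ d0]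
  push_cast
  rw [sq_abs]
  ring

theorem dl_pos {g N d u u' v : ℕ} (hN : 0 < N) (hd : d ∣ N) (hu : 1 ≤ u) (hv : 1 ≤ v) (ne : u ≠ u') :
    1 ≤ dl g N d u u' v := by
  have a : 0 < N ^ 2 / d := Nat.div_pos ((Nat.le_of_dvd hN hd).trans (Nat.le_self_pow two_ne_zero N))
    (Nat.pos_of_dvd_of_pos hd hN)
  have b : 0 < ((u : ℤ) ^ 2 - (u' : ℤ) ^ 2).natAbs := Int.natAbs_pos.2 (sub_ne_zero.2 fun e =>
    ne (by exact_mod_cast (pow_left_inj₀ (by positivity) (by positivity) two_ne_zero).1 e))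
  rw [dl]
  exact Nat.succ_le_of_lt (by positivity)

theorem sq_le {L : ℝ} {u : ℕ} (h : (u : ℝ) ≤ L ^ 7) : (u : ℝ) ^ 2 ≤ L ^ 14 := by
  rw [show L ^ 14 = (L ^ 7) ^ 2 by ring]
  gcongr

theorem dif_le {L : ℝ} {u u' : ℕ} (h : (u : ℝ) ≤ L ^ 7) (h' : (u' : ℝ) ≤ L ^ 7) :
    |(u : ℝ) ^ 2 - (u' : ℝ) ^ 2| ≤ L ^ 14 := by
  have a := sq_le h
  have b := sq_le h'
  have c := sq_nonneg (u : ℝ)
  have d := sq_nonneg (u' : ℝ)
  exact abs_le.2 ⟨by linarith, by linarith⟩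

theorem dl_le {L : ℝ} {g N d u u' v : ℕ} (hN : (N : ℝ) ^ 2 ≤ L) (h : (u : ℝ) ≤ L ^ 7)
    (h' : (u' : ℝ) ≤ L ^ 7) (hv : (v : ℝ) ≤ L ^ 7) : (dl g N d u u' v : ℝ) ≤ L ^ (28 * g + 43) := by
  have L0 : 0 ≤ L := (sq_nonneg _).trans hN
  have a : ((N ^ 2 / d : ℕ) : ℝ) ≤ L := le_trans (by exact_mod_cast Nat.div_le_self _ _) hN
  have b : ((((u : ℤ) ^ 2 - (u' : ℤ) ^ 2).natAbs : ℕ) : ℝ) ≤ L ^ 14 := by
    rw [Nat.cast_natAbs]
    push_cast
    exact dif_le h h'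
  have c := sq_le h
  rw [dl, show L ^ (28 * g + 43) = L * L ^ 14 * (L ^ 7) ^ (4 * g) * (L ^ 14) ^ 2 by ring]
  rw [Nat.cast_mul, Nat.cast_mul, Nat.cast_mul, Nat.cast_pow, Nat.cast_pow, Nat.cast_pow]
  gcongr

theorem sh_le {L : ℝ} {g N u u' v k : ℕ} (hg : 1 ≤ g) (hk : 1 ≤ k) (hN : (N : ℝ) ^ 2 ≤ L)
    (h : (u : ℝ) ≤ L ^ 7) (h' : (u' : ℝ) ≤ L ^ 7) (hv : (v : ℝ) ≤ L ^ 7) (i : Fin (2 * g + 1)) :
    (k : ℝ) ^ (g + 1) * |(sh g ((N : ℤ) ^ 2 * ((u : ℤ) ^ 2 - (u' : ℤ) ^ 2)) u' v i : ℝ)| ≤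
      L ^ 29 * (k : ℝ) ^ xp g i.1 := by
  have L0 : 0 ≤ L := (sq_nonneg _).trans hN
  have k1 : (1 : ℝ) ≤ k := by exact_mod_cast hk
  have a := dif_le h h'
  have key : ∀ x : ℕ, (x : ℝ) ≤ L ^ 7 → g + 1 ≤ xp g i.1 → (k : ℝ) ^ (g + 1) *
      |(((N : ℤ) ^ 2 * ((u : ℤ) ^ 2 - (u' : ℤ) ^ 2) * (x : ℤ) ^ 2 : ℤ) : ℝ)| ≤
        L ^ 29 * (k : ℝ) ^ xp g i.1 := fun x hx e => by
    have b := sq_le hx
    push_cast
    rw [abs_mul, abs_mul, abs_sq, abs_sq, mul_comm, show L ^ 29 = L * L ^ 14 * L ^ 14 by ring]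
    gcongr
  rw [sh]
  split_ifs with e1 e2
  · exact key v hv (by rw [xp, if_neg (by omega)]; omega)
  · exact key u' h' (by rw [xp, if_neg (by omega)]; omega)
  · rw [Int.cast_zero, abs_zero, mul_zero]; positivity

theorem co_eq {g d u v : ℕ} {w : Vec g} (hd : (d : ℤ) ∣ Gv w u v) (h : 0 ≤ Gv w u v) :
    Gv w u v = d * co d w u v := by
  rw [co, Int.toNat_of_nonneg (Int.ediv_nonneg h (by positivity)), Int.mul_ediv_cancel' hd]

theorem co_add {g d u v a : ℕ} {w w' : Vec g} (d0 : 0 < d) (hd : (d : ℤ) ∣ Gv w u v)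
    (h : 0 ≤ Gv w u v) (e : Gv w' u v = Gv w u v + d * a) : co d w' u v = co d w u v + a := by
  rw [co, e, co_eq hd h, ← mul_add, Int.mul_ediv_cancel_left _ (by exact_mod_cast d0.ne'),
    ← Nat.cast_add, Int.toNat_natCast]

/-- sum over the fibres of the value -/
theorem fib {g k d u v : ℕ} {ω : Vec g → ℝ} {B M : ℝ} {E : ℕ → ℝ} {Y : Finset ℕ}
    (h0 : ∀ w, 0 ≤ ω w ∧ ω w ≤ B)
    (h1 : ∀ w ∈ bx g k, ω w ≠ 0 → co d w u v ∈ Y ∧ Gv w u v = d * co d w u v)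
    (h2 : ∀ y : ℤ, cnt g k (fun w => Gv w u v = y) ≤ M) :
    |∑ w ∈ bx g k, ω w * E (co d w u v)| ≤ B * (M * ∑ y ∈ Y, |E y|) := by
  have B0 : 0 ≤ B := (h0 0).1.trans (h0 0).2
  refine (abs_sum_le_sum_abs _ _).trans ?_
  calc ∑ w ∈ bx g k, |ω w * E (co d w u v)|
      ≤ ∑ w ∈ bx g k, ∑ y ∈ Y, B * (ind (Gv w u v = (d : ℤ) * y) * |E y|) := by
        refine sum_le_sum fun w hw => ?_
        have nn : ∀ y ∈ Y, 0 ≤ B * (ind (Gv w u v = (d : ℤ) * y) * |E y|) := fun y _ =>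
          mul_nonneg B0 (mul_nonneg (ind_nonneg _) (abs_nonneg _))
        by_cases e : ω w = 0
        · rw [e, zero_mul, abs_zero]; exact sum_nonneg nn
        · obtain ⟨a, b⟩ := h1 w hw e
          refine le_trans ?_ (single_le_sum nn a)
          rw [ind_pos b, one_mul, abs_mul, abs_of_nonneg (h0 w).1]
          exact mul_le_mul_of_nonneg_right (h0 w).2 (abs_nonneg _)
    _ = B * ∑ y ∈ Y, cnt g k (fun w => Gv w u v = (d : ℤ) * y) * |E y| := by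
        rw [sum_comm, mul_sum]
        exact sum_congr rfl fun y _ => by rw [← mul_sum, cnt, sum_mul]
    _ ≤ B * (M * ∑ y ∈ Y, |E y|) := by
        rw [mul_sum Y _ M]
        exact mul_le_mul_of_nonneg_left
          (sum_le_sum fun y _ => mul_le_mul_of_nonneg_right (h2 _) (abs_nonneg _)) B0

theorem ph_le {q : ℕ} (h : 1 ≤ q) : 0 ≤ ph q ∧ ph q ≤ q :=
  ⟨by rw [ph]; positivity, div_le_self (by positivity) (by exact_mod_cast Nat.totient_pos.2 h)⟩

theorem term_le {q y : ℕ} {T : ℝ} (h : 1 ≤ q) (P : Prop) (hy : Real.log y ≤ T) :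
    |lam y - ph q * ind P| ≤ T + q := by
  have a := lam_nonneg y
  have b := lam_le y
  have c := mul_nonneg (ph_le h).1 (ind_nonneg P)
  have d : ph q * ind P ≤ q := (mul_le_of_le_one_right (ph_le h).1 (ind_le_one P)).trans (ph_le h).2
  exact abs_le.2 ⟨by linarith, by linarith⟩

theorem mem_win {P d y : ℕ} (d0 : 0 < d) (hd : d ≤ P) (h1 : 35 * P ≤ d * y) (h2 : d * y ≤ 65 * P) :
    y ∈ Ioc (34 * P / d) (2 * (34 * P / d)) := by
  have a := Nat.mul_div_le (34 * P) d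
  have b := Nat.lt_mul_div_succ (34 * P) d0
  refine mem_Ioc.2 ⟨lt_of_mul_lt_mul_left (a := d) (by omega) d0.le,
    Nat.le_of_mul_le_mul_left (?_ : d * y ≤ d * (2 * (34 * P / d))) d0⟩
  nlinarith

/-- the length of the progression -/
theorem len {k g E : ℕ} {L X : ℝ} (hL : 1 ≤ L) (h : 544 * L ^ (4 * E + 28 * g + 14) ≤ k)
    (X0 : 0 ≤ X) (hX : X ≤ 34 * (k : ℝ) ^ (4 * g + 2) * L ^ (28 * g + 14)) :
    ∃ K : ℕ, 1 ≤ K ∧ (K : ℝ) * L ^ E ≤ (k : ℝ) ^ (g + 1) ∧ X ^ (1 / 4 : ℝ) ≤ K := by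
  have p1 : (1 : ℝ) ≤ L ^ (4 * E + 28 * g + 14) := one_le_pow₀ hL
  have k1 : (1 : ℝ) ≤ k := by linarith
  have pE : 0 < L ^ E := by positivity
  have a : L ^ E ≤ (k : ℝ) ^ (g + 1) := by
    have := pow_le_pow_right₀ hL (show E ≤ 4 * E + 28 * g + 14 by omega)
    have := le_self_pow₀ k1 (show g + 1 ≠ 0 by omega)
    linarith
  have b : 1 ≤ (k : ℝ) ^ (g + 1) / L ^ E := (one_le_div pE).2 a
  have K1 : 1 ≤ ⌊(k : ℝ) ^ (g + 1) / L ^ E⌋₊ := Nat.le_floor (by simpa using b)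
  refine ⟨_, K1, (le_div_iff₀ pE).1 (Nat.floor_le (by positivity)), ?_⟩
  have c := Nat.lt_floor_add_one ((k : ℝ) ^ (g + 1) / L ^ E)
  generalize ⌊(k : ℝ) ^ (g + 1) / L ^ E⌋₊ = K at K1 c
  have K1' : (1 : ℝ) ≤ K := by exact_mod_cast K1
  have d : (k : ℝ) ^ (g + 1) ≤ 2 * K * L ^ E := (div_le_iff₀ pE).1 (by linarith)
  have e : X ≤ (K : ℝ) ^ 4 := by
    refine hX.trans (le_of_mul_le_mul_right ?_ (show 0 < 16 * L ^ (4 * E) by positivity))
    calc 34 * (k : ℝ) ^ (4 * g + 2) * L ^ (28 * g + 14) * (16 * L ^ (4 * E))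
        = (k : ℝ) ^ (4 * g + 2) * (544 * L ^ (4 * E + 28 * g + 14)) * 1 := by ring
      _ ≤ (k : ℝ) ^ (4 * g + 2) * k * k := by gcongr
      _ = ((k : ℝ) ^ (g + 1)) ^ 4 := by ring
      _ ≤ (2 * K * L ^ E) ^ 4 := by gcongr
      _ = (K : ℝ) ^ 4 * (16 * L ^ (4 * E)) := by ring
  refine (Real.rpow_le_rpow X0 e (by norm_num)).trans_eq ?_
  rw [show (1 / 4 : ℝ) = ((4 : ℕ) : ℝ)⁻¹ by norm_num, Real.pow_rpow_inv_natCast (by positivity) (by norm_num)]

end MomA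

open MomA in
theorem mom_k : APLStmt → SHStmt → GEOStmt → SIZStmt → MULStmt → MOMStmt := by
  intro apl shf geo siz mul g N d A hg hN hd
  obtain ⟨c, c0, hc⟩ := shf g
  obtain ⟨c', c0', hc'⟩ := mul g hg
  obtain ⟨X0, hX0⟩ := eventually_atTop.1 (apl (28 * g + 29 + A) (28 * g + 43))
  filter_upwards [siz g hg, eventually_ge_atTop X0, eventually_ge_atTop N, eventually_ge_atTop 102,
    ev_le_log (N ^ 2), ev_le_log (8 * g + 5), ev_le_log (4 * c), ev_le_log (68 * c'),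
    ev_log_le 544 (4 * (28 * g + 73 + A) + 28 * g + 14)] with k sz k0 kN k1 l1 l2 l3 l4 l5
  intro u u' v ω B hu hu' hv ne h0 h1 h2
  have d0 : 0 < d := Nat.pos_of_dvd_of_pos hd hN
  have dk : d ≤ k := (Nat.le_of_dvd hN hd).trans kN
  have B0 : 0 ≤ B := (h0 0).1.trans (h0 0).2
  have g0 : (0 : ℝ) ≤ g := by positivity
  set L := Real.log k with hL
  have L1 : 1 ≤ L := by linarith
  have L0 : 0 < L := by linarith
  have kp : (0 : ℝ) < k := by exact_mod_cast (show 0 < k by omega)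
  have pk : ∀ j, j ≤ 4 * (28 * g + 73 + A) + 28 * g + 14 → L ^ j ≤ k := fun j hj => by
    have := pow_le_pow_right₀ L1 hj
    have : 0 < L ^ j := by positivity
    linarith
  have q1 := dl_pos (g := g) hN hd hu.1 hv.1 ne
  have q2 := dl_le (g := g) (d := d) l1 hu.2 hu'.2 hv.2
  have q3 := dl_mul (g := g) (u := u) (u' := u') (v := v) hN hd
  have s1 := sh_le hg (show 1 ≤ k by omega) l1 hu.2 hu'.2 hv.2
  generalize dl g N d u u' v = q at q1 q2 q3 ⊢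
  have qk : q ≤ k := by exact_mod_cast q2.trans (pk _ (by omega))
  have vk : v ≤ k := by exact_mod_cast hv.2.trans (pk _ (by omega))
  obtain ⟨P, hP⟩ : ∃ P, P = (k * v) ^ (4 * g + 2) := ⟨_, rfl⟩
  have P1 : k ^ (4 * g + 2) ≤ P := hP ▸ Nat.pow_le_pow_left (Nat.le_mul_of_pos_right k hv.1) _
  have P2 : P ≤ k ^ (8 * g + 4) := by
    rw [hP, show k ^ (8 * g + 4) = (k * k) ^ (4 * g + 2) by ring]; gcongr
  obtain ⟨X, hX⟩ : ∃ X, X = 34 * P / d := ⟨_, rfl⟩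
  have x1 : X ≤ 34 * P := hX ▸ Nat.div_le_self _ _
  have x2 : k ^ (4 * g + 1) ≤ X := by
    rw [hX, Nat.le_div_iff_mul_le d0]
    calc k ^ (4 * g + 1) * d ≤ k ^ (4 * g + 1) * k := by gcongr
      _ = k ^ (4 * g + 2) := by ring
      _ ≤ 34 * P := by omega
  have x3 : k ≤ X := (Nat.le_self_pow (by omega) k).trans x2
  have x4 : L ≤ Real.log X := Real.log_le_log kp (by exact_mod_cast x3)
  have x5 : (X : ℝ) ≤ 34 * (k : ℝ) ^ (4 * g + 2) * L ^ (28 * g + 14) := by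
    have := hv.2
    calc (X : ℝ) ≤ 34 * ((k : ℝ) * v) ^ (4 * g + 2) := by rw [hP] at x1; exact_mod_cast x1
      _ ≤ 34 * ((k : ℝ) * L ^ 7) ^ (4 * g + 2) := by gcongr
      _ = _ := by ring
  obtain ⟨K, K1, K2, K3⟩ := len L1 l5 (by positivity) x5
  have K0 : (0 : ℝ) < K := by exact_mod_cast K1
  have K4 : K * q ≤ X := by
    have : K ≤ k ^ (g + 1) := by
      exact_mod_cast (le_mul_of_one_le_right K0.le (one_le_pow₀ L1)).trans K2
    calc K * q ≤ k ^ (g + 1) * k := by gcongr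
      _ = k ^ (g + 2) := by ring
      _ ≤ k ^ (4 * g + 1) := Nat.pow_le_pow_right (by omega) (by omega)
      _ ≤ X := x2
  have ap := hX0 X (k0.trans x3) q K q1 (q2.trans (by gcongr)) K3 K4
  have win : ∀ w ∈ bx g k, ω w ≠ 0 → co d w u v ∈ Ioc X (2 * X) ∧ Gv w u v = d * co d w u v :=
    fun w hw e => by
      obtain ⟨a, b, -⟩ := sz w hw u v hu hv
      have f := co_eq (h2 w e) (le_trans (by positivity) a)
      refine ⟨hX ▸ mem_win d0 (dk.trans ((Nat.le_self_pow (by omega) k).trans P1)) ?_ ?_, f⟩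
      · rw [hP]; rw [f] at a; exact_mod_cast a
      · rw [hP]; rw [f] at b; exact_mod_cast b
  generalize hσ : sh g ((N : ℤ) ^ 2 * ((u : ℤ) ^ 2 - (u' : ℤ) ^ 2)) u' v = σ at h1 s1
  have shift : ∀ w ∈ bx g k, ω w ≠ 0 → ∀ i : ℕ, co d (w + (i : ℤ) • σ) u v = co d w u v + i * q :=
    fun w hw e i => co_add d0 (h2 w e) (by rw [(win w hw e).2]; positivity) (by
      rw [← hσ, smul_sh, (geo g hg).2.1, Nat.cast_mul, mul_left_comm (d : ℤ), q3]; ring)
  obtain ⟨F, hF⟩ : ∃ F : Vec g → ℝ, F = fun w => ω w * (lam (co d w u v) -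
    ph q * ind ((co d w u v).Coprime q)) := ⟨_, rfl⟩
  have Fs : ∀ w ∈ bx g k, ∀ i : ℕ, F (w + (i : ℤ) • σ) =
      ω w * (lam (co d w u v + i * q) - ph q * ind ((co d w u v).Coprime q)) := fun w hw i => by
    rw [hF]
    beta_reduce
    rw [om_inv h1]
    by_cases e : ω w = 0
    · rw [e, zero_mul, zero_mul]
    · rw [shift w hw e, ind_congr (Nat.coprime_add_mul_right_left _ _ _)]
  have sh1 := hc k K σ F (B * (2 * L ^ (28 * g + 43))) (1 / L ^ (28 * g + 44 + A)) (by omega)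
    (by positivity) (fun i => by
      rw [one_div, inv_mul_eq_div, le_div_iff₀ (by positivity)]
      refine le_of_mul_le_mul_left ?_ (show 0 < L ^ 29 by positivity)
      refine le_trans ?_ (s1 i)
      rw [show L ^ 29 * (K * |(σ i : ℝ)| * L ^ (28 * g + 44 + A)) =
        K * L ^ (28 * g + 73 + A) * |(σ i : ℝ)| by ring]
      gcongr)
    (fun w hw i hi => by
      rw [Fs w hw, abs_mul, abs_of_nonneg (h0 w).1]
      by_cases e : ω w = 0
      · rw [e, zero_mul]; positivity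
      have a := mem_Ioc.1 (win w hw e).1
      have b : co d w u v + i * q ≤ k ^ (8 * g + 5) := by
        have : i * q ≤ K * q := by gcongr
        calc co d w u v + i * q ≤ 102 * P := by omega
          _ ≤ k * k ^ (8 * g + 4) := by gcongr
          _ = _ := by ring
      have f : Real.log (co d w u v + i * q : ℕ) ≤ L ^ (28 * g + 43) := by
        calc Real.log (co d w u v + i * q : ℕ) ≤ Real.log ((k : ℝ) ^ (8 * g + 5)) :=
              Real.log_le_log (by exact_mod_cast (show 0 < co d w u v + i * q by omega))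
                (by exact_mod_cast b)
          _ = (8 * g + 5) * L := by rw [Real.log_pow]; push_cast; rfl
          _ ≤ L ^ 2 := by rw [sq]; gcongr
          _ ≤ _ := pow_le_pow_right₀ L1 (by omega)
      have := term_le q1 ((co d w u v).Coprime q) f
      exact mul_le_mul (h0 w).2 (by linarith) (abs_nonneg _) B0)
  have v0 : 0 < vol g k := by rw [vol]; positivity
  have fb := fib (E := fun y => ∑ i ∈ range K, lam (y + i * q) - K * (ph q * ind (y.Coprime q)))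
    (M := c' * u ^ 2 * vol g k / (k : ℝ) ^ (4 * g + 2)) h0 win fun y =>
      (le_div_iff₀ (by positivity)).2 ((hc' k u v (by omega) hu.1 hv.1).1 y)
  have eq : ∑ w ∈ bx g k, ∑ i ∈ range K, F (w + (i : ℤ) • σ) = ∑ w ∈ bx g k, ω w *
      (∑ i ∈ range K, lam (co d w u v + i * q) - K * (ph q * ind ((co d w u v).Coprime q))) :=
    sum_congr rfl fun w hw => by
      rw [sum_congr rfl fun i _ => Fs w hw i, ← mul_sum, sum_sub_distrib, sum_const, card_range,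
        nsmul_eq_mul]
  rw [← eq] at fb
  have t1 : K * (B * (2 * L ^ (28 * g + 43)) * (c * (1 / L ^ (28 * g + 44 + A)) * vol g k)) ≤
      K * (B * vol g k / L ^ A / 2) := by
    rw [show K * (B * (2 * L ^ (28 * g + 43)) * (c * (1 / L ^ (28 * g + 44 + A)) * vol g k)) =
      K * (B * vol g k / L ^ A / 2) * (4 * c / L) by field_simp; ring]
    exact mul_le_of_le_one_right (by positivity) ((div_le_one L0).2 l3)
  have t2 : B * (c' * u ^ 2 * vol g k / (k : ℝ) ^ (4 * g + 2) * ∑ y ∈ Ioc X (2 * X),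
      |∑ i ∈ range K, lam (y + i * q) - K * (ph q * ind (y.Coprime q))|) ≤
      K * (B * vol g k / L ^ A / 2) := by
    have := sq_le hu.2
    calc _ ≤ B * (c' * L ^ 14 * vol g k / (k : ℝ) ^ (4 * g + 2) *
          (K * (34 * (k : ℝ) ^ (4 * g + 2) * L ^ (28 * g + 14)) / L ^ (28 * g + 29 + A))) := by
          gcongr
          exact ap.trans (by gcongr)
      _ = K * (B * vol g k / L ^ A / 2) * (68 * c' / L) := by field_simp; ring
      _ ≤ _ := mul_le_of_le_one_right (by positivity) ((div_le_one L0).2 l4)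
  have fin : K * |∑ w ∈ bx g k, F w| ≤ K * (B * vol g k / L ^ A) := by
    have a := abs_le.1 (sh1.trans t1)
    have b := abs_le.1 (fb.trans t2)
    rw [← abs_of_pos K0, ← abs_mul, abs_of_pos K0]
    exact abs_le.2 ⟨by linarith [a.1, a.2, b.1, b.2], by linarith [a.1, a.2, b.1, b.2]⟩
  have := le_of_mul_le_mul_left fin K0
  rwa [hF] at this

end Pool.Agent.MP_a43263_nt.K2
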