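import Pool.Agent.MP_a43263_nt.K2.SpecC

/-! THEOREM R2, row MUL: multiplicities of the values. -/

set_option autoImplicit false

noncomputable section

namespace Pool.Agent.MP_a43263_nt.K2

open Finset Filter

namespace MulA

theorem sum_xp (g : ℕ) : ∑ i : Fin (2 * g + 1), xp g i.1 = (2 * g + 1) ^ 2 := by
  have h : ∀ m : ℕ, ∑ i ∈ range m, 2 * (i + 1) = m * (m + 1) := by
    intro m
    induction m with
    | zero => simp
    | succ m ih => rw [sum_range_succ, ih]; ring
  rw [Fin.sum_univ_eq_sum_range (fun i => xp g i), sum_range_succ,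
    sum_congr rfl (g := fun i => 2 * (i + 1)) (fun i hi => by
      have := mem_range.1 hi
      simp only [xp]; rw [if_neg (by omega)]), h]
  simp only [xp, if_true]
  ring

open Classical in
/-- counting along the fibres over the coordinates outside `J` -/
theorem fib {g k : ℕ} (hk : 1 ≤ k) (J : Finset (Fin (2 * g + 1))) (P : Vec g → Prop) (M : ℕ)
    (h : ∀ w₀ ∈ bx g k, P w₀ → ∀ s : Finset (Vec g),
      (∀ w ∈ s, w ∈ bx g k ∧ P w ∧ ∀ i ∉ J, w i = w₀ i) → s.card ≤ M) :
    cnt g k P * ∏ i ∈ J, (k : ℝ) ^ xp g i.1 ≤ M * (3 ^ (2 * g + 1) * vol g k) := by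
  set t : Finset (Vec g) := Fintype.piFinset fun i => if i ∈ J then {0} else
    Icc (ce g k i.1 - (k : ℤ) ^ xp g i.1) (ce g k i.1 + (k : ℤ) ^ xp g i.1) with ht
  have h1 : ((bx g k).filter P).card ≤ M * t.card := by
    refine card_le_mul_card_image_of_maps_to (f := fun w i => if i ∈ J then 0 else w i)
      (fun w hw => ?_) M fun a _ => ?_
    · rw [ht, Fintype.mem_piFinset]
      intro i
      by_cases e : i ∈ J
      · simp [e]
      · simp only [e, if_false]
        exact mem_Icc.2 (mem_bx.1 (mem_filter.1 hw).1 i)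
    · rcases (((bx g k).filter P).filter
          fun w => (fun i => if i ∈ J then 0 else w i) = a).eq_empty_or_nonempty with e | ⟨w₀, e⟩
      · rw [e]; simp
      · obtain ⟨e1, e2⟩ := mem_filter.1 e
        refine h w₀ (mem_filter.1 e1).1 (mem_filter.1 e1).2 _ fun w hw => ?_
        obtain ⟨f1, f2⟩ := mem_filter.1 hw
        refine ⟨(mem_filter.1 f1).1, (mem_filter.1 f1).2, fun i hi => ?_⟩
        have := congrFun (f2.trans e2.symm) i
        simpa [hi] using this
  have hk' : (1 : ℝ) ≤ k := by exact_mod_cast hk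
  have h2 : (t.card : ℝ) * ∏ i ∈ J, (k : ℝ) ^ xp g i.1 ≤ 3 ^ (2 * g + 1) * vol g k := by
    have h0 : (3 : ℝ) ^ (2 * g + 1) = ∏ _i : Fin (2 * g + 1), 3 := by simp
    rw [ht, Fintype.card_piFinset, Nat.cast_prod, ← Fintype.prod_ite_mem J, ← prod_mul_distrib,
      vol, ← sum_xp, ← prod_pow_eq_pow_sum, h0, ← prod_mul_distrib]
    refine prod_le_prod (fun i _ => by positivity) fun i _ => ?_
    have h3 : (1 : ℝ) ≤ (k : ℝ) ^ xp g i.1 := one_le_pow₀ hk'
    by_cases e : i ∈ J
    · simp only [e, if_true, card_singleton, Nat.cast_one]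
      linarith
    · simp only [e, if_false, Int.card_Icc, mul_one]
      have : ce g k i.1 + (k : ℤ) ^ xp g i.1 + 1 - (ce g k i.1 - (k : ℤ) ^ xp g i.1) =
          ((2 * k ^ xp g i.1 + 1 : ℕ) : ℤ) := by push_cast; ring
      rw [this, Int.toNat_natCast]
      push_cast
      linarith
  rw [cnt_eq_card]
  have h4 : (((bx g k).filter P).card : ℝ) ≤ M * t.card := by exact_mod_cast h1
  calc _ ≤ (M * t.card : ℝ) * ∏ i ∈ J, (k : ℝ) ^ xp g i.1 := by gcongr
    _ ≤ _ := by rw [mul_assoc]; gcongr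

/-- the last but one index -/
def ic (g : ℕ) : Fin (2 * g + 1) := ⟨2 * g - 1, by omega⟩

theorem diff {g : ℕ} (hg : 1 ≤ g) (w w' : Vec g) (u v : ℤ)
    (h : ∀ i, i ≠ ic g → i ≠ Fin.last _ → w i = w' i) :
    Gv w u v - Gv w' u v = (w (Fin.last _) ^ 2 - w' (Fin.last _) ^ 2) * v ^ (4 * g + 2) -
      (w (ic g) - w' (ic g)) * u ^ 2 * v ^ (4 * g) := by
  have hne : ic g ≠ Fin.last _ := fun e => by
    have := congrArg Fin.val e
    simp only [ic, Fin.val_last] at this
    omega
  rw [Gv, Gv, add_sub_add_left_eq_sub, ← sum_sub_distrib,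
    Fintype.sum_eq_add (ic g) (Fin.last _) hne fun i hi => by simp only [sv, h i hi.1 hi.2, sub_self]]
  have e1 : 2 * g - (2 * g - 1) = 1 := by omega
  have e2 : 2 * g - 1 + 1 = 2 * g := by omega
  have e3 : ¬(2 * g - 1 = 2 * g) := by omega
  simp only [sv, ic, Fin.val_last, if_true, e1, e2, e3, if_false, Nat.sub_self]
  ring

/-- a residue class in an interval -/
theorem cls (lo r : ℤ) (D p : ℕ) (hp : 0 < p) :
    ((Icc lo (lo + D)).filter fun m => (p : ℤ) ∣ m - r).card ≤ D / p + 1 := by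
  have hp' : (0 : ℤ) < p := by exact_mod_cast hp
  have : D / p + 1 = (Icc (0 : ℤ) ((D / p : ℕ) : ℤ)).card := by
    rw [Int.card_Icc, sub_zero]
    exact (Int.toNat_natCast (D / p + 1)).symm
  rw [this]
  refine card_le_card_of_injOn (fun m => (m - lo) / p) (fun m hm => ?_) fun m hm m' hm' e => ?_
  · obtain ⟨h1, h2⟩ := mem_Icc.1 (mem_filter.1 hm).1
    refine mem_coe.2 (mem_Icc.2 ⟨Int.ediv_nonneg (by omega) hp'.le, ?_⟩)
    rw [Int.natCast_div]
    exact Int.ediv_le_ediv hp' (by omega)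
  · have h1 : (p : ℤ) ∣ (m' - lo) - (m - lo) := by
      have := dvd_sub (mem_filter.1 hm').2 (mem_filter.1 hm).2
      rwa [sub_sub_sub_cancel_right, ← sub_sub_sub_cancel_right _ _ lo] at this
    have h2 : (m - lo) % p = (m' - lo) % p := (Int.modEq_iff_dvd.2 h1 :)
    have h3 := Int.mul_ediv_add_emod (m - lo) p
    have h4 := Int.mul_ediv_add_emod (m' - lo) p
    simp only at e
    rw [e, h2] at h3
    omega

theorem last_mem {g k : ℕ} {w : Vec g} (h : w ∈ bx g k) :
    6 * (k : ℤ) ^ (2 * g + 1) ≤ w (Fin.last _) ∧ w (Fin.last _) ≤ 8 * (k : ℤ) ^ (2 * g + 1) := by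
  have := mem_bx.1 h (Fin.last _)
  simp only [ce, xp, Fin.val_last, or_true, if_true] at this
  constructor <;> linarith [this.1, this.2]

theorem xp_ic {g : ℕ} (hg : 1 ≤ g) : xp g (ic g).1 = 4 * g := by
  change xp g (2 * g - 1) = _
  rw [xp, if_neg (by omega)]
  omega

theorem near {g k : ℕ} (hg : 1 ≤ g) (hk : 1 ≤ k) {w w' : Vec g} (h : w ∈ bx g k)
    (h' : w' ∈ bx g k) {u v : ℤ} (hv : 1 ≤ v)
    (e : (w (Fin.last _) ^ 2 - w' (Fin.last _) ^ 2) * v ^ (4 * g + 2) =
      (w (ic g) - w' (ic g)) * u ^ 2 * v ^ (4 * g)) :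
    w (Fin.last _) - w' (Fin.last _) ≤ (k : ℤ) ^ (2 * g - 1) * u ^ 2 := by
  have a := last_mem h
  have a' := last_mem h'
  have b := mem_bx.1 h (ic g)
  have b' := mem_bx.1 h' (ic g)
  rw [xp_ic hg] at b b'
  have hk' : (0 : ℤ) < k := by exact_mod_cast hk
  have e1 : (w (Fin.last _) ^ 2 - w' (Fin.last _) ^ 2) * v ^ 2 =
      (w (ic g) - w' (ic g)) * u ^ 2 := by
    refine mul_right_cancel₀ (pow_ne_zero (4 * g) (by omega : v ≠ 0)) ?_
    rw [← e]; ring
  have e2 : (k : ℤ) ^ (4 * g) = (k : ℤ) ^ (2 * g - 1) * (k : ℤ) ^ (2 * g + 1) := by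
    rw [← pow_add]; congr 1; omega
  have p1 : 0 < (k : ℤ) ^ (2 * g + 1) := by positivity
  have p2 : 0 < (k : ℤ) ^ (2 * g - 1) := by positivity
  generalize w (Fin.last _) = m at *
  generalize w' (Fin.last _) = m' at *
  generalize (k : ℤ) ^ (2 * g + 1) = A at *
  generalize (k : ℤ) ^ (2 * g - 1) = B at *
  by_contra hc
  push Not at hc
  have q0 : 0 ≤ B * u ^ 2 := by positivity
  have q1 : (w (ic g) - w' (ic g)) * u ^ 2 ≤ 2 * (B * A) * u ^ 2 :=
    mul_le_mul_of_nonneg_right (by linarith [b.2, b'.1]) (sq_nonneg u)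
  have q2 : (m - m') * (12 * A) ≤ (m - m') * (m + m') :=
    mul_le_mul_of_nonneg_left (by linarith [a.1, a'.1]) (by linarith)
  have q3 : (m - m') * (m + m') * 1 ≤ (m - m') * (m + m') * v ^ 2 :=
    mul_le_mul_of_nonneg_left (one_le_pow₀ hv) (mul_nonneg (by linarith) (by linarith [a.1, a'.1]))
  have q4 : B * u ^ 2 * (12 * A) < (m - m') * (12 * A) := mul_lt_mul_of_pos_right hc (by linarith)
  have q5 : 0 ≤ B * u ^ 2 * A := by positivity
  nlinarith

end MulA

open MulA in
theorem mul_k : MULStmt := by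
  classical
  intro g hg
  refine ⟨6 * 3 ^ (2 * g + 1), by positivity, fun k u v hk hu hv => ⟨fun y => ?_, ?_⟩⟩
  · have hne : ic g ≠ Fin.last _ := fun e => by
      have := congrArg Fin.val e
      simp only [ic, Fin.val_last] at this
      omega
    have hu' : (1 : ℤ) ≤ u := by exact_mod_cast hu
    have hv' : (1 : ℤ) ≤ v := by exact_mod_cast hv
    have key := fib hk {ic g, Fin.last _} (fun w => Gv w u v = y) (3 * (k ^ (2 * g - 1) * u ^ 2))
      fun w₀ h₀ e₀ s hs => by
      have hD : 1 ≤ k ^ (2 * g - 1) * u ^ 2 := Nat.succ_le_of_lt (by positivity)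
      have ag : ∀ w w' : Vec g, (∀ i ∉ ({ic g, Fin.last _} : Finset _), w i = w₀ i) →
          (∀ i ∉ ({ic g, Fin.last _} : Finset _), w' i = w₀ i) → Gv w u v = y → Gv w' u v = y →
          (w (Fin.last _) ^ 2 - w' (Fin.last _) ^ 2) * (v : ℤ) ^ (4 * g + 2) =
            (w (ic g) - w' (ic g)) * (u : ℤ) ^ 2 * (v : ℤ) ^ (4 * g) := fun w w' a a' b b' => by
        have := diff hg w w' u v fun i h1 h2 => by
          rw [a i (by simp [h1, h2]), a' i (by simp [h1, h2])]
        rw [b, b', sub_self] at this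
        linarith
      refine le_trans (card_le_card_of_injOn (fun w => w (Fin.last _))
        (t := Icc (w₀ (Fin.last _) - ((k ^ (2 * g - 1) * u ^ 2 : ℕ) : ℤ))
          (w₀ (Fin.last _) + ((k ^ (2 * g - 1) * u ^ 2 : ℕ) : ℤ))) (fun w hw => ?_)
        fun w hw w' hw' e => ?_) ?_
      · obtain ⟨h1, h2, h3⟩ := hs w hw
        have n1 := near hg hk h1 h₀ hv' (ag w w₀ h3 (fun _ _ => rfl) h2 e₀)
        have n2 := near hg hk h₀ h1 hv' (ag w₀ w (fun _ _ => rfl) h3 e₀ h2)
        refine mem_coe.2 (mem_Icc.2 ?_)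
        push_cast
        constructor <;> linarith
      · obtain ⟨-, h2, h3⟩ := hs w hw
        obtain ⟨-, h2', h3'⟩ := hs w' hw'
        have e' : w (Fin.last _) = w' (Fin.last _) := e
        have := ag w w' h3 h3' h2 h2'
        rw [e', sub_self, zero_mul] at this
        have e'' : w (ic g) = w' (ic g) := by
          have := (mul_eq_zero.1 ((mul_eq_zero.1 this.symm).resolve_right
            (by positivity))).resolve_right (by positivity)
          linarith
        funext i
        by_cases c1 : i = ic g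
        · rw [c1, e'']
        by_cases c2 : i = Fin.last _
        · rw [c2, e']
        rw [h3 i (by simp [c1, c2]), h3' i (by simp [c1, c2])]
      · rw [Int.card_Icc]
        omega
    rw [prod_pair hne, xp_ic hg] at key
    simp only [xp, Fin.val_last, if_true] at key
    have hk' : (0 : ℝ) < k := by exact_mod_cast hk
    have e2 : (k : ℝ) ^ (4 * g) * (k : ℝ) ^ (2 * g + 1) =
        (k : ℝ) ^ (4 * g + 2) * (k : ℝ) ^ (2 * g - 1) := by
      rw [← pow_add, ← pow_add]; congr 1; omega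
    rw [e2] at key
    push_cast at key
    have p2 : 0 < (k : ℝ) ^ (2 * g - 1) := by positivity
    have p3 : 0 ≤ (u : ℝ) ^ 2 * (3 ^ (2 * g + 1) * vol g k) := by unfold vol; positivity
    have : cnt g k (fun w => Gv w u v = y) * (k : ℝ) ^ (4 * g + 2) ≤
        3 * ((u : ℝ) ^ 2 * (3 ^ (2 * g + 1) * vol g k)) :=
      le_of_mul_le_mul_right (by linarith) p2
    linarith
  · intro p hp hpk hpv
    have hp' : Prime (p : ℤ) := Nat.prime_iff_prime_int.1 hp
    have key := fib hk {Fin.last _} (fun w => (p : ℤ) ∣ Gv w u v)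
      (2 * (2 * k ^ (2 * g + 1) / p + 1)) fun w₀ h₀ e₀ s hs => by
      set I := Icc (6 * (k : ℤ) ^ (2 * g + 1))
        (6 * (k : ℤ) ^ (2 * g + 1) + ((2 * k ^ (2 * g + 1) : ℕ) : ℤ)) with hI
      refine le_trans (card_le_card_of_injOn (fun w => w (Fin.last _))
        (t := (I.filter fun m => (p : ℤ) ∣ m - w₀ (Fin.last _)) ∪
          I.filter fun m => (p : ℤ) ∣ m - -w₀ (Fin.last _)) (fun w hw => ?_)
        fun w hw w' hw' e => ?_) ?_
      · obtain ⟨h1, h2, h3⟩ := hs w hw
        have a := last_mem h1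
        have hm : w (Fin.last _) ∈ I := by
          rw [hI, mem_Icc]
          push_cast
          constructor <;> linarith [a.1, a.2]
        have d := dvd_sub h2 e₀
        have hne : ic g ≠ Fin.last _ := fun e => by
          have := congrArg Fin.val e
          simp only [ic, Fin.val_last] at this
          omega
        rw [diff hg w w₀ u v fun i _ h2 => h3 i (by simp [h2]), h3 (ic g) (by simp [hne]), sub_self,
          zero_mul, zero_mul, sub_zero, sq_sub_sq] at d
        have d' := (hp'.dvd_or_dvd d).resolve_right fun x =>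
          hpv (Int.natCast_dvd_natCast.1 (hp'.dvd_of_dvd_pow x))
        refine mem_coe.2 (mem_union.2 ?_)
        rcases hp'.dvd_or_dvd d' with x | x
        · exact Or.inr (mem_filter.2 ⟨hm, by rwa [sub_neg_eq_add]⟩)
        · exact Or.inl (mem_filter.2 ⟨hm, x⟩)
      · obtain ⟨-, -, h3⟩ := hs w hw
        obtain ⟨-, -, h3'⟩ := hs w' hw'
        funext i
        by_cases c2 : i = Fin.last _
        · rw [c2]; exact e
        rw [h3 i (by simp [c2]), h3' i (by simp [c2])]
      · refine (card_union_le _ _).trans ?_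
        rw [two_mul (_ + 1)]
        exact add_le_add (cls _ _ _ _ hp.pos) (cls _ _ _ _ hp.pos)
    rw [prod_singleton] at key
    simp only [xp, Fin.val_last, if_true] at key
    have hk' : (0 : ℝ) < k := by exact_mod_cast hk
    have hp0 : (0 : ℝ) < p := by exact_mod_cast hp.pos
    have n1 : 2 * (2 * k ^ (2 * g + 1) / p + 1) * p ≤ 6 * k ^ (2 * g + 1) := by
      have a := Nat.div_mul_le_self (2 * k ^ (2 * g + 1)) p
      have b : k ≤ k ^ (2 * g + 1) := Nat.le_self_pow (by omega) k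
      nlinarith
    have n2 : ((2 * (2 * k ^ (2 * g + 1) / p + 1) : ℕ) : ℝ) * p ≤ 6 * (k : ℝ) ^ (2 * g + 1) := by
      exact_mod_cast n1
    have p2 : 0 < (k : ℝ) ^ (2 * g + 1) := by positivity
    have p3 : 0 ≤ 3 ^ (2 * g + 1) * vol g k := by unfold vol; positivity
    rw [le_div_iff₀ hp0]
    refine le_of_mul_le_mul_right ?_ p2
    have q1 := mul_le_mul_of_nonneg_right key hp0.le
    have q2 := mul_le_mul_of_nonneg_right n2 p3
    linarith

end Pool.Agent.MP_a43263_nt.K2
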