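import Pool.Agent.MP_a43263_nt.K2.Spec

/-! THEOREM R2, rows NS and IND: nonsquares from a simple root. -/

set_option autoImplicit false

noncomputable section

namespace Pool.Agent.MP_a43263_nt.K2

open Polynomial Finset Filter Matrix JC Pool.Agent.MP_a43263_nt.UV

namespace NsA

theorem rq_at {p : ℕ} [Fact p.Prime] (r : ℤ_[p][X]) {a : ℤ_[p]} (ha : PadicInt.toZMod a = 1) :
    (rq p r).eval 1 = PadicInt.toZMod (r.eval a) := by
  rw [← ha, eval_map, eval₂_at_apply]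

theorem of_sq {K : Type} [Field K] {c x : K} (hc : c ≠ 0) (h : IsSquare (c ^ 2 * x)) :
    IsSquare x := by
  obtain ⟨y, hy⟩ := h
  refine ⟨y / c, ?_⟩
  field_simp
  linear_combination hy

theorem el_map (u v : ℤ) (R : Type) [CommRing R] :
    zK (el u v) R = C ((v : R) ^ 2) * (X - 1) + C ((u : R) ^ 2) := by
  simp [zK, el]

theorem be_one (u v G : ℤ) (R : Type) [CommRing R] :
    (zK (be u v G) R).eval 1 = -(G : R) * (u : R) ^ 2 := by
  simp [zK, be, el]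

theorem nm_red {g : ℕ} {f : ℤ[X]} (hz : Zq g f) {u v G : ℤ} (h : Nm f (-el u v) = G) (R : Type)
    [CommRing R] : (G : R) = Nm (zK f R) (-(C ((v : R) ^ 2) * (X - 1) + C ((u : R) ^ 2))) := by
  rw [← el_map, ← Polynomial.map_neg, (gram.1 ℤ f hz.monic).2.2.2.2.2, h]
  rfl

end NsA

open NsA in
theorem ns_k : NSStmt := by
  intro p _ g f P h₀ m j h2 Z e hi hm hs ⟨z, y, hy⟩
  have hd : h₀.natDegree = 2 * g := by
    have e1 := Z.dg (ZMod p)
    rw [e, ← C_1, natDegree_mul (X_sub_C_ne_zero 1) hi.ne_zero, natDegree_X_sub_C] at e1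
    omega
  have hne : h₀.eval 1 ≠ 0 := fun c => by
    have e1 := degree_eq_one_of_irreducible_of_root hi c
    have e2 : h₀.natDegree = 1 := natDegree_eq_of_degree_eq_some e1
    have := Z.pos
    omega
  have hm0 : m ≠ 0 := fun c => by
    have e0 : (zK f ℚ).IsRoot 1 := by
      have : (zK f ℚ).eval ((Int.castRingHom ℚ) 1) = (Int.castRingHom ℚ) (f.eval 1) := by
        rw [eval_map, eval₂_at_apply]
      rw [hm, c] at this
      simpa using this
    have e1 := degree_eq_one_of_irreducible_of_root Z.irr e0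
    have e2 : (zK f ℚ).natDegree = 1 := natDegree_eq_of_degree_eq_some e1
    have := Z.pos
    have := Z.dg ℚ
    omega
  have rz : ∀ Q : ℤ[X], rq p (zK Q ℤ_[p]) = zK Q (ZMod p) := fun Q => zK_map Q _
  have a1 : ‖(zK f ℤ_[p]).eval 1‖ < 1 := by
    rw [← Cmp.zero_iff, ← rq_at _ (map_one _), rz, e]
    simp
  have a2 : ‖(zK f ℤ_[p]).derivative.eval 1‖ = 1 := by
    rw [← PadicInt.isUnit_iff, Cmp.unit_iff, ← rq_at _ (map_one _), rq, ← derivative_map, ← rq,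
      rz, e]
    simpa using hne
  obtain ⟨a, b1, b2, -⟩ := hensels_lemma (F := zK f ℤ_[p]) (a := (1 : ℤ_[p]))
    (by rw [coe_aeval_eq_eval, a2, one_pow]; exact a1)
  rw [coe_aeval_eq_eval] at b1 b2
  rw [a2, ← Cmp.zero_iff, map_sub, map_one, sub_eq_zero] at b2
  obtain ⟨h, hh⟩ := (dvd_iff_isRoot (p := zK f ℤ_[p]) (a := a)).2 b1
  have e2 : rq p h = h₀ := by
    rw [← rz, hh, rq, Polynomial.map_mul, Polynomial.map_sub, map_X, map_C, b2] at e
    exact mul_left_cancel₀ (X_sub_C_ne_zero 1) e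
  have e3 : (m : ℤ_[p]) ^ 2 = (1 - a) * h.eval 1 := by
    have : (zK f ℤ_[p]).eval ((Int.castRingHom ℤ_[p]) 1) = (Int.castRingHom ℤ_[p]) (f.eval 1) := by
      rw [eval_map, eval₂_at_apply]
    rw [hm, hh] at this
    simpa using this.symm
  have e4 : PadicInt.toZMod ((zK P ℤ_[p]).eval a * h.eval 1 ^ j) =
      (zK P (ZMod p)).eval 1 * h₀.eval 1 ^ j := by
    rw [map_mul, map_pow, ← rq_at _ b2, ← rq_at _ (map_one _), rz, e2]
  have hu : IsUnit ((zK P ℤ_[p]).eval a * h.eval 1 ^ j) :=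
    Cmp.unit_iff.2 fun c => hs (by rw [← e4, c]; exact IsSquare.zero)
  refine hs (e4 ▸ (Pad.sq_iff h2 _ hu).1 ?_)
  have iz : ∀ Q : ℤ[X], (fK (zK Q ℚ) ℚ_[p]).eval (a : ℚ_[p]) =
      (((zK Q ℤ_[p]).eval a : ℤ_[p]) : ℚ_[p]) := fun Q => by
    rw [fK_zK, ← Cmp.iq_eval, iq, zK_map]
  have e5 := congrArg (fun Q => (fK Q ℚ_[p]).eval (a : ℚ_[p])) hy
  simp only [fK, Polynomial.map_sub, Polynomial.map_mul, Polynomial.map_pow, Polynomial.map_one,
    map_X, eval_sub, eval_mul, eval_pow, eval_one, eval_X] at e5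
  rw [iz P, iz f, b1, PadicInt.coe_zero, zero_mul, sub_eq_zero] at e5
  have e6 : (m : ℚ_[p]) ^ 2 = (1 - (a : ℚ_[p])) * ((h.eval 1 : ℤ_[p]) : ℚ_[p]) := by
    exact_mod_cast congrArg (fun x : ℤ_[p] => (x : ℚ_[p])) e3
  refine of_sq (c := (m : ℚ_[p]) ^ j) (pow_ne_zero _ (Int.cast_ne_zero.2 hm0))
    ⟨(z.map (Rat.castHom ℚ_[p])).eval (a : ℚ_[p]) * ((h.eval 1 : ℤ_[p]) : ℚ_[p]) ^ j, ?_⟩
  rw [← pow_mul, mul_comm j, pow_mul, e6, mul_pow, PadicInt.coe_mul, PadicInt.coe_pow]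
  linear_combination (((h.eval 1 : ℤ_[p]) : ℚ_[p]) ^ j) ^ 2 * e5

open NsA in
theorem ind_k : NSStmt → INDStmt := by
  intro ns g f m Z hm ⟨h₃, e₃, i₃, s₃⟩
  have : Fact (Nat.Prime 5) := ⟨by norm_num⟩
  refine ⟨by simpa using ns 3 g f 1 h₃ m 1 (by norm_num) Z e₃ i₃ hm (by simpa using s₃),
    fun u v G hG ⟨h₅, e₅, i₅, s₅⟩ v3 u3 v5 uv => ⟨?_, ?_⟩⟩
  · have hv : (v : ZMod 5) ≠ 0 := fun c => v5 ((ZMod.intCast_zmod_eq_zero_iff_dvd v 5).1 c)
    have huv : (u : ZMod 5) = v := by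
      have := (ZMod.intCast_zmod_eq_zero_iff_dvd (u - v) 5).2 uv
      rwa [Int.cast_sub, sub_eq_zero] at this
    obtain ⟨n1, -, n3, -⟩ := gram.1 (ZMod 5) _ (Z.mo _)
    have hX : Nm (zK f (ZMod 5)) X = h₅.eval 0 := by
      have := resultant_X_sub_C_right (zK f (ZMod 5)) _ 0 le_rfl
      rw [C_0, sub_zero] at this
      rw [Nm, natDegree_X, this, Z.dg, e₅, pow_succ, pow_mul]
      simp
    have hG' := nm_red Z hG (ZMod 5)
    rw [huv, show -(C ((v : ZMod 5) ^ 2) * (X - 1) + C ((v : ZMod 5) ^ 2)) =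
      C (-(v : ZMod 5) ^ 2) * X by rw [C_neg]; ring, n1, n3, hX, Z.dg] at hG'
    simpa using ns 5 g f (be u v G) h₅ m 0 (by norm_num) Z e₅ i₅ hm fun c => s₅ (by
      refine of_sq (c := (v : ZMod 5) ^ (2 * g + 2)) (pow_ne_zero _ hv) ?_
      rw [be_one, hG', huv, (odd_two_mul_add_one g).neg_pow] at c
      convert c using 1
      ring)
  · have hv : (v : ZMod 3) = 0 := (ZMod.intCast_zmod_eq_zero_iff_dvd v 3).2 v3
    have hu : (u : ZMod 3) ≠ 0 := fun c => u3 ((ZMod.intCast_zmod_eq_zero_iff_dvd u 3).1 c)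
    obtain ⟨-, -, n3, -⟩ := gram.1 (ZMod 3) _ (Z.mo _)
    have hG' := nm_red Z hG (ZMod 3)
    rw [hv, zero_pow two_ne_zero, C_0, zero_mul, zero_add, ← C_neg, n3, Z.dg] at hG'
    simpa using ns 3 g f (be u v G) h₃ m 1 (by norm_num) Z e₃ i₃ hm fun c => s₃ (by
      refine of_sq (c := (u : ZMod 3) ^ (2 * g + 2)) (pow_ne_zero _ hu) ?_
      rw [be_one, hG', (odd_two_mul_add_one g).neg_pow] at c
      convert c using 1
      ring)

end Pool.Agent.MP_a43263_nt.K2
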