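import Pool.Agent.MP_a43263_nt.K2.SpecC

/-! THEOREM R2: the parameters of the points. -/

set_option autoImplicit false

noncomputable section

namespace Pool.Agent.MP_a43263_nt.K2

open Finset Filter

namespace ParA

theorem ex {N : ℕ} (a : ℕ) (hN : 0 < N) (h6 : N.Coprime 6) {k : ℕ} (hk : nl k ≠ 0) :
    ∃ v u₀, Par N a k v u₀ := by
  obtain ⟨P, hP⟩ : ∃ P, P = (range (zz k + 1)).filter fun p => p.Prime ∧ ¬p ∣ N := ⟨_, rfl⟩
  have mem : ∀ p, p ∈ P ↔ p ≤ zz k ∧ p.Prime ∧ ¬p ∣ N := fun p => by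
    rw [hP, mem_filter, mem_range, Nat.lt_succ_iff]
  have pos : 0 < 24 * ∏ p ∈ P, p := Nat.mul_pos (by norm_num) (prod_pos fun p hp => ((mem p).1 hp).2.1.pos)
  have cop : (24 * ∏ p ∈ P, p).Coprime N := Nat.Coprime.mul_left
    ((h6.symm.pow_left 3).coprime_dvd_left (by norm_num))
    (Nat.Coprime.prod_left fun p hp => (((mem p).1 hp).2.1.coprime_iff_not_dvd).2 ((mem p).1 hp).2.2)
  have le : ∏ p ∈ P, p ≤ nl k ^ 2 := by
    refine (prod_le_prod_of_subset_of_one_le' (t := (range (zz k + 1)).filter Nat.Prime)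
      (fun p hp => mem_filter.2 ⟨mem_range.2 (Nat.lt_succ_of_le ((mem p).1 hp).1), ((mem p).1 hp).2.1⟩)
      fun p hp _ => (mem_filter.1 hp).2.one_le).trans ((primorial_le_four_pow (zz k)).trans ?_)
    rw [show 4 = 2 ^ 2 from rfl, ← pow_mul, mul_comm, pow_mul]
    exact Nat.pow_le_pow_left (Nat.pow_log_le_self 2 hk) 2
  have c2 := cop.pow_right 2
  refine ⟨_, Nat.chineseRemainder c2 1 (a * (24 * ∏ p ∈ P, p)), dvd_mul_right _ _, pos, cop,
    fun p hp hz => ?_, Nat.mul_le_mul_left _ le,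
    Nat.chineseRemainder_lt_mul c2 _ _ pos.ne' (by positivity),
    (Nat.chineseRemainder c2 _ _).2.1, (Nat.chineseRemainder c2 _ _).2.2⟩
  by_cases e : p ∣ N
  · exact e.mul_left _
  · exact ((dvd_prod_of_mem _ ((mem p).2 ⟨hz, hp, e⟩)).mul_left _).mul_right _

end ParA

theorem par_k : PARStmt := by
  intro N a hN h6
  filter_upwards [ev_le_log (24 * (N : ℝ) ^ 2)] with k hk
  have n1 : (1 : ℝ) ≤ (N : ℝ) ^ 2 := one_le_pow₀ (by exact_mod_cast hN)
  have l1 : 1 ≤ Real.log k := by linarith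
  have l2 := nl_le k
  have n0 : nl k ≠ 0 := fun e => by
    have := le_nl l1
    rw [e, Nat.cast_zero] at this
    nlinarith
  refine ⟨ParA.ex a hN h6 n0, fun v u₀ h => ?_⟩
  have top : ((v * N ^ 2 * nl k : ℕ) : ℝ) ≤ Real.log k ^ 7 := by
    have a1 : (v : ℝ) ≤ 24 * (nl k : ℝ) ^ 2 := by exact_mod_cast h.le
    calc ((v * N ^ 2 * nl k : ℕ) : ℝ) = v * (N : ℝ) ^ 2 * nl k := by push_cast; rfl
      _ ≤ 24 * (nl k : ℝ) ^ 2 * (N : ℝ) ^ 2 * nl k := by gcongr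
      _ = 24 * (N : ℝ) ^ 2 * (nl k : ℝ) ^ 3 := by ring
      _ ≤ Real.log k * (Real.log k ^ 2) ^ 3 := by gcongr
      _ = Real.log k ^ 7 := by ring
  refine ⟨⟨h.pos, le_trans ?_ top⟩, fun j hj => ?_⟩
  · exact_mod_cast (Nat.le_mul_of_pos_right v (by positivity)).trans
      (Nat.le_mul_of_pos_right _ (Nat.pos_of_ne_zero n0))
  have one : pt N v u₀ j ≡ 1 [MOD v] := by
    rw [pt, mul_assoc]
    exact (Nat.ModEq.add h.one (Nat.modEq_zero_iff_dvd.2 (dvd_mul_right _ _)))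
  have cop : (pt N v u₀ j).Coprime v := Nat.coprime_of_mul_modEq_one 1 (by rwa [mul_one])
  refine ⟨⟨Nat.pos_of_ne_zero fun e => ?_, le_trans ?_ top⟩, cop, ?_⟩
  · have := h.dv
    rw [e, Nat.coprime_zero_left] at cop
    omega
  · have a1 := h.lt
    have a2 := Nat.mul_le_mul_left (v * N ^ 2) (mem_range.1 hj)
    exact_mod_cast (show pt N v u₀ j ≤ v * N ^ 2 * nl k by
      rw [pt]
      rw [Nat.succ_eq_add_one, mul_add, mul_one] at a2
      omega)
  · exact Nat.ModEq.add h.cls (Nat.modEq_zero_iff_dvd.2 ((dvd_mul_left _ _).mul_right _))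

end Pool.Agent.MP_a43263_nt.K2
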