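import Pool.Agent.MP_a43263_nt.K2.SpecC

/-! THEOREM R2: the singular series. -/

set_option autoImplicit false

noncomputable section

namespace Pool.Agent.MP_a43263_nt.K2

open Finset Filter

namespace PhiA

def wt (p : ℕ) : ℝ := 1 / ((p : ℝ) - 1)

theorem wt_nonneg {p : ℕ} (h : 1 ≤ p) : 0 ≤ wt p :=
  one_div_nonneg.2 (sub_nonneg.2 (by exact_mod_cast h))

theorem ph_eq {q : ℕ} (h : 0 < q) : ph q = ∏ p ∈ q.primeFactors, (1 + wt p) := by
  have e : (q.totient : ℝ) = q * ∏ p ∈ q.primeFactors, (1 - (p : ℝ)⁻¹) := by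
    have := congrArg (fun x : ℚ => (x : ℝ)) (Nat.totient_eq_mul_prod_factors q)
    simpa using this
  have h0 : (q : ℝ) ≠ 0 := by exact_mod_cast h.ne'
  rw [ph, e, div_mul_cancel_left₀ h0, ← prod_inv_distrib]
  refine prod_congr rfl fun p hp => ?_
  have h2 : (2 : ℝ) ≤ p := by exact_mod_cast (Nat.prime_of_mem_primeFactors hp).two_le
  have h3 : (p : ℝ) - 1 ≠ 0 := (by linarith : (0 : ℝ) < p - 1).ne'
  have h4 : (p : ℝ) ≠ 0 := (by linarith : (0 : ℝ) < p).ne'
  rw [wt]
  field_simp
  ring

theorem one_le {q : ℕ} (h : 0 < q) : 1 ≤ ph q := by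
  rw [ph, one_le_div (by exact_mod_cast Nat.totient_pos.2 h)]
  exact_mod_cast Nat.totient_le q

/-- the number of large prime factors -/
theorem card_le {C M z q : ℕ} (hz : 2 ^ M ≤ z) (h : 0 < q) (hq : q ≤ 2 ^ (C * z)) :
    M * (q.primeFactors.filter fun p => z < p).card ≤ C * z := by
  have h1 : z ^ (q.primeFactors.filter fun p => z < p).card ≤
      ∏ p ∈ q.primeFactors.filter (fun p => z < p), p :=
    pow_card_le_prod _ _ _ fun p hp => (mem_filter.1 hp).2.le
  have h2 : ∏ p ∈ q.primeFactors.filter (fun p => z < p), p ≤ q :=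
    Nat.le_of_dvd h ((prod_dvd_prod_of_subset _ _ _ (filter_subset _ _)).trans
      (Nat.prod_primeFactors_dvd q))
  refine (Nat.pow_le_pow_iff_right (a := 2) one_lt_two).1 ?_
  rw [pow_mul]
  exact (Nat.pow_le_pow_left hz _).trans (h1.trans (h2.trans hq))

theorem wt_le {z p : ℕ} (hz : 0 < z) (h : z < p) : wt p ≤ 1 / z := by
  have : (z : ℝ) + 1 ≤ p := by exact_mod_cast h
  exact one_div_le_one_div_of_le (by exact_mod_cast hz) (by linarith)

end PhiA

open PhiA in
theorem phi_k : PHIStmt := by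
  refine ⟨fun q h => one_le h, fun C η hη => ?_⟩
  have hl : 0 < Real.log (1 + η) := Real.log_pos (by linarith)
  have hl' : Real.log (1 + η) ≤ η := by
    have := Real.log_le_sub_one_of_pos (show 0 < 1 + η by linarith)
    linarith
  obtain ⟨M, hM⟩ := exists_nat_gt (C / Real.log (1 + η))
  have M0 : (0 : ℝ) < M := lt_of_le_of_lt (by positivity) hM
  filter_upwards [eventually_ge_atTop (2 ^ M)] with z hz q q₁ h hq hs h₁ hp
  have z0 : 0 < z := lt_of_lt_of_le (by positivity) hz
  have z1 : (0 : ℝ) < z := by exact_mod_cast z0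
  have o : ∀ p ∈ q.primeFactors, 1 ≤ 1 + wt p := fun p a =>
    le_add_of_nonneg_right (wt_nonneg (Nat.prime_of_mem_primeFactors a).one_le)
  have hw : ((q.primeFactors.filter fun p => z < p).card : ℝ) * (1 / z) ≤ Real.log (1 + η) := by
    have a : (M : ℝ) * (q.primeFactors.filter fun p => z < p).card ≤ C * z := by
      exact_mod_cast card_le hz h hq
    rw [div_lt_iff₀ hl] at hM
    rw [mul_one_div, div_le_iff₀ z1]
    refine le_of_mul_le_mul_left (a.trans ?_) M0
    rw [← mul_assoc]
    exact mul_le_mul_of_nonneg_right hM.le z1.le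
  refine ⟨?_, ?_, ?_⟩
  · rw [ph_eq h, ph_eq h₁]
    exact prod_le_prod_of_subset_of_one_le hs (fun p a => zero_le_one.trans (o p (hs a)))
      fun p a _ => o p a
  · have p0 := zero_le_one.trans (one_le h₁)
    rw [ph_eq h, ← prod_sdiff hs, ← ph_eq h₁]
    refine mul_le_mul_of_nonneg_right ?_ p0
    have sub : q.primeFactors \ q₁.primeFactors ⊆ q.primeFactors.filter fun p => z < p :=
      fun p a => by
        obtain ⟨a1, a2⟩ := mem_sdiff.1 a
        have pp := Nat.prime_of_mem_primeFactors a1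
        exact mem_filter.2 ⟨a1, not_le.1 fun c => a2 (Nat.mem_primeFactors.2 ⟨pp, hp p pp c, h₁.ne'⟩)⟩
    calc _ ≤ ∏ p ∈ q.primeFactors.filter (fun p => z < p), (1 + wt p) :=
          prod_le_prod_of_subset_of_one_le sub
            (fun p a => zero_le_one.trans (o p (mem_sdiff.1 a).1)) fun p a _ => o p (mem_filter.1 a).1
      _ ≤ ∏ _p ∈ q.primeFactors.filter (fun p => z < p), Real.exp (1 / z) :=
          prod_le_prod (fun p a => zero_le_one.trans (o p (mem_filter.1 a).1)) fun p a => by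
            have := wt_le z0 (mem_filter.1 a).2
            have := Real.add_one_le_exp (1 / z : ℝ)
            linarith
      _ ≤ 1 + η := by
          rw [prod_const, ← Real.exp_nat_mul, ← Real.le_log_iff_exp_le (by linarith)]
          exact hw
  · refine le_trans ?_ (hw.trans hl')
    rw [← nsmul_eq_mul]
    exact sum_le_card_nsmul _ _ _ fun p a =>
      one_div_le_one_div_of_le z1 (by exact_mod_cast (mem_filter.1 a).2.le)

end Pool.Agent.MP_a43263_nt.K2
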