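import Pool.Agent.MP_a43263_nt.K2.Spec

/-! THEOREM R2: the polynomials of the box are increasing. -/

set_option autoImplicit false

noncomputable section

namespace Pool.Agent.MP_a43263_nt.K2

open Polynomial Finset Filter Matrix JC Pool.Agent.MP_a43263_nt.UV

namespace PosA

/-- the lower bound for one term of the derivative -/
def lo (K a : ℝ) (g i : ℕ) : ℝ :=
  ((2 * g - i : ℕ) : ℝ) * ((if Odd i then 6 else -1) * K ^ (i + 1) * a ^ (2 * g - i - 1))

theorem alt {K a : ℝ} (hK : 0 < K) (ha : 0 ≤ a) (g : ℕ) :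
    0 < (g + 1) * a ^ (2 * g) + ∑ i ∈ range (2 * g + 1), lo K a g i := by
  induction g with
  | zero => simp [lo]
  | succ g ih =>
    have e : ∀ i, lo K a (g + 1) (i + 1 + 1) = K ^ 2 * lo K a g i := fun i => by
      have h1 : 2 * (g + 1) - (i + 1 + 1) = 2 * g - i := by omega
      have h2 : Odd (i + 1 + 1) ↔ Odd i := by simp only [Nat.odd_iff]; omega
      simp only [lo, h1, h2]
      ring
    have e0 : lo K a (g + 1) 0 = -((2 * g + 2) * K * (a ^ (2 * g) * a)) := by
      have h1 : 2 * (g + 1) - 0 - 1 = 2 * g + 1 := by omega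
      rw [lo, h1, if_neg (by decide), Nat.sub_zero]
      push_cast
      ring
    have e1 : lo K a (g + 1) (0 + 1) = (2 * g + 1) * 6 * K ^ 2 * a ^ (2 * g) := by
      have h1 : 2 * (g + 1) - (0 + 1) = 2 * g + 1 := by omega
      rw [lo, h1, if_pos (by decide), Nat.add_sub_cancel]
      push_cast
      ring
    rw [show 2 * (g + 1) + 1 = 2 * g + 1 + 1 + 1 by ring, sum_range_succ', sum_range_succ', e0, e1,
      sum_congr rfl fun i _ => e i, ← mul_sum, show a ^ (2 * (g + 1)) = a ^ (2 * g) * a ^ 2 by ring]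
    have h1 := mul_pos (pow_pos hK 2) ih
    have g0 : (0 : ℝ) ≤ g := Nat.cast_nonneg g
    have h2 : 0 ≤ (11 * g + 5) * K ^ 2 - (2 * g + 2) * K * a + (g + 2) * a ^ 2 := by
      nlinarith [mul_nonneg g0 (sq_nonneg (K - a)), sq_nonneg (K - a), mul_nonneg g0 (sq_nonneg K),
        sq_nonneg K, sq_nonneg a]
    have h3 := mul_nonneg (pow_nonneg ha (2 * g)) h2
    push_cast
    nlinarith

theorem der {g : ℕ} (w : Vec g) (x : ℝ) : (derivative (zK (f1 w) ℝ)).eval x =
    (2 * g + 1) * (x - 1) ^ (2 * g) + ∑ i : Fin (2 * g + 1),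
      ((2 * g - i.1 : ℕ) : ℝ) * ((sv w i : ℤ) * (x - 1) ^ (2 * g - i.1 - 1)) := by
  rw [f1, zK, Polynomial.map_comp, pc_map, derivative_comp]
  simp only [pc, Polynomial.map_sub, map_X, Polynomial.map_one, derivative_sub, derivative_X,
    derivative_one, sub_zero, one_mul, eval_comp, eval_sub, eval_X, eval_one, derivative_add,
    derivative_X_pow, derivative_sum, derivative_C_mul, eval_add, eval_mul, eval_C, eval_pow,
    eval_finsetSum, Nat.add_sub_cancel, eq_intCast]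
  push_cast
  congr 1
  exact sum_congr rfl fun i _ => by ring

theorem term {g k : ℕ} {w : Vec g} (hw : w ∈ bx g k) (y : ℝ) (i : Fin (2 * g + 1)) :
    lo ((k : ℝ) ^ 2) |y| g i.1 ≤ ((2 * g - i.1 : ℕ) : ℝ) * ((sv w i : ℤ) * y ^ (2 * g - i.1 - 1)) := by
  by_cases e : i.1 = 2 * g
  · simp [lo, e]
  refine mul_le_mul_of_nonneg_left ?_ (Nat.cast_nonneg _)
  obtain ⟨a, b⟩ := mem_bx.1 hw i
  have hi := i.2
  rw [sv, if_neg e, ← pow_mul]
  rw [ce, xp, if_neg e] at a b
  by_cases o : Odd i.1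
  · rw [if_pos (Or.inl o)] at a
    have ev : Even (2 * g - i.1 - 1) := by
      rw [Nat.odd_iff] at o
      rw [Nat.even_iff]
      omega
    rw [if_pos o, ev.pow_abs]
    refine mul_le_mul_of_nonneg_right ?_ (ev.pow_nonneg y)
    have : 6 * (k : ℤ) ^ (2 * (i.1 + 1)) ≤ w i := by linarith
    exact_mod_cast this
  · rw [if_neg (not_or.2 ⟨o, e⟩)] at a b
    have : |w i| ≤ (k : ℤ) ^ (2 * (i.1 + 1)) := abs_le.2 ⟨by linarith, by linarith⟩
    have c : |(w i : ℝ)| ≤ (k : ℝ) ^ (2 * (i.1 + 1)) := by exact_mod_cast this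
    rw [if_neg o, neg_one_mul, neg_mul]
    refine neg_le_of_abs_le ?_
    rw [abs_mul, abs_pow]
    exact mul_le_mul_of_nonneg_right c (by positivity)

end PosA

theorem pos_k : POSStmt := by
  intro g k w _ hk hw x
  have k0 : (0 : ℝ) < (k : ℝ) ^ 2 := by positivity
  have h1 := PosA.alt k0 (abs_nonneg (x - 1)) g
  rw [← Fin.sum_univ_eq_sum_range (fun i => PosA.lo ((k : ℝ) ^ 2) |x - 1| g i),
    Even.pow_abs ⟨g, by ring⟩] at h1
  have h2 := sum_le_sum fun i (_ : i ∈ univ) => PosA.term hw (x - 1) i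
  have h3 : 0 ≤ (g : ℝ) * (x - 1) ^ (2 * g) :=
    mul_nonneg (Nat.cast_nonneg g) (Even.pow_nonneg ⟨g, by ring⟩ _)
  rw [PosA.der]
  linarith

end Pool.Agent.MP_a43263_nt.K2
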