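import Pool.Agent.MP_a43263_nt.K2.Spec

/-! THEOREM R2: the presentation of the final statement. -/

set_option autoImplicit false

noncomputable section

namespace Pool.Agent.MP_a43263_nt.K2

open Polynomial Finset Filter JC Pool.Agent.MP_a43263_nt.UV

/-- the vector of a pair -/
def jn {g : ℕ} (c : (Fin (2 * g) → ℤ) × ℤ) : Vec g := Fin.snoc (α := fun _ => ℤ) c.1 c.2

theorem jn_cast {g : ℕ} (c : (Fin (2 * g) → ℤ) × ℤ) (i : Fin (2 * g)) :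
    jn c i.castSucc = c.1 i := by simp [jn]

theorem jn_last {g : ℕ} (c : (Fin (2 * g) → ℤ) × ℤ) : jn c (Fin.last _) = c.2 := by simp [jn]

theorem jn_bij (g : ℕ) : Function.Bijective (jn (g := g)) := by
  refine ⟨fun c c' h => Prod.ext (funext fun i => ?_) ?_, fun w =>
    ⟨(fun i => w i.castSucc, w (Fin.last _)), funext fun i => ?_⟩⟩
  · rw [← jn_cast, ← jn_cast, h]
  · rw [← jn_last, ← jn_last c', h]
  · refine Fin.lastCases ?_ (fun j => ?_) i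
    · exact jn_last _
    · exact jn_cast _ _

theorem md_eq {g : ℕ} (c : (Fin (2 * g) → ℤ) × ℤ) : zK (pc (sv (jn c))) ℚ =
    X ^ (2 * g + 1) + ∑ i, C (c.1 i : ℚ) * X ^ (2 * g - i.1) + C ((c.2 : ℚ) ^ 2) := by
  rw [pc, Fin.sum_univ_castSucc, add_assoc]
  simp only [zK, Polynomial.map_add, Polynomial.map_pow, map_X, Polynomial.map_sum,
    Polynomial.map_mul, map_C]
  congr 2
  · refine sum_congr rfl fun i _ => ?_
    rw [sv, if_neg (by simpa using i.2.ne), jn_cast]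
    simp
  · rw [sv, if_pos (by simp), jn_last]
    simp

theorem box_iff {g : ℕ} (Z : ℤ) (c : (Fin (2 * g) → ℤ) × ℤ) :
    (∀ i, |jn c i| ≤ Z ^ xp g i.1) ↔
      (∀ i, |c.1 i| ≤ Z ^ (2 * i.1 + 2)) ∧ |c.2| ≤ Z ^ (2 * g + 1) := by
  rw [Fin.forall_fin_succ', jn_last]
  refine and_congr (forall_congr' fun i => ?_) ?_
  · rw [jn_cast, xp, if_neg (by simpa using i.2.ne), Fin.val_castSucc, mul_add, mul_one]
  · rw [xp, if_pos (by simp)]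

theorem md_deg {g : ℕ} (w : Vec g) : (zK (pc (sv w)) ℚ).natDegree < 2 * g + 2 := by
  refine Nat.lt_succ_of_le (natDegree_map_le.trans ?_)
  rw [pc]
  refine natDegree_add_le_of_degree_le (natDegree_X_pow_le _) ?_
  refine natDegree_sum_le_of_forall_le _ _ fun i _ => (natDegree_C_mul_X_pow_le _ _).trans ?_
  omega

theorem rs_eq {g : ℕ} {f : ℚ[X]} (hf : f.natDegree < 2 * g + 2) (u : ℚ) {v : ℚ} (hv : v ≠ 0) :
    rs g f u v = v ^ (4 * g + 2) * f.eval (-u ^ 2 / v ^ 2) := by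
  rw [eval_eq_sum_range' hf, mul_sum, rs]
  refine sum_congr rfl fun i hi => ?_
  obtain ⟨j, hj⟩ := Nat.exists_eq_add_of_le (Nat.lt_succ_iff.1 (mem_range.1 hi))
  rw [show 4 * g + 2 = 2 * (2 * g + 1) by ring, pow_mul v 2 (2 * g + 1), hj, Nat.add_sub_cancel_left,
    pow_add, div_pow]
  field_simp

theorem od_eval {g : ℕ} {f : ℚ[X]} (hf : f.natDegree < 2 * g + 2) {u v G : ℚ}
    (hG : rs g f u v = G) (h0 : G ≠ 0) (x : ℚ) (hx : v ^ 2 * x + u ^ 2 ≠ 0) :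
    (od g f u v).eval (G / (v ^ 2 * x + u ^ 2)) * (v ^ 2 * x + u ^ 2) ^ (2 * g + 2) =
      (G ^ g * v ^ (2 * g + 1)) ^ 2 * ((v ^ 2 * x + u ^ 2) * f.eval x) := by
  rw [od, hG, eval_mul, eval_C, eval_finsetSum, eval_eq_sum_range' hf x]
  generalize hl : v ^ 2 * x + u ^ 2 = l at hx ⊢
  have e : G - u ^ 2 * (G / l) = v ^ 2 * (G / l) * x := by
    field_simp
    rw [← hl]
    ring
  have e2 : ∀ i ∈ range (2 * g + 2), (C (f.coeff i) * (C G - C (u ^ 2) * X) ^ i *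
      (C (v ^ 2) * X) ^ (2 * g + 1 - i)).eval (G / l) =
      (v ^ 2 * (G / l)) ^ (2 * g + 1) * (f.coeff i * x ^ i) := fun i hi => by
    obtain ⟨j, hj⟩ := Nat.exists_eq_add_of_le (Nat.lt_succ_iff.1 (mem_range.1 hi))
    simp only [eval_mul, eval_C, eval_pow, eval_sub, eval_X]
    rw [e, hj, Nat.add_sub_cancel_left, pow_add, mul_pow _ x]
    ring
  rw [sum_congr rfl e2, ← mul_sum, mul_pow, div_pow]
  field_simp
  ring

/-- the conclusion, with the odd model described by an identity -/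
def Out (g Z : ℕ) (f : ℚ[X]) : Prop := Irreducible f ∧ ∃ (u v G : ℕ) (F : ℚ[X]), 0 < u ∧ 0 < v ∧
  (u : ℝ) ≤ Real.log Z ^ 7 ∧ (v : ℝ) ≤ Real.log Z ^ 7 ∧
  (G : ℚ) = (v : ℚ) ^ (4 * g + 2) * f.eval (-(u : ℚ) ^ 2 / (v : ℚ) ^ 2) ∧ Squarefree G ∧
  Z ^ (4 * g) ≤ G ∧ F.Monic ∧ F.natDegree = 2 * g + 1 ∧ Irreducible F ∧
  (∀ x l : ℚ, l = (v : ℚ) ^ 2 * x + (u : ℚ) ^ 2 → l ≠ 0 → F.eval (G / l) * l ^ (2 * g + 2) =
    ((G : ℚ) ^ g * (v : ℚ) ^ (2 * g + 1)) ^ 2 * (l * f.eval x)) ∧ Good 2 F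

theorem out_of {g Z : ℕ} {w : Vec g} (h : Best g Z (zK (pc (sv w)) ℚ)) :
    Out g Z (zK (pc (sv w)) ℚ) := by
  obtain ⟨hi, u, v, G, hu, hv, hu', hv', hG, hs, hZ, hm, hd, hF, hg⟩ := h
  refine ⟨hi, u, v, G, _, hu, hv, hu', hv', ?_, hs, hZ, hm, hd, hF, fun x l hl hx => ?_, hg⟩
  · rw [← hG, rs_eq (md_deg w) _ (Nat.cast_ne_zero.2 hv.ne')]
  · subst hl
    exact od_eval (md_deg w) hG (Nat.cast_ne_zero.2 hs.ne_zero) x hx

/-- the final form -/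
theorem pres (h : MainStmt) (g : ℕ) (hg : 1 ≤ g) : ∃ ε : ℝ, 0 < ε ∧ ∀ᶠ Z : ℕ in atTop,
    ∀ B : Finset ((Fin (2 * g) → ℤ) × ℤ), (∀ c, c ∈ B ↔
      (∀ i, |c.1 i| ≤ (Z : ℤ) ^ (2 * i.1 + 2)) ∧ |c.2| ≤ (Z : ℤ) ^ (2 * g + 1)) →
    ∃ T ⊆ B, ε * B.card ≤ T.card ∧ ∀ c ∈ T, Out g Z
      (X ^ (2 * g + 1) + ∑ i, C (c.1 i : ℚ) * X ^ (2 * g - i.1) + C ((c.2 : ℚ) ^ 2)) := by
  classical
  obtain ⟨ε, h0, h⟩ := h g hg
  refine ⟨ε, h0, h.mono fun Z k B hB => ⟨B.filter fun c => Best g Z (zK (pc (sv (jn c))) ℚ),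
    filter_subset _ _, ?_, fun c hc => md_eq c ▸ out_of (mem_filter.1 hc).2⟩⟩
  have e : ∀ s : Set (Vec g), s.ncard = (jn ⁻¹' s).ncard := fun s =>
    (Set.ncard_preimage_of_injective_subset_range (jn_bij g).1
      (by rw [(jn_bij g).2.range_eq]; exact Set.subset_univ _)).symm
  rw [e, e {w : Vec g | _ ∧ _}] at k
  rw [← Set.ncard_coe_finset, ← Set.ncard_coe_finset, coe_filter]
  simp only [hB, ← box_iff]
  rwa [show (B : Set _) = _ from Set.ext fun c => (hB c).trans (box_iff _ c).symm]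

end Pool.Agent.MP_a43263_nt.K2
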