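import Pool.Agent.MP_a43263_nt.K2.Spec

/-! THEOREM R2: the condition at two, for one separable divisor. -/

set_option autoImplicit false

noncomputable section

namespace Pool.Agent.MP_a43263_nt.K2

open Polynomial Finset JC Pool.Agent.MP_a43263_nt.UV

namespace Pt2A

section gen

variable {K : Type} [Field K] [CharZero K]

/-- stable under the Galois group -/
def Sb (S : Finset (AlgebraicClosure K)) : Prop :=
  ∀ σ : AlgebraicClosure K ≃ₐ[K] AlgebraicClosure K, ∀ x ∈ S, σ x ∈ S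

variable {S : Finset (AlgebraicClosure K)}

omit [CharZero K] in
theorem roots {P : K[X]} (hm : P.Monic) (hs : P.Separable) : ∃ S : Finset (AlgebraicClosure K),
    P.map (algebraMap K _) = ∏ x ∈ S, (X - C x) ∧ Sb S := by
  classical
  have m := hm.map (algebraMap K (AlgebraicClosure K))
  have hn : (P.map (algebraMap K (AlgebraicClosure K))).roots.Nodup := nodup_roots hs.map
  refine ⟨(P.map (algebraMap K _)).roots.toFinset, ?_, fun σ x hx => ?_⟩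
  · rw [Finset.prod_eq_multiset_prod, Multiset.toFinset_val, hn.dedup]
    exact (IsAlgClosed.splits _).eq_prod_roots_of_monic m
  · rw [Multiset.mem_toFinset, mem_roots m.ne_zero, IsRoot, eval_map_algebraMap] at hx ⊢
    rw [aeval_algHom_apply, hx, map_zero]

omit [CharZero K] in
theorem Sb.prod (h : Sb S) (σ : AlgebraicClosure K ≃ₐ[K] AlgebraicClosure K) {M : Type}
    [CommMonoid M] (F : AlgebraicClosure K → M) : ∏ x ∈ S, F (σ x) = ∏ x ∈ S, F x :=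
  prod_nbij' σ σ.symm (h σ) (h σ.symm) (fun _ _ => σ.symm_apply_apply _)
    (fun _ _ => σ.apply_symm_apply _) fun _ _ => rfl

theorem Sb.interp (h : Sb S) (z : AlgebraicClosure K → AlgebraicClosure K)
    (hz : ∀ σ : AlgebraicClosure K ≃ₐ[K] AlgebraicClosure K, ∀ x, σ (z x) = z (σ x)) :
    ∃ p : K[X], ∀ x ∈ S, aeval x p = z x := by
  obtain ⟨p, hp⟩ := UM.interp (ι := S) (b := Subtype.val) (z := fun x => z x.1)
    Subtype.val_injective fun σ => ⟨fun x => ⟨σ x.1, h σ _ x.2⟩, fun x => ⟨rfl, hz σ _⟩⟩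
  exact ⟨p, fun x hx => (eval_map_algebraMap _ _).symm.trans (hp ⟨x, hx⟩)⟩

theorem Sb.lift (h : Sb S) : ∃ U : K[X], U.map (algebraMap K _) = ∏ x ∈ S, (X - C x) :=
  RatA.lift fun σ => by
    simp only [Polynomial.map_prod, Polynomial.map_sub, map_X, map_C]
    exact h.prod σ fun x => X - C x

omit [CharZero K] in
theorem monic {U : K[X]} (h : U.map (algebraMap K _) = ∏ x ∈ S, (X - C x)) : U.Monic :=
  (algebraMap K (AlgebraicClosure K)).injective.monic_map_iff.2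
    (h ▸ monic_prod_of_monic _ _ fun x _ => monic_X_sub_C x)

omit [CharZero K] in
theorem deg {U : K[X]} (h : U.map (algebraMap K _) = ∏ x ∈ S, (X - C x)) :
    U.natDegree = S.card := by
  rw [← natDegree_map (algebraMap K (AlgebraicClosure K)), h, natDegree_finsetProd_X_sub_C_eq_card]

omit [CharZero K] in
theorem val {U : K[X]} (h : U.map (algebraMap K _) = ∏ x ∈ S, (X - C x))
    (y : AlgebraicClosure K) : aeval y U = ∏ x ∈ S, (y - x) := by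
  rw [← eval_map_algebraMap, h, eval_prod]
  simp

omit [CharZero K] in
theorem val' {U : K[X]} (h : U.map (algebraMap K _) = ∏ x ∈ S, (X - C x))
    (y : AlgebraicClosure K) : aeval y (C ((-1) ^ U.natDegree) * U) = ∏ x ∈ S, (x - y) := by
  rw [map_mul, val h, deg h, aeval_C, map_pow, map_neg, map_one, ← prod_neg]
  simp

omit [CharZero K] in
theorem dvd {U P : K[X]} (h : U.map (algebraMap K _) = ∏ x ∈ S, (X - C x))
    (hP : ∀ x ∈ S, aeval x P = 0) : U ∣ P := by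
  rw [← map_dvd_map' (algebraMap K (AlgebraicClosure K)), h]
  exact Finset.prod_dvd_of_coprime (fun x _ y _ e => isCoprime_X_sub_C_of_isUnit_sub
    (sub_ne_zero.2 e).isUnit) fun x hx => dvd_iff_isRoot.2 ((eval_map_algebraMap _ _).trans (hP x hx))

omit [CharZero K] in
theorem cop {U P : K[X]} (h : U.map (algebraMap K _) = ∏ x ∈ S, (X - C x))
    (hP : ∀ x ∈ S, aeval x P ≠ 0) : IsCoprime P U := by
  rw [isCoprime_iff_aeval_ne_zero_of_isAlgClosed K (AlgebraicClosure K)]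
  intro t
  by_cases c : t ∈ S
  · exact .inl (hP t c)
  · refine .inr ?_
    rw [val h]
    exact prod_ne_zero_iff.2 fun x hx => sub_ne_zero.2 fun e => c (e ▸ hx)

end gen

abbrev Om : Type := PadicAlgCl 2

theorem nσ (σ : Om ≃ₐ[ℚ_[2]] Om) (x : Om) : ‖σ x‖ = ‖x‖ := (spectralNorm_eq_of_equiv σ x).symm

theorem n2 : ‖(2 : Om)‖ = 1 / 2 := by
  have h := PadicAlgCl.norm_extends 2 ((2 : ℕ) : ℚ_[2])
  rw [Padic.norm_p, map_natCast] at h
  simpa using h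

theorem uniq {y z : Om} (h : y ^ 2 = z ^ 2) (hy : ‖y - 1‖ < 1 / 2) (hz : ‖z - 1‖ < 1 / 2) :
    y = z := by
  refine (sq_eq_sq_iff_eq_or_eq_neg.1 h).resolve_right fun e => ?_
  have h1 := IsUltrametricDist.norm_add_le_max (y - 1) (z - 1)
  rw [show y - 1 + (z - 1) = -2 by rw [e]; ring, norm_neg, n2] at h1
  exact absurd (max_lt hy hz) (not_lt.2 h1)

open Classical in
/-- the square root that is close to one -/
def rt (t : Om) : Om := if h : ∃ y, y ^ 2 = t ∧ ‖y - 1‖ < 1 / 2 then h.choose else 0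

theorem rt_map (σ : Om ≃ₐ[ℚ_[2]] Om) (t : Om) : σ (rt t) = rt (σ t) := by
  have k : ∀ (σ : Om ≃ₐ[ℚ_[2]] Om) y t, y ^ 2 = t ∧ ‖y - 1‖ < 1 / 2 →
      σ y ^ 2 = σ t ∧ ‖σ y - 1‖ < 1 / 2 := fun σ y t h =>
    ⟨by rw [← map_pow, h.1], by rw [← map_one σ, ← map_sub, nσ]; exact h.2⟩
  by_cases h : ∃ y, y ^ 2 = t ∧ ‖y - 1‖ < 1 / 2
  · have h' : ∃ y, y ^ 2 = σ t ∧ ‖y - 1‖ < 1 / 2 := ⟨_, k σ _ _ h.choose_spec⟩
    rw [rt, rt, dif_pos h, dif_pos h']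
    have h1 := k σ _ _ h.choose_spec
    exact uniq (h1.1.trans h'.choose_spec.1.symm) h1.2 h'.choose_spec.2
  · rw [rt, rt, dif_neg h, dif_neg, map_zero]
    rintro ⟨y, hy⟩
    exact h ⟨_, by simpa using k σ.symm _ _ hy⟩

theorem rt_sq {t : Om} (h : ‖t - 1‖ ≤ 1 / 8) : rt t ^ 2 = t ∧ t ≠ 0 := by
  have h1 : ∃ y, y ^ 2 = t ∧ ‖y - 1‖ < 1 / 2 := by
    obtain ⟨y, hy⟩ := IsAlgClosed.exists_pow_nat_eq t two_pos
    by_contra c
    push Not at c
    have a := c y hy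
    have b := c (-y) (by rw [neg_sq, hy])
    have e : ‖y - 1‖ * ‖-y - 1‖ = ‖t - 1‖ := by
      rw [← norm_mul, ← norm_neg, ← hy]
      congr 1
      ring
    nlinarith
  refine ⟨by rw [rt, dif_pos h1]; exact h1.choose_spec.1, ?_⟩
  rintro rfl
  norm_num at h

theorem int_le {f : ℤ[X]} (hm : f.Monic) {a : Om} (h : aeval a (zK f ℚ_[2]) = 0) :
    ‖a - 1‖ ≤ 1 := by
  have h0 : ‖a‖ ≤ 1 := by
    by_contra c
    push Not at c
    have m : (zK f Om).Monic := hm.map _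
    rw [← eval_map_algebraMap, zK_map, m.as_sum, eval_add, eval_pow, eval_X, eval_finsetSum,
      add_eq_zero_iff_eq_neg] at h
    rcases Nat.eq_zero_or_pos (zK f Om).natDegree with e | e
    · simp [e] at h
    have h1 := congrArg norm h
    rw [norm_neg, norm_pow] at h1
    refine absurd (h1.le.trans (IsUltrametricDist.norm_sum_le_of_forall_le_of_nonneg
      (C := ‖a‖ ^ ((zK f Om).natDegree - 1)) (by positivity) fun i hi => ?_))
      (not_le.2 (pow_lt_pow_right₀ c (by omega)))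
    have := mem_range.1 hi
    rw [eval_mul, eval_C, eval_pow, eval_X, norm_mul, norm_pow, coeff_map]
    exact (mul_le_of_le_one_left (by positivity) (IsUltrametricDist.norm_intCast_le_one _ _)).trans
      (pow_le_pow_right₀ c.le (by omega))
  rw [sub_eq_add_neg]
  exact (IsUltrametricDist.norm_add_le_max _ _).trans (max_le h0 (by simp))

theorem core {g : ℕ} {f F κ U V : ℚ_[2][X]} {u v G : ℤ} {A R : Finset Om} {l : Om → Om}
    (hl : ∀ x, l x = (v : Om) ^ 2 * (x - 1) + (u : Om) ^ 2)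
    (hA : f.map (algebraMap _ _) = ∏ a ∈ A, (X - C a)) (sA : Sb A) (cA : A.card = 2 * g + 1)
    (nA : ∀ a ∈ A, ‖a - 1‖ ≤ 1) (hR : U.map (algebraMap _ _) = ∏ a ∈ R, (X - C a)) (sR : Sb R)
    (nu : ‖(u : Om)‖ = 1) (nv : ‖(v : Om)‖ ≤ 1 / 8) (v0 : (v : Om) ≠ 0) (G0 : (G : Om) ≠ 0)
    (ka : ∀ a ∈ A, aeval a κ * l a = G)
    (mb : ∀ x, l x ≠ 0 → l x ^ (2 * g + 1) * aeval (G / l x) F =
      ((G : Om) ^ g * (v : Om) ^ (2 * g + 1)) ^ 2 * aeval x f)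
    (nm : ∏ a ∈ A, l a = -G) (hV : ∀ ξ ∈ R, aeval ξ F = aeval ξ V ^ 2 ∧ aeval ξ V ≠ 0) :
    Wc 1 f ((C ((-1) ^ U.natDegree) * U).comp κ) := by
  classical
  have u0 : (u : Om) ≠ 0 := norm_ne_zero_iff.1 (nu ▸ one_ne_zero)
  have lσ : ∀ (σ : Om ≃ₐ[ℚ_[2]] Om) x, σ (l x) = l (σ x) := fun σ x => by simp [hl]
  obtain ⟨lm, hlm⟩ : ∃ lm : Om → Om, ∀ x, lm x = u * rt (l x / (u : Om) ^ 2) := ⟨_, fun _ => rfl⟩
  have mσ : ∀ (σ : Om ≃ₐ[ℚ_[2]] Om) x, σ (lm x) = lm (σ x) := fun σ x => by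
    simp [hlm, rt_map, lσ]
  have m2 : ∀ x, ‖x - 1‖ ≤ 8 → lm x ^ 2 = l x ∧ lm x ≠ 0 := fun x hx => by
    have h1 : ‖l x / (u : Om) ^ 2 - 1‖ ≤ 1 / 8 := by
      rw [show l x / (u : Om) ^ 2 - 1 = (v : Om) ^ 2 * (x - 1) / (u : Om) ^ 2 by
        rw [hl]; field_simp; ring, norm_div, norm_mul, norm_pow, norm_pow, nu, one_pow, div_one]
      calc _ ≤ (1 / 8 : ℝ) ^ 2 * 8 := by gcongr
        _ = _ := by norm_num
    obtain ⟨h2, h3⟩ := rt_sq h1
    have h4 : lm x ^ 2 = l x := by rw [hlm, mul_pow, h2]; field_simp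
    exact ⟨h4, fun e => h3 (by rw [← h4, e]; simp)⟩
  have mA : ∀ a ∈ A, lm a ^ 2 = l a ∧ lm a ≠ 0 := fun a ha => m2 a ((nA a ha).trans (by norm_num))
  obtain ⟨Γ, hΓ⟩ : ∃ Γ, Γ = ∏ a ∈ A, lm a := ⟨_, rfl⟩
  have Γ2 : (G : Om) = -Γ ^ 2 := by
    rw [hΓ, ← prod_pow, prod_congr rfl fun a ha => (mA a ha).1, nm, neg_neg]
  have Γσ : ∀ σ : Om ≃ₐ[ℚ_[2]] Om, σ Γ = Γ := fun σ => by
    simp only [hΓ, map_prod, mσ]
    exact sA.prod σ lm
  obtain ⟨xx, hx⟩ : ∃ xx : Om → Om, ∀ ξ, xx ξ = 1 + (G / ξ - (u : Om) ^ 2) / (v : Om) ^ 2 :=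
    ⟨_, fun _ => rfl⟩
  have xσ : ∀ (σ : Om ≃ₐ[ℚ_[2]] Om) x, σ (xx x) = xx (σ x) := fun σ x => by simp [hx]
  have lx : ∀ ξ, l (xx ξ) = G / ξ := fun ξ => by rw [hl, hx]; field_simp; ring
  have xl : ∀ ξ, G / l (xx ξ) = ξ := fun ξ => by rw [lx, div_div_cancel₀ G0]
  have key : ∀ ξ, ξ ≠ 0 → ∀ a ∈ A, (ξ - aeval a κ) * (l (xx ξ) * lm a ^ 2) =
      Γ ^ 2 * (v : Om) ^ 2 * (xx ξ - a) := fun ξ h a ha => by
    have h1 : ξ * l (xx ξ) = G := by rw [lx]; field_simp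
    have h2 := ka a ha
    have h3 : l (xx ξ) - l a = (v : Om) ^ 2 * (xx ξ - a) := by rw [hl, hl]; ring
    rw [(mA a ha).1]
    linear_combination l a * h1 - l (xx ξ) * h2 - G * h3 - (v : Om) ^ 2 * (xx ξ - a) * Γ2
  obtain ⟨ρ, hρ⟩ : ∃ ρ : Om → Om → Om, ∀ x a, ρ x a = rt (1 - (a - 1) / (x - 1)) :=
    ⟨_, fun _ _ => rfl⟩
  have ρσ : ∀ (σ : Om ≃ₐ[ℚ_[2]] Om) x a, σ (ρ x a) = ρ (σ x) (σ a) := fun σ x a => by
    simp [hρ, rt_map]
  have ρ2 : ∀ x, 8 < ‖x - 1‖ → x - 1 ≠ 0 ∧ ∀ a ∈ A, x - a = (x - 1) * ρ x a ^ 2 ∧ ρ x a ≠ 0 :=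
    fun x h => by
    have h0 : x - 1 ≠ 0 := norm_pos_iff.1 (by linarith)
    refine ⟨h0, fun a ha => ?_⟩
    obtain ⟨h2, h3⟩ := rt_sq (t := 1 - (a - 1) / (x - 1)) (by
      rw [sub_sub_cancel_left, norm_neg, norm_div, div_le_iff₀ (by linarith)]
      linarith [nA a ha])
    rw [← hρ] at h2
    exact ⟨by rw [h2]; field_simp; ring, fun e => h3 (by rw [← h2, e]; simp)⟩
  obtain ⟨w, hw⟩ : ∃ w : Om → Om, ∀ ξ, w ξ = aeval ξ V / ((G : Om) ^ g * (v : Om) ^ (2 * g + 1) *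
      (∏ a ∈ A, ρ (xx ξ) a) * ((xx ξ - 1) / l (xx ξ)) ^ g) := ⟨_, fun _ => rfl⟩
  have wσ : ∀ (σ : Om ≃ₐ[ℚ_[2]] Om) x, σ (w x) = w (σ x) := fun σ x => by
    have := sA.prod σ (ρ (xx (σ x)))
    simp [hw, ρσ, xσ, lσ, this, aeval_algHom_apply]
  have w2 : ∀ ξ ∈ R, ξ ≠ 0 → 8 < ‖xx ξ - 1‖ → w ξ ^ 2 * l (xx ξ) = xx ξ - 1 := fun ξ hξ h0 h => by
    obtain ⟨h1, h2⟩ := ρ2 _ h
    have h3 : l (xx ξ) ≠ 0 := lx ξ ▸ div_ne_zero G0 h0
    have h4 := mb _ h3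
    have h5 : ∏ a ∈ A, ρ (xx ξ) a ≠ 0 := prod_ne_zero_iff.2 fun a ha => (h2 a ha).2
    rw [xl, (hV ξ hξ).1, val hA, prod_congr rfl fun a ha => (h2 a ha).1, prod_mul_distrib,
      prod_const, cA, prod_pow] at h4
    rw [hw, div_pow, div_mul_eq_mul_div, div_eq_iff (by positivity)]
    refine mul_left_cancel₀ (pow_ne_zero (2 * g) h3) ?_
    have h6 : l (xx ξ) ^ (2 * g) * (((xx ξ - 1) / l (xx ξ)) ^ g) ^ 2 = (xx ξ - 1) ^ (2 * g) := by
      rw [← pow_mul, mul_comm g 2, ← mul_pow, mul_div_cancel₀ _ h3]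
    linear_combination h4 - (xx ξ - 1) * ((G : Om) ^ g * (v : Om) ^ (2 * g + 1) *
      ∏ a ∈ A, ρ (xx ξ) a) ^ 2 * h6
  let J : Om → Prop := fun ξ => ξ ≠ 0 ∧ ‖xx ξ - 1‖ ≤ 8
  have Jσ : ∀ (σ : Om ≃ₐ[ℚ_[2]] Om) x, J (σ x) ↔ J x := fun σ x => by
    simp only [J]
    rw [← xσ, ← nσ σ (xx x - 1), map_sub, map_one, _root_.map_ne_zero]
  obtain ⟨s, hs⟩ : ∃ s : Om → Om → Om, ∀ ξ a, s ξ a = if ξ = 0 then Γ / lm a else if J ξ then
      Γ * v * (xx ξ - a) / (lm (xx ξ) * lm a) else Γ * v * ρ (xx ξ) a * w ξ / lm a :=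
    ⟨_, fun _ _ => rfl⟩
  have sσ : ∀ (σ : Om ≃ₐ[ℚ_[2]] Om) x a, σ (s x a) = s (σ x) (σ a) := fun σ x a => by
    simp only [hs, Jσ, map_eq_zero]
    split_ifs <;> simp [Γσ, mσ, xσ, ρσ, wσ]
  have s2 : ∀ ξ ∈ R, ∀ a ∈ A, s ξ a ^ 2 = (ξ - aeval a κ) * if J ξ then xx ξ - a else 1 := by
    intro ξ hξ a ha
    have h1 := (mA a ha).2
    rw [hs]
    by_cases c : ξ = 0
    · rw [if_pos c, if_neg fun e => e.1 c, c, div_pow, div_eq_iff (pow_ne_zero _ h1), (mA a ha).1]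
      linear_combination ka a ha + Γ2
    have h2 := key ξ c a ha
    rw [if_neg c]
    by_cases d : J ξ
    · obtain ⟨h3, h4⟩ := m2 _ d.2
      rw [if_pos d, if_pos d, div_pow, div_eq_iff (pow_ne_zero _ (mul_ne_zero h4 h1)), mul_pow,
        mul_pow (lm _), h3]
      linear_combination -(xx ξ - a) * h2
    · have h3 : 8 < ‖xx ξ - 1‖ := not_le.1 fun e => d ⟨c, e⟩
      have h4 : l (xx ξ) ≠ 0 := lx ξ ▸ div_ne_zero G0 c
      rw [if_neg d, if_neg d, div_pow, div_eq_iff (pow_ne_zero _ h1)]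
      refine mul_left_cancel₀ h4 ?_
      linear_combination -h2 + (Γ * v * ρ (xx ξ) a) ^ 2 * w2 ξ hξ c h3 -
        Γ ^ 2 * (v : Om) ^ 2 * ((ρ2 _ h3).2 a ha).1
  have sS : Sb ((R.filter J).image xx) := fun σ x hx => by
    obtain ⟨ξ, h1, rfl⟩ := mem_image.1 hx
    exact mem_image.2 ⟨σ ξ, mem_filter.2 ⟨sR σ _ (mem_filter.1 h1).1,
      (Jσ σ ξ).2 (mem_filter.1 h1).2⟩, (xσ σ ξ).symm⟩
  obtain ⟨U₀, hU⟩ := sS.lift
  obtain ⟨V₀, hV₀⟩ := sS.interp (fun x => aeval (G / l x) V * lm x ^ (2 * g + 1) /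
    ((G : Om) ^ g * (v : Om) ^ (2 * g + 1))) fun σ x => by
      simp [mσ, ← lσ, ← aeval_algHom_apply]
  obtain ⟨p, hp⟩ := sA.interp (fun a => ∏ ξ ∈ R, s ξ a) fun σ a => by
    simp only [map_prod, sσ]
    exact sR.prod σ fun ξ => s ξ (σ a)
  have fx : ∀ x ∈ (R.filter J).image xx, aeval x f = aeval x V₀ ^ 2 ∧ aeval x V₀ ≠ 0 := by
    intro x hx
    rw [hV₀ x hx]
    obtain ⟨ξ, h1, rfl⟩ := mem_image.1 hx
    obtain ⟨h1, h2⟩ := mem_filter.1 h1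
    obtain ⟨h3, h4⟩ := m2 _ h2.2
    have h5 := mb (xx ξ) (h3 ▸ pow_ne_zero _ h4)
    have h6 := (hV ξ h1).2
    rw [xl] at h5 ⊢
    rw [(hV ξ h1).1, ← h3] at h5
    refine ⟨?_, by positivity⟩
    rw [div_pow, eq_div_iff (by positivity)]
    linear_combination -h5
  have vd : ∀ a, aeval a ((C ((-1) ^ U.natDegree) * U).comp κ) = ∏ ξ ∈ R, (ξ - aeval a κ) :=
    fun a => by rw [aeval_comp, val' hR]
  refine ⟨cop hA fun a ha => ?_, U₀, V₀, p, monic hU, dvd hU fun x hx => ?_,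
    (cop hU fun x hx => ?_).symm, dvd hA fun a ha => ?_⟩
  · rw [vd]
    refine prod_ne_zero_iff.2 fun ξ hξ e => (hV ξ hξ).2 ?_
    have h0 : l a ≠ 0 := (mA a ha).1 ▸ pow_ne_zero _ (mA a ha).2
    have h1 := mb a h0
    rw [← ka a ha, mul_div_cancel_right₀ _ h0, ← sub_eq_zero.1 e, (hV ξ hξ).1, val hA,
      prod_eq_zero ha (sub_self a), mul_zero] at h1
    exact pow_eq_zero_iff two_ne_zero |>.1 ((mul_eq_zero.1 h1).resolve_left (pow_ne_zero _ h0))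
  · rw [C_1, one_mul, map_sub, map_pow, (fx x hx).1, sub_self]
  · rw [(fx x hx).1]
    exact pow_ne_zero _ (fx x hx).2
  · rw [map_sub, map_mul, vd, val' hU, map_pow, hp a ha, ← prod_pow,
      prod_congr rfl fun ξ hξ => s2 ξ hξ a ha, prod_mul_distrib, ← prod_filter,
      prod_image fun x _ y _ e => by rw [← xl x, e, xl], sub_self]

end Pt2A

open Pt2A in
theorem pt2_k : ISOStmt → WSQStmt → PT2Stmt := by
  intro _ _ g f F κ u v G U V hf hc h8 hu mU iU dU cU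
  obtain ⟨A, hA, sA⟩ := roots (hf.mo ℚ_[2]) (hf.sq _).sep
  obtain ⟨R, hR, sR⟩ := roots mU iU.separable
  have cA := (deg hA).symm.trans (hf.dg _)
  have rA : ∀ a ∈ A, aeval a (zK f ℚ_[2]) = 0 := fun a ha => by
    rw [val hA, prod_eq_zero ha (sub_self a)]
  have v0 : (v : Om) ≠ 0 := Int.cast_ne_zero.2 hc.v0
  have G0 : (G : Om) ≠ 0 := Int.cast_ne_zero.2 hc.G0
  obtain ⟨l, hl⟩ : ∃ l : Om → Om, ∀ x, l x = (v : Om) ^ 2 * (x - 1) + (u : Om) ^ 2 :=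
    ⟨_, fun _ => rfl⟩
  have ez : ∀ (x : Om) (P : ℤ[X]), aeval x (zK P ℚ_[2]) = aeval x P := fun x P =>
    aeval_map_algebraMap ℚ_[2] x P
  have el' : ∀ x : Om, aeval x (el u v) = l x := fun x => by simp [el, hl]
  have mb : ∀ x : Om, ∑ i ∈ range (2 * g + 2), (F.coeff i : Om) * (G : Om) ^ i *
      l x ^ (2 * g + 1 - i) = ((G : Om) ^ g * (v : Om) ^ (2 * g + 1)) ^ 2 *
        aeval x (zK f ℚ_[2]) := fun x => by
    have := congrArg (aeval x) hc.mb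
    simp only [map_sum, map_mul, map_pow, el', map_intCast, eq_intCast] at this
    rw [this, ez]
    ring
  refine core (V := V) (F := zK F ℚ_[2]) hl hA sA cA (fun a ha => int_le hf.monic (rA a ha)) hR sR
    ?_ ?_ v0 G0 (fun a ha => ?_) (fun x hx => ?_) ?_ fun ξ hξ => ?_
  · obtain ⟨k, rfl⟩ := hu
    have h1 : ‖(2 * k : Om)‖ < ‖(1 : Om)‖ := by
      rw [norm_mul, n2, norm_one]
      linarith [IsUltrametricDist.norm_intCast_le_one Om k]
    push_cast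
    rw [IsUltrametricDist.norm_add_eq_max_of_norm_ne_norm h1.ne, max_eq_right h1.le, norm_one]
  · obtain ⟨k, rfl⟩ := h8
    push_cast
    rw [norm_mul, show (8 : Om) = 2 ^ 3 by norm_num, norm_pow, n2]
    linarith [IsUltrametricDist.norm_intCast_le_one Om k]
  · obtain ⟨y, hy⟩ := hc.ka
    have := congrArg (aeval a) hy
    rw [map_sub, map_mul, map_mul, ← ez a f, rA a ha, zero_mul, el', aeval_C, sub_eq_zero] at this
    rw [ez, this, eq_intCast]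
  · rw [← mb, ez, aeval_eq_sum_range' (n := 2 * g + 2) (by rw [hc.dg]; omega), mul_sum]
    refine sum_congr rfl fun i hi => ?_
    have := mem_range.1 hi
    rw [zsmul_eq_mul, pow_sub₀ _ hx (by omega), div_pow]
    ring
  · have h1 : l (1 - (u : Om) ^ 2 / (v : Om) ^ 2) = 0 := by rw [hl]; field_simp; ring
    have h2 := mb (1 - (u : Om) ^ 2 / (v : Om) ^ 2)
    rw [h1, sum_range_succ, sum_eq_zero fun i hi => by
      rw [zero_pow (by have := mem_range.1 hi; omega), mul_zero], ← hc.dg, hc.mo.coeff_natDegree,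
      hc.dg, val hA] at h2
    have h3 : ∀ a ∈ A, l a = -(v : Om) ^ 2 * (1 - (u : Om) ^ 2 / (v : Om) ^ 2 - a) := fun a _ => by
      rw [hl]; field_simp; ring
    rw [prod_congr rfl h3, prod_mul_distrib, prod_const, cA, (odd_two_mul_add_one g).neg_pow]
    refine mul_left_cancel₀ (pow_ne_zero (2 * g) G0) ?_
    simp only [Int.cast_one, Nat.sub_self] at h2
    linear_combination h2
  · have h0 : aeval ξ U = 0 := by rw [val hR, prod_eq_zero hξ (sub_self ξ)]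
    have h1 : aeval ξ (zK F ℚ_[2]) = aeval ξ V ^ 2 := by
      obtain ⟨y, hy⟩ := dU
      have := congrArg (aeval ξ) hy
      rwa [map_sub, map_mul, h0, zero_mul, map_pow, sub_eq_zero] at this
    refine ⟨h1, fun e => ?_⟩
    obtain ⟨a, b, hab⟩ := cU
    have := congrArg (aeval ξ) hab
    simp [h0, h1, e] at this

end Pool.Agent.MP_a43263_nt.K2
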