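import Pool.Agent.MP_a43263_nt.K2.Spec

/-! The forms attached to the descent image of the companion are split. -/

set_option autoImplicit false

noncomputable section

namespace Pool.Agent.MP_a43263_nt.K2

open Polynomial Finset Filter Matrix JC Pool.Agent.MP_a43263_nt.UV

namespace QstA

variable {K : Type} [Field K] {g : ℕ} {f F κ l : K[X]} {G : K}

/-- the polynomial of a vector, as a linear map -/
def poL (K : Type) [Field K] (n : ℕ) : (Fin n → K) →ₗ[K] K[X] where
  toFun := po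
  map_add' x y := by simp [po, add_mul, sum_add_distrib]
  map_smul' c x := by simp [po, smul_sum, smul_eq_C_mul, mul_assoc]

theorem low (hf : UV.Sq g f) (hl : l.natDegree ≤ 1) (hk : f ∣ κ * l - C G) {i : ℕ}
    (hi : i < 2 * g) : ta g f (l ^ (2 * g - 1) * κ ^ i) = 0 := by
  obtain ⟨j, hj⟩ : ∃ j, 2 * g - 1 = j + i := ⟨2 * g - 1 - i, by omega⟩
  have h1 : f ∣ l ^ (2 * g - 1) * κ ^ i - C (G ^ i) * l ^ j := by
    rw [hj, show l ^ (j + i) * κ ^ i - C (G ^ i) * l ^ j = l ^ j * ((κ * l) ^ i - C G ^ i) by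
      rw [C_pow]; ring]
    exact (hk.trans (sub_dvd_pow_sub_pow _ _ i)).mul_left _
  have h2 : (C (G ^ i) * l ^ j).natDegree < 2 * g := by
    refine (natDegree_C_mul_le _ _).trans_lt (natDegree_pow_le.trans_lt ?_)
    have := Nat.mul_le_mul_left j hl
    omega
  rw [ta_congr hf.monic h1, ta_of_lt hf.monic (degree_lt_degree (by rw [hf.deg]; omega)),
    coeff_eq_zero_of_natDegree_lt h2]

/-- the two linear forms have the same kernel -/
theorem key (hf : UV.Sq g f) (hF : UV.Sq g F) (hl : l.natDegree ≤ 1) (hk : f ∣ κ * l - C G)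
    (hs : Is f F κ) {P : K[X]} (hP : ta g F P = 0) :
    ta g f (l ^ (2 * g - 1) * P.comp κ) = 0 := by
  have h1 : f ∣ l ^ (2 * g - 1) * P.comp κ -
      l ^ (2 * g - 1) * (po (ve (2 * g + 1) F P)).comp κ := by
    rw [← mul_sub, ← sub_comp, po_ve hF.monic hF.deg]
    exact ((hs.ker _).2 (dvd_sub_mod P)).mul_left _
  rw [ta_congr hf.monic h1, po, Polynomial.sum_comp, mul_sum, ta_sum]
  refine sum_eq_zero fun i _ => ?_
  rw [mul_comp, C_comp, X_pow_comp, mul_left_comm, ta_C_mul]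
  by_cases hi : i.1 < 2 * g
  · rw [low hf hl hk hi, mul_zero]
  · have e : i.1 = 2 * g := by omega
    have : ve (2 * g + 1) F P i = 0 := by
      rw [ve, e]
      exact hP
    rw [this, zero_mul]

theorem main (hf : UV.Sq g f) (hF : UV.Sq g F) (hl : l.natDegree ≤ 1) (hk : f ∣ κ * l - C G)
    (hG : G ≠ 0) (hs : Is f F κ) {δ δ' : K[X]} (hd : f ∣ δ - δ'.comp κ)
    (h : IsoM g (Gm g F δ')) : IsoM g (Gm g f (δ * (-C G * l))) := by
  obtain ⟨S, hS, hz⟩ := h
  let Ψ : (Fin (2 * g + 1) → K) →ₗ[K] Fin (2 * g + 1) → K := LinearMap.pi fun i =>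
    lcoeff K i.1 ∘ₗ modByMonicHom f ∘ₗ LinearMap.mulLeft K (l ^ (g - 1)) ∘ₗ
      (aeval κ).toLinearMap ∘ₗ poL K (2 * g + 1)
  have e : ∀ z, po (Ψ z) = l ^ (g - 1) * (po z).comp κ %ₘ f := fun z =>
    po_ve hf.monic hf.deg _
  have cop : IsCoprime f l := by
    obtain ⟨t, ht⟩ := hk
    refine ⟨-C G⁻¹ * t, C G⁻¹ * κ, ?_⟩
    have : C G⁻¹ * C G = (1 : K[X]) := by rw [← C_mul, inv_mul_cancel₀ hG, C_1]
    linear_combination C G⁻¹ * ht + this
  have inj : Function.Injective Ψ := by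
    refine (injective_iff_map_eq_zero _).2 fun z h0 => po_inj hF.monic hF.deg ((hs.ker _).1 ?_)
    have h1 := e z
    rw [h0, show po (0 : Fin (2 * g + 1) → K) = 0 by simp [po]] at h1
    exact (cop.pow_right (n := g - 1)).dvd_of_dvd_mul_left
      ((modByMonic_eq_zero_iff_dvd hf.monic).1 h1.symm)
  refine ⟨S.map Ψ, ?_, ?_⟩
  · rwa [← (Submodule.equivMapOfInjective Ψ inj S).finrank_eq]
  · rintro _ ⟨z, hzS, rfl⟩
    have h1 := hz z hzS
    rw [Gm_form] at h1 ⊢
    have h2 := key hf hF hl hk hs h1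
    have h3 : f ∣ δ * (-C G * l) * po (Ψ z) * po (Ψ z) -
        C (-G) * (l ^ (2 * g - 1) * (δ' * po z * po z).comp κ) := by
      obtain ⟨t, ht⟩ := dvd_sub_mod (f := f) (l ^ (g - 1) * (po z).comp κ)
      obtain ⟨u, hu⟩ := hd
      have h4 : l ^ (2 * g - 1) = l * l ^ (g - 1) * l ^ (g - 1) := by
        have := hf.pos
        rw [← pow_succ', ← pow_add]
        congr 1
        omega
      rw [← e] at ht
      rw [h4, mul_comp, mul_comp, C_neg]
      generalize po (Ψ z) = x, (po z).comp κ = y, δ'.comp κ = d, l ^ (g - 1) = m, C G = c at *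
      exact ⟨δ * c * l * t * (m * y + x) - c * l * m ^ 2 * y ^ 2 * u, by
        linear_combination δ * c * l * (m * y + x) * ht - c * l * m ^ 2 * y ^ 2 * hu⟩
    rw [ta_congr hf.monic h3, ta_C_mul, h2, mul_zero]

end QstA

theorem qst_k : ISOStmt → QSTStmt := by
  rintro iso g f F κ u v G hf hc K _ _ δ ⟨δ', hw, hd⟩
  obtain ⟨hF, hs⟩ := iso g f F κ u v G hf hc
  have hl : (zK (el u v) K).natDegree ≤ 1 := by
    refine natDegree_map_le.trans ?_
    unfold el
    compute_degree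
  have hk : zK f K ∣ zK κ K * zK (el u v) K - C (G : K) := by
    simpa using Polynomial.map_dvd (Int.castRingHom K) hc.ka
  have e : zK (be u v G) K = -C (G : K) * zK (el u v) K := by simp [be]
  rw [e]
  exact QstA.main (hf.sq K) (hF.sq K) hl hk (Int.cast_ne_zero.2 hc.G0) (hs K) hd
    (UV.qs K g 1 _ δ' (hF.sq K) one_ne_zero hw)

end Pool.Agent.MP_a43263_nt.K2
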