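import Pool.Agent.MP_a43263_nt.K2.Ev2

/-! THEOREM R2: the ramified line at a prime of `Q`. -/

set_option autoImplicit false

noncomputable section

namespace Pool.Agent.MP_a43263_nt.K2

open Polynomial Finset Filter Matrix JC Pool.Agent.MP_a43263_nt.UV
open UV.Cmp (unit_iff iq_eval)

namespace Ram2A

open Ev2A

variable {p : ℕ} [Fact p.Prime] {g : ℕ} {f : ℤ[X]} {u v G : ℤ}

/-- the common root of `f` and of the linear form -/
theorem root (Z : Zq g f) (nm : Nm f (-el u v) = G) (uv : IsCoprime u v) (d1 : (p : ℤ) ∣ G) :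
    (v : ZMod p) ≠ 0 ∧ ∃ t : ZMod p, zK (el u v) (ZMod p) = C ((v : ZMod p) ^ 2) * (X - C t) ∧
      (zK f (ZMod p)).eval t = 0 := by
  have nc : ¬IsCoprime (zK (el u v) (ZMod p)) (zK f (ZMod p)) := fun c => by
    have := ((UV.gram.1 _ _ (Z.mo (ZMod p))).2.2.2.1 _).2 c.neg_left
    rw [← Polynomial.map_neg, (UV.gram.1 _ _ Z.monic).2.2.2.2.2, nm, eq_intCast,
      (ZMod.intCast_zmod_eq_zero_iff_dvd _ p).2 d1] at this
    exact not_isUnit_zero this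
  have v0 : (v : ZMod p) ≠ 0 := fun c => nc (by
    have := uv.map (Int.castRingHom (ZMod p))
    rw [eq_intCast, eq_intCast, c, isCoprime_zero_right] at this
    rw [el_eq, c, zero_pow two_ne_zero, C_0, zero_mul, zero_add, ← mul_one (C _)]
    exact (isCoprime_mul_unit_left_left (isUnit_C.2 (this.pow 2)) _ _).2 isCoprime_one_left)
  obtain ⟨t, ht⟩ : ∃ t : ZMod p, zK (el u v) (ZMod p) = C ((v : ZMod p) ^ 2) * (X - C t) :=
    ⟨1 - (u : ZMod p) ^ 2 / (v : ZMod p) ^ 2, by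
      rw [el_eq, C_sub, C_1, ← sub_add, mul_add, ← C_mul, mul_div_cancel₀ _ (pow_ne_zero 2 v0)]⟩
  rw [ht, isCoprime_mul_unit_left_left (isUnit_C.2 (pow_ne_zero 2 v0).isUnit), cop, not_not] at nc
  exact ⟨v0, t, ht, nc⟩

/-- the invariants of the marked class -/
theorem nf_be (Z : Zq g f) (ht : Ty p f) (nm : Nm f (-el u v) = G) (uv : IsCoprime u v)
    (d1 : (p : ℤ) ∣ G) (d2 : ¬(p : ℤ) ^ 2 ∣ G) : NF p f (zK (be u v G) ℚ_[p]) 0 1 := by
  obtain ⟨v0, t, e0, r0⟩ := root Z nm uv d1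
  obtain ⟨a, h, ha⟩ := hens p g f Z ht
  have dh : (rq p h).natDegree = 2 * g := by rw [ha.monic.natDegree_map, Cmp.deg Z ha]
  obtain rfl : t = 0 := by
    rw [Cmp.red ha, eval_mul, eval_X, mul_eq_zero] at r0
    refine r0.resolve_right fun c => ?_
    have : (rq p h).natDegree = 1 :=
      natDegree_eq_of_degree_eq_some (degree_eq_one_of_irreducible_of_root ha.irr c)
    omega
  have n1 : (G : ℤ_[p]) =
      -(zK (el u v) ℤ_[p]).eval a * Nm h (-zK (el u v) ℤ_[p]) := by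
    have := (UV.gram.1 _ _ Z.monic).2.2.2.2.2 ℤ_[p] (Int.castRingHom _) (-el u v)
    rw [nm, eq_intCast, Polynomial.map_neg] at this
    rw [← this, ← zK, ha.eq, (UV.gram.1 _ _ (monic_X_sub_C _)).2.2.2.2.1 _ ha.monic, Nm,
      natDegree_X_sub_C, resultant_X_sub_C_left _ _ _ le_rfl, eval_neg]
  have n2 : PadicInt.toZMod (Nm h (-zK (el u v) ℤ_[p])) =
      ((-(v : ZMod p) ^ 2) ^ g) ^ 2 * (rq p h).eval 0 := by
    obtain ⟨k1, -, k3, -⟩ := UV.gram.1 _ _ (ha.monic.map (PadicInt.toZMod (p := p)))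
    rw [← (UV.gram.1 _ _ ha.monic).2.2.2.2.2, Polynomial.map_neg, zK_map, e0, ← neg_mul, ← C_neg,
      k1, k3, dh, Nm, natDegree_X_sub_C, resultant_X_sub_C_right _ _ _ le_rfl, dh, ← pow_mul,
      mul_comm g, pow_mul (-1 : ZMod p), neg_one_sq, one_pow, one_mul]
  have s0 : (-(v : ZMod p) ^ 2) ^ g ≠ 0 := pow_ne_zero _ (neg_ne_zero.2 (pow_ne_zero _ v0))
  have c0 : (zK (el u v) ℤ_[p]).eval a ≠ 0 := fun c => d2 (by
    rw [c, neg_zero, zero_mul, Int.cast_eq_zero] at n1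
    simp [n1])
  obtain ⟨G', rfl⟩ := d1
  have g0 : (G' : ZMod p) ≠ 0 := fun c => d2 (by
    rw [pow_two]
    exact mul_dvd_mul_left _ ((ZMod.intCast_zmod_eq_zero_iff_dvd _ p).1 c))
  have := cmp p g f a h (zK (be u v (p * G')) ℚ_[p]) (Nm h (-zK (el u v) ℤ_[p]))
    ((zK (el u v) ℤ_[p]).eval a : ℤ_[p]) 1 (zK (-C G') ℤ_[p] * zK (el u v) ℤ_[p]) 0 Z ha
    (by rw [unit_iff, n2]; exact mul_ne_zero (pow_ne_zero _ s0) ha.ne)
    (PadicInt.coe_ne_zero.2 c0) (by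
      rw [← iq_zK, iq_eval, ← PadicInt.coe_pow, ← PadicInt.coe_mul, be, zK, Polynomial.map_mul,
        Polynomial.map_neg, map_C, eq_intCast, n1, eval_mul, eval_neg, eval_C]
      congr 1
      simp only [zK]
      ring)
    (by rw [n2, mul_comm, Cmp.isSquare_mul s0]; exact iff_of_true ha.sq rfl)
    ⟨0, by
      rw [iq, Polynomial.map_mul, zK_map, zK_map]
      simp [be, zK, mul_assoc]⟩
    (fun hh => ha.ne (by
      rw [rq, rq, Polynomial.map_mul, zK_map, zK_map, e0, zK, Polynomial.map_neg, map_C,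
        eq_intCast, ← C_neg, (isUnit_C.2 (neg_ne_zero.2 g0).isUnit).dvd_mul_left,
        (isUnit_C.2 (pow_ne_zero 2 v0).isUnit).dvd_mul_left, C_0, sub_zero] at hh
      rw [← coeff_zero_eq_eval_zero, ← X_dvd_iff]
      exact ha.irr.dvd_symm irreducible_X hh))
  rwa [Int.cast_one] at this

end Ram2A

open Ram2A in
theorem ram2_k : WTStmt → QSTStmt → RAM2Stmt := by
  intro wt qst p _ g f F κ u v G δ s y hp hf ht cp uv d1 d2 hW hN
  have hp2 : p ≠ 2 := by omega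
  have hs := hf.sq ℚ_[p]
  obtain ⟨w1, w2, -, w4, -⟩ := wt g f F κ u v G hf cp ℚ_[p]
  have key : ∀ δ₀ s₀, Wt (zK f ℚ_[p]) (zK F ℚ_[p]) (zK κ ℚ_[p]) δ₀ →
      NF p f (δ₀ * zK (be u v G) ℚ_[p]) s₀ 1 → s₀ = 0 := by
    intro δ₀ s₀ h1 h2
    obtain ⟨c1, c2⟩ := w1 _ (w2 _ _ h1 w4)
    have c3 := qst g f F κ u v G hf cp _ δ₀ h1
    generalize δ₀ * zK (be u v G) ℚ_[p] = δ₁ at h2 c1 c2 c3
    obtain ⟨σ, hsy⟩ := JC.T.symb.2 p
    have g1 := (gram.2 ℚ_[p] g _ hs).1 δ₁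
    have g2 := ((gram.1 ℚ_[p] _ hs.monic).2.2.2.1 δ₁).2 c1
    obtain ⟨e, e1, e2⟩ := diag ℚ_[p] (Ne.isUnit two_ne_zero) _ _ (Gm_symm δ₁)
      (g1 ▸ (isUnit_neg_one.pow g).mul g2)
    refine (locq gram diag hinv pad hens p g f δ₁ σ e s₀ hp hf ht hsy e1 c2 h2).1 ?_
    rw [(hinv ℚ_[p] σ hsy.1).2 g _ e e1 (fun i => (e2 i).ne_zero) c3
      (by rw [g1, ← mul_assoc, ← mul_pow]; simpa using c2)]
    refine prod_eq_one fun i _ => prod_eq_one fun j _ => ?_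
    simpa using ((pad.1 p hp2).2 σ hsy).1 ((-1) ^ i.1) ((-1) ^ j.1) (isUnit_neg_one.pow _)
      (isUnit_neg_one.pow _)
  have hT := nf_be hf ht cp.nm uv d1 d2
  have ad := (nfm p g f hf).2.2.2 hp2 ht
  have hM := ad _ _ _ _ _ _ hN hT
  rcases (by decide : ∀ y : ZMod 2, y = 0 ∨ y = 1) y with rfl | rfl
  · rw [zero_add, add_zero] at hM
    exact key _ _ hW hM
  · have := ad _ _ _ _ _ _ hM hT
    rw [add_zero, add_zero, show (1 + 1 + 1 : ZMod 2) = 1 from rfl] at this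
    exact key _ _ (w2 _ _ hW w4) this

end Pool.Agent.MP_a43263_nt.K2
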