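import Pool.Agent.MP_a43263_nt.K2.Spec

/-! THEOREM R2: one real root. -/

set_option autoImplicit false

noncomputable section

namespace Pool.Agent.MP_a43263_nt.K2

open Polynomial Finset Filter Matrix JC Pool.Agent.MP_a43263_nt.UV

namespace RealA

theorem glue {K : Type} [Field K] {φ h δ : K[X]} (c : IsCoprime φ h) (h1 : Sqm φ δ) (h2 : Sqm h δ) :
    Sqm (φ * h) δ := by
  obtain ⟨z₁, y₁, e₁⟩ := h1
  obtain ⟨z₂, y₂, e₂⟩ := h2
  obtain ⟨a, b, e⟩ := id c
  refine ⟨z₂ * a * φ + z₁ * b * h, c.mul_dvd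
    ⟨y₁ - (z₂ - z₁) * a * (z₂ * a * φ + z₁ * b * h + z₁), ?_⟩
    ⟨y₂ - (z₁ - z₂) * b * (z₂ * a * φ + z₁ * b * h + z₂), ?_⟩⟩
  · linear_combination e₁ - z₁ * (z₂ * a * φ + z₁ * b * h + z₁) * e
  · linear_combination e₂ - z₂ * (z₂ * a * φ + z₁ * b * h + z₂) * e

theorem irr {φ : ℝ[X]} (m : φ.Monic) (i : Irreducible φ) (n : ∀ a, φ.eval a ≠ 0) (δ : ℝ[X]) :
    Sqm φ δ := by
  obtain ⟨z, hz⟩ := IsAlgClosed.exists_aeval_eq_zero ℂ φ (degree_pos_of_irreducible i).ne'
  have im : z.im ≠ 0 := fun c => n z.re (by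
    have e : z = algebraMap ℝ ℂ z.re := Complex.ext (by simp) (by simpa using c)
    rw [e, aeval_algebraMap_apply, coe_aeval_eq_eval] at hz
    exact (map_eq_zero _).1 hz)
  obtain ⟨s, hs⟩ := IsAlgClosed.exists_pow_nat_eq (aeval z δ) two_pos
  refine ⟨C (s.im / z.im) * X + C (s.re - s.im / z.im * z.re), ?_⟩
  rw [minpoly.eq_of_irreducible_of_monic i hz m]
  refine minpoly.dvd _ _ ?_
  have e : aeval z (C (s.im / z.im) * X + C (s.re - s.im / z.im * z.re)) = s := by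
    rw [map_add, map_mul, aeval_C, aeval_C, aeval_X]
    refine Complex.ext ?_ ?_
    · simp only [Complex.coe_algebraMap, Complex.add_re, Complex.re_ofReal_mul, Complex.ofReal_re]
      ring
    · simp only [Complex.coe_algebraMap, Complex.add_im, Complex.im_ofReal_mul, Complex.ofReal_im]
      field_simp
      ring
  rw [map_sub, map_pow, e, hs, sub_self]

theorem all (δ : ℝ[X]) (n : ℕ) : ∀ h : ℝ[X], h.natDegree = n → h.Monic → Squarefree h →
    (∀ a, h.eval a ≠ 0) → Sqm h δ := by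
  induction n using Nat.strong_induction_on with
  | _ n ih =>
    intro h hn hm hs hr
    by_cases e : h = 1
    · exact ⟨0, e ▸ one_dvd _⟩
    obtain ⟨φ, a, b, h', rfl⟩ := exists_monic_irreducible_factor h fun c => e (hm.eq_one_of_isUnit c)
    have m : h'.Monic := a.of_mul_monic_left hm
    have d := a.natDegree_mul m
    obtain ⟨c, -, s⟩ := squarefree_mul_iff.1 hs
    simp only [eval_mul] at hr
    exact glue c.isCoprime (irr a b (fun x => left_ne_zero_of_mul (hr x)) δ)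
      (ih h'.natDegree (by have := b.natDegree_pos; omega) h' rfl m s
        fun x => right_ne_zero_of_mul (hr x))

theorem sqm {F δ : ℝ[X]} (m : F.Monic) (s : Squarefree F) (hi : ∀ x, 0 < (derivative F).eval x)
    (hc : IsCoprime δ F) (hn : IsSquare (Nm F δ)) : Sqm F δ := by
  by_cases e : ∀ a, F.eval a ≠ 0
  · exact all δ _ F rfl m s e
  push Not at e
  obtain ⟨a, ha⟩ := e
  have mono : StrictMono fun x => F.eval x := strictMono_of_deriv_pos fun x => by
    rw [Polynomial.deriv]; exact hi x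
  obtain ⟨h, rfl⟩ := dvd_iff_isRoot.2 ha
  have mh : h.Monic := (monic_X_sub_C a).of_mul_monic_left m
  obtain ⟨c, -, sh⟩ := squarefree_mul_iff.1 s
  have h1 : Sqm h δ := all δ _ h rfl mh sh fun b hb => by
    obtain rfl : b = a := mono.injective (by simp [hb])
    exact not_isUnit_X_sub_C b (c dvd_rfl (dvd_iff_isRoot.2 hb))
  refine glue c.isCoprime ?_ h1
  obtain ⟨-, n2, n3, -, n5, -⟩ := gram.1 ℝ _ (monic_X_sub_C a)
  obtain ⟨k1, k2, -, k4, -, -⟩ := gram.1 ℝ _ mh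
  obtain ⟨z, hz⟩ := h1
  have h2 : 0 < Nm h δ := by
    refine lt_of_le_of_ne ?_ ((k4 δ).2 hc.of_mul_right_right).ne_zero.symm
    rw [k2 _ _ hz, sq, k1]
    exact mul_self_nonneg _
  rw [n5 h mh, n2 δ (C (δ.eval a)) X_sub_C_dvd_sub_C_eval, n3, natDegree_X_sub_C, pow_one] at hn
  have h3 : 0 ≤ δ.eval a := nonneg_of_mul_nonneg_left hn.nonneg h2
  exact ⟨C √(δ.eval a), by rw [← C_pow, Real.sq_sqrt h3]; exact X_sub_C_dvd_sub_C_eval⟩

end RealA

theorem real_k : WSQStmt → REALStmt := fun wsq g f δ hz hi hc hn =>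
  wsq ℝ _ 1 δ (wg gram ℝ g 1 _ (hz.sq ℝ) one_ne_zero).1 hc (by
    rw [one_mul]
    exact RealA.sqm (hz.mo ℝ) (hz.sq ℝ).sep.squarefree hi hc hn)

end Pool.Agent.MP_a43263_nt.K2
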