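import Pool.Agent.MP_a43263_nt.K2.Spec

/-! THEOREM R2: reduced bases for a triple. -/

set_option autoImplicit false

noncomputable section

namespace Pool.Agent.MP_a43263_nt.K2

open Polynomial Finset Filter Matrix JC Pool.Agent.MP_a43263_nt.UV

namespace RedA

open CountOf

theorem hq_neg {n : ℕ} (H : Matrix (Fin n) (Fin n) ℝ) (γ : UC.Mz n) (p : Fin n) :
    UC.Hq H ((-γ)ᵀ p) = UC.Hq H (γᵀ p) := by
  simp [UC.Hq, dotProduct, mulVec]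

theorem herm1 (g : ℕ) : ∃ C : ℝ, 0 < C ∧ ∀ H : Mat g ℝ, H.PosDef → ∃ γ γ' : Mat g ℤ, γ * γ' = 1 ∧
    γ.det = 1 ∧ Monotone (fun p => UC.Hq H (γᵀ p)) ∧ ∏ p, UC.Hq H (γᵀ p) ≤ C * H.det := by
  obtain ⟨C, C0, hC⟩ := UC.herm (2 * g + 1)
  refine ⟨C, C0, fun H h => ?_⟩
  obtain ⟨γ, γ', a, b, c⟩ := hC H h
  rcases Int.isUnit_iff.1 (isUnit_det_of_right_inverse a) with d | d
  · exact ⟨γ, γ', a, d, b, c⟩
  · refine ⟨-γ, -γ', by rw [Matrix.neg_mul, Matrix.mul_neg, neg_neg, a], ?_, ?_, ?_⟩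
    · rw [det_neg, d, Fintype.card_fin, pow_succ, pow_mul]; simp
    · simpa only [hq_neg] using b
    · simpa only [hq_neg] using c

theorem entry {n : ℕ} (B β γ : UC.Mz n) (p q : Fin n) :
    (βᵀ * B * γ) p q = βᵀ p ⬝ᵥ B *ᵥ γᵀ q := by
  rw [Matrix.mul_assoc]
  rfl

/-- one form -/
theorem one (g : ℕ) : ∃ κ : ℕ, ∀ (ρ : ℝ) (k : ℕ) (A T : Mat g ℤ) (H : Mat g ℝ), IsUnit A.det →
    Maj (ρ ^ 2) (mK A ℝ) (mK T ℝ) H → 0 ≤ ρ → ρ ≤ 2 ^ k →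
    ∃ (γ γ' : Mat g ℤ) (e : Fin (2 * g + 1) → ℤ), γ * γ' = 1 ∧ γ.det = 1 ∧ UC.Ex e ∧
      UC.Box ((2 * κ : ℕ) : ℤ) e (γᵀ * A * γ) ∧
      (∀ p, 0 ≤ UC.Hq H (γᵀ p) ∧ √(UC.Hq H (γᵀ p)) ≤ (2 : ℝ) ^ ((κ : ℤ) + e p)) ∧
      ∀ M, Dst M (ρ ^ 2) A T H → Zb (γᵀ * A * γ) (γ' * T * γ) →
        M ≤ (2 : ℝ) ^ (((g * κ : ℕ) : ℤ) + dp k e) := by
  obtain ⟨C, hC0, hC⟩ := herm1 g
  obtain ⟨κ, hκ⟩ := UC.dy (2 * g + 1) √C
  refine ⟨κ, fun ρ k A T H hA hM hρ hk => ?_⟩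
  obtain ⟨γ, γ', hγ, d1, hm, hp⟩ := hC H hM.pos
  have h0 : ∀ p, 0 < UC.Hq H (γᵀ p) := fun p => by
    have h1 : (fun i => ((γᵀ p i : ℤ) : ℝ)) ≠ 0 := fun h => by
      have h2 : ∀ i, γ i p = 0 := fun i => Int.cast_eq_zero.1 (congrFun h i)
      have h3 : (γ' * γ) p p = (1 : Mat g ℤ) p p := by rw [mul_eq_one_comm.1 hγ]
      simp [mul_apply, h2] at h3
    simpa [UC.Hq] using hM.pos.dotProduct_mulVec_pos h1
  have hb0 : ∀ p q, |((γᵀ * A * γ) p q : ℝ)| ≤ √(UC.Hq H (γᵀ p)) * √(UC.Hq H (γᵀ q)) :=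
    fun p q => by
    refine abs_le_of_sq_le_sq ?_ (by positivity)
    rw [entry, mul_pow, Real.sq_sqrt (h0 p).le, Real.sq_sqrt (h0 q).le, cast_form]
    exact hM.cs _ _
  have hγ0 : γ.det ≠ 0 := d1 ▸ one_ne_zero
  have hdet : (γᵀ * A * γ).det ≠ 0 := by
    rw [det_mul, det_mul, det_transpose]
    exact mul_ne_zero (mul_ne_zero hγ0 hA.ne_zero) hγ0
  obtain ⟨e, h1, h2⟩ := hκ (γᵀ * A * γ) (fun p => √(UC.Hq H (γᵀ p))) hdet
    (fun p => Real.sqrt_pos.2 (h0 p)) (fun p q h => Real.sqrt_le_sqrt (hm h))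
    (by
      rw [← Real.sqrt_prod _ fun p _ => (h0 p).le]
      refine Real.sqrt_le_sqrt (hp.trans ?_)
      exact mul_le_of_le_one_right hC0.le hM.det)
    hb0
  have hc : γᵀ * A * γ * (γ' * T * γ) = γᵀ * (A * T) * γ := by
    simpa using UC.Red.conj_pow (A := A) (T := T) hγ 1
  have b0 : UC.Box ((2 * κ : ℕ) : ℤ) e (γᵀ * A * γ) := fun p q => by
    refine (hb0 p q).trans ?_
    calc _ ≤ (2 : ℝ) ^ ((κ : ℤ) + e p) * 2 ^ ((κ : ℤ) + e q) := by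
          gcongr
          exacts [h2 p, h2 q]
      _ = _ := by
        rw [← zpow_add₀ two_ne_zero]
        congr 1
        push_cast
        ring
  refine ⟨γ, γ', e, hγ, d1, h1, b0, fun p => ⟨(h0 p).le, h2 p⟩, fun M hD hd => ?_⟩
  have hli : LinearIndependent ℤ fun i : Fin g => γᵀ (UC.lo i) := by
    have h3 : LinearIndependent ℤ fun p => γᵀ p :=
      linearIndependent_rows_of_det_ne_zero (by rwa [det_transpose])
    exact h3.comp UC.lo fun i j h => Fin.ext (congrArg Fin.val h :)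
  have h4 := hD (fun i => γᵀ (UC.lo i)) hli fun i j => by
    rw [← entry, ← entry, ← hc]
    exact hd i j
  refine (abs_le_of_sq_le_sq' (h4.trans ?_) (by positivity)).2
  have h5 : ∀ i : Fin g, UC.Hq H (γᵀ (UC.lo i)) ≤ ((2 : ℝ) ^ ((κ : ℤ) + e (UC.lo i))) ^ 2 :=
    fun i => by
    rw [← Real.sq_sqrt (h0 _).le]
    exact pow_le_pow_left₀ (Real.sqrt_nonneg _) (h2 _) 2
  have hz : ∀ (s : Finset (Fin g)) (t : Fin g → ℤ),
      (2 : ℝ) ^ (∑ x ∈ s, t x) = ∏ x ∈ s, (2 : ℝ) ^ t x := by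
    intro s t
    induction s using Finset.induction_on with
    | empty => simp
    | insert a s ha ih => rw [sum_insert ha, prod_insert ha, zpow_add₀ (by norm_num), ih]
  calc (ρ ^ 2) ^ (g * (g + 1)) * ∏ i : Fin g, UC.Hq H (γᵀ (UC.lo i))
      ≤ ((2 ^ k) ^ 2) ^ (g * (g + 1)) * ∏ i : Fin g, ((2 : ℝ) ^ ((κ : ℤ) + e (UC.lo i))) ^ 2 :=
        mul_le_mul (pow_le_pow_left₀ (sq_nonneg _) (pow_le_pow_left₀ hρ hk _) _)
          (prod_le_prod (fun i _ => (h0 _).le) fun i _ => h5 i)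
          (prod_nonneg fun i _ => (h0 _).le) (by positivity)
    _ = _ := by
      have a : (((2 : ℝ) ^ k) ^ 2) ^ (g * (g + 1)) = (2 ^ ((2 * k * UC.tri g : ℕ) : ℤ)) ^ 2 := by
        rw [zpow_natCast, ← two_tri, ← pow_mul, ← pow_mul, ← pow_mul]
        congr 1
        ring
      rw [prod_pow, ← hz, a, ← mul_pow, ← zpow_add₀ two_ne_zero, sum_add_distrib, dp]
      congr 2
      simp
      ring

end RedA

open RedA in
theorem red_k : CHGStmt → REDStmt := by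
  intro chg g
  obtain ⟨κ, hκ⟩ := one g
  refine ⟨2 * κ, fun M ρ k A A' N H H' hA hA' hM hD hD' hρ hk => ?_⟩
  obtain ⟨γ, γ', e, a1, a2, a3, a4, a5, a6⟩ := hκ ρ k A _ H hA hM.h hρ hk
  obtain ⟨β, β', e', b1, b2, b3, b4, b5, b6⟩ := hκ ρ k A' _ H' hA' hM.h' hρ hk
  refine ⟨γ, β, e, e', a2, b2, a3, b3, a4, b4, fun p q => ?_, fun z => ?_, fun z => ?_⟩
  · calc |((βᵀ * N * γ) p q : ℝ)| ≤ ρ * (√(UC.Hq H' (βᵀ p)) * √(UC.Hq H (γᵀ q))) := by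
          refine abs_le_of_sq_le_sq ?_ (by positivity)
          rw [entry, mul_pow, mul_pow, Real.sq_sqrt (b5 p).1, Real.sq_sqrt (a5 q).1,
            CountOf.cast_form]
          exact hM.jn _ _
      _ ≤ (2 : ℝ) ^ k * ((2 : ℝ) ^ ((κ : ℤ) + e' p) * 2 ^ ((κ : ℤ) + e q)) := by
          gcongr
          exacts [(b5 p).2, (a5 q).2]
      _ = _ := by
        rw [← zpow_natCast, ← zpow_add₀ two_ne_zero, ← zpow_add₀ two_ne_zero]
        congr 1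
        push_cast
        ring
  · rw [chg.1 _ A A' N γ γ' β hA hA' a1 (b2 ▸ isUnit_one)] at z
    refine (a6 M hD z).trans (zpow_le_zpow_right₀ one_le_two ?_)
    have : g * κ ≤ g * (2 * κ) := Nat.mul_le_mul_left g (by omega)
    omega
  · rw [transpose_mul, transpose_mul, transpose_transpose, ← Matrix.mul_assoc,
      chg.1 _ A' A Nᵀ β β' γ hA' hA b1 (a2 ▸ isUnit_one)] at z
    have := b6 ((2 : ℝ) ^ (((g * κ : ℕ) : ℤ) + dp k e') + 1) (hD' _ (by positivity)) z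
    linarith

end Pool.Agent.MP_a43263_nt.K2
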