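import Pool.Agent.MP_a43263_nt.K2.Spec

/-! THEOREM R2, row SHA: the 2-primary part of the Tate-Shafarevich group vanishes. -/

set_option autoImplicit false

noncomputable section

namespace Pool.Agent.MP_a43263_nt.K2

open Polynomial Finset Filter Matrix JC Pool.Agent.MP_a43263_nt.UV

namespace ShaA

open JC.Sha

variable {ι : Type} [Fintype ι] {g : ℕ} {f : ℚ[X]} {a : ι → Qbar}

theorem cover (h : Cv g a (fK f Qbar)) {π : GQ → ι → ι} (hπ : ∀ σ i, σ (a i) = a (π σ i))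
    (iv : ∀ σ i, π σ (π σ⁻¹ i) = i) {u : GQ → ι → Qbar} (u2 : ∀ σ i, u σ i ^ 2 = 1)
    {r : ι → Qbar} (r0 : ∀ i, r i ≠ 0) (hr : ∀ (σ : GQ) i, σ (r i) = u σ (π σ i) * r (π σ i))
    {de : ℚ[X]} (hd : ∀ i, (fK de Qbar).eval (a i) = r i ^ 2) (hw : Wc 1 f de) :
    ∃ R : Jac f Qbar, ∀ σ : GQ, Z a _ (jac f σ R - R).toMul ⊤ (u σ) := by
  obtain ⟨-, U, V, s, h1, h2, h3, w, h4⟩ := hw
  have ec : ∀ φ : ℚ →+* Qbar, φ = Rat.castHom Qbar := fun φ => RingHom.ext_rat _ _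
  have h' : Cv g a (f.map (algebraMap ℚ Qbar)) := ec (algebraMap _ _) ▸ h
  have n0 : ∀ i, (fK U Qbar).eval (a i) ≠ 0 := fun i => by
    have := (UM.cop_iff h').1 h3 i
    rwa [ec (algebraMap _ _)] at this
  have dv : fK U Qbar ∣ fK f Qbar - fK V Qbar ^ 2 := by
    have := Polynomial.map_dvd (Rat.castHom Qbar) h2
    rwa [C_1, one_mul, Polynomial.map_sub, Polynomial.map_pow] at this
  obtain ⟨R0, hR0⟩ := JC.T.half Qbar ι g _ _ h (cl (MI _ (fK U Qbar) (fK V Qbar)))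
  obtain ⟨ρ, z, hρ⟩ := UM.z_mum h (R := Additive.ofMul R0) (h1.map _) dv n0 hR0
  have n : ∀ i, ρ i ≠ 0 := fun i => ne_of_sq (hρ i) (mul_ne_zero (by simp) (n0 i))
  have e1 : ∀ i, r i ^ 2 * ρ i ^ 2 = (fK s Qbar).eval (a i) ^ 2 := fun i => by
    have := congrArg (fun p => (fK p Qbar).eval (a i)) h4
    simp only [fK, Polynomial.map_sub, Polynomial.map_mul, Polynomial.map_pow, eval_sub, eval_mul,
      eval_pow, hd, (UM.root_iff h _).2 ⟨i, rfl⟩, zero_mul, map_C, eval_C, map_pow, map_neg,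
      map_one, Polynomial.map_neg, Polynomial.map_one, eval_neg, eval_one] at this
    rw [hρ, nb, natDegree_map]
    exact sub_eq_zero.1 this
  have s0 : ∀ i, (fK s Qbar).eval (a i) ≠ 0 := fun i =>
    ne_of_sq (e1 i).symm (mul_ne_zero (pow_ne_zero _ (r0 i)) (pow_ne_zero _ (n i)))
  have e2 : ∀ i, ((fK s Qbar).eval (a i) / r i / ρ i) ^ 2 = 1 := fun i => by
    rw [div_div, div_pow, mul_pow, e1, div_self (pow_ne_zero _ (s0 i))]
  obtain ⟨ε, hε⟩ : ∃ ε, ε = ∏ i, (fK s Qbar).eval (a i) / r i / ρ i := ⟨_, rfl⟩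
  have e3 : ε ^ 2 = 1 := by rw [hε, ← prod_pow, prod_eq_one fun i _ => e2 i]
  obtain ⟨T, hT⟩ := (JC.T.zt Qbar ι g _ _ h).2
    (fun i => ε * ((fK s Qbar).eval (a i) / r i / ρ i))
    (fun i => by rw [mul_pow, e3, e2, one_mul])
    (by rw [prod_mul_distrib, prod_const, card_univ, h.card, ← hε, pow_succ, pow_mul, e3, one_pow,
      one_mul, ← sq, e3])
  have z1 := UM.z_add h z (R' := Additive.ofMul T) hT
  have e4 : ∀ i, ρ i * (ε * ((fK s Qbar).eval (a i) / r i / ρ i)) =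
      ε * ((fK s Qbar).eval (a i) / r i) := fun i => by
    have := n i
    field_simp
  simp only [e4] at z1
  refine ⟨Additive.ofMul R0 + Additive.ofMul T, fun σ => ?_⟩
  have z2 := UM.z_map h (σ : Qbar →+* Qbar) (b := a)
    (η := fun i => ε * ((fK s Qbar).eval (a i) / (u σ i * r i))) z1 fun i =>
      ⟨π σ⁻¹ i, by rw [RingHom.coe_coe, hπ, iv], by
        rw [map_mul, map_sign _ e3, map_div₀, ← eval₂_at_apply, ← eval_map, fK_map,
          RingHom.coe_coe, hπ, hr, iv]⟩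
  rw [mi_map, fK_map, fK_map] at z2
  have e5 : u σ = fun i => ε * ((fK s Qbar).eval (a i) / (u σ i * r i)) /
      (ε * ((fK s Qbar).eval (a i) / r i)) := funext fun i => by
    have := ne_of_sq e3 one_ne_zero
    have := r0 i
    have := s0 i
    have := ne_of_sq (u2 σ i) one_ne_zero
    field_simp
    exact u2 σ i
  rw [e5]
  exact UM.z_sub h z1 z2

theorem core (h : Cv g a (fK f Qbar)) (h0 : UM.Sq g f) (H : ∀ δ, Els f δ → Wc 1 f δ)
    {c : GQ → Jac f Qbar} (hc : c ∈ Z1 (jac f)) (h2 : ∀ σ, 2 • c σ = 0) (hr : JLoc f ℝ c)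
    (hp : ∀ (p : ℕ) [Fact p.Prime], JLoc f ℚ_[p] c) : ∃ R, ∀ σ, c σ = jac f σ R - R := by
  obtain ⟨π, hπ, p1, pm⟩ := UM.exists_perm h
  have iv : ∀ σ i, π σ (π σ⁻¹ i) = i := fun σ i => by rw [← pm, mul_inv_cancel, p1]
  have iv' : ∀ σ i, π σ⁻¹ (π σ i) = i := fun σ i => by rw [← pm, inv_mul_cancel, p1]
  choose u hu using fun σ => UM.z_ex h (h2 σ)
  have u2 := fun σ => (UM.z_top h (hu σ)).2
  have act : ∀ (σ : GQ) {T : Jac f Qbar} {η : ι → Qbar}, Z a _ T.toMul ⊤ η →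
      Z a _ (jac f σ T).toMul ⊤ fun i => η (π σ⁻¹ i) := fun σ T η z => by
    have := UM.z_map h (σ : Qbar →+* Qbar) (b := a) (η := fun i => η (π σ⁻¹ i)) z fun i =>
      ⟨π σ⁻¹ i, by rw [RingHom.coe_coe, hπ, iv], (map_sign _ ((UM.z_top h z).2 _)).symm⟩
    rwa [Ideal.map_top] at this
  have um : ∀ σ τ i, u (σ * τ) (π σ i) = u σ (π σ i) * u τ i := fun σ τ i => by
    have h1 := UM.z_add h (hu σ) (act σ (hu τ))
    rw [← hc.2] at h1
    rw [UM.z_unique h h1 (hu _), iv']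
  obtain ⟨L, hL, hL'⟩ := exists_level c hc.1
  obtain ⟨r, hr'⟩ := UM.h90p π p1 pm u u2 um L fun σ hσ i => by
    have e := um 1 1 i
    rw [mul_one, p1] at e
    have k := hu σ
    rw [hL' σ hσ] at k
    rw [UM.z_unique h (hu 1) k i]
    exact mul_left_cancel₀ (ne_of_sq (u2 1 i) one_ne_zero) (by rw [← e, mul_one])
  have ec : ∀ φ : ℚ →+* Qbar, φ = Rat.castHom Qbar := fun φ => RingHom.ext_rat _ _
  have k2 : ∀ (σ : GQ) i, σ (r i ^ 2) = r (π σ i) ^ 2 := fun σ i => by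
    rw [map_pow, (hr' i).2 σ, mul_pow, u2, one_mul]
  obtain ⟨de, hd'⟩ := UM.interp (K := ℚ) (z := fun i => r i ^ 2) h.inj fun σ =>
    ⟨π σ, fun i => ⟨hπ σ i, k2 σ i⟩⟩
  have hd : ∀ i, (fK de Qbar).eval (a i) = r i ^ 2 := fun i =>
    (congrArg (fun φ => (de.map φ).eval (a i)) (ec _)).symm.trans (hd' i)
  have h' : Cv g a (f.map (algebraMap ℚ Qbar)) := ec (algebraMap _ _) ▸ h
  have cp : IsCoprime de f := (UM.cop_iff h').2 fun i => by
    rw [ec (algebraMap _ _), hd]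
    exact pow_ne_zero _ (hr' i).1
  have lc : ∀ (K : Type) [Field K] [CharZero K], JLoc f K c → Wc 1 (fK f K) (fK de K) := by
    intro K _ _ hK
    obtain ⟨U, V, z, h1, h2, h3, h4⟩ :=
      UM.loc h h0 hπ (fun σ i => ⟨_, iv σ i⟩) hu (fun σ i => (hr' i).2 σ) hd K hK
    refine ⟨cp.map (mapRingHom (Rat.castHom K)), U, V, z, h1, ?_, h3, ?_⟩
    · rwa [C_1, one_mul]
    · rwa [← mul_assoc]
  obtain ⟨R, hR⟩ := cover h hπ iv u2 (fun i => (hr' i).1) (fun σ i => (hr' i).2 σ) hd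
    (H de ⟨lc ℝ hr, fun p _ => lc _ (hp p)⟩)
  exact ⟨R, fun σ => UM.z_inj h (hR σ) (hu σ)⟩

end ShaA

theorem sha_k : SHAStmt := by
  intro g f h0 H
  obtain ⟨a, h⟩ := UM.exists_cv (F := fK f Qbar) h0.pos (h0.monic.map _)
    ((h0.monic.natDegree_map _).trans h0.deg) h0.sep.map
  refine JC.Sha.sha_two (UM.stab h) (fun P => ?_) fun c hc h2 hr hp =>
    ShaA.core h ⟨h0.monic, h0.deg, h0.sep.squarefree⟩ H hc h2 hr hp
  obtain ⟨R, hR⟩ := JC.T.half Qbar _ g _ _ h P.toMul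
  exact ⟨Additive.ofMul R, congrArg Additive.ofMul hR⟩

end Pool.Agent.MP_a43263_nt.K2
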