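import Pool.Agent.MP_a43263_nt.K2.SpecC

/-! THEOREM R2: the shift lemma. -/

set_option autoImplicit false

noncomputable section

namespace Pool.Agent.MP_a43263_nt.K2

open Finset Filter

namespace ShfA

theorem wl {α : Type} [DecidableEq α] {K : Finset α} {Φ : α → α} {G : α → ℝ} {B : ℝ}
    (inj : Function.Injective Φ) (h1 : ∀ x ∈ K, |G x| ≤ B) (h2 : ∀ x ∈ K, |G (Φ x)| ≤ B) :
    |∑ x ∈ K, G (Φ x) - ∑ x ∈ K, G x| ≤ 2 * (B * (K \ K.filter fun x => Φ x ∈ K).card) := by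
  have hK := filter_subset (fun x => Φ x ∈ K) K
  have hI : (K.filter fun x => Φ x ∈ K).image Φ ⊆ K :=
    image_subset_iff.2 fun x hx => (mem_filter.1 hx).2
  generalize (K.filter fun x => Φ x ∈ K) = K' at hK hI
  have e1 := sum_sdiff (f := fun x => G (Φ x)) hK
  have e2 := sum_sdiff (f := G) hI
  rw [sum_image inj.injOn] at e2
  have b : ∀ (T : Finset α) (f : α → ℝ), (∀ x ∈ K, |f x| ≤ B) →
      |∑ x ∈ K \ T, f x| ≤ B * (K \ T).card := fun T f hf => by
    refine (abs_sum_le_sum_abs _ _).trans ?_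
    rw [mul_comm, ← nsmul_eq_mul]
    exact sum_le_card_nsmul _ _ _ fun x hx => hf x (mem_sdiff.1 hx).1
  have b1 := b K' _ h2
  have b2 := b (K'.image Φ) _ h1
  rw [card_sdiff_of_subset hI, card_image_of_injective _ inj, ← card_sdiff_of_subset hK] at b2
  have e6 : ∑ x ∈ K, G (Φ x) - ∑ x ∈ K, G x =
      ∑ x ∈ K \ K', G (Φ x) - ∑ x ∈ K \ K'.image Φ, G x := by linarith
  rw [e6]
  exact (abs_sub _ _).trans (by linarith)

theorem sum_xp (g : ℕ) : ∑ i : Fin (2 * g + 1), xp g i.1 = (2 * g + 1) ^ 2 := by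
  have h : ∀ n : ℕ, ∑ i ∈ range n, 2 * (i + 1) = n * (n + 1) := fun n => by
    induction n with
    | zero => rfl
    | succ n ih => rw [sum_range_succ, ih]; ring
  rw [Fin.sum_univ_eq_sum_range (xp g), sum_range_succ,
    sum_congr (g := fun i => 2 * (i + 1)) rfl fun i hi => by
      rw [xp, if_neg (mem_range.1 hi).ne], h, xp,
    if_pos rfl]
  ring

theorem strip (g k : ℕ) (τ : Vec g) (δ : ℝ) (hk : 1 ≤ k) (hδ : 0 ≤ δ)
    (h : ∀ i, |(τ i : ℝ)| ≤ δ * (k : ℝ) ^ xp g i.1) :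
    ((bx g k \ (bx g k).filter fun x => x + τ ∈ bx g k).card : ℝ) ≤
      (2 * g + 1) * (3 ^ (2 * g + 1) * δ * vol g k) := by
  let S : Fin (2 * g + 1) → Finset ℤ := fun i =>
    Icc (ce g k i.1 - (k : ℤ) ^ xp g i.1) (ce g k i.1 + (k : ℤ) ^ xp g i.1)
  let s : Fin (2 * g + 1) → Finset ℤ := fun i =>
    Ico (ce g k i.1 - (k : ℤ) ^ xp g i.1) (ce g k i.1 - (k : ℤ) ^ xp g i.1 + (τ i).natAbs) ∪
      Ioc (ce g k i.1 + (k : ℤ) ^ xp g i.1 - (τ i).natAbs) (ce g k i.1 + (k : ℤ) ^ xp g i.1)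
  have k1 : ∀ n : ℕ, (1 : ℝ) ≤ (k : ℝ) ^ n := fun n => one_le_pow₀ (by exact_mod_cast hk)
  have hS : ∀ i, ((S i).card : ℝ) ≤ 3 * (k : ℝ) ^ xp g i.1 := fun i => by
    have : (S i).card = 2 * k ^ xp g i.1 + 1 := by
      simp only [S, Int.card_Icc]
      rw [← Nat.cast_pow]
      omega
    rw [this]
    push_cast
    linarith [k1 (xp g i.1)]
  have hs : ∀ i, ((s i).card : ℝ) ≤ δ * (3 * (k : ℝ) ^ xp g i.1) := fun i => by
    have : (s i).card ≤ 2 * (τ i).natAbs := by
      refine (card_union_le _ _).trans ?_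
      simp only [Int.card_Ico, Int.card_Ioc]
      omega
    have a : ((s i).card : ℝ) ≤ 2 * |(τ i : ℝ)| := by
      rw [← Int.cast_abs, ← Nat.cast_natAbs]
      exact_mod_cast this
    have b := h i
    have c := abs_nonneg (τ i : ℝ)
    linarith
  have sub : (bx g k \ (bx g k).filter fun x => x + τ ∈ bx g k) ⊆
      univ.biUnion fun i => Fintype.piFinset (Function.update S i (s i)) := by
    intro c hc
    obtain ⟨h1, h2⟩ := mem_sdiff.1 hc
    rw [mem_filter, not_and, mem_bx (w := c + τ)] at h2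
    obtain ⟨i, hi⟩ := not_forall.1 (h2 h1)
    have h3 : ∀ j, c j ∈ S j := Fintype.mem_piFinset.1 h1
    refine mem_biUnion.2 ⟨i, mem_univ _, Fintype.mem_piFinset.2 fun j => ?_⟩
    by_cases e : j = i
    · subst e
      have := mem_Icc.1 (h3 j)
      rw [Function.update_self]
      simp only [s, mem_union, mem_Ico, mem_Ioc]
      rw [Pi.add_apply] at hi
      omega
    · rw [Function.update_of_ne e]; exact h3 j
  have e : ∏ i : Fin (2 * g + 1), 3 * (k : ℝ) ^ xp g i.1 = 3 ^ (2 * g + 1) * vol g k := by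
    rw [prod_mul_distrib, prod_const, card_univ, Fintype.card_fin, prod_pow_eq_pow_sum, sum_xp, vol]
  refine (Nat.cast_le.2 ((card_le_card sub).trans card_biUnion_le)).trans ?_
  rw [Nat.cast_sum]
  refine (sum_le_card_nsmul _ _ (3 ^ (2 * g + 1) * δ * vol g k) fun i _ => ?_).trans
    (by rw [card_univ, Fintype.card_fin, nsmul_eq_mul]; push_cast; exact le_rfl)
  rw [Fintype.card_piFinset, Nat.cast_prod, ← mul_prod_erase _ _ (mem_univ i), Function.update_self,
    mul_right_comm, ← e, ← mul_prod_erase _ _ (mem_univ i), mul_comm _ δ, ← mul_assoc]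
  refine mul_le_mul (hs i) (prod_le_prod (fun _ _ => Nat.cast_nonneg _) fun j hj => ?_)
    (prod_nonneg fun _ _ => Nat.cast_nonneg _) (by positivity)
  rw [Function.update_of_ne (ne_of_mem_erase hj)]
  exact hS j

end ShfA

open ShfA in
theorem shf_k : SHStmt := by
  intro g
  refine ⟨2 * (2 * g + 1) * 3 ^ (2 * g + 1), by positivity, fun k K σ F B δ hk hδ hσ hF => ?_⟩
  rw [sum_comm, ← nsmul_eq_mul, ← nsmul_eq_mul, ← card_range K, ← sum_const, card_range,
    ← sum_sub_distrib]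
  refine (abs_sum_le_sum_abs _ _).trans ((sum_le_card_nsmul _ _ _ fun i hi => ?_).trans
    (by rw [card_range]))
  have hi := mem_range.1 hi
  have h0 : ∀ w ∈ bx g k, |F w| ≤ B := fun w hw => by simpa using hF w hw 0 (by omega)
  have hB : 0 ≤ B := (abs_nonneg _).trans (h0 (fun i => ce g k i.1) (mem_bx.2 fun i => by
    have : (0 : ℤ) ≤ (k : ℤ) ^ xp g i.1 := by positivity
    constructor <;> linarith))
  refine (wl (Φ := fun w => w + (i : ℤ) • σ) (add_left_injective _) h0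
    fun w hw => hF w hw i hi).trans ?_
  have := strip g k ((i : ℤ) • σ) δ hk hδ fun j => le_trans (by
    rw [Pi.smul_apply, smul_eq_mul, Int.cast_mul, abs_mul, Int.cast_natCast, Nat.abs_cast]
    exact mul_le_mul_of_nonneg_right (Nat.cast_le.2 hi.le) (abs_nonneg _)) (hσ j)
  have := mul_le_mul_of_nonneg_left this hB
  linarith

end Pool.Agent.MP_a43263_nt.K2
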