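import Pool.Agent.MP_a43263_nt.K2.SpecC

/-! THEOREM R2: sizes of the values. -/

set_option autoImplicit false

noncomputable section

namespace Pool.Agent.MP_a43263_nt.K2

open Finset Filter

namespace SizA

theorem sum_near {n : ℕ} (f : Fin n → ℤ) (i₀ : Fin n) {B : ℤ} (hB : 0 ≤ B)
    (h : ∀ i, i ≠ i₀ → |f i| ≤ B) : |∑ i, f i - f i₀| ≤ n * B := by
  rw [← add_sum_erase univ f (mem_univ i₀), add_sub_cancel_left]
  refine (abs_sum_le_sum_abs _ _).trans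
    ((sum_le_card_nsmul _ _ B fun i hi => h i (ne_of_mem_erase hi)).trans ?_)
  rw [nsmul_eq_mul]
  refine mul_le_mul_of_nonneg_right ?_ hB
  exact_mod_cast (card_le_univ _).trans (Fintype.card_fin n).le

variable {g k : ℕ} {w : Vec g}

theorem abs_le8 (hw : w ∈ bx g k) (i : Fin (2 * g + 1)) : |w i| ≤ 8 * (k : ℤ) ^ xp g i.1 := by
  obtain ⟨a, b⟩ := mem_bx.1 hw i
  have : (0 : ℤ) ≤ (k : ℤ) ^ xp g i.1 := by positivity
  unfold ce at a b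
  rw [abs_le]
  split_ifs at a b <;> constructor <;> linarith

theorem big (hw : w ∈ bx g k) (i : Fin (2 * g + 1)) (h : Odd i.1 ∨ i.1 = 2 * g) :
    6 * (k : ℤ) ^ xp g i.1 ≤ w i ∧ w i ≤ 8 * (k : ℤ) ^ xp g i.1 := by
  obtain ⟨a, b⟩ := mem_bx.1 hw i
  rw [ce, if_pos h] at a b
  constructor <;> linarith

theorem tm (hw : w ∈ bx g k) {u v : ℤ} (hu : 1 ≤ u) (hv : 0 ≤ v) (hP : 1 ≤ (k : ℤ) * v)
    (i : Fin (2 * g + 1)) (hi : i.1 ≠ 2 * g) {j n : ℕ} (hj : j ≤ 2 * g + 1) (hn : 2 * (i.1 + 1) ≤ n) :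
    |sv w i * (-u ^ 2) ^ j * (v ^ 2) ^ (i.1 + 1)| ≤ 8 * (((k : ℤ) * v) ^ n * u ^ (4 * g + 2)) := by
  have a := abs_le8 hw i
  rw [xp, if_neg hi] at a
  have b : |(-u ^ 2) ^ j| ≤ u ^ (4 * g + 2) := by
    rw [abs_pow, abs_neg, abs_of_nonneg (sq_nonneg u), ← pow_mul]
    exact pow_le_pow_right₀ hu (by omega)
  have c : (k : ℤ) ^ (2 * (i.1 + 1)) * v ^ (2 * (i.1 + 1)) ≤ ((k : ℤ) * v) ^ n := by
    rw [← mul_pow]
    exact pow_le_pow_right₀ hP hn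
  have d : (0 : ℤ) ≤ v ^ (2 * (i.1 + 1)) := by positivity
  have e : (0 : ℤ) ≤ u ^ (4 * g + 2) := by positivity
  rw [sv, if_neg hi, abs_mul, abs_mul, ← pow_mul v, abs_of_nonneg d]
  calc |w i| * |(-u ^ 2) ^ j| * v ^ (2 * (i.1 + 1))
      ≤ 8 * (k : ℤ) ^ (2 * (i.1 + 1)) * u ^ (4 * g + 2) * v ^ (2 * (i.1 + 1)) := by gcongr
    _ = 8 * ((k : ℤ) ^ (2 * (i.1 + 1)) * v ^ (2 * (i.1 + 1)) * u ^ (4 * g + 2)) := by ring
    _ ≤ _ := by gcongr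

theorem gv (hw : w ∈ bx g k) {u v : ℤ} (hu : 1 ≤ u) (hv : 1 ≤ v) (hk : 1 ≤ (k : ℤ))
    (hU : (16 * g + 9) * u ^ (4 * g + 2) ≤ k) :
    35 * ((k : ℤ) * v) ^ (4 * g + 2) ≤ Gv w u v ∧ Gv w u v ≤ 65 * ((k : ℤ) * v) ^ (4 * g + 2) := by
  have hP : 1 ≤ (k : ℤ) * v := one_le_mul_of_one_le_of_one_le hk hv
  have hQ : 1 ≤ ((k : ℤ) * v) ^ (4 * g) := one_le_pow₀ hP
  have hU0 : (0 : ℤ) ≤ u ^ (4 * g + 2) := by positivity
  have h1 := sum_near (fun i : Fin (2 * g + 1) =>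
      sv w i * (-u ^ 2) ^ (2 * g - i.1) * (v ^ 2) ^ (i.1 + 1)) (Fin.last _)
    (B := 8 * (((k : ℤ) * v) ^ (4 * g) * u ^ (4 * g + 2))) (by positivity) fun i hi => by
      have : i.1 < 2 * g := Fin.val_lt_last hi
      exact tm hw hu (by omega) hP i this.ne (by omega) (by omega)
  obtain ⟨a, b⟩ := big hw (Fin.last _) (Or.inr rfl)
  simp only [Fin.val_last, Nat.sub_self, pow_zero, mul_one, sv, if_true, xp] at h1 a b
  have h2 : (-u ^ 2) ^ (2 * g + 1) = -u ^ (4 * g + 2) := by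
    rw [Odd.neg_pow ⟨g, rfl⟩, ← pow_mul]; congr 2; ring
  have h3 : ((k : ℤ) * v) ^ (4 * g + 2) = ((k : ℤ) ^ (2 * g + 1)) ^ 2 * (v ^ 2) ^ (2 * g + 1) := by
    rw [mul_pow, ← pow_mul, ← pow_mul]; congr 2 <;> ring
  have h4 : (16 * g + 9) * (((k : ℤ) * v) ^ (4 * g) * u ^ (4 * g + 2)) ≤
      ((k : ℤ) * v) ^ (4 * g + 2) := by
    have : (k : ℤ) ≤ ((k : ℤ) * v) ^ 2 := by nlinarith
    calc _ = ((k : ℤ) * v) ^ (4 * g) * ((16 * g + 9) * u ^ (4 * g + 2)) := by ring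
      _ ≤ ((k : ℤ) * v) ^ (4 * g) * ((k : ℤ) * v) ^ 2 := by gcongr; exact hU.trans this
      _ = _ := by rw [← pow_add]
  have h5 : u ^ (4 * g + 2) ≤ ((k : ℤ) * v) ^ (4 * g) * u ^ (4 * g + 2) := le_mul_of_one_le_left hU0 hQ
  have k0 : (0 : ℤ) ≤ (k : ℤ) ^ (2 * g + 1) := by positivity
  have v0 : (0 : ℤ) ≤ (v ^ 2) ^ (2 * g + 1) := by positivity
  have h6 : 36 * ((k : ℤ) * v) ^ (4 * g + 2) ≤ w (Fin.last _) ^ 2 * (v ^ 2) ^ (2 * g + 1) := by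
    rw [h3, ← mul_assoc]
    exact mul_le_mul_of_nonneg_right (by nlinarith) v0
  have h7 : w (Fin.last _) ^ 2 * (v ^ 2) ^ (2 * g + 1) ≤ 64 * ((k : ℤ) * v) ^ (4 * g + 2) := by
    rw [h3, ← mul_assoc]
    exact mul_le_mul_of_nonneg_right (by nlinarith) v0
  obtain ⟨c, d⟩ := abs_le.1 h1
  push_cast at c d
  simp only [Gv, sv, h2]
  constructor <;> linarith

theorem gx (hg : 1 ≤ g) (hw : w ∈ bx g k) {u v : ℤ} (hu : 1 ≤ u) (hv : 1 ≤ v) (hk : 1 ≤ (k : ℤ))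
    (hU : (2 * g + 1) * (16 * g + 1) * u ^ (4 * g + 2) ≤ k) (hV : 9 * v ^ (4 * g) ≤ k) :
    0 < Gx w u v ∧ Gx w u v ≤ (k : ℤ) ^ (4 * g + 1) := by
  have hP : 1 ≤ (k : ℤ) * v := one_le_mul_of_one_le_of_one_le hk hv
  have hQ : 1 ≤ ((k : ℤ) * v) ^ (4 * g - 2) := one_le_pow₀ hP
  have hU0 : (0 : ℤ) ≤ u ^ (4 * g + 2) := by positivity
  have lt : 2 * g - 1 < 2 * g + 1 := by omega
  have h1 := sum_near (fun i : Fin (2 * g + 1) => ((2 * g - i.1 : ℕ) : ℤ) * sv w i *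
      (-u ^ 2) ^ (2 * g - i.1 - 1) * (v ^ 2) ^ (i.1 + 1)) ⟨2 * g - 1, lt⟩
    (B := 2 * g * (8 * (((k : ℤ) * v) ^ (4 * g - 2) * u ^ (4 * g + 2)))) (by positivity)
    fun i hi => by
      by_cases e : i.1 = 2 * g
      · simp only [e, Nat.sub_self, Nat.cast_zero, zero_mul, abs_zero]
        positivity
      have n : i.1 ≠ 2 * g - 1 := fun c => hi (Fin.ext c)
      have := i.2
      rw [mul_assoc, mul_assoc, abs_mul, ← mul_assoc (sv w i), Nat.abs_cast]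
      refine mul_le_mul ?_ (tm hw hu (by omega) hP i e (by omega) (by omega)) (abs_nonneg _)
        (by positivity)
      exact_mod_cast Nat.sub_le _ _
  obtain ⟨a, b⟩ := big hw ⟨2 * g - 1, lt⟩ (Or.inl ⟨g - 1, by simp only; omega⟩)
  have e1 : 2 * g - 1 ≠ 2 * g := by omega
  have e2 : 2 * (2 * g - 1 + 1) = 4 * g := by omega
  have e3 : 2 * g - (2 * g - 1) = 1 := by omega
  simp only [xp, if_neg e1, e2] at a b
  have e4 : ((2 * g - (2 * g - 1) : ℕ) : ℤ) * sv w ⟨2 * g - 1, lt⟩ *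
      (-u ^ 2) ^ (2 * g - (2 * g - 1) - 1) * (v ^ 2) ^ (2 * g - 1 + 1) =
        w ⟨2 * g - 1, lt⟩ * v ^ (4 * g) := by
    rw [e3, ← pow_mul, e2, sv]
    simp only [if_neg e1]
    simp
  simp only [e4] at h1
  have h2 : (0 : ℤ) ≤ (-u ^ 2) ^ (2 * g) := Even.pow_nonneg ⟨g, by ring⟩ _
  have h3 : (-u ^ 2) ^ (2 * g) ≤ ((k : ℤ) * v) ^ (4 * g - 2) * u ^ (4 * g + 2) := by
    rw [Even.neg_pow ⟨g, by ring⟩, ← pow_mul]
    exact (pow_le_pow_right₀ hu (by omega)).trans (le_mul_of_one_le_left hU0 hQ)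
  have h4 : (2 * g + 1) * (16 * g + 1) * (((k : ℤ) * v) ^ (4 * g - 2) * u ^ (4 * g + 2)) ≤
      (k : ℤ) ^ (4 * g) * v ^ (4 * g) := by
    have : (k : ℤ) ≤ ((k : ℤ) * v) ^ 2 := by nlinarith
    calc _ = ((k : ℤ) * v) ^ (4 * g - 2) * ((2 * g + 1) * (16 * g + 1) * u ^ (4 * g + 2)) := by ring
      _ ≤ ((k : ℤ) * v) ^ (4 * g - 2) * ((k : ℤ) * v) ^ 2 := by gcongr; exact hU.trans this
      _ = _ := by rw [← pow_add, ← mul_pow]; congr 1; omega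
  have v0 : (0 : ℤ) < v ^ (4 * g) := by positivity
  have k0 : (0 : ℤ) < (k : ℤ) ^ (4 * g) := by positivity
  have h5 := mul_le_mul_of_nonneg_right a v0.le
  have h6 := mul_le_mul_of_nonneg_right b v0.le
  have h7 := mul_le_mul_of_nonneg_left hV k0.le
  have h8 := mul_le_mul_of_nonneg_left h3 (show (0 : ℤ) ≤ 2 * g + 1 by positivity)
  have h9 := mul_nonneg (show (0 : ℤ) ≤ 2 * g + 1 by positivity) h2
  have h10 := mul_pos k0 v0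
  obtain ⟨c, d⟩ := abs_le.1 h1
  push_cast at c d
  rw [Gx, pow_succ (k : ℤ)]
  constructor <;> nlinarith

theorem small {a n k u : ℕ} (h : (a : ℝ) * Real.log k ^ (7 * n) ≤ k) (hu : Sm k u) :
    (a : ℤ) * (u : ℤ) ^ n ≤ k := by
  have : (a : ℝ) * (u : ℝ) ^ n ≤ k := by
    refine le_trans ?_ h
    rw [pow_mul]
    exact mul_le_mul_of_nonneg_left (pow_le_pow_left₀ (Nat.cast_nonneg _) hu.2 n) (Nat.cast_nonneg _)
  exact_mod_cast this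

end SizA

theorem siz_k : SIZStmt := by
  intro g hg
  filter_upwards [eventually_ge_atTop 1, ev_log_le ((16 * g + 9 : ℕ) : ℝ) (7 * (4 * g + 2)),
    ev_log_le (((2 * g + 1) * (16 * g + 1) : ℕ) : ℝ) (7 * (4 * g + 2)),
    ev_log_le ((9 : ℕ) : ℝ) (7 * (4 * g))] with k h1 h2 h3 h4 w hw u v hu hv
  have a := SizA.small h2 hu
  have b := SizA.small h3 hu
  have c := SizA.small h4 hv
  push_cast at a b c
  have u1 : (1 : ℤ) ≤ u := by exact_mod_cast hu.1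
  have v1 : (1 : ℤ) ≤ v := by exact_mod_cast hv.1
  have k1 : (1 : ℤ) ≤ k := by exact_mod_cast h1
  obtain ⟨d, e⟩ := SizA.gv hw u1 v1 k1 a
  exact ⟨d, e, SizA.gx hg hw u1 v1 k1 b c⟩

end Pool.Agent.MP_a43263_nt.K2
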