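import Pool.Agent.MP_a43263_nt.K2.Spec

/-! Row SUMS: sums over the admissible pairs of types. -/

set_option autoImplicit false

noncomputable section

namespace Pool.Agent.MP_a43263_nt.K2

open Polynomial Finset Filter Matrix JC Pool.Agent.MP_a43263_nt.UV

namespace SumsA

theorem prod_le {α ι : Type} [Fintype ι] [DecidableEq ι] (E : Finset α) (φ : α → ι → ℕ) (B : ℕ)
    (inj : Set.InjOn φ E) (hB : ∀ e ∈ E, ∀ i, φ e i < B) (w : ℕ → ℝ) (hw : ∀ a, 0 ≤ w a) :
    ∑ e ∈ E, ∏ i, w (φ e i) ≤ (∑ a ∈ range B, w a) ^ Fintype.card ι := by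
  rw [← card_univ, ← prod_const, prod_univ_sum,
    ← sum_image (f := fun p : ι → ℕ => ∏ i, w (p i)) inj]
  refine sum_le_sum_of_subset_of_nonneg (fun p hp => ?_) fun p _ _ => prod_nonneg fun i _ => hw _
  obtain ⟨e, he, rfl⟩ := mem_image.1 hp
  exact Fintype.mem_piFinset.2 fun i => mem_range.2 (hB e he i)

theorem geo {r : ℝ} (h0 : 0 ≤ r) (h1 : r < 1) (B : ℕ) : ∑ a ∈ range B, r ^ a ≤ (1 - r)⁻¹ := by
  have := geom_sum_Ico_le_of_lt_one (x := r) (m := 0) (n := B) h0 h1
  rwa [pow_zero, one_div, ← range_eq_Ico] at this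

theorem full {r : ℝ} (h0 : 0 ≤ r) (h1 : r < 1) (G k : ℕ) :
    ∑ a ∈ range (G * k + 1), r ^ min a k ≤ (G + 2) * (1 - r)⁻¹ := by
  have h2 : ∑ a ∈ range (G * k + 1), r ^ min a k ≤ ∑ a ∈ range (G * k + 1), (r ^ a + r ^ k) :=
    sum_le_sum fun a _ => by
      rcases min_choice a k with h | h <;> rw [h]
      · exact le_add_of_nonneg_right (by positivity)
      · exact le_add_of_nonneg_left (by positivity)
  rw [sum_add_distrib, sum_const, card_range, nsmul_eq_mul] at h2
  have h3 := geo h0 h1 (G * k + 1)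
  have h4 : ((k + 1 : ℕ) : ℝ) * r ^ k ≤ (1 - r)⁻¹ := by
    refine le_trans ?_ (geo h0 h1 (k + 1))
    have := card_nsmul_le_sum (range (k + 1)) (fun a => r ^ a) (r ^ k) fun a ha =>
      pow_le_pow_of_le_one h0 h1.le (Nat.lt_succ_iff.1 (mem_range.1 ha))
    rwa [card_range, nsmul_eq_mul] at this
  have h5 : (0 : ℝ) ≤ r ^ k := by positivity
  have h6 : (0 : ℝ) ≤ G := Nat.cast_nonneg _
  have h7 : (0 : ℝ) ≤ k := Nat.cast_nonneg _
  push_cast at h2 h4
  have h8 := mul_le_mul_of_nonneg_left h4 (show (0 : ℝ) ≤ G + 1 by positivity)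
  have h9 := mul_nonneg h6 h5
  have h10 := mul_nonneg h7 h5
  nlinarith

theorem half_le {D s : ℕ} (h : 2 * s ≤ D) : (2 : ℝ) ^ (-(D : ℤ)) ≤ (3 / 4) ^ D / 2 ^ s := by
  rw [_root_.zpow_neg, _root_.zpow_natCast, ← inv_pow, div_eq_mul_one_div _ ((2 : ℝ) ^ s),
    ← _root_.one_div_pow,
    show (2⁻¹ : ℝ) ^ D = (3 / 4) ^ D * (2 / 3) ^ D by rw [← mul_pow]; norm_num]
  refine mul_le_mul_of_nonneg_left ((pow_le_pow_of_le_one (by norm_num) (by norm_num)
    h).trans ?_) (by positivity)
  rw [pow_mul]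
  exact pow_le_pow_left₀ (by norm_num) (by norm_num) s

variable {g k : ℕ} {e e' : Fin (2 * g + 1) → ℤ}

theorem stp (h : Adm2 k e e') : UC.Stp (2 * k) e ∧ UC.Stp (2 * k) e' := by
  refine ⟨fun p q hq => ?_, fun p q hq => ?_⟩ <;>
  · have h1 := abs_le.1 (h.c1 p)
    have h2 := abs_le.1 (h.c1 q)
    have h3 := h.c2 p q hq
    push_cast
    omega

theorem le' (h : Adm2 k e e') (d : ℕ) : ∀ p : Fin (2 * g + 1), p.1 + d + 1 = g →
    -e' p ≤ (d * (2 * k) + k : ℕ) := by
  induction d with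
  | zero =>
    intro p hp
    have h3 := h.c3
    simp only [Dp, not_forall, not_lt] at h3
    obtain ⟨i, hi⟩ := h3
    have h1 := h.ex'.1 (show UC.lo i ≤ p from Fin.le_def.2 (by
      have := i.2
      simp only [UC.lo]
      omega))
    push_cast
    omega
  | succ d ih =>
    intro p hp
    have h1 := ih ⟨p.1 + 1, by omega⟩ (by simp only; omega)
    have h2 := (stp h).2 p ⟨p.1 + 1, by omega⟩ rfl
    push_cast at h1 h2 ⊢
    linarith

theorem le'' (h : Adm2 k e e') (i : Fin g) : -e' (UC.lo i) + k ≤ ((g - i) * (2 * k) : ℕ) := by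
  have hi := i.2
  have h1 := le' h (g - i - 1) (UC.lo i) (by simp only [UC.lo]; omega)
  obtain ⟨d, hd⟩ : ∃ d, g - i = d + 1 := ⟨g - i - 1, by omega⟩
  rw [hd] at h1 ⊢
  rw [Nat.add_sub_cancel] at h1
  push_cast at h1 ⊢
  linarith

theorem dp_eq : dp k e = ∑ i : Fin g, ((((g - i) * (2 * k) : ℕ) : ℤ) + e (UC.lo i)) := by
  rw [dp, sum_add_distrib, ← Nat.cast_sum, ← sum_mul, UC.Sum.tri_eq, mul_comm]

end SumsA

open SumsA

theorem sums_k : SUMStmt := by
  intro g hg
  obtain ⟨r, r0, r1, rg⟩ : ∃ r : ℝ, 0 ≤ r ∧ r < 1 ∧ r ^ (g + g) = 3 / 4 := by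
    refine ⟨(3 / 4 : ℝ) ^ (((g + g : ℕ) : ℝ)⁻¹), by positivity, ?_,
      Real.rpow_inv_natCast_pow (by norm_num) (by omega)⟩
    exact Real.rpow_lt_one (by norm_num) (by norm_num)
      (inv_pos.2 (Nat.cast_pos.2 (by omega)))
  have rp : 0 < (1 - r)⁻¹ := inv_pos.2 (by linarith)
  refine ⟨(((2 * g : ℕ) + 2) * (1 - r)⁻¹) ^ (g + g) + 8 ^ (g + g), by positivity, fun k E hE => ?_⟩
  have hc : Fintype.card (Fin g ⊕ Fin g) = g + g := by simp
  refine ⟨fun s hs => ?_, fun x hx => ?_, fun s hs => ?_⟩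
  · let a : (Fin (2 * g + 1) → ℤ) × (Fin (2 * g + 1) → ℤ) → Fin g ⊕ Fin g → ℕ := fun x =>
      Sum.elim (fun i => (-x.1 (UC.lo i)).toNat) fun i => (-x.2 (UC.lo i)).toNat
    have ha : ∀ x ∈ E, ∀ i, (a x (.inl i) : ℤ) = -x.1 (UC.lo i) := fun x hx i =>
      Int.toNat_of_nonneg (UC.Sum.nonneg (hE x hx).ex i)
    have ha' : ∀ x ∈ E, ∀ i, (a x (.inr i) : ℤ) = -x.2 (UC.lo i) := fun x hx i =>
      Int.toNat_of_nonneg (UC.Sum.nonneg (hE x hx).ex' i)
    have inj : Set.InjOn a E := fun x hx y hy h => Prod.ext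
      (UC.Sum.ext (hE x hx).ex (hE y hy).ex fun i => by
        have h1 := ha x hx i
        rw [h, ha y hy i] at h1
        omega)
      (UC.Sum.ext (hE x hx).ex' (hE y hy).ex' fun i => by
        have h1 := ha' x hx i
        rw [h, ha' y hy i] at h1
        omega)
    have hB : ∀ x ∈ E, ∀ i, a x i < 2 * g * k + 1 := fun x hx i => by
      have h0 : g * (2 * k) = 2 * g * k := by ring
      rcases i with i | i
      · have h1 := UC.Sum.le (hE x hx).ex (stp (hE x hx)).1 i
        have h2 := UC.Sum.le' (k := 2 * k) i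
        have h3 := ha x hx i
        omega
      · have h1 := UC.Sum.le (hE x hx).ex' (stp (hE x hx)).2 i
        have h2 := UC.Sum.le' (k := 2 * k) i
        have h3 := ha' x hx i
        omega
    have e2 : ∀ x ∈ E, (2 : ℝ) ^ (-gn k x.1 x.2) ≤ (∏ i, r ^ min (a x i) k) / 2 ^ s :=
      fun x hx => by
        have h1 := hs x hx
        obtain ⟨D, hD⟩ := Int.eq_ofNat_of_zero_le (show 0 ≤ gn k x.1 x.2 by omega)
        rw [hD] at h1 ⊢
        refine (half_le (s := s) (by omega)).trans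
          (div_le_div_of_nonneg_right ?_ (by positivity))
        rw [← rg, ← pow_mul, mul_comm, pow_mul, ← hc, ← card_univ, ← prod_const]
        refine prod_le_prod (fun _ _ => by positivity) fun i _ =>
          pow_le_pow_of_le_one r0 r1.le ?_
        rw [gn] at hD
        rcases i with i | i
        · have h3 := ha x hx i
          have h4 := (hE x hx).ex.1 (Fin.zero_le (UC.lo i))
          omega
        · have h3 := ha' x hx i
          have h4 := (hE x hx).ex'.1 (Fin.zero_le (UC.lo i))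
          omega
    refine (sum_le_sum e2).trans ?_
    rw [← sum_div]
    refine div_le_div_of_nonneg_right ((prod_le E a _ inj hB (fun x => r ^ min x k)
      fun _ => by positivity).trans ?_) (by positivity)
    rw [hc]
    exact (pow_le_pow_left₀ (sum_nonneg fun _ _ => by positivity) (full r0 r1 (2 * g) k) _).trans
      (le_add_of_nonneg_right (by positivity))
  · rw [dp_eq]
    refine sum_nonneg fun i _ => ?_
    have h1 := UC.Sum.le (hE x hx).ex (stp (hE x hx)).1 i
    omega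
  · let t : (Fin (2 * g + 1) → ℤ) × (Fin (2 * g + 1) → ℤ) → Fin g ⊕ Fin g → ℕ := fun x =>
      Sum.elim (fun i => ((((g - i) * (2 * k) : ℕ) : ℤ) + x.1 (UC.lo i)).toNat)
        fun i => ((((g - i) * (2 * k) : ℕ) : ℤ) - k + x.2 (UC.lo i)).toNat
    have ht : ∀ x ∈ E, ∀ i, (t x (.inl i) : ℤ) = ((g - i) * (2 * k) : ℕ) + x.1 (UC.lo i) :=
      fun x hx i => Int.toNat_of_nonneg (by
        have h1 := UC.Sum.le (hE x hx).ex (stp (hE x hx)).1 i
        omega)
    have ht' : ∀ x ∈ E, ∀ i, (t x (.inr i) : ℤ) = ((g - i) * (2 * k) : ℕ) - k + x.2 (UC.lo i) :=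
      fun x hx i => Int.toNat_of_nonneg (by
        have h1 := le'' (hE x hx) i
        omega)
    have inj : Set.InjOn t E := fun x hx y hy h => Prod.ext
      (UC.Sum.ext (hE x hx).ex (hE y hy).ex fun i => by
        have h1 := ht x hx i
        rw [h, ht y hy i] at h1
        omega)
      (UC.Sum.ext (hE x hx).ex' (hE y hy).ex' fun i => by
        have h1 := ht' x hx i
        rw [h, ht' y hy i] at h1
        omega)
    have hB : ∀ x ∈ E, ∀ i, t x i < g * (2 * k) + 1 := fun x hx i => by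
      rcases i with i | i
      · have h1 := UC.Sum.nonneg (hE x hx).ex i
        have h2 := UC.Sum.le' (k := 2 * k) i
        have h3 := ht x hx i
        omega
      · have h1 := UC.Sum.nonneg (hE x hx).ex' i
        have h2 := UC.Sum.le' (k := 2 * k) i
        have h3 := ht' x hx i
        omega
    have e2 : ∀ x ∈ E, (2 : ℝ) ^ (-dp k x.1) ≤ (∏ i, (7 / 8 : ℝ) ^ t x i) / 2 ^ s :=
      fun x hx => by
        have h1 := hs x hx
        have hD : dp k x.1 = (∑ i, t x (.inl i) : ℕ) := by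
          rw [dp_eq, Nat.cast_sum]
          exact sum_congr rfl fun i _ => (ht x hx i).symm
        have h2 : ∑ i, t x (.inr i) ≤ ∑ i, t x (.inl i) := sum_le_sum fun i _ => by
          have h3 := ht x hx i
          have h4 := ht' x hx i
          have h5 := abs_le.1 ((hE x hx).c1 (UC.lo i))
          omega
        rw [hD] at h1 ⊢
        refine (half_le (s := s) (by omega)).trans
          (div_le_div_of_nonneg_right ?_ (by positivity))
        rw [prod_pow_eq_pow_sum, Fintype.sum_sum_type]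
        generalize ∑ i, t x (.inl i) = D at h2 ⊢
        refine le_trans ?_ (pow_le_pow_of_le_one (by norm_num) (by norm_num)
          (Nat.add_le_add_left h2 D))
        rw [← two_mul, pow_mul]
        exact pow_le_pow_left₀ (by norm_num) (by norm_num) D
    refine (sum_le_sum e2).trans ?_
    rw [← sum_div]
    refine div_le_div_of_nonneg_right ((prod_le E t _ inj hB (fun x => (7 / 8 : ℝ) ^ x)
      fun _ => by positivity).trans ?_) (by positivity)
    rw [hc]
    refine (pow_le_pow_left₀ (sum_nonneg fun _ _ => by positivity) ?_ _).trans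
      (le_add_of_nonneg_left (by positivity))
    exact (geo (by norm_num) (by norm_num) _).trans (by norm_num)

end Pool.Agent.MP_a43263_nt.K2
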