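import Pool.Agent.MP_a43263_nt.K2.Spec

/-! THEOREM R2: no rational points of order two. -/

set_option autoImplicit false

namespace Pool.Agent.MP_a43263_nt.K2

open Polynomial Finset JC JC.Sha UM

theorem tor_k : TORStmt := by
  intro g f h0 hi P hP
  obtain ⟨a, h⟩ := exists_cv (F := fK f Qbar) h0.pos (h0.monic.map _)
    ((h0.monic.natDegree_map _).trans h0.deg) h0.sep.map
  obtain ⟨π, hπ, p1, pm⟩ := exists_perm h
  have iv : ∀ σ i, π σ (π σ⁻¹ i) = i := fun σ i => by rw [← pm, mul_inv_cancel, p1]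
  have iv' : ∀ σ i, π σ⁻¹ (π σ i) = i := fun σ i => by rw [← pm, inv_mul_cancel, p1]
  obtain ⟨ρ, z⟩ := z_ex h (R := P.1) (congrArg Subtype.val hP)
  have r2 := (z_top h z).2
  have ec : ∀ φ : ℚ →+* Qbar, φ = Rat.castHom Qbar := fun φ => RingHom.ext_rat _ _
  have eq : ∀ (σ : GQ) i, σ (ρ i) = ρ (π σ i) := fun σ i => by
    have k := z_map h (σ : Qbar →+* Qbar) (b := a) (η := fun i => ρ (π σ⁻¹ i)) z fun i =>
      ⟨π σ⁻¹ i, by rw [RingHom.coe_coe, hπ, iv], (map_sign _ (r2 _)).symm⟩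
    rw [Ideal.map_top, show jmap f (σ : Qbar →+* Qbar) P.1 = P.1 from P.2 σ] at k
    rw [← z_unique h z k (π σ i), iv']
    exact map_sign (σ : Qbar →+* Qbar) (r2 i)
  obtain ⟨p, hp'⟩ := interp (K := ℚ) (z := ρ) h.inj fun σ => ⟨π σ, fun i => ⟨hπ σ i, eq σ i⟩⟩
  have hp : ∀ i, (fK p Qbar).eval (a i) = ρ i := fun i =>
    (congrArg (fun φ => (p.map φ).eval (a i)) (ec _)).symm.trans (hp' i)
  have d : f ∣ (p - 1) * (p + 1) := dvd_of_roots (Rat.castHom Qbar) h fun i => by
    simp only [Polynomial.map_mul, Polynomial.map_sub, Polynomial.map_add, Polynomial.map_one,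
      eval_mul, eval_sub, eval_add, eval_one, hp]
    linear_combination r2 i
  have rt : ∀ (q : ℚ[X]) i, f ∣ q → (q.map (Rat.castHom Qbar)).eval (a i) = 0 := by
    rintro _ i ⟨q, rfl⟩
    rw [Polynomial.map_mul, eval_mul, (root_iff h _).2 ⟨i, rfl⟩, zero_mul]
  obtain ⟨k1, k2⟩ := (JC.T.zt Qbar _ g _ _ h).1 _ _ z
  refine Subtype.ext (k2 fun i => ?_)
  rcases hi.prime.dvd_or_dvd d with c | c
  · have := rt _ i c
    rwa [Polynomial.map_sub, Polynomial.map_one, eval_sub, eval_one, hp, sub_eq_zero] at this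
  · have e : ∀ i, ρ i = -1 := fun i => by
      have := rt _ i c
      rwa [Polynomial.map_add, Polynomial.map_one, eval_add, eval_one, hp,
        add_eq_zero_iff_eq_neg] at this
    rw [prod_congr rfl fun i _ => e i, prod_const, card_univ, h.card,
      (odd_two_mul_add_one g).neg_one_pow] at k1
    norm_num at k1

end Pool.Agent.MP_a43263_nt.K2
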