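import Pool.Agent.MP_a43263_nt.K2.Spec

/-! THEOREM R2, row TRI: the triple attached to two nested lattices. -/

set_option autoImplicit false

noncomputable section

namespace Pool.Agent.MP_a43263_nt.K2

open Polynomial Finset Filter Matrix JC Pool.Agent.MP_a43263_nt.UV

namespace TriA

open Dst

variable {g : ℕ} {f : ℤ[X]} {δ : ℚ[X]} {Λ' : Set ℚ[X]} {b b' : Fin (2 * g + 1) → ℚ[X]}
  {A T A' T' M : Mat g ℤ}

theorem form (hf : Zq g f) (h : Mt g f δ b A T) (h' : Mt g f (δ * (1 - X)) b' A' T')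
    (hM : ∀ j, zK f ℚ ∣ b j - cb b' fun i => (M i j : ℚ)) : Mᵀ * A' * M = A * (1 - T) := by
  ext i j
  refine Int.cast_injective (α := ℚ) ?_
  have h1 : ((A * T) i j : ℚ) = ta g (zK f ℚ) (δ * b i * (X * b j)) := by
    rw [ta_congr (hf.mo ℚ) (Q := δ * b i * ∑ k, C (T k j : ℚ) * b k)
      (by rw [← mul_sub]; exact (h.mul j).mul_left _), Bas.ta_comb h.gram]
    simp [mul_apply, mulVec, dotProduct]
  have h2 := cb_ta h' (fun k => (M k i : ℚ)) fun k => (M k j : ℚ)
  have h3 : zK f ℚ ∣ δ * b i * b j - δ * b i * (X * b j) -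
      δ * (1 - X) * (cb b' fun k => (M k i : ℚ)) * cb b' fun k => (M k j : ℚ) := by
    refine (dvd_add ((hM i).mul_left (δ * (1 - X) * b j))
      ((hM j).mul_left (δ * (1 - X) * cb b' fun k => (M k i : ℚ)))).trans (dvd_of_eq ?_)
    ring
  rw [Matrix.mul_sub, Matrix.mul_one, Matrix.sub_apply, Int.cast_sub, h1, h.gram, ← ta_sub,
    ta_congr (hf.mo ℚ) h3, h2, Matrix.mul_assoc]
  simp [mul_apply, mulVec, dotProduct]

theorem comm (hb : Bs g f Λ' b') (h : Mt g f δ b A T) (h' : Mt g f (δ * (1 - X)) b' A' T')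
    (hM : ∀ j, zK f ℚ ∣ b j - cb b' fun i => (M i j : ℚ)) : M * T = T' * M := by
  ext k j
  refine Int.cast_injective (α := ℚ) ?_
  have h1 := Finset.dvd_sum (s := univ) fun i _ => (hM i).mul_left (C (T i j : ℚ))
  simp only [mul_sub, sum_sub_distrib, ← cb_sum] at h1
  have h2 := cb_inj hb (x := ∑ i, (T i j : ℚ) • fun l => (M l i : ℚ))
    (y := mK T' ℚ *ᵥ fun l => (M l j : ℚ)) (by
      refine (dvd_sub (dvd_add (cb_X h' fun l => (M l j : ℚ)) ((hM j).mul_left X))
        (dvd_add (h.mul j) h1)).trans (dvd_of_eq ?_)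
      ring)
  have h3 := congrFun h2 k
  simp only [Finset.sum_apply, Pi.smul_apply, smul_eq_mul, mulVec, dotProduct, mK_apply] at h3
  simpa [mul_apply, mul_comm] using h3

theorem ne_zero {m : ℤ} (hf : Zq g f) (e : f.eval 1 = m ^ 2) : m ≠ 0 := by
  rintro rfl
  have h1 : (zK f ℚ).IsRoot 1 := by
    rw [IsRoot, eval_one_map, e]
    simp
  have h2 := natDegree_eq_of_degree_eq_some (n := 1) (degree_eq_one_of_irreducible_of_root hf.irr h1)
  have h3 := hf.pos
  rw [hf.dg ℚ] at h2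
  omega

theorem cancel {P Q : Mat g ℤ} (h : M.det ≠ 0) (e : P * M = Q * M) : P = Q := by
  have := congrArg (· * M.adjugate) e
  simp only [Matrix.mul_assoc, mul_adjugate, Matrix.mul_smul, Matrix.mul_one] at this
  exact smul_right_injective _ h this

end TriA

open TriA in
theorem tri_k : TRIStmt := by
  intro g f m δ Λ' b b' A T A' T' hf e hb hm h r h' r'
  choose z hz using fun j => hb.span (b j) (hm j)
  obtain ⟨M, hM⟩ : ∃ M : Mat g ℤ, ∀ j, zK f ℚ ∣ b j - Dst.cb b' fun i => (M i j : ℚ) :=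
    ⟨(of z)ᵀ, hz⟩
  have h1 := form hf h h' hM
  have h2 := comm hb h h' hM
  have m0 := ne_zero hf e
  have h3 : (1 - T).det = m ^ 2 := by
    rw [← e, ← r.ch, eval_charpoly, map_one]
  have h4 := congrArg det h1
  rw [det_mul, det_mul, det_mul, det_transpose, h3] at h4
  have h5 : (A'.det * M.det) ^ 2 = m ^ 2 := by
    have := pow_pos (abs_pos.2 m0) 2
    rw [sq_abs] at this
    rcases Int.isUnit_iff.1 r.det with c | c <;> rcases Int.isUnit_iff.1 r'.det with c' | c' <;>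
      rw [c, c'] at h4 <;> rw [c'] <;> nlinarith [sq_nonneg M.det]
  have M0 : M.det ≠ 0 := fun c => m0 (by simpa [c] using h5.symm)
  obtain ⟨ε, e1, e2⟩ : ∃ ε : ℤ, ε * ε = 1 ∧ (ε • (A' * M)).det = m := by
    rcases sq_eq_sq_iff_eq_or_eq_neg.1 h5 with c | c
    · exact ⟨1, by simp, by rw [one_smul, det_mul, c]⟩
    · refine ⟨-1, by simp, ?_⟩
      rw [det_smul, det_mul, c, Fintype.card_fin, Odd.neg_one_pow ⟨g, rfl⟩, neg_mul_neg, one_mul]
  have i1 := nonsing_inv_mul A r.det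
  have i2 := nonsing_inv_mul A' r'.det
  have i3 := mul_nonsing_inv A' r'.det
  have t1 : Tt A A' (ε • (A' * M)) = T := by
    rw [Tt, transpose_smul, transpose_mul, r'.sa.eq]
    simp only [Matrix.mul_smul, Matrix.smul_mul, smul_smul, e1, one_smul]
    rw [Matrix.mul_assoc A⁻¹, Matrix.mul_assoc Mᵀ, i3, Matrix.mul_one, Matrix.mul_assoc,
      ← Matrix.mul_assoc Mᵀ, h1, ← Matrix.mul_assoc, i1, Matrix.one_mul, sub_sub_cancel]
  refine ⟨ε • (A' * M), ⟨r.sa, r'.sa, r.det, r'.det, e2, by rw [t1, r.ch]⟩, t1, cancel M0 ?_⟩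
  rw [Tt, transpose_transpose, transpose_smul, transpose_mul, r'.sa.eq]
  simp only [Matrix.mul_smul, Matrix.smul_mul, smul_smul, e1, one_smul]
  rw [← Matrix.mul_assoc A'⁻¹, i2, Matrix.one_mul, Matrix.sub_mul, Matrix.one_mul,
    Matrix.mul_assoc, h1, Matrix.mul_assoc, ← Matrix.mul_assoc A⁻¹, i1, Matrix.one_mul,
    Matrix.mul_sub, Matrix.mul_one, sub_sub_cancel, h2]

end Pool.Agent.MP_a43263_nt.K2
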