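import Pool.Agent.MP_a43263_nt.K2.Spec

/-! THEOREM R2: the translated polynomial. -/

set_option autoImplicit false

noncomputable section

namespace Pool.Agent.MP_a43263_nt.K2

open Polynomial Finset Filter Matrix JC Pool.Agent.MP_a43263_nt.UV

namespace TrnA

theorem nx_comp {p : ℕ} {f : ℤ[X]} (t : ℤ) (h : Nx p f) : Nx p (f.comp (X + C t)) := by
  obtain ⟨φ, a, b, c, h1, h2, h3⟩ := h
  refine ⟨φ.comp (X + C t), a.comp (X + C t), b.comp (X + C t), c.comp (X + C t),
    h1.comp_X_add_C t, ?_, ?_⟩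
  · rwa [natDegree_comp, natDegree_X_add_C, mul_one]
  · rw [h3]
    simp only [add_comp, mul_comp, pow_comp, C_comp]

theorem sub_eq {R : Type} [CommRing R] : (X - 1 : R[X]) = X + C (-1) := by
  rw [C_neg, C_1, sub_eq_add_neg]

theorem back {R : Type} [CommRing R] (f : R[X]) : (f.comp (X - 1)).comp (X + C 1) = f := by
  rw [comp_assoc]
  simp

theorem zK_f1 {g : ℕ} (w : Vec g) (R : Type) [CommRing R] :
    zK (f1 w) R = (zK (pc (sv w)) R).comp (X - 1) := by
  rw [f1, zK, map_comp]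
  simp

theorem zK_pc {g : ℕ} (w : Vec g) (R : Type) [CommRing R] :
    zK (pc (sv w)) R = pc (sv fun i => (w i : R)) := by
  rw [zK, pc_map]
  congr 1
  funext i
  unfold sv
  split_ifs <;> simp

theorem der_eval {R : Type} [CommRing R] (f : R[X]) (a : R) :
    (derivative (f.comp (X - 1))).eval a = (derivative f).eval (a - 1) := by
  rw [derivative_comp]
  simp [eval_comp]

theorem pc_eval {R : Type} [CommRing R] {n : ℕ} (c : Fin n → R) (b : R) :
    (pc c).eval b = b ^ n + ∑ i, c i * b ^ (n - 1 - i.1) := by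
  simp [pc, eval_finsetSum]

theorem pc_der {R : Type} [CommRing R] {n : ℕ} (c : Fin n → R) (b : R) :
    (derivative (pc c)).eval b =
      n * b ^ (n - 1) + ∑ i, ((n - 1 - i.1 : ℕ) : R) * c i * b ^ (n - 1 - i.1 - 1) := by
  rw [pc, derivative_add, derivative_X_pow, derivative_sum, eval_add, eval_finsetSum]
  congr 1
  · simp
  · refine sum_congr rfl fun i _ => ?_
    rw [derivative_C_mul, derivative_X_pow, eval_mul, eval_mul, eval_C, eval_C, eval_pow, eval_X]
    ring

theorem gx_eq {g : ℕ} (w : Vec g) (u v : ℤ) {R : Type} [CommRing R] (b : R)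
    (h : -(u : R) ^ 2 = (v : R) ^ 2 * b) :
    (Gx w u v : R) = ((v : R) ^ 2) ^ (2 * g) * (derivative (zK (pc (sv w)) R)).eval b := by
  rw [zK, pc_map, pc_der, Gx, Nat.add_sub_cancel, mul_add, mul_sum]
  push_cast
  rw [h]
  congr 1
  · ring
  · refine sum_congr rfl fun i _ => ?_
    have hi := i.2
    rcases Nat.lt_or_ge i.1 (2 * g) with e | e
    · obtain ⟨m, hm⟩ : ∃ m, 2 * g = m + (i.1 + 1) := ⟨2 * g - i.1 - 1, by omega⟩
      have h1 : 2 * g - i.1 - 1 = m := by omega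
      have h2 : ((v : R) ^ 2) ^ (2 * g) = ((v : R) ^ 2) ^ m * ((v : R) ^ 2) ^ (i.1 + 1) := by
        rw [← pow_add, ← hm]
      rw [h1, h2, eq_intCast]
      ring
    · have h1 : 2 * g - i.1 = 0 := by omega
      rw [h1]
      simp

theorem box {g k : ℕ} {w : Vec g} (hg : 1 ≤ g) (hw : w ∈ bx g k) : Box (8 * k ^ 2) (sv w) := by
  intro i
  obtain ⟨h1, h2⟩ := mem_bx.1 hw i
  have h0 : (0 : ℤ) ≤ (k : ℤ) ^ xp g i.1 := by positivity
  have h3 : |w i| ≤ 8 * (k : ℤ) ^ xp g i.1 := by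
    rw [abs_le]
    unfold ce at h1 h2
    split_ifs at h1 h2 <;> constructor <;> linarith
  push_cast
  rw [mul_pow, ← pow_mul]
  unfold sv
  unfold xp at h3
  split_ifs at h3 ⊢ with e
  · rw [abs_pow, e]
    have h4 : (8 : ℤ) ^ 2 ≤ 8 ^ (2 * g + 1) := pow_le_pow_right₀ (by norm_num) (by omega)
    calc |w i| ^ 2 ≤ (8 * (k : ℤ) ^ (2 * g + 1)) ^ 2 := pow_le_pow_left₀ (abs_nonneg _) h3 2
      _ = 8 ^ 2 * (k : ℤ) ^ (2 * (2 * g + 1)) := by ring
      _ ≤ _ := mul_le_mul_of_nonneg_right h4 (by positivity)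
  · have h4 : (8 : ℤ) ^ 1 ≤ 8 ^ (i.1 + 1) := pow_le_pow_right₀ (by norm_num) (by omega)
    rw [pow_one] at h4
    exact h3.trans (mul_le_mul_of_nonneg_right h4 (by positivity))

end TrnA

open TrnA in
theorem trn_k : TRNStmt := by
  intro g w hg
  have hl : (Fin.last (2 * g)).1 = 2 * g := rfl
  refine ⟨⟨?_, ?_⟩, ?_, fun i hi => ?_, fun h => ?_, fun p => ⟨fun h => ?_, fun h => ?_⟩,
    fun a => ?_, fun q w' h => ?_, fun w' h e => ?_, fun p u v _ _ h a h1 _ h2 => h ?_,
    fun k hk hw => ⟨?_, fun θ hθ => ?_⟩⟩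
  · rw [f1, sub_eq]
    exact (pc_monic _).comp_X_add_C _
  · rw [f1, sub_eq, natDegree_comp, natDegree_X_add_C, mul_one, pc_deg]
  · have h := Beta.pc_coeff (sv w) (Fin.last _)
    rw [hl, Nat.add_sub_cancel, Nat.sub_self, sv, if_pos hl] at h
    rw [f1, eval_comp, eval_sub, eval_X, eval_one, sub_self, ← coeff_zero_eq_eval_zero, h]
  · have h := Beta.pc_coeff (sv w) i
    rw [show 2 * g + 1 - 1 - i.1 = 1 by omega, sv, if_neg (by omega)] at h
    rw [f1, der_eval, sub_self, ← coeff_zero_eq_eval_zero, coeff_derivative, zero_add, h]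
    simp
  · rw [zK_f1, sub_eq] at h
    refine (MulEquiv.irreducible_iff (algEquivAevalXAddC (-1 : ℚ))).1 ?_
    rwa [algEquivAevalXAddC_apply, ← comp_eq_aeval]
  · have := nx_comp 1 h
    rwa [f1, back] at this
  · rw [f1, sub_eq]
    exact nx_comp _ h
  · rw [f1, eval_comp, eval_sub, eval_X, eval_one, sub_sub_cancel_left, pc_eval, Gv,
      Nat.add_sub_cancel]
    simp
  · rw [zK_f1, zK_f1, zK_pc, zK_pc, funext h]
  · have h1 : pc (sv w) = pc (sv w') := by
      rw [← back (pc (sv w)), ← back (pc (sv w'))]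
      exact congrArg (fun f : ℤ[X] => f.comp (X + C 1)) h
    funext i
    have h2 := Beta.pc_coeff (sv w) i
    rw [h1, Beta.pc_coeff, sv, sv] at h2
    split_ifs at h2 with k
    · rw [show i = Fin.last _ from Fin.ext k, e]
    · exact h2.symm
  · rw [zK_f1, der_eval] at h2
    rw [← ZMod.intCast_zmod_eq_zero_iff_dvd, gx_eq w u v (a - 1), h2, mul_zero]
    rw [el, zK, Polynomial.map_add, Polynomial.map_mul, Polynomial.map_sub, map_C, map_C, map_X,
      Polynomial.map_one, eval_add, eval_mul, eval_sub, eval_C, eval_C, eval_X, eval_one,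
      eq_intCast, eq_intCast, Int.cast_pow, Int.cast_pow] at h1
    linear_combination -h1
  · have h1 := (mem_bx.1 hw (Fin.last _)).1
    have h0 : (0 : ℤ) < (k : ℤ) ^ xp g (2 * g) := by positivity
    rw [hl, ce, if_pos (Or.inr rfl)] at h1
    exact ne_of_gt (by linarith)
  · rw [zK_f1, eval_comp, eval_sub, eval_X, eval_one] at hθ
    have h1 := root.2 _ _ _ (by nlinarith) (box hg hw) _ hθ
    have h2 : (1 : ℝ) ≤ k := by exact_mod_cast hk
    have h3 : ‖θ‖ ≤ ‖θ - 1‖ + 1 := by simpa using norm_add_le (θ - 1) 1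
    push_cast at h1
    rw [norm_sub_rev 1 θ]
    constructor <;> nlinarith

end Pool.Agent.MP_a43263_nt.K2
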