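import Pool.Agent.MP_a43263_nt.K2.Spec

/-! THEOREM R2: the condition at two does not move. -/

set_option autoImplicit false

noncomputable section

namespace Pool.Agent.MP_a43263_nt.K2

open Polynomial Finset Filter Matrix JC Pool.Agent.MP_a43263_nt.UV

namespace TwoA

variable {K : Type} [Field K]

/-- from irreducible divisors to all divisors -/
theorem all {P : K[X] → Prop} {F V κ : K[X]} (h1 : P 1) (hm : ∀ a b, P a → P b → P (a * b))
    (hi : ∀ U : K[X], U.Monic → Irreducible U → U ∣ F - V ^ 2 → IsCoprime U F →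
      P ((C ((-1) ^ U.natDegree) * U).comp κ)) (n : ℕ) : ∀ U : K[X], U.natDegree = n → U.Monic →
    U ∣ F - V ^ 2 → IsCoprime U F → P ((C ((-1) ^ U.natDegree) * U).comp κ) := by
  induction n using Nat.strong_induction_on with
  | _ n ih =>
    intro U hn hU hd hc
    by_cases e : U = 1
    · simpa [e] using h1
    obtain ⟨φ, a, b, U', rfl⟩ := exists_monic_irreducible_factor U fun c => e (hU.eq_one_of_isUnit c)
    have m : U'.Monic := a.of_mul_monic_left hU
    have d := a.natDegree_mul m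
    have := hm _ _ (hi φ a b ((dvd_mul_right _ _).trans hd) hc.of_mul_left_left)
      (ih U'.natDegree (by have := b.natDegree_pos; omega) U' rfl m ((dvd_mul_left _ _).trans hd)
        hc.of_mul_left_right)
    rwa [← mul_comp, mul_mul_mul_comm, ← C_mul, ← pow_add, ← d] at this

end TwoA

theorem two_k : ISOStmt → WSQStmt → PT2Stmt → TWOStmt := by
  intro iso wsq pt g f F κ u v G δ hz hc hv hu ⟨δ', ⟨⟨a, b, h0⟩, U, V, s, h1, h2, h3, h4⟩, h5⟩
  have hI := (iso g f F κ u v G hz hc).2 ℚ_[2]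
  obtain ⟨w1, w2, -⟩ := wg gram ℚ_[2] g 1 _ (hz.sq ℚ_[2]) one_ne_zero
  rw [C_1, one_mul] at h2
  have h6 := TwoA.all (P := Wc 1 (zK f ℚ_[2])) w1 w2
    (fun U' => pt g f F κ u v G U' V hz hc hv hu) _ U rfl h1 h2 h3
  obtain ⟨y, hy⟩ := h5
  refine wsq _ _ _ δ h6 ?_ ?_
  · obtain ⟨z, e⟩ := (hI.ker (a * δ' - 1)).2 ⟨-b, by linear_combination h0⟩
    rw [sub_comp, mul_comp, one_comp] at e
    exact ⟨a.comp (zK κ ℚ_[2]), -(z + a.comp (zK κ ℚ_[2]) * y), by
      linear_combination e + a.comp (zK κ ℚ_[2]) * hy⟩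
  · obtain ⟨z, e⟩ := (hI.ker _).2 h4
    rw [sub_comp, mul_comp δ', pow_comp] at e
    exact ⟨s.comp (zK κ ℚ_[2]), z + (C ((-1) ^ U.natDegree) * U).comp (zK κ ℚ_[2]) * y, by
      linear_combination e + (C ((-1) ^ U.natDegree) * U).comp (zK κ ℚ_[2]) * hy⟩

end Pool.Agent.MP_a43263_nt.K2
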