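import Pool.Agent.MP_a43263_nt.K2.Spec

/-! THEOREM R2: division by the unitriangular matrices. -/

set_option autoImplicit false

noncomputable section

namespace Pool.Agent.MP_a43263_nt.K2

open Polynomial Finset Filter Matrix JC Pool.Agent.MP_a43263_nt.UV

namespace UniA

open UC.Uni

variable {n : ℕ} {e e' : Fin n → ℤ} {u u' : UC.Mz n}

theorem det_one (hu : u ∈ U e) : u.det = 1 := by
  rw [det_of_isUpperTriangular fun p q (h : q < p) => (low hu h.le).trans (one_apply_ne h.ne')]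
  simp [low hu le_rfl]

theorem box2 (he : Monotone e) (he' : Monotone e') (hu : u ∈ U e) (hu' : u' ∈ U e') {m : ℤ}
    {A : UC.Mz n} (hA : Box2 m e e' A) : Box2 (m + (2 * n : ℕ)) e e' (u'ᵀ * A * u) := fun p q => by
  have t : ∀ j i, |((u' i p * A i j * u j q : ℤ) : ℝ)| ≤ 2 ^ (m + e' p + e q) := fun j i => by
    rw [Int.cast_mul, Int.cast_mul, abs_mul, abs_mul, show m + e' p + e q =
      e' p - e' i + (m + e' i + e j) + (e q - e j) by ring, zpow_add₀ two_ne_zero,
      zpow_add₀ two_ne_zero]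
    gcongr
    exacts [bound he' hu' i p, hA i j, bound he hu j q]
  have h : (n : ℝ) ≤ 2 ^ n := by exact_mod_cast n.lt_two_pow_self.le
  simp only [mul_apply, transpose_apply, sum_mul, Int.cast_sum]
  refine (abs_sum_le_sum_abs _ _).trans ((sum_le_sum fun j _ =>
    (abs_sum_le_sum_abs _ _).trans (sum_le_sum fun i _ => t j i)).trans ?_)
  rw [show m + (2 * n : ℕ) + e' p + e q = (n + n : ℕ) + (m + e' p + e q) by push_cast; ring,
    zpow_add₀ two_ne_zero ((n + n : ℕ) : ℤ), zpow_natCast, pow_add, mul_assoc]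
  simp only [sum_const, card_univ, Fintype.card_fin, nsmul_eq_mul]
  gcongr

theorem cancel {N P P' : UC.Mz n} (hN : N.det ≠ 0) (h : P * N = P' * N) : P = P' := by
  have := congrArg (fun M => M * N.adjugate) h
  simp only [mul_assoc, mul_adjugate, mul_smul_comm, mul_one] at this
  exact smul_right_injective _ hN this

end UniA

open UC.Uni UniA in
theorem uni_k : CHGStmt → UNIStmt := by
  classical
  rintro ⟨c1, c2, -⟩ n
  refine ⟨2 * n, fun a b e e' L hL he he' S W hS hW => ?_⟩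
  choose! hi h0 A A' N h1 h2 h3 h4 h5 using hS
  rw [zpow_add₀ two_ne_zero, ← card_U he, ← card_U he', ← Nat.cast_mul, ← Nat.cast_mul, Nat.cast_le,
    ← card_product, ← card_product]
  have tri : ∀ x ∈ S, ∀ u ∈ U e, ∀ u' ∈ U e',
      Tri x.1 x.2 (uᵀ * A x * u) (u'ᵀ * A' x * u') (u'ᵀ * N x * u) := fun x hx u hu u' hu' =>
    c2 n _ _ _ _ _ _ _ (h1 x hx).det (h1 x hx).det' (det_one hu) (det_one hu') (h1 x hx)
  refine card_le_card_of_injOn
    (fun z => (z.2.1ᵀ * A z.1 * z.2.1, z.2.2ᵀ * A' z.1 * z.2.2, z.2.2ᵀ * N z.1 * z.2.1))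
    (fun z hz => ?_) fun z hz y hy E => ?_
  · obtain ⟨p, q⟩ := mem_product.1 hz
    obtain ⟨q, r⟩ := mem_product.1 q
    exact hW _ _ _ _ _ (tri _ p _ q _ r)
      (hL _ _ _ _ _ (h1 _ p).det (h1 _ p).det' (det_one q) (det_one r) (h2 _ p))
      (box he q (h3 _ p)) (box he' r (h4 _ p)) (box2 he he' q r (h5 _ p))
  · obtain ⟨x, u, v⟩ := z
    obtain ⟨x', u', v'⟩ := y
    obtain ⟨p, w⟩ := mem_product.1 hz
    obtain ⟨q, r⟩ := mem_product.1 w
    obtain ⟨p', w'⟩ := mem_product.1 hy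
    obtain ⟨q', r'⟩ := mem_product.1 w'
    simp only [Prod.mk.injEq] at E p q r p' q' r' ⊢
    obtain ⟨E1, E2, E3⟩ := E
    have t := tri _ p _ q _ r
    have t' := tri _ p' _ q' _ r'
    rw [← E1, ← E2, ← E3] at t'
    obtain rfl : x = x' := Prod.ext (t.ch.symm.trans t'.ch) (t.dt.symm.trans t'.dt)
    have k := c1 n _ _ (N x) _ _ v (h1 _ p).det (h1 _ p).det' (inv q) (det_one r ▸ isUnit_one)
    rw [E1, E2, E3,
      c1 n _ _ (N x) _ _ v' (h1 _ p).det (h1 _ p).det' (inv q') (det_one r' ▸ isUnit_one)] at k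
    obtain rfl : u' = u := uniq ((h1 _ p).ch.symm ▸ hi _ p) q' q k
    refine ⟨rfl, rfl, transpose_injective (cancel ((h1 _ p).dt.symm ▸ h0 _ p)
      (cancel (N := u') ?_ E3))⟩
    rw [det_one q]
    exact one_ne_zero

end Pool.Agent.MP_a43263_nt.K2
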