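import Pool.Agent.MP_a43263_nt.K2.Spec

/-! THEOREM R2: the group of the companion. -/

set_option autoImplicit false

noncomputable section

namespace Pool.Agent.MP_a43263_nt.K2

open Polynomial Finset Filter Matrix JC Pool.Agent.MP_a43263_nt.UV

namespace WtgA

section
variable {K : Type} [Field K] {f F κ P δ δ' : K[X]}

theorem cop_congr (e : f ∣ δ - δ') (h : IsCoprime δ' f) : IsCoprime δ f := by
  obtain ⟨c, hc⟩ := e
  rw [show δ = δ' + f * c by linear_combination hc]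
  exact h.add_mul_left_left c

theorem cop_of_inv {c : K} (hc : c ≠ 0) (e : f ∣ δ' * δ - C c) : IsCoprime δ f :=
  (cop_congr e ((isCoprime_mul_unit_left_left (isUnit_C.2 hc.isUnit) 1 f).2
    isCoprime_one_left |> fun k => by simpa using k)).of_mul_left_right

theorem cop_comp (h : Is f F κ) (k : IsCoprime P F) : IsCoprime (P.comp κ) f := by
  obtain ⟨a, b, e⟩ := k
  refine cop_of_inv (δ' := a.comp κ) one_ne_zero ?_
  have : f ∣ (a * P - 1).comp κ := (h.ker _).2 ⟨-b, by linear_combination e⟩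
  simpa using this

theorem cop_of_comp (h : Is f F κ) (k : IsCoprime (P.comp κ) f) : IsCoprime P F := by
  obtain ⟨a, b, e⟩ := k
  obtain ⟨a', c, hc⟩ := h.sur a
  refine cop_of_inv (δ' := a') one_ne_zero ((h.ker _).1 ⟨-b - c * P.comp κ, ?_⟩)
  rw [sub_comp, mul_comp, C_comp, C_1]
  linear_combination e - P.comp κ * hc

theorem sqm_of_comp (h : Is f F κ) (e : f ∣ δ - P.comp κ) (k : Sqm f δ) : Sqm F P := by
  obtain ⟨z, a, ha⟩ := k
  obtain ⟨b, hb⟩ := e
  obtain ⟨z', c, hc⟩ := h.sur z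
  refine ⟨z', (h.ker _).1 ⟨a - b + c * (z + z'.comp κ), ?_⟩⟩
  rw [sub_comp, pow_comp]
  linear_combination ha - hb + (z + z'.comp κ) * hc

theorem mul_congr {a b a' b' : K[X]} (h : f ∣ a - a'.comp κ) (k : f ∣ b - b'.comp κ) :
    f ∣ a * b - (a' * b').comp κ := by
  rw [mul_comp, show a * b - a'.comp κ * b'.comp κ =
    (a - a'.comp κ) * b + a'.comp κ * (b - b'.comp κ) by ring]
  exact dvd_add (h.mul_right _) (k.mul_left _)

theorem cop_lin {x : K} (h : f.eval x ≠ 0) : IsCoprime (C x - X) f := by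
  rw [← neg_sub]
  exact ((irreducible_X_sub_C x).coprime_iff_not_dvd.2 (mt dvd_iff_isRoot.1 h)).neg_left

/-- the class of a point -/
theorem wt_pt {x y : K} (hy : y ≠ 0) (h : F.eval x = y ^ 2) : Wt f F κ (C x - κ) := by
  have c := cop_lin (h ▸ pow_ne_zero 2 hy)
  refine ⟨C x - X, ⟨c, X - C x, C y, C x - X, monic_X_sub_C x, dvd_iff_isRoot.2 ?_, ?_, ?_⟩, by simp⟩
  · simp [h]
  · simpa using c.neg_left
  · rw [natDegree_X_sub_C, show (C x - X) * (C ((-1 : K) ^ 1) * (X - C x)) - (C x - X) ^ 2 = 0 by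
      simp only [pow_one, C_neg, C_1]; ring]
    exact dvd_zero _

end

variable {g : ℕ} {f F κ : ℤ[X]} {u v G : ℤ}

theorem el_deg (u v : ℤ) : (el u v).natDegree ≤ 1 := by
  unfold el
  compute_degree

theorem coeff0 (hf : Zq g f) (h : Cp g f F κ u v G) : F.coeff 0 = G ^ (2 * g) := by
  have e := congrArg (fun P => coeff P (2 * g + 1)) h.mb
  have e1 : (el u v ^ (2 * g + 1)).coeff (2 * g + 1) = (v ^ 2) ^ (2 * g + 1) := by
    have := coeff_pow_of_natDegree_le (m := 2 * g + 1) (el_deg u v)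
    rw [mul_one] at this
    rw [this, el, coeff_add, coeff_C_mul, coeff_C_succ, coeff_sub, coeff_X_one, ← C_1, coeff_C_succ]
    simp
  have e2 : f.coeff (2 * g + 1) = 1 := hf.deg ▸ hf.monic.coeff_natDegree
  simp only [finset_sum_coeff, coeff_C_mul] at e
  rw [sum_range_succ', sum_eq_zero fun i hi => mul_eq_zero_of_right _
    (coeff_eq_zero_of_natDegree_lt (lt_of_le_of_lt (natDegree_pow_le_of_le _ (el_deg u v))
      (by omega))), Nat.sub_zero, e1, e2] at e
  refine mul_right_cancel₀ (pow_ne_zero (4 * g + 2) h.v0) ?_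
  linear_combination e

theorem val1 (h : Cp g f F κ u v G) {m : ℤ} (hm : f.eval 1 = m ^ 2) (K : Type) [Field K]
    [CharZero K] : (zK F K).eval ((G : K) / u ^ 2) =
      ((G : K) ^ g * v ^ (2 * g + 1) * m / u ^ (2 * g + 1)) ^ 2 := by
  have u0 : (u : K) ≠ 0 := Int.cast_ne_zero.2 h.u0
  have e := congrArg (fun P => ((eval 1 P : ℤ) : K)) h.mb
  simp only [eval_finset_sum, eval_mul, eval_C, eval_pow, hm, el, eval_add, eval_sub, eval_X,
    eval_one, sub_self, mul_zero, zero_add] at e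
  push_cast at e
  have d : (zK F K).natDegree < 2 * g + 2 := by rw [h.mo.natDegree_map, h.dg]; omega
  rw [eval_eq_sum_range' d, div_pow, eq_div_iff (by positivity), sum_mul]
  refine Eq.trans (sum_congr rfl fun i hi => ?_) (e.trans (by ring))
  obtain ⟨j, hj⟩ : ∃ j, 2 * g + 1 = i + j := Nat.exists_eq_add_of_le (by
    have := mem_range.1 hi; omega)
  rw [coeff_map, eq_intCast, hj, Nat.add_sub_cancel_left, div_pow, pow_right_comm _ (i + j),
    pow_add, mul_assoc, ← mul_assoc (_ / _), div_mul_cancel₀ _ (by positivity), mul_assoc]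

theorem m_ne (hf : Zq g f) {m : ℤ} (hm : f.eval 1 = m ^ 2) : m ≠ 0 := by
  rintro rfl
  have r : (zK f ℚ).IsRoot 1 := by
    rw [IsRoot, eval_one_map, hm]; simp
  have := degree_eq_one_of_irreducible_of_root hf.irr r
  have d := hf.dg ℚ
  have p := hf.pos
  rw [natDegree_eq_of_degree_eq_some (n := 1) this] at d
  omega

end WtgA

open WtgA in
theorem wtg_k : ISOStmt → WSQStmt → WTStmt := by
  intro iso wsq g f F κ u v G hf h K _ _
  obtain ⟨hF, hI⟩ := iso g f F κ u v G hf h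
  have hI := hI K
  obtain ⟨-, w2, w3, -⟩ := wg gram K g 1 _ (hF.sq K) one_ne_zero
  have p2 : ∀ δ δ', Wt (zK f K) (zK F K) (zK κ K) δ → Wt (zK f K) (zK F K) (zK κ K) δ' →
      Wt (zK f K) (zK F K) (zK κ K) (δ * δ') := fun δ δ' ⟨a, a1, a2⟩ ⟨b, b1, b2⟩ =>
    ⟨a * b, w2 _ _ a1 b1, mul_congr a2 b2⟩
  have p3 : ∀ δ δ', Wt (zK f K) (zK F K) (zK κ K) δ → IsCoprime δ' (zK f K) →
      Sqm (zK f K) (δ * δ') → Wt (zK f K) (zK F K) (zK κ K) δ' := fun δ δ' ⟨a, a1, a2⟩ c s => by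
    obtain ⟨b, b2⟩ := hI.sur δ'
    exact ⟨b, wsq K _ _ _ a1 (cop_of_comp hI (cop_congr (dvd_sub_comm.1 b2) c))
      (sqm_of_comp hI (mul_congr a2 b2) s), b2⟩
  have G0 : (G : K) ≠ 0 := Int.cast_ne_zero.2 h.G0
  have u0 : (u : K) ≠ 0 := Int.cast_ne_zero.2 h.u0
  have v0 : (v : K) ≠ 0 := Int.cast_ne_zero.2 h.v0
  obtain ⟨c, hc⟩ : zK f K ∣ zK κ K * (C (v : K) ^ 2 * (X - 1) + C (u : K) ^ 2) - C (G : K) := by
    simpa [el] using Polynomial.map_dvd (Int.castRingHom K) h.ka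
  have eb : zK (be u v G) K = -C (G : K) * (C (v : K) ^ 2 * (X - 1) + C (u : K) ^ 2) := by
    simp [be, el]
  have p4 : Wt (zK f K) (zK F K) (zK κ K) (zK (be u v G) K) := by
    refine p3 _ _ (wt_pt (x := 0) (pow_ne_zero g G0) ?_)
      (cop_of_inv (δ' := -zK κ K) (pow_ne_zero 2 G0) ⟨C (G : K) * c, ?_⟩) ⟨C (G : K), C (G : K) * c, ?_⟩
    · rw [← coeff_zero_eq_eval_zero, coeff_map, coeff0 hf h, eq_intCast]
      push_cast
      ring
    · rw [eb, C_pow]
      linear_combination C (G : K) * hc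
    · rw [eb, C_0]
      linear_combination C (G : K) * hc
  refine ⟨fun δ ⟨a, a1, a2⟩ => ⟨cop_congr a2 (cop_comp hI a1.1), ?_⟩, p2, p3, p4, fun m hm => ?_⟩
  · rw [(gram.1 K _ (hf.mo K)).2.1 _ _ a2, hI.nm]
    exact w3 _ a1
  · have m0 : (m : K) ≠ 0 := Int.cast_ne_zero.2 (m_ne hf hm)
    have i : C (u : K) * C (u : K)⁻¹ = 1 := by rw [← C_mul, mul_inv_cancel₀ u0, C_1]
    refine p3 _ _ (p2 _ _ (wt_pt (by positivity) (val1 h hm K)) p4) ?_
      ⟨C (G : K) * C (v : K) * C (u : K)⁻¹ * (1 - X), C (G : K) * (1 - X) * c, ?_⟩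
    · refine cop_lin (x := 1) ?_
      rw [eval_one_map, hm]
      simpa using m0
    · rw [eb, div_eq_mul_inv, ← inv_pow, C_mul, C_pow]
      linear_combination C (G : K) * (1 - X) * hc -
        C (G : K) ^ 2 * (1 - X) * (C (u : K) * C (u : K)⁻¹ + 1) * i

end Pool.Agent.MP_a43263_nt.K2
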