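import Pool.Agent.MP_a43263_nt.K2.Adm
import Pool.Agent.MP_a43263_nt.K2.AllC
import Pool.Agent.MP_a43263_nt.K2.Apl
import Pool.Agent.MP_a43263_nt.K2.Bad
import Pool.Agent.MP_a43263_nt.K2.Base
import Pool.Agent.MP_a43263_nt.K2.Beta
import Pool.Agent.MP_a43263_nt.K2.Box
import Pool.Agent.MP_a43263_nt.K2.Chg
import Pool.Agent.MP_a43263_nt.K2.Cls
import Pool.Agent.MP_a43263_nt.K2.Core
import Pool.Agent.MP_a43263_nt.K2.Count
import Pool.Agent.MP_a43263_nt.K2.Den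
import Pool.Agent.MP_a43263_nt.K2.Desc
import Pool.Agent.MP_a43263_nt.K2.Ev1
import Pool.Agent.MP_a43263_nt.K2.Ev2
import Pool.Agent.MP_a43263_nt.K2.Evh
import Pool.Agent.MP_a43263_nt.K2.Exp
import Pool.Agent.MP_a43263_nt.K2.Fc
import Pool.Agent.MP_a43263_nt.K2.Fin
import Pool.Agent.MP_a43263_nt.K2.Gal
import Pool.Agent.MP_a43263_nt.K2.Gcd
import Pool.Agent.MP_a43263_nt.K2.Geo
import Pool.Agent.MP_a43263_nt.K2.Idx
import Pool.Agent.MP_a43263_nt.K2.Irr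
import Pool.Agent.MP_a43263_nt.K2.Iso
import Pool.Agent.MP_a43263_nt.K2.Kill
import Pool.Agent.MP_a43263_nt.K2.Lat
import Pool.Agent.MP_a43263_nt.K2.Low
import Pool.Agent.MP_a43263_nt.K2.M12
import Pool.Agent.MP_a43263_nt.K2.Maj
import Pool.Agent.MP_a43263_nt.K2.Mob
import Pool.Agent.MP_a43263_nt.K2.Mod
import Pool.Agent.MP_a43263_nt.K2.Mom
import Pool.Agent.MP_a43263_nt.K2.Mul
import Pool.Agent.MP_a43263_nt.K2.Ns
import Pool.Agent.MP_a43263_nt.K2.One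
import Pool.Agent.MP_a43263_nt.K2.Par
import Pool.Agent.MP_a43263_nt.K2.Phi
import Pool.Agent.MP_a43263_nt.K2.Pos
import Pool.Agent.MP_a43263_nt.K2.Prs
import Pool.Agent.MP_a43263_nt.K2.Pt2
import Pool.Agent.MP_a43263_nt.K2.Qst
import Pool.Agent.MP_a43263_nt.K2.Ram2
import Pool.Agent.MP_a43263_nt.K2.Real
import Pool.Agent.MP_a43263_nt.K2.Red
import Pool.Agent.MP_a43263_nt.K2.Sha
import Pool.Agent.MP_a43263_nt.K2.Shf
import Pool.Agent.MP_a43263_nt.K2.Sieve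
import Pool.Agent.MP_a43263_nt.K2.Siv
import Pool.Agent.MP_a43263_nt.K2.Siz
import Pool.Agent.MP_a43263_nt.K2.Sums
import Pool.Agent.MP_a43263_nt.K2.Tor
import Pool.Agent.MP_a43263_nt.K2.Tri
import Pool.Agent.MP_a43263_nt.K2.Trn
import Pool.Agent.MP_a43263_nt.K2.Two
import Pool.Agent.MP_a43263_nt.K2.Uni
import Pool.Agent.MP_a43263_nt.K2.Wtg

/-! THEOREM R2: assembly. -/

set_option autoImplicit false

namespace Pool.Agent.MP_a43263_nt.K2

theorem allp : ALLStmt :=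
  all_of (siv_k gal_k) apl_k shf_k geo_k siz_k mul_k phi_k par_k mom_k m12_k all_k

theorem main : MainStmt :=
  main_of allp geo_k siz_k mod_k trn_k pos_k iso_k wsq_k wtg_k qst_k mob_k evh_k ev1_k ev2_k
    ram2_k pt2_k two_k real_k kill_k ns_k ind_k sha_k idx_k tor_k desc_k four_k lat_k tri_k chg_k
    maj_k bad_k red_k adm_k uni_k box_k exp_k sums_k fc_k den_k core_k count_k beta_k low_k gcd_k
    irr_k base_k sieve_k cls_k one_k fin_k

end Pool.Agent.MP_a43263_nt.K2
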