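import Pool.Agent.MP_a43263_nt.K2.Spec

/-! Row DEN: density of the local condition among full matrices. -/

set_option autoImplicit false

noncomputable section

namespace Pool.Agent.MP_a43263_nt.K2

open Polynomial Finset Filter Matrix JC Pool.Agent.MP_a43263_nt.UV

namespace DenA

theorem crt (n : ℕ) (Q : Finset ℕ) (hQ : ∀ q ∈ Q, q.Prime)
    (S : ∀ q : ℕ, Finset (Matrix (Fin n) (Fin n) (ZMod q))) (Y : Fin n → Fin n → ℕ)
    (hY : ∀ p q, ∏ r ∈ Q, r ≤ Y p q) : ∃ W : Finset (UC.Mz n),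
      (∀ B : UC.Mz n, (∀ p q, |B p q| ≤ (Y p q : ℤ)) →
        (∀ q ∈ Q, B.map (Int.castRingHom (ZMod q)) ∈ S q) → B ∈ W) ∧
      (W.card : ℝ) ≤ (∏ q ∈ Q, ((S q).card : ℝ) / (q : ℝ) ^ (n * n)) *
        ∏ p, ∏ q, (3 * (Y p q : ℝ)) := by
  classical
  set N := ∏ r ∈ Q, r with hN
  have N0 : 0 < N := prod_pos fun q hq => (hQ q hq).pos
  let W0 : Finset (UC.Mz n) := Fintype.piFinset fun p => Fintype.piFinset fun q =>
    Icc (-(Y p q : ℤ)) (Y p q)
  let W := W0.filter fun B : UC.Mz n => ∀ q ∈ Q, B.map (Int.castRingHom (ZMod q)) ∈ S q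
  refine ⟨W, fun B h2 h3 => mem_filter.2 ⟨Fintype.mem_piFinset.2 fun p =>
    Fintype.mem_piFinset.2 fun q => mem_Icc.2 (abs_le.1 (h2 p q)), h3⟩, ?_⟩
  have key : W.card ≤ (∏ p, ∏ q, (2 * Y p q / N + 1)) * (Q.pi S).card := by
    refine card_le_mul_card_image_of_maps_to
      (f := fun (B : UC.Mz n) q (_ : q ∈ Q) => B.map (Int.castRingHom (ZMod q)))
      (fun B hB => mem_pi.2 (mem_filter.1 hB).2) _ fun s _ => ?_
    rcases (W.filter fun B : UC.Mz n => (fun q (_ : q ∈ Q) =>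
      B.map (Int.castRingHom (ZMod q))) = s).eq_empty_or_nonempty with h | ⟨B0, h0⟩
    · rw [h]
      exact Nat.zero_le _
    refine le_trans (card_le_card (t := Fintype.piFinset fun p => Fintype.piFinset fun q =>
      (Icc (-(Y p q : ℤ)) (Y p q)).filter fun z => (N : ℤ) ∣ z - B0 p q) fun B hB => ?_) ?_
    · obtain ⟨hB1, hB2⟩ := mem_filter.1 hB
      refine Fintype.mem_piFinset.2 fun p => Fintype.mem_piFinset.2 fun r =>
        mem_filter.2 ⟨Fintype.mem_piFinset.1
          (Fintype.mem_piFinset.1 (mem_filter.1 hB1).1 p) r, ?_⟩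
      rw [hN, Nat.cast_prod]
      refine Finset.prod_dvd_of_coprime (fun q hq q' hq' hne => Nat.isCoprime_iff_coprime.2
        ((Nat.coprime_primes (hQ q hq) (hQ q' hq')).2 hne)) fun q hq => ?_
      have := congrFun (congrFun (congrFun (congrFun
        (((mem_filter.1 h0).2).trans hB2.symm) q) hq) p) r
      exact (ZMod.intCast_eq_intCast_iff_dvd_sub _ _ _).1 this
    · rw [Fintype.card_piFinset]
      refine prod_le_prod' fun p _ => ?_
      rw [Fintype.card_piFinset]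
      exact prod_le_prod' fun r _ => UC.Den.card_class N _ N0 _
  have N0' : (0 : ℝ) < N := by exact_mod_cast N0
  rw [card_pi] at key
  have k2 : (W.card : ℝ) ≤ (∏ p, ∏ q, (3 * (Y p q : ℝ) / N)) * ∏ q ∈ Q, ((S q).card : ℝ) := by
    refine le_trans (Nat.cast_le.2 key) ?_
    push_cast
    refine mul_le_mul_of_nonneg_right (prod_le_prod
      (fun _ _ => prod_nonneg fun _ _ => by positivity) fun p _ =>
      prod_le_prod (fun _ _ => by positivity) fun r _ => ?_)
      (prod_nonneg fun _ _ => Nat.cast_nonneg _)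
    have h1 : ((2 * Y p r / N : ℕ) : ℝ) ≤ (2 * Y p r : ℕ) / N := Nat.cast_div_le
    have h2 : (1 : ℝ) ≤ Y p r / N := (one_le_div N0').2 (by exact_mod_cast hY p r)
    push_cast at h1
    calc _ ≤ 2 * (Y p r : ℝ) / N + Y p r / N := add_le_add h1 h2
      _ = _ := by ring
  refine k2.trans (le_of_eq ?_)
  simp only [prod_div_distrib, prod_const, card_univ, Fintype.card_fin]
  rw [prod_pow, hN, Nat.cast_prod, ← pow_mul]
  ring

theorem map_inv {n : ℕ} {R : Type} [CommRing R] (φ : ℤ →+* R) {A : UC.Mz n} (hA : IsUnit A.det) :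
    A⁻¹.map φ = (A.map φ)⁻¹ :=
  (Matrix.inv_eq_left_inv (by
    rw [← Matrix.map_mul, Matrix.nonsing_inv_mul _ hA,
      Matrix.map_one _ (map_zero _) (map_one _)])).symm

theorem map_tt {n : ℕ} {R : Type} [CommRing R] (φ : ℤ →+* R) {A A' : UC.Mz n} (N : UC.Mz n)
    (hA : IsUnit A.det) (hA' : IsUnit A'.det) :
    (A * Tt A A' N).map φ = A.map φ * Tt (A.map φ) (A'.map φ) (N.map φ) := by
  rw [Matrix.map_mul, Tt, Tt, Matrix.map_sub _ (map_sub φ),
    Matrix.map_one _ (map_zero _) (map_one _), Matrix.map_mul, Matrix.map_mul, Matrix.map_mul,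
    map_inv φ hA, map_inv φ hA', transpose_map]

theorem det_mp {n : ℕ} {R : Type} [CommRing R] (φ : ℤ →+* R) (A : UC.Mz n) :
    (A.map φ).det = φ A.det := by
  rw [← RingHom.mapMatrix_apply, ← RingHom.map_det]

end DenA

open DenA

theorem den_k : FCStmt → DENStmt := by
  intro hF g hg
  obtain ⟨q0, hq0⟩ := hF g hg
  refine ⟨max q0 3, fun Q f₀ m₀ hQ A A' hA hA' hd hd' Y hY => ?_⟩
  have hS : ∀ q : ℕ, ∃ S : Finset (Mat g (ZMod q)), q ∈ Q →
      (∀ N : Mat g ℤ, Lc Q f₀ m₀ A A' N → N.map (Int.castRingHom (ZMod q)) ∈ S) ∧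
        10 * S.card ≤ 9 * q ^ (2 * g * (2 * g + 1)) := by
    intro q
    by_cases hq : q ∈ Q
    swap
    · exact ⟨∅, fun h => absurd h hq⟩
    obtain ⟨h1, h2, ⟨h, h3, h4, -⟩, h5⟩ := hQ q hq
    have := Fact.mk h1
    classical
    by_cases hdeg : h.natDegree = 2 * g
    swap
    · refine ⟨∅, fun _ => ⟨fun N t => absurd ?_ hdeg, by simp⟩⟩
      obtain ⟨T, -, hT, -⟩ := (t q hq).1
      have h6 := T.charpoly_natDegree_eq_dim
      rw [hT, h3, natDegree_X_mul h4.ne_zero, Fintype.card_fin] at h6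
      omega
    have h6 := hq0 (ZMod q) (by rw [ZMod.card]; exact (le_max_left _ _).trans h2)
      (fun e => by
        have := Nat.le_of_dvd two_pos ((ZMod.natCast_eq_zero_iff 2 q).1 (by exact_mod_cast e))
        have := (le_max_right _ _).trans h2
        omega)
      (A.map (Int.castRingHom (ZMod q))) (A'.map (Int.castRingHom (ZMod q))) (hA.map _) (hA'.map _)
      (by rw [det_mp]; exact (hd.map _).ne_zero) (by rw [det_mp]; exact (hd'.map _).ne_zero)
      (m₀ : ZMod q) h (fun e => h5 ((ZMod.intCast_zmod_eq_zero_iff_dvd _ _).1 e)) h4 hdeg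
    rw [Nat.card_eq_fintype_card, Fintype.card_subtype, ZMod.card] at h6
    refine ⟨_, fun _ => ⟨fun N t => mem_filter.2 ⟨mem_univ _, ?_, ?_⟩, h6⟩⟩
    · rw [det_mp]
      exact (t q hq).2
    · rw [← h3, ← map_tt _ N hd hd']
      exact (t q hq).1
  choose S hS using hS
  obtain ⟨W, w1, w2⟩ := crt _ Q (fun q hq => (hQ q hq).1) S Y hY
  refine ⟨W, fun N t1 t2 => w1 _ t2 fun q hq => (hS q hq).1 N t1, w2.trans ?_⟩
  refine mul_le_mul_of_nonneg_right ?_ (by positivity)
  rw [← prod_pow, ← prod_const, ← prod_div_distrib]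
  refine prod_le_prod (fun _ _ => by positivity) fun q hq => ?_
  have q0' : (0 : ℝ) < q := by exact_mod_cast (hQ q hq).1.pos
  have h1 : (10 : ℝ) * (S q).card ≤ 9 * (q : ℝ) ^ (2 * g * (2 * g + 1)) := by
    exact_mod_cast (hS q hq).2
  rw [show (2 * g + 1) * (2 * g + 1) = 2 * g * (2 * g + 1) + (2 * g + 1) by ring, pow_add,
    ← div_div, div_le_div_iff_of_pos_right (by positivity), div_le_iff₀ (by positivity)]
  linarith

end Pool.Agent.MP_a43263_nt.K2
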