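import Pool.Agent.MP_a43263_nt.K2.Spec

/-! THEOREM R2: irreducible polynomials over prime fields with prescribed values. -/

set_option autoImplicit false

noncomputable section

namespace Pool.Agent.MP_a43263_nt.K2

open Polynomial Finset Filter Matrix JC Pool.Agent.MP_a43263_nt.UV

namespace IrrA

open IntermediateField

/-- the value of the minimal polynomial of a primitive element is a norm -/
theorem ev {F K : Type} [Field F] [Field K] [Algebra F K] [FiniteDimensional F K] {g : ℕ}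
    (hK : Module.finrank F K = 2 * g) {α : K} (h : (minpoly F α).natDegree = 2 * g) (c : F) :
    (minpoly F α).eval c = Algebra.norm F (α - algebraMap F K c) := by
  have hi : IsIntegral F (α - algebraMap F K c) := IsIntegral.of_finite _ _
  have hm := minpoly.sub_algebraMap α c
  have hd : (minpoly F (α - algebraMap F K c)).natDegree = 2 * g := by
    rw [hm, natDegree_comp, natDegree_X_add_C, mul_one, h]
  have ht : F⟮α - algebraMap F K c⟯ = ⊤ :=
    (Field.primitive_element_iff_minpoly_natDegree_eq _ _).2 (hd.trans hK.symm)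
  have := Algebra.PowerBasis.norm_gen_eq_coeff_zero_minpoly
    (PowerBasis.ofAdjoinEqTop hi (adjoin_eq_top_iff.1 ht))
  rw [PowerBasis.ofAdjoinEqTop_gen, PowerBasis.ofAdjoinEqTop_dim, hd, pow_mul, neg_one_sq,
    one_pow, one_mul, coeff_zero_eq_eval_zero, hm, eval_comp] at this
  rw [this]
  simp

theorem fix (p : ℕ) [Fact p.Prime] {N : ℕ} (α x : GaloisField p N) (hx : x ∈ (ZMod p)⟮α⟯) :
    x ^ p ^ (minpoly (ZMod p) α).natDegree = x := by
  have hi : IsIntegral (ZMod p) α := IsIntegral.of_finite _ α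
  have := Fintype.ofFinite (ZMod p)⟮α⟯
  have hc : Fintype.card (ZMod p)⟮α⟯ = p ^ (minpoly (ZMod p) α).natDegree := by
    rw [← Nat.card_eq_fintype_card, Module.natCard_eq_pow_finrank (K := ZMod p), Nat.card_zmod,
      adjoin.finrank hi]
  have h2 := congrArg Subtype.val (FiniteField.pow_card (⟨x, hx⟩ : (ZMod p)⟮α⟯))
  rw [hc] at h2
  exact h2

theorem one (p : ℕ) [Fact p.Prime] {g : ℕ} (hg : 1 ≤ g) (c : ZMod p) (h2 : p ≠ 2) :
    ∃ h : (ZMod p)[X], h.Monic ∧ h.natDegree = 2 * g ∧ Irreducible h ∧ ¬IsSquare (h.eval c) := by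
  have hK := GaloisField.finrank p (n := 2 * g) (by omega)
  obtain ⟨γ, hγ⟩ := IsCyclic.exists_monoid_generator (α := (GaloisField p (2 * g))ˣ)
  have hp : ∀ x : GaloisField p (2 * g), x ≠ 0 → ∃ k : ℕ, γ.1 ^ k = x := fun x hx => by
    obtain ⟨k, hk⟩ := hγ (Units.mk0 x hx)
    exact ⟨k, congrArg Units.val hk⟩
  have ht : (ZMod p)⟮γ.1⟯ = ⊤ := top_le_iff.1 fun x _ => by
    by_cases hx : x = 0
    · exact hx ▸ zero_mem _
    · obtain ⟨k, rfl⟩ := hp x hx
      exact pow_mem (mem_adjoin_simple_self _ _) k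
  have hd := ((Field.primitive_element_iff_minpoly_natDegree_eq _ _).1 ht).trans hK
  set α := γ.1 + algebraMap (ZMod p) (GaloisField p (2 * g)) c with hα
  have hi : IsIntegral (ZMod p) α := IsIntegral.of_finite _ _
  have hd' : (minpoly (ZMod p) α).natDegree = 2 * g := by
    rw [hα, minpoly.add_algebraMap, natDegree_comp, natDegree_X_sub_C, mul_one, hd]
  refine ⟨_, minpoly.monic hi, hd', minpoly.irreducible hi, fun hs => ?_⟩
  rw [ev hK hd', hα, add_sub_cancel_right] at hs
  obtain ⟨a, ha⟩ := FiniteField.exists_nonsquare (F := ZMod p) (by rwa [ZMod.ringChar_zmod_n])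
  obtain ⟨x, rfl⟩ := FiniteField.norm_surjective (ZMod p) (GaloisField p (2 * g)) a
  by_cases hx : x = 0
  · exact ha (by rw [hx, Algebra.norm_zero]; exact IsSquare.zero)
  · obtain ⟨k, rfl⟩ := hp x hx
    exact ha (by rw [map_pow]; exact hs.pow k)

theorem two (p : ℕ) [hp : Fact p.Prime] {g : ℕ} (hg : 1 ≤ g) (h5 : 5 ≤ p) :
    ∃ h : (ZMod p)[X], h.Monic ∧ h.natDegree = 2 * g ∧ Irreducible h ∧ IsSquare (h.eval 0) ∧
      IsSquare (h.eval 1) := by
  have hK := GaloisField.finrank p (n := 2 * g) (by omega)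
  obtain ⟨γ, hγ⟩ := IsCyclic.exists_generator (α := (GaloisField p (2 * g))ˣ)
  have ho := orderOf_eq_card_of_forall_mem_zpowers hγ
  rw [Nat.card_units, GaloisField.card p _ (by omega)] at ho
  have h2 : (2 : GaloisField p (2 * g)) ≠ 0 := fun e => by
    have := (CharP.cast_eq_zero_iff (GaloisField p (2 * g)) p 2).1 (by exact_mod_cast e)
    have := Nat.le_of_dvd two_pos this
    omega
  set r : GaloisField p (2 * g) := γ.1 with hr
  have r0 : r ≠ 0 := γ.ne_zero
  set α : GaloisField p (2 * g) := ((r + r⁻¹) / 2) ^ 2 with hα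
  have hi : IsIntegral (ZMod p) α := IsIntegral.of_finite _ _
  have hd : (minpoly (ZMod p) α).natDegree = 2 * g := by
    have h1 := minpoly.natDegree_le (A := ZMod p) α
    rw [hK] at h1
    refine h1.eq_of_not_lt fun hlt => ?_
    have hd := minpoly.natDegree_pos hi
    have hm : r ^ 2 + (r ^ 2)⁻¹ ∈ (ZMod p)⟮α⟯ := by
      have e : r ^ 2 + (r ^ 2)⁻¹ = (4 : ℕ) * α - (2 : ℕ) := by
        rw [hα]; push_cast; field_simp; ring
      rw [e]
      exact sub_mem (mul_mem (_root_.natCast_mem _ _) (mem_adjoin_simple_self _ _))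
        (_root_.natCast_mem _ _)
    have hf := fix p α _ hm
    set d := (minpoly (ZMod p) α).natDegree
    rw [add_pow_char_pow, inv_pow] at hf
    have u0 : (r ^ 2) ^ p ^ d ≠ 0 := pow_ne_zero _ (pow_ne_zero _ r0)
    have e : ((r ^ 2) ^ p ^ d - r ^ 2) * ((r ^ 2) ^ p ^ d * r ^ 2 - 1) = 0 := by
      generalize (r ^ 2) ^ p ^ d = u at hf u0
      have t0 : r ^ 2 ≠ 0 := pow_ne_zero _ r0
      generalize r ^ 2 = t at hf t0
      field_simp at hf
      linear_combination hf
    have hQ : p ≤ p ^ d := Nat.le_self_pow hd.ne' p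
    have h7 : 5 * p ^ d ≤ p ^ (2 * g) :=
      (Nat.mul_le_mul_right _ h5).trans (by
        rw [← pow_succ']
        exact Nat.pow_le_pow_right hp.out.pos hlt)
    have key : ∀ n : ℕ, 0 < n → r ^ n = 1 → p ^ (2 * g) - 1 ≤ n := fun n hn e =>
      ho ▸ orderOf_le_of_pow_eq_one hn (Units.ext e)
    rcases mul_eq_zero.1 e with e | e
    · obtain ⟨m, hm⟩ : ∃ m, p ^ d = m + 1 := ⟨p ^ d - 1, by omega⟩
      rw [hm, pow_succ, sub_eq_zero, mul_eq_right₀ (pow_ne_zero _ r0), ← pow_mul] at e
      have := key _ (by omega) e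
      omega
    · rw [sub_eq_zero, ← pow_succ, ← pow_mul] at e
      have := key _ (by omega) e
      omega
  refine ⟨_, minpoly.monic hi, hd, minpoly.irreducible hi, ?_, ?_⟩
  · rw [ev hK hd, map_zero, sub_zero, hα, map_pow]
    exact IsSquare.sq _
  · have e : α - 1 = ((r - r⁻¹) / 2) ^ 2 := by
      rw [hα]; field_simp; ring
    rw [ev hK hd, map_one, e, map_pow]
    exact IsSquare.sq _

end IrrA

theorem irr_k : IRRStmt := fun _ hg =>
  ⟨fun p _ c h => IrrA.one p hg c h, 5, fun q _ h => IrrA.two q hg h⟩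

end Pool.Agent.MP_a43263_nt.K2
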