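import Pool.Agent.MP_a43263_nt.K2.Spec

/-! THEOREM R2: from a good point to rank two. -/

set_option autoImplicit false

noncomputable section

namespace Pool.Agent.MP_a43263_nt.K2

open Polynomial Finset Filter Matrix JC Pool.Agent.MP_a43263_nt.UV

namespace OneA

theorem sqf {S : Finset ℕ} {r : ℕ} (hS : ∀ q ∈ S, q.Prime) (hr : r.Prime) (h : r ∉ S) :
    Squarefree ((∏ q ∈ S, q) * r) := by
  rw [mul_comm, ← prod_insert (f := fun q => q) h]
  have k : ∀ q ∈ insert r S, q.Prime := fun q hq => (mem_insert.1 hq).elim (· ▸ hr) (hS q)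
  refine Finset.squarefree_prod_of_pairwise_isCoprime (fun p hp q hq e => ?_)
    fun p hp => (k p hp).squarefree
  simp only [← Nat.coprime_iff_isRelPrime]
  exact (Nat.coprime_primes (k p hp) (k q hq)).2 e

theorem sm_le {k Z u : ℕ} (hk : 1 ≤ k) (h : k ≤ Z) (hu : Sm k u) : (u : ℝ) ≤ Real.log Z ^ 7 :=
  hu.2.trans (pow_le_pow_left₀ (Real.log_natCast_nonneg k)
    (Real.log_le_log (by exact_mod_cast hk) (by exact_mod_cast h)) 7)

end OneA

open OneA in
theorem one_k : SIZStmt → MODStmt → TRNStmt → POSStmt → ISOStmt → KILLStmt → INDStmt → FOURStmt →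
    ONEStmt := by
  intro siz md trn pos iso kill ind four g Q hg
  filter_upwards [siz g hg, eventually_ge_atTop ((∏ q ∈ Q, q) + 2),
    eventually_ge_atTop (4 ^ (2 * g))] with k hs hD h4 w hw fam str
  have hk : 1 ≤ k := by omega
  obtain ⟨S, hSQ, hS⟩ := kill g (f1 w) Q fam.zq fam.ty fam.nx (pos g k w hg hk hw) str
  refine ⟨S, hSQ, fun a u v Z ha hZ hZ' ⟨hu, hv, huv, h24, hvN, hc, r, hr, hG⟩ => ?_⟩
  obtain ⟨_, hm, _, hirr, _, _, _, _, hsr, _⟩ := trn g w hg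
  obtain ⟨s1, _, s3, s4⟩ := hs w hw u v hu hv
  have hP : 0 < ∏ q ∈ Q, q := prod_pos fun q hq => (fam.ty q hq).1.pos
  have hd : ∏ q ∈ S, q ≤ k :=
    (Nat.le_of_dvd hP (prod_dvd_prod_of_subset _ _ _ hSQ)).trans (by omega)
  have hkv : k ^ (4 * g + 2) < (∏ q ∈ S, q) * r := by
    have h1 : 35 * (k * v) ^ (4 * g + 2) ≤ (∏ q ∈ S, q) * r := by
      rw [hG] at s1
      exact_mod_cast s1
    have h2 : k ^ (4 * g + 2) ≤ (k * v) ^ (4 * g + 2) :=
      Nat.pow_le_pow_left (Nat.le_mul_of_pos_right _ hv.1) _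
    have h5 : 0 < k ^ (4 * g + 2) := by positivity
    omega
  have hkr : k ^ (4 * g + 1) < r := by
    have h6 : k * k ^ (4 * g + 1) < k * r := by
      rw [← pow_succ']
      exact hkv.trans_le (Nat.mul_le_mul_right _ hd)
    exact lt_of_mul_lt_mul_left h6 (Nat.zero_le _)
  have hkk : k ≤ k ^ (4 * g + 1) := Nat.le_self_pow (by omega) k
  have hrQ : r ∉ Q := fun h => by
    have := Nat.le_of_dvd hP (dvd_prod_of_mem (fun q => q) h)
    omega
  have hco : IsCoprime (u : ℤ) (v : ℤ) := Nat.isCoprime_iff_coprime.2 huv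
  have hx : ¬(r : ℤ) ∣ Gx w u v := fun h => by
    have h1 := (Int.le_of_dvd s3 h).trans s4
    have h2 : r ≤ k ^ (4 * g + 1) := by exact_mod_cast h1
    omega
  have hG0 : Gv w u v ≠ 0 := by
    have : (0 : ℤ) < 35 * ((k : ℤ) * v) ^ (4 * g + 2) := by
      have := hv.1
      positivity
    omega
  obtain ⟨hrs, F, κ, cp, hF⟩ := md g w u v hg (by have := hu.1; omega) (by have := hv.1; omega) hG0
  have h8 : (8 : ℤ) ∣ (v : ℤ) := by omega
  obtain ⟨i1, i2⟩ := ind g (f1 w) _ fam.zq hm fam.t3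
  have n3 : ¬(3 : ℤ) ∣ (u : ℤ) := fun h => by
    have h1 : 3 ∣ Nat.gcd u v := Nat.dvd_gcd (by omega) (by omega)
    rw [huv] at h1
    omega
  have n5 : ¬(5 : ℤ) ∣ (v : ℤ) := fun h => by
    have h1 : 5 ∣ Nat.gcd v (5 * ∏ q ∈ Q, q) := Nat.dvd_gcd (by omega) (dvd_mul_right _ _)
    rw [hvN] at h1
    omega
  have d5 : (5 : ℤ) ∣ (u : ℤ) - v := by
    have h1 : u ≡ 1 * v [MOD 5] := (hc.of_mul_right _).trans (ha.mul_right v)
    rw [one_mul] at h1
    exact_mod_cast h1.symm.dvd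
  obtain ⟨i3, i4⟩ := i2 u v _ cp.nm fam.t5 (by omega) n3 n5 d5
  have good := four g (f1 w) F κ u v _ _ fam.zq cp hm i1 i3 i4
    (hS F κ u v _ r cp hco h8 hr (by omega) hrQ hG (hsr r u v hr hco hx))
  have zq := (iso g (f1 w) F κ u v _ fam.zq cp).1
  rw [Int.cast_natCast, Int.cast_natCast] at hrs hF
  refine ⟨hirr fam.zq.irr, u, v, (∏ q ∈ S, q) * r, hu.1, hv.1, sm_le hk hZ hu, sm_le hk hZ hv, ?_,
    sqf (fun q hq => (fam.ty q (hSQ hq)).1) hr fun h => hrQ (hSQ h), ?_, ?_⟩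
  · rw [hrs, hG, Int.cast_mul, Int.cast_natCast, Int.cast_natCast, Nat.cast_mul]
  · refine le_trans ?_ hkv.le
    calc Z ^ (4 * g) ≤ (4 * k) ^ (4 * g) := Nat.pow_le_pow_left hZ' _
      _ = (4 ^ (2 * g)) ^ 2 * k ^ (4 * g) := by ring
      _ ≤ k ^ 2 * k ^ (4 * g) := Nat.mul_le_mul_right _ (Nat.pow_le_pow_left h4 2)
      _ = _ := by ring
  · rw [← hF]
    exact ⟨zq.monic.map _, by rw [zq.monic.natDegree_map, zq.deg], zq.irr, good⟩

end Pool.Agent.MP_a43263_nt.K2
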