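import Pool.Agent.MP_a43263_nt.K2.Spec

/-! THEOREM R2: the sieve. -/

set_option autoImplicit false

noncomputable section

namespace Pool.Agent.MP_a43263_nt.K2

open Polynomial Finset Filter Matrix JC Pool.Agent.MP_a43263_nt.UV

namespace SieveA

theorem tz_nx {p g : ℕ} [Fact p.Prime] {c : ZMod p} {f : ℤ[X]} (hz : Zq g f) (h : Tz p c f) :
    ¬Nx p f := by
  obtain ⟨h, e, hh, -⟩ := h
  refine Ev.not_nx ?_
  have i1 : Irreducible (X - 1 : (ZMod p)[X]) := irreducible_X_sub_C 1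
  have d1 : (X - 1 : (ZMod p)[X]).natDegree = 1 := natDegree_X_sub_C 1
  rw [e, squarefree_mul_iff]
  refine ⟨i1.isRelPrime_iff_not_dvd.2 fun c => ?_, i1.squarefree, hh.squarefree⟩
  have h1 := hz.dg (ZMod p)
  have h2 := natDegree_eq_of_degree_eq
    (degree_eq_degree_of_associated (i1.associated_of_dvd hh c))
  rw [e, natDegree_mul i1.ne_zero hh.ne_zero, ← h2, d1] at h1
  have := hz.pos
  omega

theorem nx_one {p : ℕ} {f : ℤ[X]} {m : ℤ} (h : f.eval 1 = m ^ 2) (h1 : (p : ℤ) ∣ m)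
    (h2 : (p : ℤ) ∣ (derivative f).eval 1) : Nx p f := by
  obtain ⟨q, hq⟩ := X_sub_C_dvd_sub_C_eval (a := 1) (p := f)
  obtain ⟨a, ha⟩ := X_sub_C_dvd_sub_C_eval (a := 1) (p := q)
  have e : (derivative f).eval 1 = q.eval 1 := by
    have := congrArg (fun P => (derivative P).eval 1) hq
    simpa using this
  obtain ⟨c, rfl⟩ := h1
  obtain ⟨b, hb⟩ := h2
  refine ⟨X - C 1, a, C b, C (c ^ 2), monic_X_sub_C 1, by rw [natDegree_X_sub_C]; exact one_pos, ?_⟩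
  rw [← e, hb, C_mul] at ha
  rw [h, C_pow, C_mul] at hq
  rw [C_pow]
  linear_combination hq + (X - C 1) * ha

end SieveA

theorem sieve_k : TRNStmt → INDStmt → BADStmt → COUNTStmt → LOWStmt → GCDStmt → BASEStmt →
    SIEVEStmt := by
  intro trn ind bad count low gcd base g hg
  classical
  obtain ⟨q₀, c, c0, hc⟩ := count g hg
  obtain ⟨c', c0', hc'⟩ := gcd g hg
  obtain ⟨t, ht⟩ : ∃ t : ℝ, t = 5 ^ (2 * g + 1) ^ 2 := ⟨_, rfl⟩
  obtain ⟨s, hs⟩ : ∃ s : ℝ, s = 30 ^ (2 * g + 1) := ⟨_, rfl⟩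
  have t0 : 0 < t := by rw [ht]; positivity
  have s0 : 0 < s := by rw [hs]; positivity
  obtain ⟨N, hN⟩ := exists_pow_lt_of_lt_one (x := 1 / (8 * c * t * s)) (y := (9 / 10 : ℝ))
    (by positivity) (by norm_num)
  obtain ⟨Q, w₀, rfl, i2, t3, t5, hQ⟩ := base g (max q₀ 7) N hg
  have hQ7 : ∀ q ∈ Q, q.Prime ∧ 7 ≤ q := fun q hq =>
    ⟨(hQ q hq).1, (le_max_right _ _).trans (hQ q hq).2.2.1⟩
  obtain ⟨P, hP⟩ : ∃ P : ℝ, P = (∏ q ∈ Q, (q : ℝ)) ^ (2 * g + 1) := ⟨_, rfl⟩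
  have P0 : 0 < P := hP ▸ pow_pos (prod_pos fun q hq => by exact_mod_cast (hQ q hq).1.pos) _
  obtain ⟨r, hr⟩ : ∃ r : ℝ, r = 16 * t * s * P * c + 8 * s * P * c' + 2 := ⟨_, rfl⟩
  have r1 : 0 < 16 * t * s * P * c := by positivity
  have r2 : 0 < 8 * s * P * c' := by positivity
  have r0 : 0 < r := by linarith
  have k1 := hc Q (f1 w₀) (w₀ (Fin.last _)) (r ^ 2) (1 / (16 * t * s * P))
    (fun q hq => ⟨(hQ q hq).1, (le_max_left _ _).trans (hQ q hq).2.2.1, (hQ q hq).2.2.2⟩)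
    (by positivity) (by positivity)
  have k2 := low g Q w₀ (r ^ 2) hg hQ7
  rw [Real.sqrt_sq r0.le, ← hP] at k1
  rw [mul_pow, ← hP, ← hs] at k2
  refine ⟨Q, 1 / 8 / (s * P), by positivity, hQ7, ?_⟩
  have e : (c * (9 / 10) ^ Q.card / P + 1 / (16 * t * s * P) + c / r) * t ≤ 1 / 4 / (s * P) := by
    have e1 : c / r ≤ 1 / (16 * t * s * P) := by
      rw [div_le_div_iff₀ r0 (by positivity)]; linarith
    have e2 : c * (9 / 10) ^ Q.card / P ≤ 1 / (8 * t * s * P) := by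
      rw [lt_div_iff₀ (by positivity)] at hN
      rw [div_le_div_iff₀ P0 (by positivity)]
      nlinarith
    refine (mul_le_mul_of_nonneg_right (add_le_add (add_le_add e2 le_rfl) e1) t0.le).trans_eq ?_
    field_simp
    norm_num
  have M2 : 2 ≤ r ^ 2 := by nlinarith
  have e' : c' / r ^ 2 ≤ 1 / 8 / (s * P) := by
    rw [div_le_div_iff₀ (by positivity) (by positivity)]; nlinarith
  generalize r ^ 2 = M at M2 k1 k2 e'
  filter_upwards [(tendsto_natCast_atTop_atTop.const_mul_atTop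
    (by norm_num : (0 : ℝ) < 5)).eventually k1, k2, eventually_ge_atTop 1] with k h1 h2 h3
  have v0 : 0 ≤ vol g k := by unfold vol; positivity
  obtain ⟨R, hR⟩ : ∃ R : Vec g → Prop, ∀ w, R w ↔ Zq g (f1 w) ∧ w (Fin.last _) ≠ 0 ∧
    Cl2 g Q (f1 w₀) (w₀ (Fin.last _)) M (5 * k) (f1 w) (w (Fin.last _)) := ⟨_, fun _ => Iff.rfl⟩
  have h4 := h1 (((bx g k).filter R).image fun w => (f1 w, w (Fin.last _))) fun x hx => by
    obtain ⟨w, hw, rfl⟩ := mem_image.1 hx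
    exact (hR w).1 (mem_filter.1 hw).2
  rw [card_image_of_injective _ fun a b h => (trn g a hg).2.2.2.2.2.2.2.1 b
    (congrArg Prod.fst h) (congrArg Prod.snd h), ← cnt_eq_card, mul_pow, ← ht, ← mul_assoc] at h4
  have h5 : cnt g k R ≤ 1 / 4 / (s * P) * vol g k := h4.trans (mul_le_mul_of_nonneg_right e v0)
  have h6 := (hc' k M h3 M2).trans ((mul_div_right_comm _ _ _).trans_le
    (mul_le_mul_of_nonneg_right e' v0))
  have h7 := h2.trans ((cnt_le_add (Q := fun w => Fam g Q (f1 w) ∧ Str2 Q (f1 w))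
    (R := fun w => (∃ p : ℕ, p.Prime ∧ M ≤ p ∧ (p : ℤ) ∣ w (Fin.last _) ∧
      ∀ i : Fin (2 * g + 1), i.1 + 1 = 2 * g → (p : ℤ) ∣ w i) ∨ R w) ?_).trans
    (add_le_add le_rfl ((cnt_le_add fun _ _ h => h).trans (add_le_add h6 h5))))
  · have : 1 / 2 / (s * P) * vol g k = 4 * (1 / 8 / (s * P) * vol g k) := by ring
    have : 1 / 4 / (s * P) * vol g k = 2 * (1 / 8 / (s * P) * vol g k) := by ring
    linarith
  rintro w b1 ⟨b2, b3⟩
  obtain ⟨⟨a1, a2⟩, a3, a4, -, -, -, a5, -, -, a6⟩ := trn g w hg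
  obtain ⟨a6, a7⟩ := a6 k h3 b1
  have y : ∀ q : ℕ, (q ∣ 30 * ∏ q ∈ Q, q) → ∀ i, (w i : ZMod q) = w₀ i := fun q hq i =>
    (ZMod.intCast_eq_intCast_iff _ _ _).2
      (((ZMod.intCast_eq_intCast_iff _ _ _).1 (b2 i)).of_dvd (Int.natCast_dvd_natCast.2 hq))
  have yq : ∀ q ∈ Q, ∀ i, (w i : ZMod q) = w₀ i := fun q hq =>
    y q ((dvd_prod_of_mem _ hq).mul_left 30)
  have j2 : Irreducible (zK (f1 w) (ZMod 2)) := by
    rw [a5 2 w₀ (y 2 (Dvd.dvd.mul_right (by norm_num) _))]; exact i2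
  have hZ : Zq g (f1 w) := ⟨hg, a1, a2, (IsPrimitive.Int.irreducible_iff_irreducible_map_cast
    a1.isPrimitive).1 (a1.irreducible_of_irreducible_map _ _ j2)⟩
  have j3 : Tz 3 1 (f1 w) := by
    rw [Tz, a5 3 w₀ (y 3 (Dvd.dvd.mul_right (by norm_num) _))]; exact t3
  have j5 : Tz 5 0 (f1 w) := by
    rw [Tz, a5 5 w₀ (y 5 (Dvd.dvd.mul_right (by norm_num) _))]; exact t5
  have ty : ∀ q ∈ Q, Ty q (f1 w) := fun q hq => by
    rw [Ty, a5 q w₀ (yq q hq)]; exact (hQ q hq).2.2.2.1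
  have nx0 : ∀ p : ℕ, p.Prime → Nx p (f1 w) → p ≠ 2 ∧ p ∉ Q ∧ M ≤ p := fun p hp nx => by
    have p2 : p ≠ 2 := fun e => Ev.not_nx j2.squarefree (e ▸ nx)
    have p3 : p ≠ 3 := fun e => SieveA.tz_nx hZ j3 (e ▸ nx)
    have p5 : p ≠ 5 := fun e => have := Fact.mk Nat.prime_five; SieveA.tz_nx hZ j5 (e ▸ nx)
    have pQ : p ∉ Q := fun e => nxp.2.1 p g _ hp hZ (ty p e) nx
    have p7 : 7 ≤ p := by
      have := hp.two_le
      by_contra d
      obtain rfl | rfl : p = 4 ∨ p = 6 := by omega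
      exacts [absurd hp (by norm_num), absurd hp (by norm_num)]
    exact ⟨p2, pQ, not_lt.1 fun d => b3 p hp p7 pQ d nx⟩
  by_cases co : IsCoprime (w (Fin.last _)) ((derivative (f1 w)).eval 1)
  swap
  · obtain ⟨p, hp, d⟩ := Nat.exists_prime_and_dvd (mt Int.isCoprime_iff_gcd_eq_one.2 co)
    have d1 := (Int.natCast_dvd_natCast.2 d).trans (Int.gcd_dvd_left ..)
    have d2 := (Int.natCast_dvd_natCast.2 d).trans (Int.gcd_dvd_right ..)
    exact .inr (.inl ⟨p, hp, (nx0 p hp (SieveA.nx_one a3 d1 d2)).2.2, d1,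
      fun i hi => a4 i hi ▸ d2⟩)
  by_cases a : ¬Str2 Q (f1 w) ∨ ∃ p : ℕ, p.Prime ∧ p ≠ 2 ∧ p ∉ Q ∧ M ≤ p ∧ Nx p (f1 w)
  · obtain ⟨A, A', B, H, H', c1, c2, c3⟩ := bad g _ _ Q M (5 * k) hZ a3 co (ind g _ _ hZ a3 j3).1
      (fun q hq => ⟨(hQ q hq).1, ty q hq⟩)
      (by have : (1 : ℝ) ≤ k := by exact_mod_cast h3
          linarith) a7 (by linarith) a
    exact .inr (.inr ((hR w).2 ⟨hZ, a6, A, A', B, H, H', c1, fun q hq =>
      ⟨a5 q w₀ (yq q hq) ▸ (c2 q hq).1, (c2 q hq).2.trans (yq q hq _)⟩, c3⟩))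
  rw [not_or, not_not] at a
  exact .inl ⟨⟨hZ, fun q hq => ⟨(hQ q hq).1, (hQ q hq).2.1, ty q hq⟩, fun p hp nx =>
    let ⟨e1, e2, e3⟩ := nx0 p hp nx; a.2 ⟨p, hp, e1, e2, e3, nx⟩, j3, j5⟩, a.1⟩

end Pool.Agent.MP_a43263_nt.K2
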