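import Mathlib

/-! THEOREM R2, analytic part: definitions, statements, small tools.
Note: `/team-store/R2_NOTE.md`, blueprint: `/team-store/K2_BLUEPRINT.md`. -/

set_option autoImplicit false

noncomputable section

namespace Pool.Agent.MP_a43263_nt.K2

open Finset Filter

abbrev Vec (g : ℕ) : Type := Fin (2 * g + 1) → ℤ

/-- the weight of a coordinate -/
def xp (g i : ℕ) : ℕ := if i = 2 * g then 2 * g + 1 else 2 * (i + 1)

/-- the centre of the box -/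
def ce (g k i : ℕ) : ℤ := (if Odd i ∨ i = 2 * g then 7 else 0) * (k : ℤ) ^ xp g i

/-- the box -/
def bx (g k : ℕ) : Finset (Vec g) :=
  Fintype.piFinset fun i => Icc (ce g k i.1 - (k : ℤ) ^ xp g i.1) (ce g k i.1 + (k : ℤ) ^ xp g i.1)

/-- the size of the box -/
def vol (g k : ℕ) : ℝ := (k : ℝ) ^ ((2 * g + 1) ^ 2)

/-- the coefficients: the last coordinate is squared -/
def sv {R : Type} [CommRing R] {g : ℕ} (w : Fin (2 * g + 1) → R) : Fin (2 * g + 1) → R :=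
  fun i => if i.1 = 2 * g then w i ^ 2 else w i

/-- the value of the form at `(-u ^ 2, v ^ 2)` -/
def Gv {g : ℕ} (w : Vec g) (u v : ℤ) : ℤ :=
  (-u ^ 2) ^ (2 * g + 1) + ∑ i, sv w i * (-u ^ 2) ^ (2 * g - i.1) * (v ^ 2) ^ (i.1 + 1)

/-- the value of the derivative -/
def Gx {g : ℕ} (w : Vec g) (u v : ℤ) : ℤ := (2 * g + 1) * (-u ^ 2) ^ (2 * g) +
  ∑ i, ((2 * g - i.1 : ℕ) : ℤ) * sv w i * (-u ^ 2) ^ (2 * g - i.1 - 1) * (v ^ 2) ^ (i.1 + 1)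

open Classical in
/-- indicator -/
def ind (P : Prop) : ℝ := if P then 1 else 0

def cnt (g k : ℕ) (P : Vec g → Prop) : ℝ := ∑ w ∈ bx g k, ind (P w)

/-- the weight on primes -/
def lam (n : ℕ) : ℝ := if n.Prime then Real.log n else 0

def ph (q : ℕ) : ℝ := (q : ℝ) / q.totient

/-- the number of points -/
def nl (k : ℕ) : ℕ := ⌊Real.log k ^ 2⌋₊

/-- the small primes are those up to `zz k` -/
def zz (k : ℕ) : ℕ := Nat.log 2 (nl k)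

/-- the shift that keeps the value at `(u', v)` -/
def sh (g : ℕ) (t u' v : ℤ) : Vec g :=
  fun i => if i.1 + 2 = 2 * g then t * v ^ 2 else if i.1 + 1 = 2 * g then t * u' ^ 2 else 0

/-- the modulus of the progression -/
def dl (g N d u u' v : ℕ) : ℕ :=
  N ^ 2 / d * u ^ 2 * v ^ (4 * g) * ((u : ℤ) ^ 2 - (u' : ℤ) ^ 2).natAbs ^ 2

/-- the cofactor -/
def co {g : ℕ} (d : ℕ) (w : Vec g) (u v : ℕ) : ℕ := (Gv w u v / d).toNat

/-- admissible classes -/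
def Ad {g : ℕ} (N d : ℕ) (w : Vec g) (a : ℕ) : Prop :=
  (d : ℤ) ∣ Gv w a 1 ∧ IsCoprime (Gv w a 1 / d) (N : ℤ)

/-- the parameters of the points -/
structure Par (N a k v u₀ : ℕ) : Prop where
  dv : 24 ∣ v
  pos : 0 < v
  cop : v.Coprime N
  sm : ∀ p : ℕ, p.Prime → p ≤ zz k → p ∣ v * N
  le : v ≤ 24 * nl k ^ 2
  lt : u₀ < v * N ^ 2
  one : u₀ ≡ 1 [MOD v]
  cls : u₀ ≡ a * v [MOD N ^ 2]

/-- the points -/
def pt (N v u₀ j : ℕ) : ℕ := u₀ + v * N ^ 2 * j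

/-- small positive integers -/
def Sm (k u : ℕ) : Prop := 1 ≤ u ∧ (u : ℝ) ≤ Real.log k ^ 7

/-- a good point -/
def Gp {g : ℕ} (N d a k : ℕ) (w : Vec g) (u v : ℕ) : Prop := Sm k u ∧ Sm k v ∧ u.Coprime v ∧
  24 ∣ v ∧ v.Coprime N ∧ u ≡ a * v [MOD N] ∧ ∃ r : ℕ, r.Prime ∧ Gv w u v = (d : ℤ) * r

/-! ### statements -/

/-- sums over short intervals and a short arc -/
def GALStmt : Prop := ∀ (c : ℕ → ℂ) (S Y : Finset ℕ) (h : ℕ) (Θ : ℝ), 0 < Θ → Θ ≤ 1 / 2 →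
  ∑ y ∈ Y, ‖∑ n ∈ S.filter (fun n => y ≤ n ∧ n < y + h), c n‖ ^ 2 ≤
    (h : ℝ) ^ 2 * (∫ θ in (-Θ)..Θ,
      ‖∑ n ∈ S, c n * Complex.exp (2 * Real.pi * (n * θ : ℝ) * Complex.I)‖ ^ 2) +
    (∑ n ∈ S, ‖c n‖ ^ 2) / Θ ^ 2

/-- characters in almost all short intervals -/
def SIVStmt : Prop := ∀ A B : ℕ, ∀ᶠ X : ℕ in atTop, ∀ (q h : ℕ) (χ : DirichletCharacter ℂ q),
  1 ≤ q → (q : ℝ) ≤ Real.log X ^ B → (X : ℝ) ^ (1 / 4 : ℝ) ≤ h → h ≤ X →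
  ∑ y ∈ Ioc X (2 * X), ‖∑ n ∈ Ico y (y + h),
      ((ArithmeticFunction.vonMangoldt n : ℂ) * χ n - (ind (χ = 1) : ℝ))‖ ^ 2 ≤
    (h : ℝ) ^ 2 * X / Real.log X ^ A

/-- primes in almost all short progressions -/
def APLStmt : Prop := ∀ A B : ℕ, ∀ᶠ X : ℕ in atTop, ∀ q K : ℕ, 1 ≤ q → (q : ℝ) ≤ Real.log X ^ B →
  (X : ℝ) ^ (1 / 4 : ℝ) ≤ K → K * q ≤ X →
  ∑ y ∈ Ioc X (2 * X), |∑ i ∈ range K, lam (y + i * q) - K * (ph q * ind (y.Coprime q))| ≤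
    (K : ℝ) * X / Real.log X ^ A

/-- the shift lemma -/
def SHStmt : Prop := ∀ g : ℕ, ∃ c : ℝ, 0 < c ∧ ∀ (k K : ℕ) (σ : Vec g) (F : Vec g → ℝ) (B δ : ℝ),
  1 ≤ k → 0 ≤ δ → (∀ i, (K : ℝ) * |(σ i : ℝ)| ≤ δ * (k : ℝ) ^ xp g i.1) →
  (∀ w ∈ bx g k, ∀ i : ℕ, i < K → |F (w + (i : ℤ) • σ)| ≤ B) →
  |∑ w ∈ bx g k, ∑ i ∈ range K, F (w + (i : ℤ) • σ) - K * ∑ w ∈ bx g k, F w| ≤
    K * (B * (c * δ * vol g k))

/-- algebra of the values -/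
def GEOStmt : Prop := ∀ g : ℕ, 1 ≤ g →
  (∀ k : ℕ, 1 ≤ k → vol g k ≤ (bx g k).card ∧ ((bx g k).card : ℝ) ≤ 3 ^ (2 * g + 1) * vol g k) ∧
  (∀ (w : Vec g) (t u u' v : ℤ),
    Gv (w + sh g t u' v) u v = Gv w u v + t * (u ^ 2 * v ^ (4 * g) * (u ^ 2 - u' ^ 2))) ∧
  (∀ (N d a : ℕ) (w e : Vec g), 0 < N → d ∣ N → (∀ i, (N : ℤ) ^ 2 ∣ e i) →
    (Ad N d (w + e) a ↔ Ad N d w a)) ∧
  (∀ (N d a u v : ℕ) (w : Vec g), 0 < N → d ∣ N → v.Coprime N → u ≡ a * v [MOD N ^ 2] →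
    Ad N d w a → (d : ℤ) ∣ Gv w u v ∧ IsCoprime (Gv w u v / d) (N : ℤ)) ∧
  ∀ (w : Vec g) (u v : ℤ), IsCoprime u v → IsCoprime (Gv w u v) v

/-- sizes of the values -/
def SIZStmt : Prop := ∀ g : ℕ, 1 ≤ g → ∀ᶠ k : ℕ in atTop, ∀ w ∈ bx g k, ∀ u v : ℕ, Sm k u →
  Sm k v → 35 * ((k : ℤ) * v) ^ (4 * g + 2) ≤ Gv w u v ∧
    Gv w u v ≤ 65 * ((k : ℤ) * v) ^ (4 * g + 2) ∧ 0 < Gx w u v ∧ Gx w u v ≤ (k : ℤ) ^ (4 * g + 1)

/-- how often a value is taken, and how often a prime divides it -/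
def MULStmt : Prop := ∀ g : ℕ, 1 ≤ g → ∃ c : ℝ, 0 < c ∧ ∀ k u v : ℕ, 1 ≤ k → 1 ≤ u → 1 ≤ v →
  (∀ y : ℤ, cnt g k (fun w => Gv w u v = y) * (k : ℝ) ^ (4 * g + 2) ≤ c * u ^ 2 * vol g k) ∧
  ∀ p : ℕ, p.Prime → p ≤ k → ¬p ∣ v → cnt g k (fun w => (p : ℤ) ∣ Gv w u v) ≤ c * vol g k / p

/-- singular series -/
def PHIStmt : Prop := (∀ q : ℕ, 0 < q → 1 ≤ ph q) ∧ ∀ (C : ℕ) (η : ℝ), 0 < η →
  ∀ᶠ z : ℕ in atTop, ∀ q q₁ : ℕ, 0 < q → q ≤ 2 ^ (C * z) → q₁.primeFactors ⊆ q.primeFactors →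
    0 < q₁ → (∀ p : ℕ, p.Prime → p ≤ z → p ∣ q₁) → ph q₁ ≤ ph q ∧ ph q ≤ (1 + η) * ph q₁ ∧
      ∑ p ∈ q.primeFactors.filter (fun p => z < p), 1 / (p : ℝ) ≤ η

/-- the parameters exist, the points are small -/
def PARStmt : Prop := ∀ N a : ℕ, 0 < N → N.Coprime 6 → ∀ᶠ k : ℕ in atTop,
  (∃ v u₀, Par N a k v u₀) ∧ ∀ v u₀, Par N a k v u₀ → Sm k v ∧ ∀ j ∈ range (nl k),
    Sm k (pt N v u₀ j) ∧ (pt N v u₀ j).Coprime v ∧ pt N v u₀ j ≡ a * v [MOD N ^ 2]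

/-- one moment -/
def MOMStmt : Prop := ∀ g N d A : ℕ, 1 ≤ g → 0 < N → d ∣ N → ∀ᶠ k : ℕ in atTop,
  ∀ (u u' v : ℕ) (ω : Vec g → ℝ) (B : ℝ), Sm k u → Sm k u' → Sm k v → u ≠ u' →
  (∀ w, 0 ≤ ω w ∧ ω w ≤ B) →
  (∀ w, ω (w + sh g ((N : ℤ) ^ 2 * ((u : ℤ) ^ 2 - (u' : ℤ) ^ 2)) u' v) = ω w) →
  (∀ w, ω w ≠ 0 → (d : ℤ) ∣ Gv w u v) →
  |∑ w ∈ bx g k, ω w * (lam (co d w u v) -
      ph (dl g N d u u' v) * ind ((co d w u v).Coprime (dl g N d u u' v)))| ≤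
    B * vol g k / Real.log k ^ A

/-- first and second moments -/
def M12Stmt : Prop := ∀ g N d a : ℕ, 1 ≤ g → 0 < N → N.Coprime 6 → d ∣ N → ∀ η : ℝ, 0 < η →
  ∀ᶠ k : ℕ in atTop, ∀ v u₀ : ℕ, Par N a k v u₀ → ∀ j ∈ range (nl k),
  |∑ w ∈ bx g k, ind (Ad N d w a) * lam (co d w (pt N v u₀ j) v) -
      ph (v * N) * cnt g k fun w => Ad N d w a| ≤ η * ph (v * N) * vol g k ∧
  (∀ w ∈ bx g k, lam (co d w (pt N v u₀ j) v) ≤ (4 * g + 3) * Real.log k) ∧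
  ∀ j' ∈ range (nl k), j ≠ j' →
    ∑ w ∈ bx g k, ind (Ad N d w a) *
        (lam (co d w (pt N v u₀ j) v) * lam (co d w (pt N v u₀ j') v)) ≤
      ph (v * N) ^ 2 * ((cnt g k fun w => Ad N d w a) + η * vol g k)

/-- a prime value in every admissible class -/
def ALLStmt : Prop := ∀ g N d a : ℕ, 1 ≤ g → 0 < N → N.Coprime 6 → d ∣ N → ∀ ε : ℝ, 0 < ε →
  ∀ᶠ k : ℕ in atTop, cnt g k (fun w => Ad N d w a ∧ ¬∃ u v, Gp N d a k w u v) ≤ ε * vol g k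

theorem all_of (siv : SIVStmt) (apl : SIVStmt → APLStmt) (shf : SHStmt) (geo : GEOStmt)
    (siz : SIZStmt) (mul : MULStmt) (phi : PHIStmt) (par : PARStmt)
    (mom : APLStmt → SHStmt → GEOStmt → SIZStmt → MULStmt → MOMStmt)
    (m12 : GEOStmt → SIZStmt → MULStmt → PHIStmt → PARStmt → MOMStmt → M12Stmt)
    (all : GEOStmt → PHIStmt → PARStmt → M12Stmt → ALLStmt) : ALLStmt :=
  all geo phi par (m12 geo siz mul phi par (mom (apl siv) shf geo siz mul))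

/-! ### tools -/

theorem ind_pos {P : Prop} (h : P) : ind P = 1 := if_pos h

theorem ind_neg {P : Prop} (h : ¬P) : ind P = 0 := if_neg h

theorem ind_nonneg (P : Prop) : 0 ≤ ind P := by
  by_cases h : P
  · rw [ind_pos h]; exact zero_le_one
  · rw [ind_neg h]

theorem ind_le_one (P : Prop) : ind P ≤ 1 := by
  by_cases h : P
  · rw [ind_pos h]
  · rw [ind_neg h]; exact zero_le_one

theorem ind_congr {P Q : Prop} (h : P ↔ Q) : ind P = ind Q := by rw [propext h]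

theorem ind_mono {P Q : Prop} (h : P → Q) : ind P ≤ ind Q := by
  by_cases k : P
  · rw [ind_pos k, ind_pos (h k)]
  · rw [ind_neg k]; exact ind_nonneg Q

theorem ind_and (P Q : Prop) : ind (P ∧ Q) = ind P * ind Q := by
  by_cases h : P
  · rw [ind_pos h, one_mul, ind_congr (and_iff_right h)]
  · rw [ind_neg h, zero_mul, ind_neg fun k => h k.1]

theorem of_ind_ne {P : Prop} (h : ind P ≠ 0) : P := by_contra fun k => h (ind_neg k)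

theorem lam_nonneg (n : ℕ) : 0 ≤ lam n := by
  unfold lam
  split_ifs
  · exact Real.log_natCast_nonneg n
  · exact le_rfl

theorem lam_le (n : ℕ) : lam n ≤ Real.log n := by
  unfold lam
  split_ifs
  · exact le_rfl
  · exact Real.log_natCast_nonneg n

theorem mem_bx {g k : ℕ} {w : Vec g} : w ∈ bx g k ↔
    ∀ i, ce g k i.1 - (k : ℤ) ^ xp g i.1 ≤ w i ∧ w i ≤ ce g k i.1 + (k : ℤ) ^ xp g i.1 := by
  simp only [bx, Fintype.mem_piFinset, mem_Icc]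

variable {g k : ℕ} {P Q : Vec g → Prop}

theorem cnt_nonneg : 0 ≤ cnt g k P := sum_nonneg fun _ _ => ind_nonneg _

theorem cnt_mono (h : ∀ c ∈ bx g k, P c → Q c) : cnt g k P ≤ cnt g k Q :=
  sum_le_sum fun c hc => ind_mono (h c hc)

theorem cnt_le_card : cnt g k P ≤ (bx g k).card := by
  simpa [cnt] using sum_le_card_nsmul (bx g k) (fun c => ind (P c)) 1 fun _ _ => ind_le_one _

open Classical in
theorem cnt_eq_card : cnt g k P = ((bx g k).filter P).card := by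
  simp [cnt, ind]

theorem cnt_eq_ncard : cnt g k P = ({c | c ∈ bx g k ∧ P c}.ncard : ℝ) := by
  classical
  rw [cnt_eq_card, ← Set.ncard_coe_finset, coe_filter]

/-- the union bound -/
theorem cnt_le_sum {ι : Type} (s : Finset ι) (R : ι → Vec g → Prop)
    (h : ∀ c ∈ bx g k, P c → ∃ i ∈ s, R i c) : cnt g k P ≤ ∑ i ∈ s, cnt g k (R i) := by
  simp only [cnt]
  rw [sum_comm]
  refine sum_le_sum fun c hc => ?_
  by_cases e : P c
  · obtain ⟨i, hi, r⟩ := h c hc e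
    rw [ind_pos e, ← ind_pos r]
    exact single_le_sum (f := fun i => ind (R i c)) (fun _ _ => ind_nonneg _) hi
  · rw [ind_neg e]
    exact sum_nonneg fun _ _ => ind_nonneg _

theorem cnt_le_add {R : Vec g → Prop} (h : ∀ c ∈ bx g k, P c → Q c ∨ R c) :
    cnt g k P ≤ cnt g k Q + cnt g k R := by
  simp only [cnt]
  rw [← sum_add_distrib]
  refine sum_le_sum fun c hc => ?_
  by_cases e : P c
  · rw [ind_pos e]
    rcases h c hc e with r | r <;> rw [ind_pos r]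
    · exact le_add_of_nonneg_right (ind_nonneg _)
    · exact le_add_of_nonneg_left (ind_nonneg _)
  · rw [ind_neg e]
    exact add_nonneg (ind_nonneg _) (ind_nonneg _)

/-- Markov -/
theorem cnt_mul_le {a : ℝ} {F : Vec g → ℝ} (h0 : ∀ c ∈ bx g k, 0 ≤ F c)
    (h : ∀ c ∈ bx g k, P c → a ≤ F c) : cnt g k P * a ≤ ∑ c ∈ bx g k, F c := by
  rw [cnt, sum_mul]
  refine sum_le_sum fun c hc => ?_
  by_cases e : P c
  · rw [ind_pos e, one_mul]; exact h c hc e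
  · rw [ind_neg e, zero_mul]; exact h0 c hc

/-- the logarithm is large -/
theorem ev_le_log (a : ℝ) : ∀ᶠ t : ℕ in atTop, a ≤ Real.log t :=
  (Real.tendsto_log_atTop.comp tendsto_natCast_atTop_atTop).eventually_ge_atTop a

/-- powers of the logarithm are small -/
theorem ev_log_le (a : ℝ) (A : ℕ) : ∀ᶠ t : ℕ in atTop, a * Real.log t ^ A ≤ t := by
  have h := (Real.isLittleO_pow_log_id_atTop (n := A)).const_mul_left a
  filter_upwards [tendsto_natCast_atTop_atTop.eventually (h.bound one_pos)] with t ht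
  rw [one_mul, id, Real.norm_natCast] at ht
  exact (le_abs_self _).trans ht

theorem nl_le (t : ℕ) : (nl t : ℝ) ≤ Real.log t ^ 2 := Nat.floor_le (by positivity)

theorem le_nl {t : ℕ} (h : 1 ≤ Real.log t) : Real.log t ^ 2 / 2 ≤ nl t := by
  have h1 : (1 : ℝ) ≤ Real.log t ^ 2 := one_le_pow₀ h
  have h2 := Nat.lt_floor_add_one (Real.log t ^ 2)
  have h3 : (1 : ℝ) ≤ (⌊Real.log t ^ 2⌋₊ : ℕ) := by exact_mod_cast Nat.le_floor (by simpa using h1)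
  rw [nl]
  linarith

end Pool.Agent.MP_a43263_nt.K2
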