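import Pool.Agent.MP_a43263_nt.UV.All
import Pool.Agent.MP_a43263_nt.K2.SpecC

/-! THEOREM R2: rank two. Definitions and statements of the algebraic rows and of the count.
Blueprint: `/team-store/K2_BLUEPRINT.md`. -/

set_option autoImplicit false

noncomputable section

namespace Pool.Agent.MP_a43263_nt.K2

open Polynomial Finset Filter Matrix JC Pool.Agent.MP_a43263_nt.UV

/-! ### definitions -/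

/-- the translated polynomial: its value at one is a square -/
def f1 {g : ℕ} (w : Vec g) : ℤ[X] := (pc (sv w)).comp (X - 1)

/-- the moving branch point, in the translated variable -/
def el (u v : ℤ) : ℤ[X] := C (v ^ 2) * (X - 1) + C (u ^ 2)

/-- the class of the first point -/
def be (u v G : ℤ) : ℤ[X] := -C G * el u v

/-- the resultant -/
def rs (g : ℕ) (f : ℚ[X]) (u v : ℚ) : ℚ :=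
  ∑ i ∈ range (2 * g + 2), f.coeff i * (-u ^ 2) ^ i * (v ^ 2) ^ (2 * g + 1 - i)

/-- the odd model of `y ^ 2 = (v ^ 2 x + u ^ 2) f(x)` -/
def od (g : ℕ) (f : ℚ[X]) (u v : ℚ) : ℚ[X] := C (rs g f u v)⁻¹ * ∑ i ∈ range (2 * g + 2),
  C (f.coeff i) * (C (rs g f u v) - C (u ^ 2) * X) ^ i * (C (v ^ 2) * X) ^ (2 * g + 1 - i)

/-- companions: `F` is the odd model, `κ` its root in terms of the root of `f` -/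
structure Cp (g : ℕ) (f F κ : ℤ[X]) (u v G : ℤ) : Prop where
  mo : F.Monic
  dg : F.natDegree = 2 * g + 1
  ka : f ∣ κ * el u v - C G
  mb : ∑ i ∈ range (2 * g + 2), C (F.coeff i * G ^ i) * el u v ^ (2 * g + 1 - i) =
    C (G ^ (2 * g) * v ^ (4 * g + 2)) * f
  nm : Nm f (-el u v) = G
  G0 : G ≠ 0
  u0 : u ≠ 0
  v0 : v ≠ 0

section
variable {K : Type} [Field K]

/-- substitution of `κ` is an isomorphism of algebras -/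
structure Is (f F κ : K[X]) : Prop where
  ker : ∀ P : K[X], f ∣ P.comp κ ↔ F ∣ P
  sur : ∀ P : K[X], ∃ P' : K[X], f ∣ P - P'.comp κ
  nm : ∀ P : K[X], Nm f (P.comp κ) = Nm F P

/-- the image of the descent map of the companion -/
def Wt (f F κ δ : K[X]) : Prop := ∃ δ', Wc 1 F δ' ∧ f ∣ δ - δ'.comp κ

/-- the same in the even model -/
def Mb (f l δ : K[X]) : Prop := IsCoprime δ f ∧ ∃ (U V U' s : K[X]) (j k : ℕ),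
  l ^ (2 * j + 1) * f = V ^ 2 + U * U' ∧ IsCoprime U f ∧ f ∣ δ * (-l) ^ k * U - s ^ 2

end

/-- the common root is simple -/
def Sr (p : ℕ) (f : ℤ[X]) (u v : ℤ) : Prop := ∀ a : ZMod p, (zK (el u v) (ZMod p)).eval a = 0 →
  (zK f (ZMod p)).eval a = 0 → (derivative (zK f (ZMod p))).eval a ≠ 0

/-- increasing -/
def Inc (f : ℤ[X]) : Prop := ∀ x : ℝ, 0 < (derivative (zK f ℝ)).eval x

/-- the strict Selmer group is generated by the marked class -/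
def Str2 (Q : Finset ℕ) (f : ℤ[X]) : Prop := ∀ δ : ℚ[X], IsCoprime δ (zK f ℚ) →
  IsSquare (Nm (zK f ℚ) δ) → (∀ (p : ℕ) [Fact p.Prime], Ev p f (fK δ ℚ_[p])) →
  (∀ (q : ℕ) [Fact q.Prime], q ∈ Q → NF q f (fK δ ℚ_[q]) 0 0) →
  Sqm (zK f ℚ) δ ∨ Sqm (zK f ℚ) (δ * (1 - X))

/-- the type at an auxiliary prime: root one, irreducible cofactor with a nonsquare value -/
def Tz (p : ℕ) (c : ZMod p) (f : ℤ[X]) : Prop := ∃ h : (ZMod p)[X],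
  zK f (ZMod p) = (X - 1) * h ∧ Irreducible h ∧ ¬IsSquare (h.eval c)

/-- the family -/
structure Fam (g : ℕ) (Q : Finset ℕ) (f : ℤ[X]) : Prop where
  zq : Zq g f
  ty : ∀ q ∈ Q, q.Prime ∧ q % 8 = 1 ∧ Ty q f
  nx : ∀ p : ℕ, p.Prime → ¬Nx p f
  t3 : Tz 3 1 f
  t5 : Tz 5 0 f

def Good (r : ℕ) (F : ℚ[X]) : Prop := Module.Finite ℤ (JQ F) ∧ Module.finrank ℤ (JQ F) = r ∧
  (∀ P : JQ F, 2 • P = 0 → P = 0) ∧ ∀ k : ℕ, ∀ x ∈ JSha F, 2 ^ k • x = 0 → x = 0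

/-- everywhere locally in the image of the descent map -/
def Els (F δ : ℚ[X]) : Prop :=
  Wc 1 (fK F ℝ) (fK δ ℝ) ∧ ∀ (p : ℕ) [Fact p.Prime], Wc 1 (fK F ℚ_[p]) (fK δ ℚ_[p])

/-- the conclusion -/
def Best (g Z : ℕ) (f : ℚ[X]) : Prop := Irreducible f ∧ ∃ u v G : ℕ, 0 < u ∧ 0 < v ∧
  (u : ℝ) ≤ Real.log Z ^ 7 ∧ (v : ℝ) ≤ Real.log Z ^ 7 ∧ rs g f u v = G ∧ Squarefree G ∧
  Z ^ (4 * g) ≤ G ∧ (od g f u v).Monic ∧ (od g f u v).natDegree = 2 * g + 1 ∧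
  Irreducible (od g f u v) ∧ Good 2 (od g f u v)

section
variable {R : Type} [CommRing R] {n : ℕ}

/-- the operator of a triple -/
def Tt (A A' N : Matrix (Fin n) (Fin n) R) : Matrix (Fin n) (Fin n) R := 1 - A⁻¹ * Nᵀ * A'⁻¹ * N

end

section
variable {n : ℕ}

structure Tri (f : ℤ[X]) (m : ℤ) (A A' N : UC.Mz n) : Prop where
  sa : A.IsSymm
  sa' : A'.IsSymm
  det : IsUnit A.det
  det' : IsUnit A'.det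
  dt : N.det = m
  ch : (Tt A A' N).charpoly = f

/-- invariance under changes of basis of determinant one -/
def Inv2 (L : UC.Mz n → UC.Mz n → UC.Mz n → Prop) : Prop := ∀ A A' N γ β : UC.Mz n,
  IsUnit A.det → IsUnit A'.det → γ.det = 1 → β.det = 1 → L A A' N →
  L (γᵀ * A * γ) (βᵀ * A' * β) (βᵀ * N * γ)

def Box2 (b : ℤ) (e e' : Fin n → ℤ) (N : UC.Mz n) : Prop :=
  ∀ p q, |(N p q : ℝ)| ≤ (2 : ℝ) ^ (b + e' p + e q)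

/-- density in boxes with sides at least `N₀` -/
def Dens2 (L : UC.Mz n → UC.Mz n → UC.Mz n → Prop) (μ : ℝ) (N₀ : ℕ) : Prop :=
  ∀ A A' : UC.Mz n, A.IsSymm → A'.IsSymm → IsUnit A.det → IsUnit A'.det →
    ∀ Y : Fin n → Fin n → ℕ, (∀ p q, N₀ ≤ Y p q) → ∃ W : Finset (UC.Mz n),
      (∀ N : UC.Mz n, L A A' N → (∀ p q, |N p q| ≤ (Y p q : ℤ)) → N ∈ W) ∧
      (W.card : ℝ) ≤ μ * ∏ p, ∏ q, (3 * (Y p q : ℝ))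

/-- the weight of a type -/
def wt (e : Fin n → ℤ) : ℤ :=
  ∑ x ∈ UC.up n, max (e x.1 + e x.2) 0 - ∑ x ∈ UC.sup n, (e x.2 - e x.1)

def Phi2 (k : ℕ) (e e' : Fin n → ℤ) : ℤ :=
  ∑ p, ∑ q, max ((k : ℤ) + e' p + e q) 0 + wt e + wt e'

end

section
variable {g : ℕ}

/-- the deep cusp -/
def Dp (k : ℕ) (e : Fin (2 * g + 1) → ℤ) : Prop := ∀ i : Fin g, (k : ℤ) + e (UC.lo i) < 0

/-- admissible pairs of types -/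
structure Adm2 (k : ℕ) (e e' : Fin (2 * g + 1) → ℤ) : Prop where
  ex : UC.Ex e
  ex' : UC.Ex e'
  c1 : ∀ p, |e p - e' p| ≤ k
  c2 : ∀ p q : Fin (2 * g + 1), q.1 = p.1 + 1 → e q - e' p ≤ k ∨ e' q - e p ≤ k
  c3 : ¬Dp k e'

/-- the first vectors of the basis are isotropic for both forms -/
def Zb (A T : Mat g ℤ) : Prop :=
  ∀ i j : Fin g, A (UC.lo i) (UC.lo j) = 0 ∧ (A * T) (UC.lo i) (UC.lo j) = 0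

/-- the gain outside the deep cusp -/
def gn (k : ℕ) (e e' : Fin (2 * g + 1) → ℤ) : ℤ := min (max (-e 0) (-e' 0)) k

/-- the gain in the deep cusp -/
def dp (k : ℕ) (e : Fin (2 * g + 1) → ℤ) : ℤ := (2 * k * UC.tri g : ℕ) + ∑ i : Fin g, e (UC.lo i)

/-- the local condition -/
def Lc (Q : Finset ℕ) (f₀ : ℤ[X]) (m₀ : ℤ) (A A' N : Mat g ℤ) : Prop := ∀ q ∈ Q,
  St (zK f₀ (ZMod q)) (mK A (ZMod q)) (mK (A * Tt A A' N) (ZMod q)) ∧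
    ((N.det : ℤ) : ZMod q) = (m₀ : ZMod q)

/-- joint majorants -/
structure Maj2 (ρ : ℝ) (A A' N : Mat g ℤ) (H H' : Mat g ℝ) : Prop where
  h : Maj (ρ ^ 2) (mK A ℝ) (mK (Tt A A' N) ℝ) H
  h' : Maj (ρ ^ 2) (mK A' ℝ) (mK (Tt A' A Nᵀ) ℝ) H'
  jn : ∀ x y, (y ⬝ᵥ mK N ℝ *ᵥ x) ^ 2 ≤ ρ ^ 2 * ((y ⬝ᵥ H' *ᵥ y) * (x ⬝ᵥ H *ᵥ x))

end

/-- the pairs that are counted -/
def Cl2 (g : ℕ) (Q : Finset ℕ) (f₀ : ℤ[X]) (m₀ : ℤ) (M ρ : ℝ) (f : ℤ[X]) (m : ℤ) : Prop :=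
  ∃ (A A' N : Mat g ℤ) (H H' : Mat g ℝ), Tri f m A A' N ∧ Lc Q f₀ m₀ A A' N ∧
    Maj2 ρ A A' N H H' ∧ Dst M (ρ ^ 2) A (Tt A A' N) H ∧
    ∀ M' : ℝ, 0 ≤ M' → Dst M' (ρ ^ 2) A' (Tt A' A Nᵀ) H'

/-! ### A. local theory of the companion -/

/-- the companion exists -/
def MODStmt : Prop := ∀ (g : ℕ) (w : Vec g) (u v : ℤ), 1 ≤ g → u ≠ 0 → v ≠ 0 → Gv w u v ≠ 0 →
  rs g (zK (pc (sv w)) ℚ) u v = (Gv w u v : ℤ) ∧ ∃ F κ : ℤ[X],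
    Cp g (f1 w) F κ u v (Gv w u v) ∧ zK F ℚ = od g (zK (pc (sv w)) ℚ) u v

/-- the translated polynomial -/
def TRNStmt : Prop := ∀ (g : ℕ) (w : Vec g), 1 ≤ g →
  ((f1 w).Monic ∧ (f1 w).natDegree = 2 * g + 1) ∧
  (f1 w).eval 1 = w (Fin.last _) ^ 2 ∧
  (∀ i : Fin (2 * g + 1), i.1 + 1 = 2 * g → (derivative (f1 w)).eval 1 = w i) ∧
  (Irreducible (zK (f1 w) ℚ) → Irreducible (zK (pc (sv w)) ℚ)) ∧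
  (∀ p : ℕ, Nx p (f1 w) ↔ Nx p (pc (sv w))) ∧
  (∀ a : ℤ, Gv w a 1 = (f1 w).eval (1 - a ^ 2)) ∧
  (∀ (q : ℕ) (w' : Vec g), (∀ i, (w i : ZMod q) = w' i) → zK (f1 w) (ZMod q) = zK (f1 w') (ZMod q)) ∧
  (∀ w' : Vec g, f1 w = f1 w' → w (Fin.last _) = w' (Fin.last _) → w = w') ∧
  (∀ (p : ℕ) (u v : ℤ), p.Prime → IsCoprime u v → ¬(p : ℤ) ∣ Gx w u v → Sr p (f1 w) u v) ∧
  ∀ k : ℕ, 1 ≤ k → w ∈ bx g k → w (Fin.last _) ≠ 0 ∧ ∀ θ : ℂ, (zK (f1 w) ℂ).eval θ = 0 →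
    ‖θ‖ ≤ (5 * k : ℝ) ^ 2 ∧ ‖1 - θ‖ ≤ (5 * k : ℝ) ^ 2

def POSStmt : Prop := ∀ (g k : ℕ) (w : Vec g), 1 ≤ g → 1 ≤ k → w ∈ bx g k → Inc (f1 w)

def ISOStmt : Prop := ∀ (g : ℕ) (f F κ : ℤ[X]) (u v G : ℤ), Zq g f → Cp g f F κ u v G →
  Zq g F ∧ ∀ (K : Type) [Field K] [CharZero K], Is (zK f K) (zK F K) (zK κ K)

/-- the image of the descent map only depends on the class -/
def WSQStmt : Prop := ∀ (K : Type) [Field K] (f δ δ' : K[X]), Wc 1 f δ → IsCoprime δ' f →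
  Sqm f (δ * δ') → Wc 1 f δ'

/-- the group of the companion -/
def WTStmt : Prop := ∀ (g : ℕ) (f F κ : ℤ[X]) (u v G : ℤ), Zq g f → Cp g f F κ u v G →
  ∀ (K : Type) [Field K] [CharZero K],
  (∀ δ, Wt (zK f K) (zK F K) (zK κ K) δ → IsCoprime δ (zK f K) ∧ IsSquare (Nm (zK f K) δ)) ∧
  (∀ δ δ', Wt (zK f K) (zK F K) (zK κ K) δ → Wt (zK f K) (zK F K) (zK κ K) δ' →
    Wt (zK f K) (zK F K) (zK κ K) (δ * δ')) ∧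
  (∀ δ δ', Wt (zK f K) (zK F K) (zK κ K) δ → IsCoprime δ' (zK f K) → Sqm (zK f K) (δ * δ') →
    Wt (zK f K) (zK F K) (zK κ K) δ') ∧
  Wt (zK f K) (zK F K) (zK κ K) (zK (be u v G) K) ∧
  ∀ m : ℤ, f.eval 1 = m ^ 2 → Wt (zK f K) (zK F K) (zK κ K) (1 - X)

/-- split forms -/
def QSTStmt : Prop := ∀ (g : ℕ) (f F κ : ℤ[X]) (u v G : ℤ), Zq g f → Cp g f F κ u v G →
  ∀ (K : Type) [Field K] [CharZero K] (δ : K[X]), Wt (zK f K) (zK F K) (zK κ K) δ →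
    IsoM g (Gm g (zK f K) (δ * zK (be u v G) K))

/-- passage to the even model -/
def MOBStmt : Prop := ∀ (g : ℕ) (f F κ : ℤ[X]) (u v G : ℤ), Zq g f → Cp g f F κ u v G →
  ∀ (K : Type) [Field K] [CharZero K] (δ : K[X]), Wt (zK f K) (zK F K) (zK κ K) δ →
    Mb (zK f K) (zK (el u v) K) δ

/-- valuations away from the branch point -/
def EVHStmt : Prop := ∀ (p : ℕ) [Fact p.Prime] (f : ℤ[X]) (a h l : ℤ_[p][X]) (δ : ℚ_[p][X]),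
  ¬Nx p f → zK f ℤ_[p] = a * h → h.Monic → IsCoprime (rq p l) (rq p h) →
  Mb (zK f ℚ_[p]) (iq p l) δ → ∃ (j : ℤ) (x : ℚ_[p][X]) (r : ℤ_[p][X]),
    iq p h ∣ δ * x ^ 2 - C ((p : ℚ_[p]) ^ j) * iq p r ∧ IsCoprime (rq p r) (rq p h)

/-- primes that do not divide the resultant -/
def EV1Stmt : Prop := ∀ (p : ℕ) [Fact p.Prime] (g : ℕ) (f F κ : ℤ[X]) (u v G : ℤ) (δ : ℚ_[p][X]),
  Zq g f → Cp g f F κ u v G → ¬Nx p f → ¬(p : ℤ) ∣ G →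
  Wt (zK f ℚ_[p]) (zK F ℚ_[p]) (zK κ ℚ_[p]) δ → Ev p f δ

/-- primes that divide the resultant once -/
def EV2Stmt : Prop := ∀ (p : ℕ) [Fact p.Prime] (g : ℕ) (f F κ : ℤ[X]) (u v G : ℤ) (δ : ℚ_[p][X]),
  Zq g f → Cp g f F κ u v G → IsCoprime u v → ¬Nx p f → (p : ℤ) ∣ G → ¬(p : ℤ) ^ 2 ∣ G →
  Sr p f u v → Wt (zK f ℚ_[p]) (zK F ℚ_[p]) (zK κ ℚ_[p]) δ →
  Ev p f δ ∨ Ev p f (δ * zK (be u v G) ℚ_[p])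

/-- the ramified line -/
def RAM2Stmt : Prop := ∀ (p : ℕ) [Fact p.Prime] (g : ℕ) (f F κ : ℤ[X]) (u v G : ℤ)
  (δ : ℚ_[p][X]) (s y : ZMod 2), p % 4 = 1 → Zq g f → Ty p f → Cp g f F κ u v G →
  IsCoprime u v → (p : ℤ) ∣ G → ¬(p : ℤ) ^ 2 ∣ G →
  Wt (zK f ℚ_[p]) (zK F ℚ_[p]) (zK κ ℚ_[p]) δ → NF p f δ s y → s = 0

/-- one irreducible divisor at two -/
def PT2Stmt : Prop := ∀ (g : ℕ) (f F κ : ℤ[X]) (u v G : ℤ) (U V : ℚ_[2][X]), Zq g f →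
  Cp g f F κ u v G → 8 ∣ v → Odd u → U.Monic → Irreducible U → U ∣ zK F ℚ_[2] - V ^ 2 →
  IsCoprime U (zK F ℚ_[2]) →
  Wc 1 (zK f ℚ_[2]) ((C ((-1) ^ U.natDegree) * U).comp (zK κ ℚ_[2]))

/-- the condition at two does not move -/
def TWOStmt : Prop := ∀ (g : ℕ) (f F κ : ℤ[X]) (u v G : ℤ) (δ : ℚ_[2][X]), Zq g f →
  Cp g f F κ u v G → 8 ∣ v → Odd u → Wt (zK f ℚ_[2]) (zK F ℚ_[2]) (zK κ ℚ_[2]) δ →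
  Wc 1 (zK f ℚ_[2]) δ

/-- one real root -/
def REALStmt : Prop := ∀ (g : ℕ) (f : ℤ[X]) (δ : ℝ[X]), Zq g f → Inc f → IsCoprime δ (zK f ℝ) →
  IsSquare (Nm (zK f ℝ) δ) → Wc 1 (zK f ℝ) δ

def KILLStmt : Prop := ∀ (g : ℕ) (f : ℤ[X]) (Q : Finset ℕ), Zq g f →
  (∀ q ∈ Q, q.Prime ∧ q % 8 = 1 ∧ Ty q f) → (∀ p : ℕ, p.Prime → ¬Nx p f) →
  Inc f → Str2 Q f → ∃ S ⊆ Q, ∀ (F κ : ℤ[X]) (u v G : ℤ) (r : ℕ), Cp g f F κ u v G →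
    IsCoprime u v → 8 ∣ v → r.Prime → r ≠ 2 → r ∉ Q → G = (∏ q ∈ S, q : ℕ) * (r : ℤ) →
    Sr r f u v → ∀ δ : ℚ[X], Els (zK F ℚ) δ → ∃ i j : ℕ, i ≤ 1 ∧ j ≤ 1 ∧
      Sqm (zK f ℚ) (δ.comp (zK κ ℚ) * zK (be u v G) ℚ ^ i * (1 - X) ^ j)

/-- nonsquares from a simple root -/
def NSStmt : Prop := ∀ (p : ℕ) [Fact p.Prime] (g : ℕ) (f P : ℤ[X]) (h : (ZMod p)[X]) (m : ℤ)
  (j : ℕ), p ≠ 2 → Zq g f → zK f (ZMod p) = (X - 1) * h → Irreducible h → f.eval 1 = m ^ 2 →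
  ¬IsSquare ((zK P (ZMod p)).eval 1 * h.eval 1 ^ j) → ¬Sqm (zK f ℚ) (zK P ℚ * (1 - X) ^ j)

/-- the marked classes are independent -/
def INDStmt : Prop := ∀ (g : ℕ) (f : ℤ[X]) (m : ℤ), Zq g f → f.eval 1 = m ^ 2 → Tz 3 1 f →
  ¬Sqm (zK f ℚ) (1 - X) ∧ ∀ u v G : ℤ, Nm f (-el u v) = G → Tz 5 0 f → 3 ∣ v → ¬3 ∣ u → ¬5 ∣ v →
    5 ∣ u - v → ¬Sqm (zK f ℚ) (zK (be u v G) ℚ) ∧ ¬Sqm (zK f ℚ) (zK (be u v G) ℚ * (1 - X))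

/-! ### D. descent -/

def SHAStmt : Prop := ∀ (g : ℕ) (F : ℚ[X]), Sq g F → (∀ δ, Els F δ → Wc 1 F δ) →
  ∀ k : ℕ, ∀ x ∈ JSha F, 2 ^ k • x = 0 → x = 0

def IDXStmt : Prop := ∀ (g : ℕ) (F : ℚ[X]) (I : Finset ℚ[X]), Sq g F → (∀ d ∈ I, Wc 1 F d) →
  (∀ d ∈ I, ∀ e ∈ I, Sqm F (d * e) → d = e) → (∀ d, Wc 1 F d → ∃ e ∈ I, Sqm F (d * e)) →
  (nsmulAddMonoidHom 2 : JQ F →+ JQ F).range.index = I.card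

def TORStmt : Prop := ∀ (g : ℕ) (F : ℚ[X]), Sq g F → Irreducible F →
  ∀ P : JQ F, 2 • P = 0 → P = 0

def DESCStmt : Prop := ∀ (g r : ℕ) (F : ℤ[X]) (I : Finset ℚ[X]), Zq g F → I.card = 2 ^ r →
  (∀ d ∈ I, Wc 1 (zK F ℚ) d) → (∀ d ∈ I, ∀ e ∈ I, Sqm (zK F ℚ) (d * e) → d = e) →
  (∀ d, Els (zK F ℚ) d → ∃ e ∈ I, Sqm (zK F ℚ) (d * e)) → Good r (zK F ℚ)

/-- rank two from four classes -/
def FOURStmt : Prop := ∀ (g : ℕ) (f F κ : ℤ[X]) (u v G m : ℤ), Zq g f → Cp g f F κ u v G →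
  f.eval 1 = m ^ 2 → ¬Sqm (zK f ℚ) (1 - X) → ¬Sqm (zK f ℚ) (zK (be u v G) ℚ) →
  ¬Sqm (zK f ℚ) (zK (be u v G) ℚ * (1 - X)) →
  (∀ δ : ℚ[X], Els (zK F ℚ) δ → ∃ i j : ℕ, i ≤ 1 ∧ j ≤ 1 ∧
    Sqm (zK f ℚ) (δ.comp (zK κ ℚ) * zK (be u v G) ℚ ^ i * (1 - X) ^ j)) → Good 2 (zK F ℚ)

/-! ### B. lattices -/

/-- the second lattice -/
def LATStmt : Prop := ∀ (g : ℕ) (f : ℤ[X]) (m : ℤ) (δ : ℚ[X]) (Λ : Set ℚ[X]), Zq g f →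
  f.eval 1 = m ^ 2 → IsCoprime m ((derivative f).eval 1) → IsCoprime δ (zK f ℚ) → SD f δ Λ →
  ∃ Λ', SD f (δ * (1 - X)) Λ' ∧ Λ ⊆ Λ'

/-- the triple -/
def TRIStmt : Prop := ∀ (g : ℕ) (f : ℤ[X]) (m : ℤ) (δ : ℚ[X]) (Λ' : Set ℚ[X])
  (b b' : Fin (2 * g + 1) → ℚ[X]) (A T A' T' : Mat g ℤ), Zq g f → f.eval 1 = m ^ 2 →
  Bs g f Λ' b' → (∀ i, b i ∈ Λ') → Mt g f δ b A T → UV.Rep g f A T →
  Mt g f (δ * (1 - X)) b' A' T' → UV.Rep g f A' T' →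
  ∃ N, Tri f m A A' N ∧ Tt A A' N = T ∧ Tt A' A Nᵀ = T'

def MAJStmt : Prop := ∀ (g : ℕ) (f : ℤ[X]) (m : ℤ) (A A' N : Mat g ℤ) (ρ : ℝ), Zq g f → m ≠ 0 →
  Tri f m A A' N → (∀ θ : ℂ, (zK f ℂ).eval θ = 0 → ‖θ‖ ≤ ρ ^ 2 ∧ ‖1 - θ‖ ≤ ρ ^ 2) →
  ∃ H H', Maj2 ρ A A' N H H'

def BADStmt : Prop := ∀ (g : ℕ) (f : ℤ[X]) (m : ℤ) (Q : Finset ℕ) (M ρ : ℝ), Zq g f →
  f.eval 1 = m ^ 2 → IsCoprime m ((derivative f).eval 1) → ¬Sqm (zK f ℚ) (1 - X) →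
  (∀ q ∈ Q, q.Prime ∧ Ty q f) → 1 ≤ ρ →
  (∀ θ : ℂ, (zK f ℂ).eval θ = 0 → ‖θ‖ ≤ ρ ^ 2 ∧ ‖1 - θ‖ ≤ ρ ^ 2) → 0 ≤ M →
  (¬Str2 Q f ∨ ∃ p : ℕ, p.Prime ∧ p ≠ 2 ∧ p ∉ Q ∧ M ≤ p ∧ Nx p f) → Cl2 g Q f m M ρ f m

/-! ### C. counting -/

/-- change of basis -/
def CHGStmt : Prop := (∀ (n : ℕ) (A A' N γ γ' β : UC.Mz n), IsUnit A.det → IsUnit A'.det →
    γ * γ' = 1 → IsUnit β.det →
    Tt (γᵀ * A * γ) (βᵀ * A' * β) (βᵀ * N * γ) = γ' * Tt A A' N * γ) ∧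
  (∀ (n : ℕ) (f : ℤ[X]) (m : ℤ), Inv2 (n := n) (Tri f m)) ∧
  (∀ (n : ℕ) (f : ℤ[X]) (m : ℤ) (A A' N : UC.Mz n), Tri f m A A' N →
    Tri f m A' A Nᵀ ∧ UC.Pair A (Tt A A' N) ∧ A * Tt A A' N = A - Nᵀ * A'⁻¹ * N) ∧
  ∀ (g : ℕ) (Q : Finset ℕ) (f₀ : ℤ[X]) (m₀ : ℤ), Inv2 (Lc (g := g) Q f₀ m₀)

/-- reduced bases -/
def REDStmt : Prop := ∀ g : ℕ, ∃ κ : ℕ, ∀ (M ρ : ℝ) (k : ℕ) (A A' N : Mat g ℤ) (H H' : Mat g ℝ),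
  IsUnit A.det → IsUnit A'.det → Maj2 ρ A A' N H H' → Dst M (ρ ^ 2) A (Tt A A' N) H →
  (∀ M' : ℝ, 0 ≤ M' → Dst M' (ρ ^ 2) A' (Tt A' A Nᵀ) H') → 0 ≤ ρ → ρ ≤ 2 ^ k →
  ∃ (γ β : Mat g ℤ) (e e' : Fin (2 * g + 1) → ℤ), γ.det = 1 ∧ β.det = 1 ∧ UC.Ex e ∧ UC.Ex e' ∧
    UC.Box κ e (γᵀ * A * γ) ∧ UC.Box κ e' (βᵀ * A' * β) ∧ Box2 ((κ : ℤ) + k) e e' (βᵀ * N * γ) ∧
    (Zb (γᵀ * A * γ) (Tt (γᵀ * A * γ) (βᵀ * A' * β) (βᵀ * N * γ)) →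
      M ≤ (2 : ℝ) ^ (((g * κ : ℕ) : ℤ) + dp k e)) ∧
    ¬Zb (βᵀ * A' * β) (Tt (βᵀ * A' * β) (γᵀ * A * γ) (βᵀ * N * γ)ᵀ)

/-- zero blocks -/
def ADMStmt : Prop := ∀ (g κ k : ℕ) (f : ℤ[X]) (m : ℤ) (A A' N : Mat g ℤ)
  (e e' : Fin (2 * g + 1) → ℤ), 1 ≤ g → Tri f m A A' N → UC.Irr f → m ≠ 0 → UC.Ex e → UC.Ex e' →
  UC.Box κ e A → UC.Box κ e' A' → Box2 k e e' N → ¬Zb A' (Tt A' A Nᵀ) →
  Adm2 (k + κ) e e' ∧ (Dp (k + κ) e → Zb A (Tt A A' N))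

/-- division by the unitriangular matrices -/
def UNIStmt : Prop := ∀ n : ℕ, ∃ c : ℕ, ∀ (a b : ℤ) (e e' : Fin n → ℤ)
  (L : UC.Mz n → UC.Mz n → UC.Mz n → Prop), Inv2 L → Monotone e → Monotone e' →
  ∀ (S : Finset (ℤ[X] × ℤ)) (W : Finset (UC.Mz n × UC.Mz n × UC.Mz n)),
  (∀ x ∈ S, UC.Irr x.1 ∧ x.2 ≠ 0 ∧ ∃ A A' N : UC.Mz n, Tri x.1 x.2 A A' N ∧ L A A' N ∧
    UC.Box a e A ∧ UC.Box a e' A' ∧ Box2 b e e' N) →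
  (∀ (f : ℤ[X]) (m : ℤ) (A A' N : UC.Mz n), Tri f m A A' N → L A A' N → UC.Box (a + c) e A →
    UC.Box (a + c) e' A' → Box2 (b + c) e e' N → (A, A', N) ∈ W) →
  (S.card : ℝ) * (2 : ℝ) ^ (∑ x ∈ UC.sup n, (e x.2 - e x.1) + ∑ x ∈ UC.sup n, (e' x.2 - e' x.1)) ≤
    W.card

/-- triples in boxes -/
def BOXStmt : Prop := ∀ n : ℕ, ∃ c : ℝ, 0 < c ∧ ∀ (a : ℕ) (b : ℤ) (e e' : Fin n → ℤ)
  (L : UC.Mz n → UC.Mz n → UC.Mz n → Prop) (μ : ℝ) (N₀ : ℕ), 0 ≤ μ →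
  (μ = 1 ∨ Dens2 L μ N₀ ∧ ∀ p q, (N₀ : ℤ) ≤ b + e' p + e q) →
  ∃ W : Finset (UC.Mz n × UC.Mz n × UC.Mz n),
    (∀ (f : ℤ[X]) (m : ℤ) (A A' N : UC.Mz n), Tri f m A A' N → L A A' N → UC.Box a e A →
      UC.Box a e' A' → Box2 b e e' N → (A, A', N) ∈ W) ∧
    (W.card : ℝ) ≤ μ * c ^ (a + 1) * (2 : ℝ) ^ (∑ p, ∑ q, max (b + e' p + e q) 0 +
      ∑ x ∈ UC.up n, max (e x.1 + e x.2) 0 + ∑ x ∈ UC.up n, max (e' x.1 + e' x.2) 0)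

/-- the two exponent inequalities -/
def EXPStmt : Prop := ∀ (g k : ℕ) (e e' : Fin (2 * g + 1) → ℤ), 1 ≤ g → Adm2 k e e' →
  (¬Dp k e → Phi2 k e e' ≤ (k * (2 * g + 1) ^ 2 : ℕ) - gn k e e') ∧
  (Dp k e → Phi2 k e e' ≤ (k * (2 * g + 1) ^ 2 : ℕ) - dp k e)

/-- sums over the types -/
def SUMStmt : Prop := ∀ g : ℕ, 1 ≤ g → ∃ c : ℝ, 0 < c ∧ ∀ (k : ℕ)
  (E : Finset ((Fin (2 * g + 1) → ℤ) × (Fin (2 * g + 1) → ℤ))), (∀ x ∈ E, Adm2 k x.1 x.2) →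
  (∀ s : ℕ, (∀ x ∈ E, (2 * s : ℤ) ≤ gn k x.1 x.2) →
    ∑ x ∈ E, (2 : ℝ) ^ (-gn k x.1 x.2) ≤ c / 2 ^ s) ∧ (∀ x ∈ E, 0 ≤ dp k x.1) ∧
  ∀ s : ℕ, (∀ x ∈ E, (2 * s : ℤ) ≤ dp k x.1) → ∑ x ∈ E, (2 : ℝ) ^ (-dp k x.1) ≤ c / 2 ^ s

/-- the count over a finite field -/
def FCStmt : Prop := ∀ g : ℕ, 1 ≤ g → ∃ q₀ : ℕ, ∀ (F : Type) [Field F] [Fintype F] [DecidableEq F],
  q₀ ≤ Fintype.card F → (2 : F) ≠ 0 → ∀ A A' : Mat g F, A.IsSymm → A'.IsSymm → A.det ≠ 0 →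
  A'.det ≠ 0 → ∀ (m : F) (h : F[X]), m ≠ 0 → Irreducible h → h.natDegree = 2 * g →
  10 * Nat.card {N : Mat g F // N.det = m ∧ St (X * h) A (A * Tt A A' N)} ≤
    9 * Fintype.card F ^ (2 * g * (2 * g + 1))

/-- density of the local condition -/
def DENStmt : Prop := ∀ g : ℕ, 1 ≤ g → ∃ q₀ : ℕ, ∀ (Q : Finset ℕ) (f₀ : ℤ[X]) (m₀ : ℤ),
  (∀ q ∈ Q, q.Prime ∧ q₀ ≤ q ∧ Ty q f₀ ∧ ¬(q : ℤ) ∣ m₀) →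
  Dens2 (Lc (g := g) Q f₀ m₀) ((9 / 10) ^ Q.card / (∏ q ∈ Q, (q : ℝ)) ^ (2 * g + 1)) (∏ q ∈ Q, q)

/-- the count for reduced representatives -/
def COREStmt : Prop := ∀ g κ : ℕ, 1 ≤ g → ∃ c : ℝ, 0 < c ∧
  ∀ (L : Mat g ℤ → Mat g ℤ → Mat g ℤ → Prop) (μ : ℝ) (N₀ : ℕ), Inv2 L → 0 ≤ μ → Dens2 L μ N₀ →
  ∀ s s₂ k : ℕ, 4 * s + N₀ ≤ k → ∀ S : Finset (ℤ[X] × ℤ),
  (∀ x ∈ S, UC.Irr x.1 ∧ x.2 ≠ 0 ∧ ∃ (e e' : Fin (2 * g + 1) → ℤ) (A A' N : Mat g ℤ), UC.Ex e ∧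
    UC.Ex e' ∧ Tri x.1 x.2 A A' N ∧ L A A' N ∧ UC.Box κ e A ∧ UC.Box κ e' A' ∧
    Box2 ((κ : ℤ) + k) e e' N ∧ ¬Zb A' (Tt A' A Nᵀ) ∧
    (Zb A (Tt A A' N) → s₂ ≠ 0 → (2 * s₂ : ℤ) ≤ dp k e)) →
  (S.card : ℝ) ≤ c * (2 ^ k) ^ ((2 * g + 1) ^ 2) * (μ + 1 / 2 ^ s + 1 / 2 ^ s₂)

def COUNTStmt : Prop := ∀ g : ℕ, 1 ≤ g → ∃ (q₀ : ℕ) (c : ℝ), 0 < c ∧ ∀ (Q : Finset ℕ) (f₀ : ℤ[X])
  (m₀ : ℤ) (M ε : ℝ), (∀ q ∈ Q, q.Prime ∧ q₀ ≤ q ∧ Ty q f₀ ∧ ¬(q : ℤ) ∣ m₀) → 0 < M → 0 < ε →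
  ∀ᶠ ρ : ℝ in atTop, ∀ S : Finset (ℤ[X] × ℤ),
    (∀ x ∈ S, Zq g x.1 ∧ x.2 ≠ 0 ∧ Cl2 g Q f₀ m₀ M ρ x.1 x.2) → (S.card : ℝ) ≤
    (c * (9 / 10) ^ Q.card / (∏ q ∈ Q, (q : ℝ)) ^ (2 * g + 1) + ε + c / √M) *
      ρ ^ ((2 * g + 1) ^ 2)

/-! ### E. sieve -/

/-- the density of the polynomials that are not maximal -/
def BETAStmt : Prop := ∀ g p : ℕ, 1 ≤ g → p.Prime → p ≠ 2 →
  ({x : Fin (2 * g + 1) → ZMod (p ^ 2) | ∃ w : Vec g, (fun i => (w i : ZMod (p ^ 2))) = x ∧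
    Nx p (f1 w)}.ncard : ℝ) ≤ 4 * (p : ℝ) ^ (2 * (2 * g + 1)) / ((p : ℝ) ^ 2 - 1)

/-- the small primes -/
def LOWStmt : Prop := ∀ (g : ℕ) (Q : Finset ℕ) (w₀ : Vec g) (M : ℝ), 1 ≤ g →
  (∀ q ∈ Q, q.Prime ∧ 7 ≤ q) → ∀ᶠ k : ℕ in atTop,
  1 / 2 / (30 * ∏ q ∈ Q, (q : ℝ)) ^ (2 * g + 1) * vol g k ≤
    cnt g k fun w => (∀ i, (w i : ZMod (30 * ∏ q ∈ Q, q)) = w₀ i) ∧
      ∀ p : ℕ, p.Prime → 7 ≤ p → p ∉ Q → (p : ℝ) < M → ¬Nx p (f1 w)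

/-- large common prime factors -/
def GCDStmt : Prop := ∀ g : ℕ, 1 ≤ g → ∃ c : ℝ, 0 < c ∧ ∀ (k : ℕ) (M : ℝ), 1 ≤ k → 2 ≤ M →
  cnt g k (fun w => ∃ p : ℕ, p.Prime ∧ M ≤ p ∧ (p : ℤ) ∣ w (Fin.last _) ∧
    ∀ i : Fin (2 * g + 1), i.1 + 1 = 2 * g → (p : ℤ) ∣ w i) ≤ c * vol g k / M

/-- polynomials over finite fields -/
def IRRStmt : Prop := ∀ g : ℕ, 1 ≤ g →
  (∀ (p : ℕ) [Fact p.Prime] (c : ZMod p), p ≠ 2 → ∃ h : (ZMod p)[X], h.Monic ∧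
    h.natDegree = 2 * g ∧ Irreducible h ∧ ¬IsSquare (h.eval c)) ∧
  ∃ q₀ : ℕ, ∀ (q : ℕ) [Fact q.Prime], q₀ ≤ q → ∃ h : (ZMod q)[X], h.Monic ∧ h.natDegree = 2 * g ∧
    Irreducible h ∧ IsSquare (h.eval 0) ∧ IsSquare (h.eval 1)

def BASEStmt : Prop := ∀ g q₀ N : ℕ, 1 ≤ g → ∃ (Q : Finset ℕ) (w : Vec g), Q.card = N ∧
  Irreducible (zK (f1 w) (ZMod 2)) ∧ Tz 3 1 (f1 w) ∧ Tz 5 0 (f1 w) ∧
  ∀ q ∈ Q, q.Prime ∧ q % 8 = 1 ∧ q₀ ≤ q ∧ Ty q (f1 w) ∧ ¬(q : ℤ) ∣ w (Fin.last _)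

def SIEVEStmt : Prop := ∀ g : ℕ, 1 ≤ g → ∃ (Q : Finset ℕ) (ε : ℝ), 0 < ε ∧
  (∀ q ∈ Q, q.Prime ∧ 7 ≤ q) ∧ ∀ᶠ k : ℕ in atTop,
    ε * vol g k ≤ cnt g k fun w => Fam g Q (f1 w) ∧ Str2 Q (f1 w)

/-- admissible classes exist -/
def CLSStmt : Prop := ∀ (g : ℕ) (Q S : Finset ℕ) (w : Vec g), 1 ≤ g → Fam g Q (f1 w) → S ⊆ Q →
  ∃ a ∈ range ((5 * ∏ q ∈ Q, q) ^ 2), a ≡ 1 [MOD 5] ∧ Ad (5 * ∏ q ∈ Q, q) (∏ q ∈ S, q) w a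

/-- from a good point to rank two -/
def ONEStmt : Prop := ∀ (g : ℕ) (Q : Finset ℕ), 1 ≤ g → ∀ᶠ k : ℕ in atTop, ∀ w ∈ bx g k,
  Fam g Q (f1 w) → Str2 Q (f1 w) → ∃ S ⊆ Q, ∀ a u v Z : ℕ, a ≡ 1 [MOD 5] → k ≤ Z → Z ≤ 4 * k →
    Gp (5 * ∏ q ∈ Q, q) (∏ q ∈ S, q) a k w u v → Best g Z (zK (pc (sv w)) ℚ)

def MainStmt : Prop := ∀ g : ℕ, 1 ≤ g → ∃ ε : ℝ, 0 < ε ∧ ∀ᶠ Z : ℕ in atTop,
  ε * ({w : Vec g | ∀ i, |w i| ≤ (Z : ℤ) ^ xp g i.1}.ncard : ℝ) ≤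
    ({w : Vec g | (∀ i, |w i| ≤ (Z : ℤ) ^ xp g i.1) ∧ Best g Z (zK (pc (sv w)) ℚ)}.ncard : ℝ)

theorem main_of (all : ALLStmt) (geo : GEOStmt) (siz : SIZStmt) (md : MODStmt) (trn : TRNStmt)
    (pos : POSStmt) (iso : ISOStmt) (wsq : WSQStmt) (wt : ISOStmt → WSQStmt → WTStmt)
    (qst : ISOStmt → QSTStmt) (mob : ISOStmt → MOBStmt) (evh : EVHStmt)
    (ev1 : WTStmt → MOBStmt → EVHStmt → EV1Stmt) (ev2 : WTStmt → MOBStmt → EVHStmt → EV2Stmt)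
    (ram2 : WTStmt → QSTStmt → RAM2Stmt) (pt2 : ISOStmt → WSQStmt → PT2Stmt)
    (two : ISOStmt → WSQStmt → PT2Stmt → TWOStmt) (real : WSQStmt → REALStmt)
    (kill : WTStmt → EV1Stmt → EV2Stmt → RAM2Stmt → TWOStmt → REALStmt → KILLStmt) (ns : NSStmt)
    (indp : NSStmt → INDStmt) (sha : SHAStmt) (idx : IDXStmt) (tor : TORStmt)
    (desc : WSQStmt → SHAStmt → IDXStmt → TORStmt → DESCStmt)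
    (four : ISOStmt → WTStmt → DESCStmt → FOURStmt) (lat : LATStmt) (tri : TRIStmt)
    (chg : CHGStmt) (maj : CHGStmt → MAJStmt) (bad : LATStmt → TRIStmt → MAJStmt → BADStmt)
    (red : CHGStmt → REDStmt) (adm : CHGStmt → ADMStmt) (uni : CHGStmt → UNIStmt) (box : BOXStmt)
    (expo : EXPStmt) (sums : SUMStmt) (fc : FCStmt) (den : FCStmt → DENStmt)
    (core : ADMStmt → UNIStmt → BOXStmt → EXPStmt → SUMStmt → COREStmt)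
    (count : CHGStmt → REDStmt → DENStmt → COREStmt → COUNTStmt) (beta : TRNStmt → BETAStmt)
    (low : BETAStmt → LOWStmt) (gcd : GCDStmt) (irr : IRRStmt)
    (base : TRNStmt → IRRStmt → BASEStmt)
    (sieve : TRNStmt → INDStmt → BADStmt → COUNTStmt → LOWStmt → GCDStmt → BASEStmt → SIEVEStmt)
    (cls : TRNStmt → CLSStmt)
    (one : SIZStmt → MODStmt → TRNStmt → POSStmt → ISOStmt → KILLStmt → INDStmt → FOURStmt →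
      ONEStmt)
    (fin : GEOStmt → ALLStmt → SIEVEStmt → CLSStmt → ONEStmt → MainStmt) : MainStmt :=
  have hW := wt iso wsq
  have hM := mob iso
  have hK := kill hW (ev1 hW hM evh) (ev2 hW hM evh) (ram2 hW (qst iso))
    (two iso wsq (pt2 iso wsq)) (real wsq)
  have hI := indp ns
  have hC := count chg (red chg) (den fc) (core (adm chg) (uni chg) box expo sums)
  fin geo all (sieve trn hI (bad lat tri (maj chg)) hC (low (beta trn)) gcd (base trn irr))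
    (cls trn) (one siz md trn pos iso hK hI (four iso hW (desc wsq sha idx tor)))

end Pool.Agent.MP_a43263_nt.K2
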